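import Mathlib
import Pool.Agent.Y863.AU.Arr

/-!
# Iterates of the maps `g ^ j * f`, `j` in an arithmetic progression

`ARF T M` is the coloured Maynard-Tao theorem for linear forms. It is applied to arrays of the maps
`g ^ s * f ^ e`, `f * g = g ^ m * f`, whose cross quotients are iterates of the maps `g ^ j * f`.
-/

set_option autoImplicit false

open Finset Filter

namespace Pool.Agent.H95SD.AP

open Pool.Agent.W25.IT Pool.Agent.Y863.AA Pool.Agent.Y863.AU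

open Classical in
/-- the coloured theorem for linear forms -/
def ARF (T M : ℕ) : Prop := ∃ K D : ℕ, 1 ≤ K ∧ ∀ A : ℕ, ∀ᶠ N : ℕ in atTop,
  ∀ F : Fin T → Fin K → Af, Function.Injective (fun x : Fin T × Fin K => F x.1 x.2) →
  (∀ g i, 1 ≤ (F g i).d ∧ (F g i).d ≤ A) → (∀ g i, 100 * |(F g i).a| ≤ N) →
  (∀ p : ℕ, p.Prime → ∃ r : ℤ, ∀ g i, ¬ (p : ℤ) ∣ (F g i).ev r) →
  ∃ (S : Finset (Fin T)) (σ : Fin T → Fin K), M + 1 ≤ S.card ∧
    (N : ℝ) / Real.log N ^ D ≤ (((Icc 1 N).filter (fun n : ℕ =>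
      ∀ g ∈ S, ((F g (σ g)).ev n).toNat.Prime)).card : ℝ)

/-- the number of the primes `q ≤ X` which are mapped to primes -/
noncomputable def cA (h : Af) (X : ℕ) : ℕ :=
  {q : ℕ | q ≤ X ∧ q.Prime ∧ ∃ p : ℕ, p.Prime ∧ h.a + q * h.d = p}.ncard

theorem sg_add (m i j : ℕ) : Af.sg m (i + j) = Af.sg m i + m ^ i * Af.sg m j := by
  unfold Af.sg
  rw [Finset.sum_range_add, Finset.mul_sum]
  simp only [pow_add]

theorem sg_mono (m : ℕ) {i j : ℕ} (h : i ≤ j) : Af.sg m i ≤ Af.sg m j := by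
  unfold Af.sg
  exact sum_le_sum_of_subset (range_mono h)

theorem sg_dvd (m w : ℕ) {j : ℕ} (h1 : 1 ≤ j) (h2 : j ≤ w) : Af.sg m j ∣ pr m w := by
  unfold pr Af.sg
  obtain ⟨i, rfl⟩ : ∃ i, j = i + 1 := ⟨j - 1, by omega⟩
  exact dvd_prod_of_mem (fun j => ∑ i ∈ range (j + 1), m ^ i) (mem_range.2 (by omega))

theorem sg_pos {m : ℕ} (hm : 1 ≤ m) {j : ℕ} (hj : 1 ≤ j) : 1 ≤ Af.sg m j := by
  unfold Af.sg
  exact Nat.succ_le_of_lt (sum_pos (fun i _ => by positivity) ⟨0, mem_range.2 (by omega)⟩)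

/-- the array of exponents -/
structure Exps {T K : ℕ} (e : Fin T → ℕ) (m q V E : ℕ) (s : Fin T → Fin K → ℕ)
    (τ : Fin K → ℕ) : Prop where
  eq : ∀ γ i, s γ i = V * Af.sg m (e γ) + q * τ i
  inj : ∀ i k, q * τ i = q * τ k → i = k
  le : ∀ γ i, s γ i ≤ E
  cross : ∀ (γ δ : Fin T) (i k : Fin K), γ < δ → ∃ y ≤ 2 * V,
    s δ k = y * Af.sg m (e δ - e γ) + m ^ (e δ - e γ) * s γ i

theorem exps (T K w : ℕ) (hK : 1 ≤ K) (e : Fin T → ℕ) (he : StrictMono e) (hew : ∀ γ, e γ ≤ w)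
    (m : ℕ) (hm : 1 ≤ m) : ∃ q V E : ℕ, 1 ≤ V ∧ m ∣ q ∧ q ∣ V ∧
      (∀ p : ℕ, p.Prime → p ≤ T * K → p ∣ q) ∧ ∃ (s : Fin T → Fin K → ℕ) (τ : Fin K → ℕ),
      Exps e m q V E s τ := by
  obtain ⟨q, hq⟩ : ∃ q, q = m * (T * K).factorial := ⟨_, rfl⟩
  obtain ⟨P, hP⟩ : ∃ P, P = pr m w := ⟨_, rfl⟩
  obtain ⟨V, hV⟩ : ∃ V, V = q * (P * (K * m ^ w)) := ⟨_, rfl⟩
  have hq1 : 1 ≤ q := by
    rw [hq]; exact Nat.mul_pos hm (Nat.factorial_pos _)
  have hP1 : 0 < P := by rw [hP]; exact pr_pos hm w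
  have hmw : 1 ≤ m ^ w := Nat.one_le_pow _ _ hm
  have hV1 : 1 ≤ V := by
    rw [hV]
    exact Nat.mul_pos hq1 (Nat.mul_pos hP1 (Nat.mul_pos hK hmw))
  refine ⟨q, V, V * Af.sg m w + q * (P * K), hV1, by rw [hq]; exact Dvd.intro _ rfl,
    by rw [hV]; exact Dvd.intro _ rfl, ?_, fun γ i => V * Af.sg m (e γ) + q * (P * (i : ℕ)),
    fun i => P * (i : ℕ), ?_, ?_, ?_, ?_⟩
  · intro p hp hpK
    rw [hq]
    exact Dvd.dvd.mul_left (Nat.dvd_factorial hp.pos hpK) _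
  · intro γ i; rfl
  · intro i k h
    have h7 := Nat.eq_of_mul_eq_mul_left hP1 (Nat.eq_of_mul_eq_mul_left (by omega) h)
    exact Fin.ext h7
  · intro γ i
    refine Nat.add_le_add (Nat.mul_le_mul_left _ (sg_mono m (hew γ))) ?_
    exact Nat.mul_le_mul_left _ (Nat.mul_le_mul_left _ i.2.le)
  · intro γ δ i k hγδ
    obtain ⟨j, hj⟩ : ∃ j, j = e δ - e γ := ⟨_, rfl⟩
    have hlt := he hγδ
    have hj1 : 1 ≤ j := by omega
    have hjw : j ≤ w := by have := hew δ; omega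
    have hjδ : e δ = j + e γ := by omega
    obtain ⟨R, hR⟩ : Af.sg m j ∣ P := by rw [hP]; exact sg_dvd m w hj1 hjw
    have hRP : R ≤ P := by
      rw [hR]; exact Nat.le_mul_of_pos_left _ (sg_pos hm hj1)
    have hb1 : q * (R * (m ^ j * (i : ℕ))) ≤ V := by
      rw [hV]
      refine Nat.mul_le_mul_left _ (Nat.mul_le_mul hRP ?_)
      rw [Nat.mul_comm K]
      exact Nat.mul_le_mul (Nat.pow_le_pow_right hm hjw) i.2.le
    have hb2 : q * (R * (k : ℕ)) ≤ V := by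
      rw [hV]
      refine Nat.mul_le_mul_left _ (Nat.mul_le_mul hRP ?_)
      exact k.2.le.trans (Nat.le_mul_of_pos_right _ hmw)
    obtain ⟨y, hy⟩ : ∃ y, y + q * (R * (m ^ j * (i : ℕ))) = V + q * (R * (k : ℕ)) :=
      ⟨V + q * (R * (k : ℕ)) - q * (R * (m ^ j * (i : ℕ))), by omega⟩
    refine ⟨y, by omega, ?_⟩
    show V * Af.sg m (e δ) + q * (P * (k : ℕ)) =
      y * Af.sg m (e δ - e γ) + m ^ (e δ - e γ) * (V * Af.sg m (e γ) + q * (P * (i : ℕ)))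
    rw [← hj, hjδ, sg_add]
    have h1 : y * Af.sg m j + q * (P * (m ^ j * (i : ℕ))) = V * Af.sg m j + q * (P * (k : ℕ)) := by
      rw [hR]
      calc y * Af.sg m j + q * (Af.sg m j * R * (m ^ j * (i : ℕ))) =
          (y + q * (R * (m ^ j * (i : ℕ)))) * Af.sg m j := by ring
        _ = (V + q * (R * (k : ℕ))) * Af.sg m j := by rw [hy]
        _ = _ := by ring
    calc V * (Af.sg m j + m ^ j * Af.sg m (e γ)) + q * (P * (k : ℕ)) =
        (V * Af.sg m j + q * (P * (k : ℕ))) + m ^ j * (V * Af.sg m (e γ)) := by ring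
      _ = (y * Af.sg m j + q * (P * (m ^ j * (i : ℕ)))) + m ^ j * (V * Af.sg m (e γ)) := by rw [h1]
      _ = _ := by ring

/-- the size of the constant terms -/
theorem size {f g : Af} {d d' E w : ℕ} (hfd : f.d = d) (hgd : g.d = d') (hd' : 1 ≤ d')
    {s e : ℕ} (hs : s ≤ E) (he : e ≤ w) :
    |(g ^ s * f ^ e).a| ≤ (|f.a| + |g.a|) *
      (((∑ i ∈ range E, d' ^ i) + d' ^ E * ∑ i ∈ range w, d ^ i : ℕ) : ℤ) := by
  have h2 : (g ^ s * f ^ e).a = itc g.a g.d s + g.d ^ s * itc f.a f.d e := by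
    rw [Af.mul_a, Af.pow_a, Af.pow_a, Af.pow_d]
  rw [h2, itc_eq, itc_eq, hgd, hfd]
  have h3 : |g.a * gs d' s| ≤ |g.a| * gs d' E := by
    rw [abs_mul, abs_of_nonneg (gs_nonneg _ _)]
    exact mul_le_mul_of_nonneg_left (gs_mono hs) (abs_nonneg _)
  have h4 : |(d' : ℤ) ^ s * (f.a * gs d e)| ≤ (d' : ℤ) ^ E * (|f.a| * gs d w) := by
    rw [abs_mul, abs_mul, abs_of_nonneg (gs_nonneg _ _), abs_of_nonneg (by positivity)]
    refine mul_le_mul ?_ (mul_le_mul_of_nonneg_left (gs_mono he) (abs_nonneg _))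
      (mul_nonneg (abs_nonneg _) (gs_nonneg _ _)) (by positivity)
    exact_mod_cast Nat.pow_le_pow_right hd' hs
  have h5 : ((((∑ i ∈ range E, d' ^ i) + d' ^ E * ∑ i ∈ range w, d ^ i : ℕ)) : ℤ) =
      gs d' E + (d' : ℤ) ^ E * gs d w := by
    rw [gs_nat, gs_nat]; push_cast; rfl
  have h6 : (0 : ℤ) ≤ |f.a| * gs d' E := mul_nonneg (abs_nonneg _) (gs_nonneg _ _)
  have h7 : (0 : ℤ) ≤ |g.a| * ((d' : ℤ) ^ E * gs d w) :=
    mul_nonneg (abs_nonneg _) (mul_nonneg (by positivity) (gs_nonneg _ _))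
  rw [h5]
  calc |g.a * gs d' s + (d' : ℤ) ^ s * (f.a * gs d e)| ≤ _ + _ := abs_add_le _ _
    _ ≤ |g.a| * gs d' E + (d' : ℤ) ^ E * (|f.a| * gs d w) := add_le_add h3 h4
    _ ≤ _ := by nlinarith

/-- the scale -/
theorem scaleA (A D : ℕ) (hA : 1 ≤ A) : ∀ᶠ X : ℕ in atTop,
    (X : ℝ) / Real.log X ^ (D + 1) ≤ ((X / (2 * A) : ℕ) : ℝ) /
      Real.log ((X / (2 * A) : ℕ) : ℝ) ^ D := by
  have hlog : ∀ᶠ X : ℕ in atTop, ((4 * A : ℕ) : ℝ) ≤ Real.log X :=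
    (Real.tendsto_log_atTop.comp tendsto_natCast_atTop_atTop).eventually_ge_atTop _
  filter_upwards [hlog, eventually_ge_atTop (8 * A)] with X hX hX8
  obtain ⟨N, hN⟩ : ∃ N, N = X / (2 * A) := ⟨_, rfl⟩
  rw [← hN]
  have hN4 : 4 ≤ N := by
    rw [hN, Nat.le_div_iff_mul_le (by omega)]
    linarith
  have h1 : (X : ℝ) ≤ 4 * A * N := by
    have h2 : X < 2 * A * (N + 1) := by
      rw [hN]; exact Nat.lt_mul_div_succ _ (by omega)
    have h3 : X ≤ 4 * A * N := by nlinarith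
    exact_mod_cast h3
  have h2 : (4 : ℝ) ≤ N := by exact_mod_cast hN4
  have h3 : (N : ℝ) ≤ X := by
    have : N ≤ X := by rw [hN]; exact Nat.div_le_self _ _
    exact_mod_cast this
  have hA' : (1 : ℝ) ≤ A := by exact_mod_cast hA
  have h4 : 0 < Real.log N := Real.log_pos (by linarith)
  have h5 : Real.log N ≤ Real.log X := Real.log_le_log (by linarith) h3
  push_cast at hX
  have h6 : (0 : ℝ) < Real.log X := by linarith
  have h7 : Real.log N ^ D ≤ Real.log X ^ D := pow_le_pow_left₀ h4.le h5 D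
  have h8 : (0 : ℝ) ≤ X := Nat.cast_nonneg _
  have h9 : (X : ℝ) / Real.log X ≤ N := by
    rw [div_le_iff₀ h6]
    have : (4 * A : ℝ) * N ≤ Real.log X * N := mul_le_mul_of_nonneg_right hX (by linarith)
    linarith
  calc (X : ℝ) / Real.log X ^ (D + 1) = (X : ℝ) / Real.log X / Real.log X ^ D := by
        rw [pow_succ', div_div]
    _ ≤ (N : ℝ) / Real.log X ^ D := by gcongr
    _ ≤ _ := by gcongr

open Classical in
/-- **The maps `g ^ j * f`, `j < ℓ`.** -/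
theorem coreP (T : ℕ) (hA : ARF T 1) (w : ℕ) (e : Fin T → ℕ) (he : StrictMono e)
    (hew : ∀ γ, e γ ≤ w) : ∃ B : ℕ, ∀ m : ℕ, 1 ≤ m → ∃ ℓ : ℕ, 2 ≤ ℓ ∧ ∀ d d' : ℕ, 1 ≤ d → 1 ≤ d' →
    ∃ C X₀ : ℕ, ∀ f g : Af, f.d = d → g.d = d' → f.Adm → g.Adm → g ≠ 1 → f * g = g ^ m * f →
    (∀ j < ℓ, g ^ j * f ≠ 1 ∧ AdE e (g ^ j * f).a (g ^ j * f).d) →
    ∀ X : ℕ, X₀ ≤ X → (C : ℤ) * |f.a| ≤ X → (C : ℤ) * |g.a| ≤ X →
    ∃ j < ℓ, ∃ γ δ : Fin T, γ < δ ∧
      (X : ℝ) / Real.log X ^ B ≤ (cA ((g ^ j * f) ^ (e δ - e γ)) X : ℝ) := by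
  obtain ⟨K, D, hK, hA⟩ := hA
  refine ⟨D + 1, fun m hm => ?_⟩
  obtain ⟨q, V, E, hV1, hmq, hqV, hfac, s, τ, hs⟩ := exps T K w hK e he hew m hm
  refine ⟨2 * V + 1, by omega, fun d d' hd hd' => ?_⟩
  obtain ⟨B0, hB0⟩ : ∃ B0 : ℕ, B0 = (∑ i ∈ range E, d' ^ i) + d' ^ E * ∑ i ∈ range w, d ^ i :=
    ⟨_, rfl⟩
  obtain ⟨A0, hA0⟩ : ∃ A0 : ℕ, A0 = d' ^ E * d ^ w := ⟨_, rfl⟩
  have hA01 : 1 ≤ A0 := by
    rw [hA0]; exact Nat.mul_pos (Nat.one_le_pow _ _ hd') (Nat.one_le_pow _ _ hd)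
  have hdiv : Tendsto (fun X : ℕ => X / (2 * A0)) atTop atTop := by
    refine tendsto_atTop.2 fun b => ?_
    filter_upwards [eventually_ge_atTop (b * (2 * A0))] with X hX
    exact (Nat.le_div_iff_mul_le (by omega)).2 hX
  obtain ⟨X₀, hX₀⟩ := eventually_atTop.1 (((hdiv.eventually (hA A0)).and (scaleA A0 D hA01)).and
    (hdiv.eventually (eventually_ge_atTop 4)))
  refine ⟨400 * (B0 + 1) * A0, X₀, ?_⟩
  intro f g hfd hgd hfA hgA hg1 hfg hjj X hX hCf hCg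
  obtain ⟨⟨hN, hsc⟩, hN4⟩ := hX₀ X hX
  obtain ⟨N, hNdef⟩ : ∃ N : ℕ, N = X / (2 * A0) := ⟨_, rfl⟩
  rw [← hNdef] at hN hsc hN4
  have hfd1 : 1 ≤ f.d := by rw [hfd]; exact_mod_cast hd
  have hgd1 : 1 ≤ g.d := by rw [hgd]; exact_mod_cast hd'
  obtain ⟨F, hF⟩ : ∃ F : Fin T → Fin K → Af, F = fun γ i => g ^ s γ i * f ^ e γ := ⟨_, rfl⟩
  have hej : ∀ γ δ : Fin T, γ < δ → 1 ≤ e δ - e γ := by
    intro γ δ hγδ
    have h1 := he hγδ
    omega
  have hcross : ∀ (γ δ : Fin T) (i k : Fin K), γ < δ → ∃ y < 2 * V + 1,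
      F δ k = (g ^ y * f) ^ (e δ - e γ) * F γ i := by
    intro γ δ i k hγδ
    obtain ⟨y, hy, h1⟩ := hs.cross γ δ i k hγδ
    refine ⟨y, by omega, ?_⟩
    have hjδ : e δ = (e δ - e γ) + e γ := by have := he hγδ; omega
    rw [hF]
    simp only
    rw [Af.cross hfg, ← h1, ← hjδ]
  have hFd : ∀ γ i, (F γ i).d = (d' : ℤ) ^ s γ i * (d : ℤ) ^ e γ := by
    intro γ i
    rw [hF]
    show (g ^ s γ i * f ^ e γ).d = _
    rw [Af.mul_d, Af.pow_d, Af.pow_d, hgd, hfd]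
  have hpowle : ∀ γ i, (1 : ℤ) ≤ (F γ i).d ∧ (F γ i).d ≤ A0 := by
    intro γ i
    rw [hFd, hA0]
    constructor
    · exact_mod_cast Nat.mul_pos (Nat.one_le_pow _ _ hd') (Nat.one_le_pow _ _ hd)
    · exact_mod_cast Nat.mul_le_mul (Nat.pow_le_pow_right hd' (hs.le γ i))
        (Nat.pow_le_pow_right hd (hew γ))
  have hbb : ∀ γ i, 100 * |(F γ i).a| ≤ N := by
    intro γ i
    have h1 : |(F γ i).a| ≤ (|f.a| + |g.a|) * B0 := by
      rw [hF, hB0]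
      exact size hfd hgd hd' (hs.le γ i) (hew γ)
    have h2 : (100 * ((|f.a| + |g.a|) * B0)) * ((2 * A0 : ℕ) : ℤ) ≤ X := by
      push_cast at hCf hCg ⊢
      have h3 : (0 : ℤ) ≤ |f.a| * (A0 : ℤ) := by positivity
      have h4 : (0 : ℤ) ≤ |g.a| * (A0 : ℤ) := by positivity
      nlinarith
    have h4 : (100 * ((|f.a| + |g.a|) * B0)) ≤ (N : ℤ) := by
      have h5 : (N : ℤ) = (X : ℤ) / ((2 * A0 : ℕ) : ℤ) := by rw [hNdef]; push_cast; rfl
      rw [h5]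
      exact (Int.le_ediv_iff_mul_le (by exact_mod_cast (by omega : 0 < 2 * A0))).2 h2
    linarith
  have hne : ∀ (γ δ : Fin T) (i k : Fin K), γ < δ → F γ i ≠ F δ k := by
    intro γ δ i k hγδ heq
    obtain ⟨y, hy, h3⟩ := hcross γ δ i k hγδ
    have hj1 := hej γ δ hγδ
    have hy1 := (hjj y hy).1
    have hyd : 1 ≤ (g ^ y * f).d := by
      rw [Af.mul_d, Af.pow_d, hgd, hfd]
      exact_mod_cast Nat.mul_pos (Nat.one_le_pow _ _ hd') hd
    rw [← heq] at h3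
    generalize g ^ y * f = z at h3 hy1 hyd
    obtain ⟨j, hj⟩ : ∃ j, j = e δ - e γ := ⟨_, rfl⟩
    rw [← hj] at hj1 h3
    have hD := congrArg Af.d h3
    have hAa := congrArg Af.a h3
    rw [Af.mul_d, Af.pow_d] at hD
    rw [Af.mul_a, Af.pow_a, Af.pow_d] at hAa
    have hF1 := (hpowle γ i).1
    have h4 : z.d ^ j = 1 := by
      have h5 : (z.d ^ j - 1) * (F γ i).d = 0 := by linear_combination -hD
      rcases mul_eq_zero.1 h5 with h8 | h8
      · linarith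
      · omega
    rw [h4, one_mul] at hAa
    have h9 : itc z.a z.d j = 0 := by linarith
    have h10 : z.d = 1 := by
      have h11 : IsUnit z.d := IsUnit.of_pow_eq_one h4 (by omega)
      rcases Int.isUnit_iff.1 h11 with h12 | h12
      · exact h12
      · omega
    rw [h10, Af.itc_one] at h9
    rcases mul_eq_zero.1 h9 with h11 | h11
    · have : j = 0 := by exact_mod_cast h11
      omega
    · exact hy1 (Af.ext h11 h10)
  obtain ⟨S, σ, hS, hcard⟩ := hN F (by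
      rintro ⟨γ, i⟩ ⟨δ, k⟩ heq
      simp only at heq
      rcases lt_trichotomy γ δ with hγδ | hγδ | hγδ
      · exact absurd heq (hne γ δ i k hγδ)
      · subst hγδ
        have h1 := congrArg Af.d heq
        have h2 := congrArg Af.a heq
        rw [hFd, hFd] at h1
        have h3 : (d' : ℤ) ^ s γ i = (d' : ℤ) ^ s γ k := mul_right_cancel₀ (by positivity) h1
        rw [hF] at h2
        simp only [Af.mul_a, Af.pow_a, Af.pow_d, hgd] at h2
        rw [h3] at h2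
        have h4 : itc g.a d' (s γ i) = itc g.a d' (s γ k) := add_right_cancel h2
        have h5 : s γ i = s γ k := itc_inj (by exact_mod_cast hd') (Af.a_ne hgA hg1 hgd1) h3 h4
        rw [hs.eq, hs.eq] at h5
        rw [hs.inj i k (Nat.add_left_cancel h5)]
      · exact absurd heq.symm (hne δ γ k i hγδ))
    hpowle hbb (by
      intro p hp
      obtain ⟨y, hy⟩ := Af.arr (ι := Fin T × Fin K) hfd1 hgd1 hfA hgA hg1 hfg hmq (by
        intro p hp hpc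
        rw [Fintype.card_prod, Fintype.card_fin, Fintype.card_fin] at hpc
        exact hfac p hp hpc) (fun z => e z.1) V (fun z => τ z.2) (by
        intro p hp
        obtain ⟨y, hy⟩ := (hjj V (by omega)).2 p hp
        refine ⟨y, fun z hz => hy z.1 ?_⟩
        unfold Af.ev at hz
        rw [Af.pow_a, Af.pow_d, add_comm] at hz
        exact hz) hp
      refine ⟨y, fun γ i hi => hy (γ, i) ?_⟩
      rw [hF] at hi
      simp only [hs.eq] at hi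
      exact hi)
  obtain ⟨γ, hγ, δ, hδ, hγδ⟩ : ∃ γ ∈ S, ∃ δ ∈ S, γ < δ := by
    obtain ⟨g, hg, k, hk, hne⟩ := Finset.one_lt_card.1 (by omega : 1 < S.card)
    rcases lt_or_gt_of_ne hne with h1 | h1
    · exact ⟨g, hg, k, hk, h1⟩
    · exact ⟨k, hk, g, hg, h1⟩
  obtain ⟨y, hy, hcr⟩ := hcross γ δ (σ γ) (σ δ) hγδ
  refine ⟨y, hy, γ, δ, hγδ, hsc.trans (hcard.trans ?_)⟩
  rw [Nat.cast_le]
  generalize g ^ y * f = z at hcr
  obtain ⟨j, hj⟩ : ∃ j, j = e δ - e γ := ⟨_, rfl⟩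
  rw [← hj] at hcr ⊢
  obtain ⟨G, hG⟩ : ∃ G, G = F γ (σ γ) := ⟨_, rfl⟩
  have hG1 := hpowle γ (σ γ)
  have hG2 := hbb γ (σ γ)
  rw [← hG] at hG1 hG2 hcr
  have hpos : ∀ x : ℤ, x.toNat.Prime → ((x.toNat : ℕ) : ℤ) = x := by
    intro x hx
    apply Int.toNat_of_nonneg
    by_contra hneg
    push Not at hneg
    rw [Int.toNat_of_nonpos hneg.le] at hx
    exact Nat.not_prime_zero hx
  obtain ⟨R, hR⟩ : ∃ R : Finset ℕ, R = (Icc 1 N).filter (fun n : ℕ =>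
      ∀ g ∈ S, ((F g (σ g)).ev n).toNat.Prime) := ⟨_, rfl⟩
  rw [← hR]
  have hRG : ∀ n ∈ R, (G.ev n).toNat.Prime := by
    intro n hn
    rw [hR] at hn
    rw [hG]
    exact (mem_filter.1 hn).2 γ hγ
  have hc : (R.image (fun n : ℕ => (G.ev n).toNat)).card = R.card := by
    apply Finset.card_image_of_injOn
    intro n hn n' hn' hee
    have h1 : (G.ev n).toNat = (G.ev n').toNat := hee
    have h2 : G.ev n = G.ev n' := by
      rw [← hpos _ (hRG n (mem_coe.1 hn)), ← hpos _ (hRG n' (mem_coe.1 hn')), h1]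
    unfold Af.ev at h2
    have h3 : G.d * (n : ℤ) = G.d * n' := by linarith
    exact_mod_cast mul_left_cancel₀ (by omega : G.d ≠ 0) h3
  rw [← hc, ← Set.ncard_coe_finset]
  unfold cA
  refine Set.ncard_le_ncard ?_ ((Set.finite_le_nat X).subset fun p hp => hp.1)
  intro t ht
  rw [coe_image] at ht
  obtain ⟨n, hn, rfl⟩ := ht
  have hn := mem_coe.1 hn
  have h1 := hRG n hn
  have h2 := hpos _ h1
  have hn' := hn
  rw [hR] at hn'
  obtain ⟨hnI, hnS⟩ := mem_filter.1 hn'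
  have hnI := mem_Icc.1 hnI
  have h3 := hnS δ hδ
  have h4 := hpos _ h3
  refine ⟨?_, h1, ((F δ (σ δ)).ev n).toNat, h3, ?_⟩
  · have h5 : (((G.ev n).toNat : ℕ) : ℤ) ≤ X := by
      rw [h2]
      unfold Af.ev
      have h6 : G.d * (n : ℤ) ≤ A0 * N := by
        refine mul_le_mul hG1.2 (by exact_mod_cast hnI.2) (by positivity) (by positivity)
      have h7 : G.a ≤ |G.a| := le_abs_self _
      have h8 : ((2 * A0 * N : ℕ) : ℤ) ≤ X := by
        have := Nat.mul_div_le X (2 * A0)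
        rw [← hNdef] at this
        exact_mod_cast this
      push_cast at h8
      have h9 : (N : ℤ) ≤ A0 * N := by
        have : (1 : ℤ) ≤ A0 := by exact_mod_cast hA01
        nlinarith [(Nat.cast_nonneg N : (0 : ℤ) ≤ N)]
      have h10 : (0 : ℤ) ≤ |G.a| := abs_nonneg _
      linarith
    show (G.ev n).toNat ≤ X
    exact_mod_cast h5
  · rw [h4, h2, hcr, Af.ev_mul]
    unfold Af.ev
    ring

end Pool.Agent.H95SD.AP
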