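import Mathlib
import Pool.Agent.H95SD.AffP

/-!
# One of the first three iterates of one of the maps `g ^ j * f`, `j < ℓ`
-/

set_option autoImplicit false

open Finset Filter

namespace Pool.Agent.H95SD.AP

open Pool.Agent.W25.IT Pool.Agent.Y863.AA Pool.Agent.Y863.AU

theorem freq_pick' {ι : Type} [Finite ι] (P : ι → ℕ → Prop) (h : ∀ᶠ X in atTop, ∃ i, P i X) :
    ∃ i, ∃ᶠ X in atTop, P i X := by
  by_contra hcon
  push Not at hcon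
  have h1 : ∀ᶠ X : ℕ in atTop, ∀ i, ¬ P i X := by
    rw [eventually_all]
    intro i
    exact hcon i
  obtain ⟨X, ⟨i, hi⟩, hX⟩ := (h.and h1).exists
  exact hX i hi

/-- the exponents `0, 1, 2, 3` -/
def E0 : Fin 4 → ℕ := fun g => g

/-- the exponents `0, 1, 3, 4` -/
def E1 : Fin 4 → ℕ := ![0, 1, 3, 4]

theorem E0_mono : StrictMono E0 := fun _ _ h => h

theorem E1_mono : StrictMono E1 := by decide

theorem E0_le : ∀ g, E0 g ≤ 4 := by decide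

theorem E1_le : ∀ g, E1 g ≤ 4 := by decide

theorem E0_diff : ∀ g h : Fin 4, g < h → 1 ≤ E0 h - E0 g ∧ E0 h - E0 g ≤ 3 := by decide

theorem E1_diff : ∀ g h : Fin 4, g < h → 1 ≤ E1 h - E1 g ∧ E1 h - E1 g ≤ 4 := by decide

/-- the exceptional maps -/
def Exc (h : Af) : Prop := (3 : ℤ) ∣ h.d - 1 ∧ ¬ (3 : ℤ) ∣ h.a

theorem adE0 {h : Af} (hA : h.Adm) (h3 : ¬ Exc h) : AdE E0 h.a h.d := by
  intro p hp
  refine iter_admissible hA.1 hA.2 _ hp fun hp3 hpd hpa => ?_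
  refine iter_miss _ hp hpd hpa 4 fun g hg => ?_
  have h0 : E0 g ≤ 3 := (by decide : ∀ g, E0 g ≤ 3) g
  have h1 : p ∣ 4 - E0 g := (Nat.modEq_iff_dvd' (by omega)).1 hg
  have h2 := Nat.le_of_dvd (by omega) h1
  have h4 : p = 3 ∨ p = 4 := by omega
  rcases h4 with rfl | rfl
  · exact h3 ⟨by exact_mod_cast hpd, fun h5 => hpa (by exact_mod_cast h5)⟩
  · exact absurd hp (by norm_num)

theorem adE1 {h : Af} (hA : h.Adm) : AdE E1 h.a h.d := by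
  intro p hp
  refine iter_admissible hA.1 hA.2 _ hp fun hp3 hpd hpa => ?_
  refine iter_miss _ hp hpd hpa 2 fun g hg => ?_
  have h4 : E1 g = 0 ∨ E1 g = 1 ∨ E1 g = 3 ∨ E1 g = 4 :=
    (by decide : ∀ g, E1 g = 0 ∨ E1 g = 1 ∨ E1 g = 3 ∨ E1 g = 4) g
  rcases h4 with h4 | h4 | h4 | h4
  · rw [h4] at hg
    have h1 : p ∣ 2 - 0 := (Nat.modEq_iff_dvd' (by omega)).1 hg
    have h2 := Nat.le_of_dvd (by omega) h1
    omega
  · rw [h4] at hg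
    have h1 : p ∣ 2 - 1 := (Nat.modEq_iff_dvd' (by omega)).1 hg
    have h2 := Nat.le_of_dvd (by omega) h1
    omega
  · rw [h4] at hg
    have h1 : p ∣ 3 - 2 := (Nat.modEq_iff_dvd' (by omega)).1 hg.symm
    have h2 := Nat.le_of_dvd (by omega) h1
    omega
  · rw [h4] at hg
    have h1 : p ∣ 4 - 2 := (Nat.modEq_iff_dvd' (by omega)).1 hg.symm
    have h2 := Nat.le_of_dvd (by omega) h1
    omega

theorem sum_six (d : ℤ) : ∑ i ∈ range 6, d ^ i = (1 + d + d ^ 2) * (1 + d ^ 3) := by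
  simp only [Finset.sum_range_succ, Finset.sum_range_zero]
  ring

theorem three_sum {d : ℤ} (h : ¬ (3 : ℤ) ∣ d) : (3 : ℤ) ∣ ∑ i ∈ range 6, d ^ i := by
  rw [sum_six]
  obtain ⟨k, hk⟩ : ∃ k, d = 3 * k + 1 ∨ d = 3 * k + 2 := ⟨d / 3, by omega⟩
  rcases hk with rfl | rfl
  · exact ⟨(3 * k ^ 2 + 3 * k + 1) * (1 + (3 * k + 1) ^ 3), by ring⟩
  · exact ⟨(k + 1) * (1 + (3 * k + 2) ^ 2 + (3 * k + 2) ^ 4), by ring⟩

theorem exc_six {g h : Af} (hg : ¬ (3 : ℤ) ∣ g.d) : Exc (g ^ 6 * h) ↔ Exc h := by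
  obtain ⟨t, ht⟩ := three_sum hg
  have h1 : g.d ^ 6 - 1 = 3 * ((g.d - 1) * t) := by
    have h2 : g.d ^ 6 - 1 = (g.d - 1) * ∑ i ∈ range 6, g.d ^ i := by
      rw [sum_six]; ring
    rw [h2, ht]; ring
  have hd : (g ^ 6 * h).d - 1 = (h.d - 1) + 3 * ((g.d - 1) * t * h.d) := by
    rw [Af.mul_d, Af.pow_d]
    linear_combination h.d * h1
  have ha : (g ^ 6 * h).a = h.a + 3 * (g.a * t + (g.d - 1) * t * h.a) := by
    rw [Af.mul_a, Af.pow_a, Af.pow_d]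
    have h3 : itc g.a g.d 6 = g.a * (3 * t) := by
      rw [← ht]; rfl
    rw [h3]
    linear_combination h.a * h1
  unfold Exc
  rw [hd, ha, dvd_add_left (Dvd.intro _ rfl), dvd_add_left (Dvd.intro _ rfl)]

/-- the exceptional maps of the sequence `g ^ (6 (j + 1)) * f` -/
theorem exc_const (f g : Af) (j : ℕ) : Exc (g ^ (6 * (j + 1)) * f) ↔ Exc (g ^ 6 * f) := by
  by_cases h3 : (3 : ℤ) ∣ g.d
  · have key : ∀ n : ℕ, 1 ≤ n → ¬ Exc (g ^ n * f) := by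
      rintro n hn ⟨h1, -⟩
      have h2 : (3 : ℤ) ∣ (g ^ n * f).d := by
        rw [Af.mul_d, Af.pow_d]
        exact Dvd.dvd.mul_right (dvd_pow h3 (by omega)) _
      omega
    exact ⟨fun h => absurd h (key _ (by omega)), fun h => absurd h (key _ (by omega))⟩
  · induction j with
    | zero => rfl
    | succ j ih =>
      rw [← ih]
      have e1 : g ^ (6 * (j + 1 + 1)) * f = g ^ 6 * (g ^ (6 * (j + 1)) * f) := by
        rw [← mul_assoc, ← pow_add]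
        congr 2
        ring
      rw [e1]
      exact exc_six h3

theorem pow_ne {g : Af} (hg : g.Adm) (hg1 : g ≠ 1) (hd : 1 ≤ g.d) {n : ℕ} (hn : 1 ≤ n) :
    g ^ n ≠ 1 := by
  intro h
  have h1 := congrArg Af.d h
  have h2 := congrArg Af.a h
  rw [Af.pow_d, Af.one_d] at h1
  rw [Af.pow_a, Af.one_a] at h2
  have h3 : g.d = 1 := by
    have h11 : IsUnit g.d := IsUnit.of_pow_eq_one h1 (by omega)
    rcases Int.isUnit_iff.1 h11 with h12 | h12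
    · exact h12
    · omega
  rw [h3, Af.itc_one] at h2
  rcases mul_eq_zero.1 h2 with h4 | h4
  · have : n = 0 := by exact_mod_cast h4
    omega
  · exact Af.a_ne hg hg1 hd h4

theorem adm_pow {g : Af} (hg : g.Adm) (n : ℕ) : (g ^ n).Adm := by
  have h := Af.adm_pow_mul Af.Adm_one hg (by rw [one_mul, mul_one]) n
  rwa [mul_one] at h

/-- the relation for `g ^ a * f` and `g ^ b` -/
theorem rel_pow {f g : Af} {m : ℕ} (h : f * g = g ^ m * f) (a b : ℕ) :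
    (g ^ a * f) * g ^ b = (g ^ b) ^ m * (g ^ a * f) := by
  calc (g ^ a * f) * g ^ b = g ^ a * (f * g ^ b) := mul_assoc _ _ _
    _ = g ^ a * (g ^ (m * b) * f) := by rw [Af.sc h]
    _ = (g ^ a * g ^ (m * b)) * f := (mul_assoc _ _ _).symm
    _ = (g ^ (m * b) * g ^ a) * f := by rw [← pow_add, ← pow_add, Nat.add_comm]
    _ = (g ^ b) ^ m * (g ^ a * f) := by rw [mul_assoc, ← pow_mul, Nat.mul_comm b m]

theorem pow_step (f g : Af) (a b j : ℕ) : (g ^ b) ^ j * (g ^ a * f) = g ^ (a + b * j) * f := by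
  rw [← pow_mul, ← mul_assoc, ← pow_add, Nat.add_comm]

open Classical in
/-- the number of the iterates -/
noncomputable def Rn (h : Af) : ℕ := if Exc h then 4 else 3

/-- one of the first iterates takes many primes to primes -/
def GdAt (B X : ℕ) (h : Af) : Prop :=
  ∃ i, 1 ≤ i ∧ i ≤ Rn h ∧ (X : ℝ) / Real.log X ^ B ≤ (cA (h ^ i) X : ℝ)

/-- one of the first iterates takes many primes to primes, for arbitrarily large `X` -/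
def Gd (B : ℕ) (h : Af) : Prop :=
  ∃ i, 1 ≤ i ∧ i ≤ Rn h ∧ ∃ᶠ X : ℕ in atTop, (X : ℝ) / Real.log X ^ B ≤ (cA (h ^ i) X : ℝ)

theorem log_mono {X B B' : ℕ} (hX : 3 ≤ X) (h : B ≤ B') :
    (X : ℝ) / Real.log X ^ B' ≤ (X : ℝ) / Real.log X ^ B := by
  have h1 : (3 : ℝ) ≤ X := by exact_mod_cast hX
  have h2 : 1 ≤ Real.log X := by
    rw [← Real.log_exp 1]
    exact Real.log_le_log (Real.exp_pos 1) (Real.exp_one_lt_d9.le.trans (by linarith))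
  exact div_le_div_of_nonneg_left (by linarith) (by positivity) (pow_le_pow_right₀ h2 h)

theorem progr (hA : ARF 4 1) : ∃ B : ℕ, ∀ m : ℕ, 1 ≤ m → ∃ ℓ : ℕ, 2 ≤ ℓ ∧ ∀ d d' : ℕ, 1 ≤ d →
    1 ≤ d' → ∃ C X₀ : ℕ, ∀ f g : Af, f.d = d → g.d = d' → f.Adm → g.Adm → g ≠ 1 →
    f * g = g ^ m * f → (∀ j < ℓ, (g ^ j * f).Adm ∧ g ^ j * f ≠ 1) →
    ∀ X : ℕ, X₀ ≤ X → (C : ℤ) * |f.a| ≤ X → (C : ℤ) * |g.a| ≤ X →
    ∃ j < ℓ, GdAt B X (g ^ j * f) := by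
  obtain ⟨B0, h0⟩ := coreP 4 hA 4 E0 E0_mono E0_le
  obtain ⟨B1, h1⟩ := coreP 4 hA 4 E1 E1_mono E1_le
  refine ⟨B0 + B1, fun m hm => ?_⟩
  obtain ⟨l0, hl0, h0⟩ := h0 m hm
  obtain ⟨l1, hl1, h1⟩ := h1 m hm
  refine ⟨6 * (l0 + l1 + 1) + 1, by omega, fun d d' hd hd' => ?_⟩
  have hp1 : 1 ≤ d' ^ 6 := Nat.one_le_pow _ _ hd'
  have hp2 : 1 ≤ d' ^ 6 * d := Nat.mul_pos hp1 hd
  obtain ⟨C0, X0, h0⟩ := h0 (d' ^ 6 * d) (d' ^ 6) hp2 hp1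
  obtain ⟨C1, X1, h1⟩ := h1 (d' ^ 6 * d) (d' ^ 6) hp2 hp1
  obtain ⟨B', hB'⟩ : ∃ B' : ℕ, B' = (∑ i ∈ range 6, d' ^ i) + d' ^ 6 * ∑ i ∈ range 1, d ^ i :=
    ⟨_, rfl⟩
  refine ⟨2 * (C0 + C1) * (B' + 1), X0 + X1 + 3, ?_⟩
  intro f g hfd hgd hfA hgA hg1 hfg hjj X hX hCf hCg
  have hgd1 : 1 ≤ g.d := by rw [hgd]; exact_mod_cast hd'
  have hs1 : |(g ^ 6 * f).a| ≤ (|f.a| + |g.a|) * (B' : ℤ) := by
    have := size hfd hgd hd' (s := 6) (E := 6) (e := 1) (w := 1) le_rfl le_rfl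
    rwa [pow_one, ← hB'] at this
  have hs2 : |(g ^ 6).a| ≤ (|f.a| + |g.a|) * (B' : ℤ) := by
    have := size hfd hgd hd' (s := 6) (E := 6) (e := 0) (w := 1) le_rfl (by norm_num)
    rwa [pow_zero, mul_one, ← hB'] at this
  have hsz : ∀ C' : ℕ, C' ≤ C0 + C1 → ∀ z : ℤ, z ≤ (|f.a| + |g.a|) * (B' : ℤ) → (C' : ℤ) * z ≤ X := by
    intro C' hC' z hz
    have k1 : (C' : ℤ) ≤ (C0 + C1 : ℕ) := by exact_mod_cast hC'
    have k2 : (0 : ℤ) ≤ (|f.a| + |g.a|) * (B' : ℤ) := by positivity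
    have k3 : (0 : ℤ) ≤ |f.a| + |g.a| := by positivity
    have k4 : (0 : ℤ) ≤ ((C0 + C1 : ℕ) : ℤ) := Nat.cast_nonneg _
    have k5 : (C' : ℤ) * z ≤ ((C0 + C1 : ℕ) : ℤ) * ((|f.a| + |g.a|) * (B' : ℤ)) := by
      calc (C' : ℤ) * z ≤ (C' : ℤ) * ((|f.a| + |g.a|) * (B' : ℤ)) :=
            mul_le_mul_of_nonneg_left hz (Nat.cast_nonneg _)
        _ ≤ _ := mul_le_mul_of_nonneg_right k1 k2
    have k6 : ((C0 + C1 : ℕ) : ℤ) * ((|f.a| + |g.a|) * (B' : ℤ)) * 2 ≤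
        ((2 * (C0 + C1) * (B' + 1) : ℕ) : ℤ) * |f.a| +
          ((2 * (C0 + C1) * (B' + 1) : ℕ) : ℤ) * |g.a| := by
      push_cast at k4 ⊢
      nlinarith [mul_nonneg k4 k3]
    linarith
  have hrel := rel_pow hfg 6 6
  have hd1 : (g ^ 6 * f).d = ((d' ^ 6 * d : ℕ) : ℤ) := by
    rw [Af.mul_d, Af.pow_d, hgd, hfd]; push_cast; rfl
  have hd2 : (g ^ 6).d = ((d' ^ 6 : ℕ) : ℤ) := by
    rw [Af.pow_d, hgd]; push_cast; rfl
  have hstep : ∀ j : ℕ, (g ^ 6) ^ j * (g ^ 6 * f) = g ^ (6 * (j + 1)) * f := by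
    intro j
    rw [pow_step]
    congr 2
    ring
  have hX3 : 3 ≤ X := by omega
  by_cases hE : Exc (g ^ 6 * f)
  · obtain ⟨j, hj, γ, δ, hγδ, hc⟩ := h1 (g ^ 6 * f) (g ^ 6) hd1 hd2 (hjj 6 (by omega)).1
      (adm_pow hgA 6) (pow_ne hgA hg1 hgd1 (by norm_num)) hrel (fun j hj => by
        rw [hstep]
        obtain ⟨k1, k2⟩ := hjj (6 * (j + 1)) (by omega)
        exact ⟨k2, adE1 k1⟩) X (by omega) (hsz _ (by omega) _ hs1) (hsz _ (by omega) _ hs2)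
    obtain ⟨k1, k2⟩ := E1_diff γ δ hγδ
    rw [hstep] at hc
    refine ⟨6 * (j + 1), by omega, E1 δ - E1 γ, k1, ?_, (log_mono hX3 (by omega)).trans hc⟩
    unfold Rn
    rw [if_pos ((exc_const f g j).2 hE)]
    exact k2
  · obtain ⟨j, hj, γ, δ, hγδ, hc⟩ := h0 (g ^ 6 * f) (g ^ 6) hd1 hd2 (hjj 6 (by omega)).1
      (adm_pow hgA 6) (pow_ne hgA hg1 hgd1 (by norm_num)) hrel (fun j hj => by
        rw [hstep]
        obtain ⟨k1, k2⟩ := hjj (6 * (j + 1)) (by omega)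
        exact ⟨k2, adE0 k1 (fun h => hE ((exc_const f g j).1 h))⟩) X (by omega)
        (hsz _ (by omega) _ hs1) (hsz _ (by omega) _ hs2)
    obtain ⟨k1, k2⟩ := E0_diff γ δ hγδ
    rw [hstep] at hc
    refine ⟨6 * (j + 1), by omega, E0 δ - E0 γ, k1, ?_, (log_mono hX3 (by omega)).trans hc⟩
    unfold Rn
    rw [if_neg (fun h => hE ((exc_const f g j).1 h))]
    exact k2

/-- the infinite version -/
theorem progr_inf (hA : ARF 4 1) : ∃ B : ℕ, ∀ m : ℕ, 1 ≤ m → ∃ ℓ : ℕ, 2 ≤ ℓ ∧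
    (∀ f g : Af, 1 ≤ f.d → 1 ≤ g.d → f.Adm → g.Adm → g ≠ 1 →
      f * g = g ^ m * f → (∀ j < ℓ, (g ^ j * f).Adm ∧ g ^ j * f ≠ 1) → ∃ j < ℓ, Gd B (g ^ j * f)) ∧
    ∀ d d' : ℕ, 1 ≤ d → 1 ≤ d' → ∃ C X₀ : ℕ, ∀ f g : Af, f.d = d → g.d = d' → f.Adm → g.Adm →
      g ≠ 1 → f * g = g ^ m * f → (∀ j < ℓ, (g ^ j * f).Adm ∧ g ^ j * f ≠ 1) →
      ∀ X : ℕ, X₀ ≤ X → (C : ℤ) * |f.a| ≤ X → (C : ℤ) * |g.a| ≤ X →
      ∃ j < ℓ, GdAt B X (g ^ j * f) := by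
  obtain ⟨B, h⟩ := progr hA
  refine ⟨B, fun m hm => ?_⟩
  obtain ⟨l, hl, h⟩ := h m hm
  refine ⟨l, hl, ?_, h⟩
  intro f g hf hg hfA hgA hg1 hfg hjj
  obtain ⟨d, hd⟩ : ∃ d : ℕ, f.d = d := ⟨f.d.toNat, by rw [Int.toNat_of_nonneg (by omega)]⟩
  obtain ⟨d', hd'⟩ : ∃ d : ℕ, g.d = d := ⟨g.d.toNat, by rw [Int.toNat_of_nonneg (by omega)]⟩
  obtain ⟨C, X₀, h⟩ := h d d' (by omega) (by omega)
  have hev : ∀ᶠ X : ℕ in atTop, ∃ i : Fin l × Fin 5, 1 ≤ (i.2 : ℕ) ∧ (i.2 : ℕ) ≤ Rn (g ^ (i.1 : ℕ) * f) ∧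
      (X : ℝ) / Real.log X ^ B ≤ (cA ((g ^ (i.1 : ℕ) * f) ^ (i.2 : ℕ)) X : ℝ) := by
    filter_upwards [eventually_ge_atTop X₀, eventually_ge_atTop ((C : ℤ) * |f.a|).toNat,
      eventually_ge_atTop ((C : ℤ) * |g.a|).toNat] with X hX1 hX2 hX3
    obtain ⟨j, hj, i, hi1, hi2, hi3⟩ := h f g hd hd' hfA hgA hg1 hfg hjj X hX1 (by omega) (by omega)
    have h5 : Rn (g ^ j * f) ≤ 4 := by unfold Rn; split_ifs <;> omega
    exact ⟨(⟨j, hj⟩, ⟨i, by omega⟩), hi1, hi2, hi3⟩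
  obtain ⟨⟨j, i⟩, hji⟩ := freq_pick' _ hev
  obtain ⟨X, h1, h2, -⟩ := hji.exists
  exact ⟨j, j.2, i, h1, h2, hji.mono fun X hX => hX.2.2⟩

end Pool.Agent.H95SD.AP
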