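import Mathlib

/-!
# Arrays of shifts along an arithmetic progression

`ARR T M` is the coloured Maynard-Tao theorem for shifts (`T` classes of `K` shifts, `M + 1` classes with
primes at the same time). It is applied to arrays whose cross differences are multiples of the elements of
an arithmetic progression.
-/

set_option autoImplicit false

open Finset Filter

namespace Pool.Agent.H95SD

/-- the coloured theorem for linear forms with the same slope `W` -/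
def ARR (T M : ℕ) : Prop := ∃ K D : ℕ, 1 ≤ K ∧ ∀ W : ℕ, 1 ≤ W → ∀ᶠ N : ℕ in atTop,
  ∀ b : Fin T → Fin K → ℕ, Function.Injective (fun x : Fin T × Fin K => b x.1 x.2) →
  (∀ g i, b g i ≤ N) → (∀ g i, Nat.Coprime W (b g i)) →
  (∀ p : ℕ, p.Prime → p ≤ T * K → ∃ r : ℤ, ∀ g i, ¬ (p : ℤ) ∣ W * r + b g i) →
  ∃ (S : Finset (Fin T)) (σ : Fin T → Fin K), M + 1 ≤ S.card ∧
    (N : ℝ) / Real.log N ^ D ≤ (((Icc 1 N).filter (fun n : ℕ => N ≤ 16 * n ∧
      ∀ g ∈ S, (W * n + b g (σ g)).Prime)).card : ℝ)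

/-- a prime larger than the number of the shifts -/
theorem avoid {ι : Type} (S : Finset ι) (c : ι → ℕ) {p : ℕ} (hc : S.card < p) :
    ∃ r : ℤ, ∀ g ∈ S, ¬ (p : ℤ) ∣ r + c g := by
  classical
  by_contra hcon
  push Not at hcon
  choose f hf1 hf2 using fun n : ℕ => hcon n
  have h1 : Set.InjOn f (range p : Finset ℕ) := by
    intro x hx y hy hxy
    have hx := mem_range.1 (mem_coe.1 hx)
    have hy := mem_range.1 (mem_coe.1 hy)
    have h2 := hf2 x
    have h3 := hf2 y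
    rw [← hxy] at h3
    have h4 : (p : ℤ) ∣ (x : ℤ) - y := by
      have := dvd_sub h2 h3
      have e : (x : ℤ) + c (f x) - (y + c (f x)) = (x : ℤ) - y := by ring
      rwa [e] at this
    by_contra hne
    have h6 : ((x : ℤ) - y) ≠ 0 := by
      intro h
      apply hne
      have : (x : ℤ) = y := by linarith
      exact_mod_cast this
    have h7 := Int.le_of_dvd (abs_pos.2 h6) ((dvd_abs _ _).2 h4)
    have h8 : |(x : ℤ) - y| < p := by
      rw [abs_lt]
      constructor <;> omega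
    omega
  have h2 := Finset.card_le_card_of_injOn f (t := S) (fun x _ => hf1 x) h1
  rw [card_range] at h2
  omega

/-- the scale -/
theorem scale (D : ℕ) : ∀ᶠ X : ℕ in atTop,
    (X : ℝ) / Real.log X ^ (D + 1) ≤ ((X / 2 : ℕ) : ℝ) / Real.log ((X / 2 : ℕ) : ℝ) ^ D := by
  have hlog : ∀ᶠ X : ℕ in atTop, (3 : ℝ) ≤ Real.log X :=
    (Real.tendsto_log_atTop.comp tendsto_natCast_atTop_atTop).eventually_ge_atTop _
  filter_upwards [hlog, eventually_ge_atTop 8] with X hX hX8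
  have h1 : (X : ℝ) / 3 ≤ ((X / 2 : ℕ) : ℝ) := by
    have h2 : X ≤ 3 * (X / 2) := by omega
    have h3 : (X : ℝ) ≤ 3 * ((X / 2 : ℕ) : ℝ) := by exact_mod_cast h2
    linarith
  have h2 : (4 : ℝ) ≤ ((X / 2 : ℕ) : ℝ) := by
    have : 4 ≤ X / 2 := by omega
    exact_mod_cast this
  have h3 : ((X / 2 : ℕ) : ℝ) ≤ X := by
    have : X / 2 ≤ X := Nat.div_le_self _ _
    exact_mod_cast this
  have h4 : 0 < Real.log ((X / 2 : ℕ) : ℝ) := Real.log_pos (by linarith)
  have h5 : Real.log ((X / 2 : ℕ) : ℝ) ≤ Real.log X := Real.log_le_log (by linarith) h3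
  have h6 : (0 : ℝ) < Real.log X := by linarith
  have h7 : Real.log ((X / 2 : ℕ) : ℝ) ^ D ≤ Real.log X ^ D := pow_le_pow_left₀ h4.le h5 D
  have h8 : (0 : ℝ) ≤ X := Nat.cast_nonneg _
  calc (X : ℝ) / Real.log X ^ (D + 1) = (X : ℝ) / Real.log X / Real.log X ^ D := by
        rw [pow_succ', div_div]
    _ ≤ (X : ℝ) / 3 / Real.log X ^ D := by gcongr
    _ ≤ ((X / 2 : ℕ) : ℝ) / Real.log X ^ D := by gcongr
    _ ≤ _ := by gcongr

/-- the conclusion: a constellation with the shifts `c`, all of whose differences are multiples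
`(e h - e g) (a + j d)` -/
structure Cons {T : ℕ} (M : ℕ) (e : Fin T → ℕ) (k a d W : ℕ) (S : Finset (Fin T)) (c : Fin T → ℕ) :
    Prop where
  card : M + 1 ≤ S.card
  diff : ∀ g ∈ S, ∀ h ∈ S, g < h → ∃ j < k, c h = c g + (e h - e g) * (a + j * d)
  zero : ∀ g ∈ S, (∀ h ∈ S, g ≤ h) → c g = 0
  adm : ∀ p : ℕ, p.Prime → ∃ r : ℤ, ∀ g ∈ S, ¬ (p : ℤ) ∣ r + c g
  bd : ∀ g, c g ≤ W

open Classical in
/-- the number of the primes `p ≤ X` for which all `p + c g`, `g ∈ S`, are prime -/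
noncomputable def cn {T : ℕ} (S : Finset (Fin T)) (c : Fin T → ℕ) (X : ℕ) : ℕ :=
  ((Icc 1 X).filter (fun p : ℕ => p.Prime ∧ ∀ g ∈ S, (p + c g).Prime)).card

/-- the array -/
structure Arr {T K : ℕ} (e : Fin T → ℕ) (k a d w : ℕ) (b : Fin T → Fin K → ℕ) : Prop where
  cross : ∀ (g h : Fin T) (i l : Fin K), g < h → ∃ j < k, b h l = b g i + (e h - e g) * (a + j * d)
  lt : ∀ (g h : Fin T) (i l : Fin K), g < h → b g i < b h l
  inj : Function.Injective (fun x : Fin T × Fin K => b x.1 x.2)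
  le : ∀ g i, b g i ≤ (w + 1) * (a + k * d)
  loc : ∀ p : ℕ, p.Prime → p ≤ T * K → ∃ r : ℤ, ∀ g i, ¬ (p : ℤ) ∣ r + b g i

theorem array (T K w : ℕ) (hK : 1 ≤ K) (e : Fin T → ℕ) (he : StrictMono e)
    (hew : ∀ g, e g ≤ w) (hadm : ∀ p : ℕ, p.Prime → ∃ n : ℤ, ∀ g, ¬ (p : ℤ) ∣ n + e g) :
    ∃ k : ℕ, 2 ≤ k ∧ ∀ a d : ℕ, 1 ≤ a → 1 ≤ d → ∃ b : Fin T → Fin K → ℕ, Arr e k a d w b := by
  obtain ⟨P, hP⟩ : ∃ P, P = w.factorial := ⟨_, rfl⟩
  obtain ⟨V, hV⟩ : ∃ V, V = P * K := ⟨_, rfl⟩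
  obtain ⟨q, hq⟩ : ∃ q, q = (T * K).factorial := ⟨_, rfl⟩
  have hP0 : 0 < P := hP ▸ Nat.factorial_pos _
  have hq0 : 0 < q := hq ▸ Nat.factorial_pos _
  refine ⟨2 * (V * q) + 1, by
    have : 0 < V * q := Nat.mul_pos (by rw [hV]; exact Nat.mul_pos hP0 (by omega)) hq0
    omega, ?_⟩
  intro a d ha hd
  obtain ⟨k, hk⟩ : ∃ k, k = 2 * (V * q) + 1 := ⟨_, rfl⟩
  rw [← hk]
  obtain ⟨x, hx⟩ : ∃ x, x = a + V * q * d := ⟨_, rfl⟩
  obtain ⟨b, hb⟩ : ∃ b : Fin T → Fin K → ℕ, b = fun (g : Fin T) (i : Fin K) => x * e g + q * d * (P * (i : ℕ)) :=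
    ⟨_, rfl⟩
  -- the cross differences
  have hcross : ∀ (g h : Fin T) (i l : Fin K), g < h → ∃ j < k,
      b h l = b g i + (e h - e g) * (a + j * d) := by
    intro g h i l hgh
    obtain ⟨δ, hδ⟩ : ∃ δ, δ = e h - e g := ⟨_, rfl⟩
    have hlt := he hgh
    have hδ1 : 1 ≤ δ := by omega
    have hδw : δ ≤ w := by have := hew h; omega
    have heh : e h = e g + δ := by omega
    obtain ⟨R, hR⟩ : δ ∣ P := hP ▸ Nat.dvd_factorial hδ1 hδw
    have hRV : ∀ i : Fin K, q * (R * (i : ℕ)) ≤ V * q := by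
      intro i
      have h1 : R * (i : ℕ) ≤ V := by
        rw [hV]
        refine Nat.mul_le_mul ?_ i.2.le
        rw [hR]; exact Nat.le_mul_of_pos_left _ hδ1
      calc q * (R * (i : ℕ)) ≤ q * V := Nat.mul_le_mul_left _ h1
        _ = V * q := Nat.mul_comm _ _
    obtain ⟨j, hj⟩ : ∃ j, j + q * (R * (i : ℕ)) = V * q + q * (R * (l : ℕ)) :=
      ⟨V * q + q * (R * (l : ℕ)) - q * (R * (i : ℕ)), by have := hRV i; omega⟩
    refine ⟨j, by have := hRV l; omega, ?_⟩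
    rw [← hδ, hb]
    simp only
    have h2 : δ * (j * d) + q * d * (P * (i : ℕ)) = δ * (V * q * d) + q * d * (P * (l : ℕ)) := by
      rw [hR]
      calc δ * (j * d) + q * d * (δ * R * (i : ℕ)) = δ * d * (j + q * (R * (i : ℕ))) := by ring
        _ = δ * d * (V * q + q * (R * (l : ℕ))) := by rw [hj]
        _ = _ := by ring
    have h3 : δ * x = δ * a + δ * (V * q * d) := by rw [hx]; ring
    calc x * e h + q * d * (P * (l : ℕ)) = x * e g + (δ * x + q * d * (P * (l : ℕ))) := by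
          rw [heh]; ring
      _ = x * e g + (δ * a + (δ * (V * q * d) + q * d * (P * (l : ℕ)))) := by rw [h3]; ring
      _ = x * e g + (δ * a + (δ * (j * d) + q * d * (P * (i : ℕ)))) := by rw [h2]
      _ = _ := by ring
  have hlt : ∀ (g h : Fin T) (i l : Fin K), g < h → b g i < b h l := by
    intro g h i l hgh
    obtain ⟨j, -, hj⟩ := hcross g h i l hgh
    have h1 := he hgh
    rw [hj]
    have : 0 < (e h - e g) * (a + j * d) := Nat.mul_pos (by omega) (by omega)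
    omega
  have hinj : Function.Injective (fun x : Fin T × Fin K => b x.1 x.2) := by
    rintro ⟨g, i⟩ ⟨h, l⟩ heq
    simp only at heq
    rcases lt_trichotomy g h with hgh | hgh | hgh
    · exact absurd heq (hlt g h i l hgh).ne
    · subst hgh
      rw [hb] at heq
      simp only at heq
      have h1 := Nat.add_left_cancel heq
      have h2 := Nat.eq_of_mul_eq_mul_left (by positivity) h1
      have h3 := Nat.eq_of_mul_eq_mul_left hP0 h2
      rw [Fin.ext h3]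
    · exact absurd heq (hlt h g l i hgh).ne'
  have hle : ∀ g i, b g i ≤ (w + 1) * (a + k * d) := by
    intro g i
    rw [hb]
    simp only
    have h1 : x * e g ≤ (a + k * d) * w := by
      refine Nat.mul_le_mul ?_ (hew g)
      rw [hx, hk]
      have : V * q * d ≤ (2 * (V * q) + 1) * d := Nat.mul_le_mul_right _ (by omega)
      omega
    have h2 : q * d * (P * (i : ℕ)) ≤ a + k * d := by
      have h3 : P * (i : ℕ) ≤ V := by rw [hV]; exact Nat.mul_le_mul_left _ i.2.le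
      calc q * d * (P * (i : ℕ)) ≤ q * d * V := Nat.mul_le_mul_left _ h3
        _ = V * q * d := by ring
        _ ≤ k * d := by rw [hk]; exact Nat.mul_le_mul_right _ (by omega)
        _ ≤ a + k * d := by omega
    nlinarith
  have hloc : ∀ p : ℕ, p.Prime → p ≤ T * K → ∃ r : ℤ, ∀ g i, ¬ (p : ℤ) ∣ r + b g i := by
    intro p hp hpK
    have hpp := Nat.prime_iff_prime_int.1 hp
    have hpq : (p : ℤ) ∣ (q : ℤ) := by
      rw [hq]
      exact_mod_cast Nat.dvd_factorial hp.pos hpK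
    have hbz : ∀ g i, ((b g i : ℕ) : ℤ) = x * e g + q * (d * (P * (i : ℕ))) := by
      intro g i
      rw [hb]; push_cast; ring
    by_cases hpx : (p : ℤ) ∣ (x : ℤ)
    · refine ⟨1, fun g i h => hpp.not_isUnit (isUnit_of_dvd_one ?_)⟩
      rw [hbz] at h
      have h1 := dvd_sub h ((dvd_mul_of_dvd_left hpx (e g : ℤ)).add
        (dvd_mul_of_dvd_left hpq (d * (P * (i : ℕ)) : ℤ)))
      have h2 : (1 : ℤ) + (x * e g + q * (d * (P * (i : ℕ)))) - (x * e g + q * (d * (P * (i : ℕ)))) = 1 := by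
        ring
      rwa [h2] at h1
    · obtain ⟨n, hn⟩ := hadm p hp
      refine ⟨x * n, fun g i h => ?_⟩
      rw [hbz] at h
      have h1 := dvd_sub h (dvd_mul_of_dvd_left hpq (d * (P * (i : ℕ)) : ℤ))
      have h2 : (x : ℤ) * n + (x * e g + q * (d * (P * (i : ℕ)))) - q * (d * (P * (i : ℕ))) =
          x * (n + e g) := by ring
      rw [h2] at h1
      rcases hpp.dvd_or_dvd h1 with h3 | h3
      · exact hpx h3
      · exact hn g h3
  exact ⟨b, hcross, hlt, hinj, hle, hloc⟩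

open Classical in
/-- the number of the primes `p ≤ X` for which `p + h` is the next prime -/
noncomputable def cc (h X : ℕ) : ℕ :=
  ((Icc 1 X).filter (fun p : ℕ => p.Prime ∧ (p + h).Prime ∧ ∀ t, 0 < t → t < h → ¬ (p + t).Prime)).card

/-- two consecutive primes in different classes -/
theorem adj {T K : ℕ} {e : Fin T → ℕ} {k a d w : ℕ} {b : Fin T → Fin K → ℕ} (hb : Arr e k a d w b)
    (s L : ℕ) (hL : ∀ g i, b g i ≤ L) (hV : ∀ t ≤ L, (s + t).Prime → ∃ g i, b g i = t)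
    {g₁ g₂ : Fin T} (hg : g₁ < g₂) {i₁ i₂ : Fin K} (h1 : (s + b g₁ i₁).Prime)
    (h2 : (s + b g₂ i₂).Prime) :
    ∃ z : (Fin T × Fin T) × (Fin K × Fin K), z.1.1 < z.1.2 ∧ (s + b z.1.1 z.2.1).Prime ∧
      (s + b z.1.2 z.2.2).Prime ∧
      ∀ t, b z.1.1 z.2.1 < t → t < b z.1.2 z.2.2 → ¬ (s + t).Prime := by
  classical
  obtain ⟨i, hi1, hi2⟩ : ∃ i, (s + b g₁ i).Prime ∧ ∀ i', (s + b g₁ i').Prime → b g₁ i' ≤ b g₁ i := by
    have hne : (univ.filter (fun i : Fin K => (s + b g₁ i).Prime)).Nonempty :=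
      ⟨i₁, mem_filter.2 ⟨mem_univ _, h1⟩⟩
    obtain ⟨i, hi, hmax⟩ := exists_max_image _ (fun i => b g₁ i) hne
    exact ⟨i, (mem_filter.1 hi).2, fun i' hi' => hmax i' (mem_filter.2 ⟨mem_univ _, hi'⟩)⟩
  have hex : ∃ t, b g₁ i < t ∧ (s + t).Prime := ⟨b g₂ i₂, hb.lt _ _ _ _ hg, h2⟩
  obtain ⟨m, hm⟩ : ∃ m, m = Nat.find hex := ⟨_, rfl⟩
  obtain ⟨hm1, hm2⟩ : b g₁ i < m ∧ (s + m).Prime := hm ▸ Nat.find_spec hex
  have hm3 : ∀ t, b g₁ i < t → t < m → ¬ (s + t).Prime := by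
    intro t ht1 ht2 ht3
    rw [hm] at ht2
    exact Nat.find_min hex ht2 ⟨ht1, ht3⟩
  have hmL : m ≤ L := by
    have : m ≤ b g₂ i₂ := hm ▸ Nat.find_min' hex ⟨hb.lt _ _ _ _ hg, h2⟩
    exact this.trans (hL _ _)
  obtain ⟨h, l, hl⟩ := hV m hmL hm2
  refine ⟨((g₁, h), (i, l)), ?_, hi1, by rw [hl]; exact hm2, by rw [hl]; exact hm3⟩
  rcases lt_trichotomy g₁ h with h' | h' | h'
  · exact h'
  · exfalso
    subst h'
    have := hi2 l (by rw [hl]; exact hm2)
    omega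
  · exfalso
    have := hb.lt h g₁ l i h'
    omega

open Classical in
theorem consec (T M : ℕ) (hM : 1 ≤ M) (K D : ℕ)
    (hA : ∀ W : ℕ, 1 ≤ W → ∀ᶠ N : ℕ in atTop,
      ∀ b : Fin T → Fin K → ℕ, Function.Injective (fun x : Fin T × Fin K => b x.1 x.2) →
      (∀ g i, b g i ≤ N) → (∀ g i, Nat.Coprime W (b g i)) →
      (∀ p : ℕ, p.Prime → p ≤ T * K → ∃ r : ℤ, ∀ g i, ¬ (p : ℤ) ∣ W * r + b g i) →
      ∃ (S : Finset (Fin T)) (σ : Fin T → Fin K), M + 1 ≤ S.card ∧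
        (N : ℝ) / Real.log N ^ D ≤ (((Icc 1 N).filter (fun n : ℕ => N ≤ 16 * n ∧
          ∀ g ∈ S, (W * n + b g (σ g)).Prime)).card : ℝ))
    (w : ℕ) (e : Fin T → ℕ) (k a d : ℕ) (b : Fin T → Fin K → ℕ)
    (hb : Arr e k a d w b) :
    ∀ᶠ X : ℕ in atTop, ∃ g h : Fin T, g < h ∧ ∃ j < k,
      (X : ℝ) / Real.log X ^ (D + 1) ≤ (cc ((e h - e g) * (a + j * d)) X : ℝ) := by
  obtain ⟨L, hL⟩ : ∃ L, L = (w + 1) * (a + k * d) := ⟨_, rfl⟩
  obtain ⟨Y, hY⟩ : ∃ Y, Y = T * K + L + 1 := ⟨_, rfl⟩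
  obtain ⟨q, hq⟩ : ∃ q : ℕ → ℕ, q = fun t => Nat.nth Nat.Prime (Y + t) := ⟨_, rfl⟩
  have hqp : ∀ t, (q t).Prime := fun t => by rw [hq]; exact Nat.prime_nth_prime _
  have hqY : ∀ t, Y < q t := fun t => by
    have := Nat.add_two_le_nth_prime (Y + t)
    rw [hq]
    show Y < Nat.nth Nat.Prime (Y + t)
    omega
  have hqi : Function.Injective q := by
    intro t t' h
    rw [hq] at h
    have := Nat.nth_injective Nat.infinite_setOfPred_prime h
    omega
  obtain ⟨bad, hbad⟩ : ∃ bad : Finset ℕ, bad = (range (L + 1)).filter (fun t => ∀ g i, b g i ≠ t) :=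
    ⟨_, rfl⟩
  obtain ⟨W, hW⟩ : ∃ W, W = ∏ t ∈ bad, q t := ⟨_, rfl⟩
  have hW1 : 1 ≤ W := by
    rw [hW]
    exact Nat.succ_le_of_lt (Finset.prod_pos fun t _ => (hqp t).pos)
  obtain ⟨r, hr⟩ : ∃ r : ℕ, ∀ t ∈ bad, r ≡ q t * t - t [MOD q t] := by
    have h1 := Nat.chineseRemainderOfFinset (fun t => q t * t - t) q bad
      (fun t _ => (hqp t).ne_zero) (by
        intro t _ t' _ htt
        exact (Nat.coprime_primes (hqp t) (hqp t')).2 fun h => htt (hqi h))
    exact ⟨h1.1, h1.2⟩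
  have hdvd : ∀ t ∈ bad, q t ∣ r + t := by
    intro t ht
    have h1 := (hr t ht).add_right t
    have h2 : q t * t - t + t = q t * t := Nat.sub_add_cancel (Nat.le_mul_of_pos_left _ (hqp t).pos)
    rw [h2] at h1
    have h3 : r + t ≡ 0 [MOD q t] := h1.trans ((Nat.modEq_zero_iff_dvd).2 (Dvd.intro _ rfl))
    exact (Nat.modEq_zero_iff_dvd).1 h3
  have hbL : ∀ g i, b g i ≤ L := fun g i => by rw [hL]; exact hb.le g i
  have hcop : ∀ g i, Nat.Coprime W (r + b g i) := by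
    intro g i
    rw [hW]
    refine Nat.Coprime.prod_left fun t ht => ?_
    rw [(hqp t).coprime_iff_not_dvd]
    intro hd
    have h1 := hdvd t ht
    have h2 : (q t : ℤ) ∣ (b g i : ℤ) - t := by
      have h3 : (q t : ℤ) ∣ ((r + b g i : ℕ) : ℤ) := by exact_mod_cast hd
      have h4 : (q t : ℤ) ∣ ((r + t : ℕ) : ℤ) := by exact_mod_cast h1
      have h5 := dvd_sub h3 h4
      have h6 : ((r + b g i : ℕ) : ℤ) - ((r + t : ℕ) : ℤ) = (b g i : ℤ) - t := by push_cast; ring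
      rwa [h6] at h5
    have ht' := mem_filter.1 (hbad ▸ ht)
    have h3 : t ≤ L := by have := mem_range.1 ht'.1; omega
    have h4 := ht'.2 g i
    have h5 := hbL g i
    have h6 := hqY t
    have h7 : (b g i : ℤ) - t ≠ 0 := by omega
    have h8 := Int.le_of_dvd (abs_pos.2 h7) ((dvd_abs _ _).2 h2)
    have h9 : |(b g i : ℤ) - t| ≤ L := by rw [abs_le]; constructor <;> omega
    omega
  have hloc : ∀ p : ℕ, p.Prime → p ≤ T * K → ∃ n : ℤ, ∀ g i, ¬ (p : ℤ) ∣ W * n + (r + b g i : ℕ) := by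
    intro p hp hpK
    obtain ⟨r₀, hr₀⟩ := hb.loc p hp hpK
    have h1 : Nat.Coprime W p := by
      rw [hW]
      refine Nat.Coprime.prod_left fun t _ => ?_
      refine (Nat.coprime_primes (hqp t) hp).2 fun h => ?_
      have := hqY t
      omega
    obtain ⟨u, v, huv⟩ := Nat.isCoprime_iff_coprime.2 h1
    refine ⟨u * (r₀ - r), fun g i h => hr₀ g i ?_⟩
    have h2 : (r₀ + b g i : ℤ) = (W * (u * (r₀ - r)) + ((r + b g i : ℕ) : ℤ)) +
        p * (v * (r₀ - r)) := by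
      push_cast
      linear_combination -(r₀ - r) * huv
    rw [h2]
    exact dvd_add h (Dvd.intro _ rfl)
  have hcomp : ∀ n : ℕ, 2 ≤ n → ∀ t ≤ L, (W * n + r + t).Prime → ∃ g i, b g i = t := by
    intro n hn t htL hp
    by_contra hcon
    push Not at hcon
    have htb : t ∈ bad := by
      rw [hbad]
      exact mem_filter.2 ⟨mem_range.2 (by omega), hcon⟩
    have h1 : q t ∣ W := by rw [hW]; exact Finset.dvd_prod_of_mem _ htb
    have h2 : q t ∣ W * n + r + t := by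
      rw [Nat.add_assoc]
      exact dvd_add (Dvd.dvd.mul_right h1 _) (hdvd t htb)
    have h3 := (Nat.prime_dvd_prime_iff_eq (hqp t) hp).1 h2
    have h4 := Nat.le_of_dvd hW1 h1
    have h5 := (hqp t).pos
    have h6 : W * 2 ≤ W * n := Nat.mul_le_mul_left _ hn
    omega
  -- the scale
  obtain ⟨c₀, hc₀⟩ : ∃ c₀ : ℕ, c₀ = (T * T) * (K * K) := ⟨_, rfl⟩
  have hdiv : Tendsto (fun X : ℕ => X / (2 * W)) atTop atTop := by
    refine tendsto_atTop.2 fun b => ?_
    filter_upwards [eventually_ge_atTop (b * (2 * W))] with X hX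
    exact (Nat.le_div_iff_mul_le (by omega)).2 hX
  have hlog : ∀ᶠ X : ℕ in atTop, ((4 * W * (c₀ + 1) : ℕ) : ℝ) ≤ Real.log X :=
    (Real.tendsto_log_atTop.comp tendsto_natCast_atTop_atTop).eventually_ge_atTop _
  filter_upwards [hdiv.eventually (hA W hW1), hdiv.eventually (eventually_ge_atTop (32 + r + L)), hlog,
    eventually_ge_atTop (4 * W)]
    with X hN hN2 hlX hX4
  obtain ⟨N, hNd⟩ : ∃ N, N = X / (2 * W) := ⟨_, rfl⟩
  rw [← hNd] at hN hN2
  have hNX : 2 * W * N ≤ X := by rw [hNd]; exact Nat.mul_div_le _ _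
  obtain ⟨S, σ, hS, hcard⟩ := hN (fun g i => r + b g i)
    (by
      intro x y hxy
      exact hb.inj (Nat.add_left_cancel hxy))
    (fun g i => by have := hbL g i; omega) hcop hloc
  obtain ⟨g₁, hg₁, g₂, hg₂, hgne⟩ := Finset.one_lt_card.1 (show 1 < S.card by omega)
  obtain ⟨A, hAdef⟩ : ∃ A : Finset ℕ, A = (Icc 1 N).filter (fun n : ℕ => N ≤ 16 * n ∧
          ∀ g ∈ S, (W * n + (r + b g (σ g))).Prime) := ⟨_, rfl⟩
  rw [← hAdef] at hcard
  have hz : ∀ n ∈ A, ∃ z : (Fin T × Fin T) × (Fin K × Fin K), z.1.1 < z.1.2 ∧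
      (W * n + r + b z.1.1 z.2.1).Prime ∧ (W * n + r + b z.1.2 z.2.2).Prime ∧
      ∀ t, b z.1.1 z.2.1 < t → t < b z.1.2 z.2.2 → ¬ (W * n + r + t).Prime := by
    intro n hn
    rw [hAdef] at hn
    obtain ⟨hn1, hn2, hn3⟩ := mem_filter.1 hn
    have hn4 : 2 ≤ n := by omega
    have e1 : ∀ g ∈ S, (W * n + r + b g (σ g)).Prime := by
      intro g hg
      have := hn3 g hg
      rwa [← Nat.add_assoc] at this
    rcases lt_or_gt_of_ne hgne with h | h
    · exact adj hb (W * n + r) L hbL (hcomp n hn4) h (e1 g₁ hg₁) (e1 g₂ hg₂)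
    · exact adj hb (W * n + r) L hbL (hcomp n hn4) h (e1 g₂ hg₂) (e1 g₁ hg₁)
  have hAne : (0 : ℝ) < A.card := by
    refine lt_of_lt_of_le ?_ hcard
    have h1 : (32 : ℝ) ≤ N := by
      have : 32 ≤ N := by omega
      exact_mod_cast this
    have h2 : 0 < Real.log N := Real.log_pos (by linarith)
    positivity
  have hneA : A.Nonempty := by
    rw [← Finset.card_pos]; exact_mod_cast hAne
  have hzne : Nonempty ((Fin T × Fin T) × (Fin K × Fin K)) := by
    obtain ⟨n, hn⟩ := hneA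
    obtain ⟨z, -⟩ := hz n hn
    exact ⟨z⟩
  choose! f hf using hz
  have hTK : (univ : Finset ((Fin T × Fin T) × (Fin K × Fin K))).card = c₀ := by
    rw [card_univ, hc₀]; simp
  have hc0 : 0 < c₀ := by
    rw [← hTK]
    obtain ⟨n, hn⟩ := hneA
    exact Finset.card_pos.2 ⟨f n, mem_univ _⟩
  obtain ⟨z, -, hzc⟩ := Finset.exists_le_card_fiber_of_nsmul_le_card_of_maps_to
    (s := A) (t := univ) (f := f) (b := (A.card : ℝ) / c₀) (fun n _ => mem_univ _)
    (by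
      obtain ⟨n, hn⟩ := hneA
      exact ⟨f n, mem_univ _⟩)
    (by
      rw [hTK, nsmul_eq_mul, mul_div_cancel₀]
      exact_mod_cast hc0.ne')
  have hfib : (0 : ℝ) < ((A.filter (fun n => f n = z)).card : ℝ) :=
    lt_of_lt_of_le (div_pos hAne (by exact_mod_cast hc0)) hzc
  obtain ⟨n₀, hn₀⟩ : (A.filter (fun n => f n = z)).Nonempty := by
    rw [← Finset.card_pos]; exact_mod_cast hfib
  obtain ⟨hn₀A, hn₀z⟩ := mem_filter.1 hn₀
  have hzlt : z.1.1 < z.1.2 := hn₀z ▸ (hf n₀ hn₀A).1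
  obtain ⟨j, hjk, hj⟩ := hb.cross z.1.1 z.1.2 z.2.1 z.2.2 hzlt
  refine ⟨z.1.1, z.1.2, hzlt, j, hjk, ?_⟩
  have hX0 : (0 : ℝ) ≤ X := Nat.cast_nonneg _
  have hlX0 : (0 : ℝ) < Real.log X := by
    refine lt_of_lt_of_le ?_ hlX
    have : 0 < 4 * W * (c₀ + 1) := by positivity
    exact_mod_cast this
  have hN1 : (32 : ℝ) ≤ N := by
    have : 32 ≤ N := by omega
    exact_mod_cast this
  have hlN0 : 0 < Real.log N := Real.log_pos (by linarith)
  have hlNX : Real.log N ≤ Real.log X := by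
    refine Real.log_le_log (by linarith) ?_
    have h1 : N ≤ X := by
      rw [hNd]; exact Nat.div_le_self _ _
    exact_mod_cast h1
  have hXN : (X : ℝ) ≤ 4 * W * N := by
    have h1 : X < 2 * W * (N + 1) := by
      rw [hNd]; exact Nat.lt_mul_div_succ _ (by omega)
    have h2 : X ≤ 4 * W * N := by nlinarith
    exact_mod_cast h2
  have hfin : (X : ℝ) / Real.log X ^ (D + 1) ≤ (A.card : ℝ) / c₀ := by
    have hc0' : (0 : ℝ) < c₀ := by exact_mod_cast hc0
    rw [le_div_iff₀ hc0']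
    refine le_trans ?_ hcard
    have hW0 : (0 : ℝ) < W := by exact_mod_cast hW1
    calc (X : ℝ) / Real.log X ^ (D + 1) * c₀ = (X : ℝ) * (c₀ / Real.log X) / Real.log X ^ D := by
          rw [pow_succ]; field_simp
      _ ≤ (4 * W * N) * (c₀ / (4 * W * (c₀ + 1))) / Real.log X ^ D := by
          push_cast at hlX
          gcongr
      _ ≤ (N : ℝ) / Real.log X ^ D := by
          gcongr
          rw [mul_div_assoc', div_le_iff₀ (by positivity)]
          have : (0 : ℝ) ≤ 4 * W * N := by positivity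
          nlinarith
      _ ≤ _ := by gcongr
  refine hfin.trans (hzc.trans ?_)
  rw [Nat.cast_le]
  unfold cc
  refine card_le_card_of_injOn (fun n => W * n + r + b z.1.1 z.2.1) ?_ ?_
  · intro n hn
    obtain ⟨hnA, hnz⟩ := mem_filter.1 (mem_coe.1 hn)
    obtain ⟨-, h1, h2, h3⟩ := hf n hnA
    rw [hnz] at h1 h2 h3
    have hn1 := mem_Icc.1 (mem_filter.1 (hAdef ▸ hnA)).1
    refine mem_coe.2 (mem_filter.2 ⟨?_, h1, ?_, ?_⟩)
    · rw [mem_Icc]
      refine ⟨h1.one_lt.le, ?_⟩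
      show W * n + r + b z.1.1 z.2.1 ≤ X
      have h4 : W * n ≤ W * N := Nat.mul_le_mul_left _ hn1.2
      have h5 := hbL z.1.1 z.2.1
      have h6 : r + L ≤ W * N := by
        have : N ≤ W * N := Nat.le_mul_of_pos_left _ hW1
        omega
      have h7 : 2 * W * N = W * N + W * N := by ring
      omega
    · have h4 : W * n + r + b z.1.1 z.2.1 + (e z.1.2 - e z.1.1) * (a + j * d) =
          W * n + r + b z.1.2 z.2.2 := by rw [hj]; ring
      show (W * n + r + b z.1.1 z.2.1 + (e z.1.2 - e z.1.1) * (a + j * d)).Prime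
      rw [h4]; exact h2
    · intro t ht1 ht2 hp
      have h4 := h3 (b z.1.1 z.2.1 + t) (by omega) (by rw [hj]; omega)
      rw [← Nat.add_assoc] at h4
      exact h4 hp
  · intro n _ n' _ h
    have h1 : W * n + r + b z.1.1 z.2.1 = W * n' + r + b z.1.1 z.2.1 := h
    have h2 := Nat.add_right_cancel (Nat.add_right_cancel h1)
    exact Nat.eq_of_mul_eq_mul_left hW1 h2

open Classical in
theorem prog (T M : ℕ) (hA : ARR T M) (w : ℕ) (e : Fin T → ℕ) (he : StrictMono e)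
    (hew : ∀ g, e g ≤ w) (hadm : ∀ p : ℕ, p.Prime → ∃ n : ℤ, ∀ g, ¬ (p : ℤ) ∣ n + e g) :
    ∃ k B X₀ : ℕ, 2 ≤ k ∧ ∀ a d : ℕ, 1 ≤ a → 1 ≤ d →
      (∀ X : ℕ, X₀ ≤ X → 2 * ((w + 1) * (a + k * d)) ≤ X →
      ∃ (S : Finset (Fin T)) (c : Fin T → ℕ), Cons M e k a d (w * (a + k * d)) S c ∧
        (X : ℝ) / Real.log X ^ B ≤ (cn S c X : ℝ)) ∧
      (1 ≤ M → ∀ᶠ X : ℕ in atTop, ∃ g h : Fin T, g < h ∧ ∃ j < k,
        (X : ℝ) / Real.log X ^ B ≤ (cc ((e h - e g) * (a + j * d)) X : ℝ)) := by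
  obtain ⟨K, D, hK, hA⟩ := hA
  obtain ⟨k, hk, harr⟩ := array T K w hK e he hew hadm
  have hdiv : Tendsto (fun X : ℕ => X / 2) atTop atTop := by
    refine tendsto_atTop.2 fun b => ?_
    filter_upwards [eventually_ge_atTop (b * 2)] with X hX
    exact (Nat.le_div_iff_mul_le (by norm_num)).2 hX
  obtain ⟨X₀, hX₀⟩ := eventually_atTop.1 ((hdiv.eventually (hA 1 le_rfl)).and (scale D))
  refine ⟨k, D + 1, X₀, hk, ?_⟩
  intro a d ha hd
  obtain ⟨b, hb⟩ := harr a d ha hd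
  have hcross := hb.cross
  have hlt := hb.lt
  constructor
  swap
  · intro hM
    exact consec T M hM K D hA w e k a d b hb
  intro X hX hXs
  obtain ⟨hN, hsc⟩ := hX₀ X hX
  obtain ⟨N, hNd⟩ : ∃ N, N = X / 2 := ⟨_, rfl⟩
  rw [← hNd] at hN hsc
  have hNs : (w + 1) * (a + k * d) ≤ N := by
    rw [hNd, Nat.le_div_iff_mul_le (by norm_num)]
    linarith
  have hle : ∀ g i, b g i ≤ N := fun g i => (hb.le g i).trans hNs
  have hloc := hb.loc
  obtain ⟨S, σ, hS, hcard⟩ := hN b hb.inj hle (fun g i => Nat.coprime_one_left _) (by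
    intro p hp hpK
    obtain ⟨r, hr⟩ := hloc p hp hpK
    refine ⟨r, fun g i => ?_⟩
    rw [Nat.cast_one, one_mul]
    exact hr g i)
  have hSne : S.Nonempty := by
    rw [← Finset.card_pos]; omega
  obtain ⟨g₀, hg₀⟩ : ∃ g₀, g₀ = S.min' hSne := ⟨_, rfl⟩
  have hg₀S : g₀ ∈ S := hg₀ ▸ S.min'_mem hSne
  have hmin : ∀ g ∈ S, g₀ ≤ g := fun g hg => hg₀ ▸ S.min'_le g hg
  have hb0 : ∀ g ∈ S, b g₀ (σ g₀) ≤ b g (σ g) := by
    intro g hg
    rcases (hmin g hg).lt_or_eq with h | h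
    · exact (hlt _ _ _ _ h).le
    · rw [← h]
  obtain ⟨c, hc⟩ : ∃ c : Fin T → ℕ, c = fun g => if g ∈ S then b g (σ g) - b g₀ (σ g₀) else 0 :=
    ⟨_, rfl⟩
  have hcS : ∀ g ∈ S, c g + b g₀ (σ g₀) = b g (σ g) := by
    intro g hg
    have := hb0 g hg
    rw [hc]; simp only [if_pos hg]; omega
  have hc0 : c g₀ = 0 := by
    have := hcS g₀ hg₀S; omega
  have hdiff : ∀ g ∈ S, ∀ h ∈ S, g < h → ∃ j < k, c h = c g + (e h - e g) * (a + j * d) := by
    intro g hg h hh hgh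
    obtain ⟨j, hjk, hj⟩ := hcross g h (σ g) (σ h) hgh
    refine ⟨j, hjk, ?_⟩
    have h1 := hcS g hg
    have h2 := hcS h hh
    omega
  refine ⟨S, c, ⟨hS, hdiff, ?_, ?_, ?_⟩, ?_⟩
  · intro g hg hgm
    have : g = g₀ := le_antisymm (hgm g₀ hg₀S) (hmin g hg)
    rw [this, hc0]
  · intro p hp
    by_cases hpK : p ≤ T * K
    · obtain ⟨r, hr⟩ := hloc p hp hpK
      refine ⟨r + b g₀ (σ g₀), fun g hg h => hr g (σ g) ?_⟩
      rw [← hcS g hg]
      push_cast
      have e1 : r + (c g + b g₀ (σ g₀) : ℤ) = r + b g₀ (σ g₀) + c g := by ring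
      rw [e1]; exact h
    · refine avoid S c ?_
      have h1 : S.card ≤ T := by
        have := card_le_univ S
        rwa [Fintype.card_fin] at this
      have h2 : T ≤ T * K := Nat.le_mul_of_pos_right _ hK
      omega
  · intro g
    by_cases hg : g ∈ S
    · rcases (hmin g hg).lt_or_eq with h | h
      · obtain ⟨j, hjk, hj⟩ := hdiff g₀ hg₀S g hg h
        rw [hj, hc0, Nat.zero_add]
        refine Nat.mul_le_mul ?_ ?_
        · have := hew g; omega
        · have : j * d ≤ k * d := Nat.mul_le_mul_right _ hjk.le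
          omega
      · rw [← h, hc0]; exact Nat.zero_le _
    · rw [hc]; simp only [if_neg hg]; exact Nat.zero_le _
  · refine hsc.trans (hcard.trans ?_)
    rw [Nat.cast_le]
    unfold cn
    refine card_le_card_of_injOn (fun n => n + b g₀ (σ g₀)) ?_ ?_
    · intro n hn
      obtain ⟨hn1, -, hn2⟩ := mem_filter.1 (mem_coe.1 hn)
      simp only [Nat.one_mul] at hn2
      rw [mem_Icc] at hn1
      refine mem_coe.2 (mem_filter.2 ⟨?_, hn2 g₀ hg₀S, ?_⟩)
      · rw [mem_Icc]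
        have h1 := hle g₀ (σ g₀)
        have h2 : 2 * N ≤ X := by rw [hNd]; omega
        constructor
        · show 1 ≤ n + b g₀ (σ g₀)
          omega
        · show n + b g₀ (σ g₀) ≤ X
          omega
      · intro g hg
        have h1 := hn2 g hg
        rw [← hcS g hg] at h1
        have e1 : n + (c g + b g₀ (σ g₀)) = n + b g₀ (σ g₀) + c g := by ring
        rw [e1] at h1
        exact h1
    · intro n _ n' _ h
      exact Nat.add_right_cancel h

end Pool.Agent.H95SD
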