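import Mathlib
import Pool.Agent.H95SD.Comb

/-!
# Constellations with differences in a set which contains a long arithmetic progression
-/

set_option autoImplicit false

open Finset Filter

namespace Pool.Agent.H95SD

theorem freq_pick {ι : Type} [Finite ι] (P : ι → ℕ → Prop) (h : ∀ᶠ X in atTop, ∃ i, P i X) :
    ∃ i, ∃ᶠ X in atTop, P i X := by
  by_contra hcon
  push Not at hcon
  have h1 : ∀ᶠ X : ℕ in atTop, ∀ i, ¬ P i X := by
    rw [eventually_all]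
    intro i
    exact hcon i
  obtain ⟨X, ⟨i, hi⟩, hX⟩ := (h.and h1).exists
  exact hX i hi

/-- for no prime `q` do the numbers `m i`, `i ∈ S`, meet every residue class modulo `q` -/
def Adm (S : Finset ℕ) (m : ℕ → ℕ) : Prop :=
  ∀ q : ℕ, q.Prime → ∃ r < q, ∀ i ∈ S, m i % q ≠ r

/-- the shifts -/
structure Pat (E : Finset ℕ) (A : Set ℕ) (S : Finset ℕ) (m : ℕ → ℕ) : Prop where
  sub : S ⊆ E
  zero : ∀ i ∈ S, (∀ j ∈ S, i ≤ j) → m i = 0
  adm : Adm S m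
  diff : ∀ i ∈ S, ∀ j ∈ S, i < j → ∃ a ∈ A, m j = m i + (j - i) * a

/-- the number of the primes `p ≤ x` for which all `p + m i`, `i ∈ S`, are prime -/
noncomputable def ct (S : Finset ℕ) (m : ℕ → ℕ) (x : ℕ) : ℕ :=
  {p : ℕ | p ≤ x ∧ p.Prime ∧ ∀ i ∈ S, (p + m i).Prime}.ncard

theorem adm_iff (S : Finset ℕ) (m : ℕ → ℕ) :
    Adm S m ↔ ∀ p : ℕ, p.Prime → ∃ r : ℤ, ∀ i ∈ S, ¬ (p : ℤ) ∣ r + m i := by
  constructor
  · intro h p hp
    obtain ⟨r, hr, h1⟩ := h p hp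
    refine ⟨-r, fun i hi hd => h1 i hi ?_⟩
    have h2 : ((m i : ℕ) : ℤ) ≡ r [ZMOD p] := by
      apply Int.ModEq.symm
      rw [Int.modEq_iff_dvd]
      have e : (m i : ℤ) - r = -r + m i := by ring
      rw [e]; exact hd
    have h3 : m i ≡ r [MOD p] := (Int.natCast_modEq_iff).1 h2
    have h4 : m i % p = r % p := h3
    rw [h4, Nat.mod_eq_of_lt hr]
  · intro h p hp
    obtain ⟨r, h1⟩ := h p hp
    have hp0 : (0 : ℤ) < p := by exact_mod_cast hp.pos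
    have h2 := Int.emod_nonneg (-r) hp0.ne'
    have h3 := Int.emod_lt_of_pos (-r) hp0
    refine ⟨((-r) % p).toNat, by omega, fun i hi he => h1 i hi ?_⟩
    have h4 : ((m i % p : ℕ) : ℤ) = (-r) % p := by
      rw [he, Int.toNat_of_nonneg h2]
    rw [Int.natCast_mod] at h4
    have h5 : (m i : ℤ) ≡ -r [ZMOD p] := h4
    have h6 := (Int.modEq_iff_dvd.1 h5.symm)
    have e : (m i : ℤ) - -r = r + m i := by ring
    rw [e] at h6; exact h6

theorem ct_eq {T : ℕ} (e : Fin T → ℕ) (S : Finset (Fin T)) (c : Fin T → ℕ)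
    (m : ℕ → ℕ) (hm : ∀ g, m (e g) = c g) (x : ℕ) :
    ct (S.image e) m x = cn S c x := by
  classical
  unfold ct cn
  rw [← Set.ncard_coe_finset]
  congr 1
  ext p
  rw [coe_filter]
  simp only [Set.mem_ofPred_eq, mem_Icc, mem_image, forall_exists_index, and_imp,
    forall_apply_eq_imp_iff₂]
  constructor
  · rintro ⟨h1, h2, h3⟩
    refine ⟨⟨h2.one_lt.le, h1⟩, h2, fun g hg => ?_⟩
    have := h3 g hg
    rwa [hm] at this
  · rintro ⟨⟨-, h1⟩, h2, h3⟩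
    refine ⟨h1, h2, fun g hg => ?_⟩
    rw [hm]; exact h3 g hg

/-- the number of the primes `p ≤ x` for which `p + h` is the next prime -/
noncomputable def gp (h x : ℕ) : ℕ :=
  {p : ℕ | p ≤ x ∧ p.Prime ∧ (p + h).Prime ∧ ∀ q, p < q → q < p + h → ¬ q.Prime}.ncard

theorem gp_eq (h x : ℕ) : gp h x = cc h x := by
  classical
  unfold gp cc
  rw [← Set.ncard_coe_finset]
  congr 1
  ext p
  rw [coe_filter]
  simp only [Set.mem_ofPred_eq, mem_Icc]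
  constructor
  · rintro ⟨h1, h2, h3, h4⟩
    exact ⟨⟨h2.one_lt.le, h1⟩, h2, h3, fun t ht1 ht2 => h4 (p + t) (by omega) (by omega)⟩
  · rintro ⟨⟨-, h1⟩, h2, h3, h4⟩
    refine ⟨h1, h2, h3, fun q hq1 hq2 => ?_⟩
    have := h4 (q - p) (by omega) (by omega)
    rwa [Nat.add_sub_cancel' hq1.le] at this

/-- **All scales, and infinitely many.** -/
theorem main (E : Finset ℕ) (hE : Adm E id) (l : ℕ) (hA : ARR E.card l) :
    ∃ B C x₀ k : ℕ, 1 ≤ C ∧ 2 ≤ k ∧ ∀ a d : ℕ, 1 ≤ a → 1 ≤ d → ∀ A : Set ℕ, (∀ j < k, a + j * d ∈ A) →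
      (∀ x, x₀ ≤ x → C * (a + k * d) ≤ x → ∃ (S : Finset ℕ) (m : ℕ → ℕ), l + 1 ≤ S.card ∧
        Pat E A S m ∧ (x : ℝ) / Real.log x ^ B ≤ (ct S m x : ℝ)) ∧
      (∃ (S : Finset ℕ) (m : ℕ → ℕ), l + 1 ≤ S.card ∧ Pat E A S m ∧
        ∃ᶠ x : ℕ in atTop, (x : ℝ) / Real.log x ^ B ≤ (ct S m x : ℝ)) ∧
      (1 ≤ l → ∃ i ∈ E, ∃ j ∈ E, i < j ∧ ∃ s ∈ A,
        ∃ᶠ x : ℕ in atTop, (x : ℝ) / Real.log x ^ B ≤ (gp ((j - i) * s) x : ℝ)) := by
  classical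
  obtain ⟨T, hT⟩ : ∃ T, T = E.card := ⟨_, rfl⟩
  rw [← hT] at hA
  obtain ⟨e, he, heE⟩ : ∃ e : Fin T → ℕ, StrictMono e ∧ ∀ n, n ∈ E ↔ ∃ g, e g = n := by
    refine ⟨E.orderEmbOfFin hT.symm, (E.orderEmbOfFin hT.symm).strictMono, fun n => ?_⟩
    have h1 := Finset.range_orderEmbOfFin E hT.symm
    constructor
    · intro hn
      have h2 : n ∈ Set.range (E.orderEmbOfFin hT.symm) := by rw [h1]; exact hn
      exact h2
    · rintro ⟨g, rfl⟩
      exact E.orderEmbOfFin_mem hT.symm g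
  have hadm : ∀ p : ℕ, p.Prime → ∃ n : ℤ, ∀ g, ¬ (p : ℤ) ∣ n + e g := by
    intro p hp
    obtain ⟨r, hr⟩ := (adm_iff E id).1 hE p hp
    exact ⟨r, fun g => hr (e g) ((heE _).2 ⟨g, rfl⟩)⟩
  have hew : ∀ g, e g ≤ E.sup id := fun g => Finset.le_sup (f := id) ((heE _).2 ⟨g, rfl⟩)
  obtain ⟨k, B, X₀, hk, h⟩ := prog T l hA (E.sup id) e he hew hadm
  obtain ⟨w, hw⟩ : ∃ w, w = E.sup id := ⟨_, rfl⟩
  rw [← hw] at h
  obtain ⟨inv, hinv⟩ : ∃ inv : (Fin T → ℕ) → ℕ → ℕ, ∀ c g, inv c (e g) = c g := by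
    refine ⟨fun c n => if h : ∃ g, e g = n then c h.choose else 0, fun c g => ?_⟩
    have h1 : ∃ g', e g' = e g := ⟨g, rfl⟩
    simp only [dif_pos h1]
    rw [he.injective h1.choose_spec]
  have hpat : ∀ (a d : ℕ) (A : Set ℕ), (∀ j < k, a + j * d ∈ A) → ∀ (W : ℕ) (S : Finset (Fin T))
      (c : Fin T → ℕ), Cons l e k a d W S c → l + 1 ≤ (S.image e).card ∧
      Pat E A (S.image e) (inv c) := by
    intro a d A hA' W S c hc
    refine ⟨?_, ?_, ?_, ?_, ?_⟩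
    · rw [card_image_of_injective _ he.injective]; exact hc.card
    · intro n hn
      obtain ⟨g, -, rfl⟩ := mem_image.1 hn
      exact (heE _).2 ⟨g, rfl⟩
    · intro n hn hmin
      obtain ⟨g, hg, rfl⟩ := mem_image.1 hn
      rw [hinv]
      refine hc.zero g hg fun h' hh' => ?_
      exact he.le_iff_le.1 (hmin (e h') (mem_image_of_mem _ hh'))
    · rw [adm_iff]
      intro p hp
      obtain ⟨r, hr⟩ := hc.adm p hp
      refine ⟨r, fun n hn => ?_⟩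
      obtain ⟨g, hg, rfl⟩ := mem_image.1 hn
      rw [hinv]; exact hr g hg
    · intro n hn n' hn' hlt
      obtain ⟨g, hg, rfl⟩ := mem_image.1 hn
      obtain ⟨g', hg', rfl⟩ := mem_image.1 hn'
      obtain ⟨j, hj, h1⟩ := hc.diff g hg g' hg' (he.lt_iff_lt.1 hlt)
      rw [hinv, hinv]
      exact ⟨a + j * d, hA' j hj, h1⟩
  refine ⟨B, 2 * (w + 1), X₀, k, by omega, hk, ?_⟩
  intro a d ha hd A hAA
  refine ⟨?_, ?_, ?_⟩
  · intro x hx hCx
    obtain ⟨S, c, hc, hct⟩ := (h a d ha hd).1 x hx (by rw [← Nat.mul_assoc]; exact hCx)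
    obtain ⟨h1, h2⟩ := hpat a d A hAA _ S c hc
    refine ⟨S.image e, inv c, h1, h2, ?_⟩
    rw [ct_eq e S c (inv c) (hinv c)]
    exact hct
  · obtain ⟨W, hW⟩ : ∃ W, W = w * (a + k * d) := ⟨_, rfl⟩
    have h3 : ∀ᶠ x : ℕ in atTop, ∃ i : Finset (Fin T) × (Fin T → Fin (W + 1)),
        Cons l e k a d W i.1 (fun g => (i.2 g : ℕ)) ∧
        (x : ℝ) / Real.log x ^ B ≤ (cn i.1 (fun g => (i.2 g : ℕ)) x : ℝ) := by
      filter_upwards [eventually_ge_atTop X₀, eventually_ge_atTop (2 * ((w + 1) * (a + k * d)))]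
        with x hx1 hx2
      obtain ⟨S, c, hc, hct⟩ := (h a d ha hd).1 x hx1 hx2
      rw [← hW] at hc
      refine ⟨(S, fun g => ⟨c g, Nat.lt_succ_of_le (hc.bd g)⟩), ?_, ?_⟩
      · exact hc
      · exact hct
    obtain ⟨⟨S, c⟩, hSc⟩ := freq_pick _ h3
    simp only at hSc
    obtain ⟨x, hx, -⟩ := hSc.exists
    obtain ⟨h1, h2⟩ := hpat a d A hAA _ S _ hx
    refine ⟨S.image e, inv (fun g => (c g : ℕ)), h1, h2, hSc.mono fun x hx => ?_⟩
    rw [ct_eq e S _ _ (hinv _)]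
    exact hx.2
  · intro hl
    have h3 : ∀ᶠ x : ℕ in atTop, ∃ i : (Fin T × Fin T) × Fin k, i.1.1 < i.1.2 ∧
        (x : ℝ) / Real.log x ^ B ≤ (cc ((e i.1.2 - e i.1.1) * (a + i.2 * d)) x : ℝ) := by
      filter_upwards [(h a d ha hd).2 hl] with x hx
      obtain ⟨g, g', hg, j, hj, h1⟩ := hx
      exact ⟨((g, g'), ⟨j, hj⟩), hg, h1⟩
    obtain ⟨⟨⟨g, g'⟩, j⟩, hz⟩ := freq_pick _ h3
    simp only at hz
    obtain ⟨x, hx, -⟩ := hz.exists
    refine ⟨e g, (heE _).2 ⟨g, rfl⟩, e g', (heE _).2 ⟨g', rfl⟩, he hx, a + j * d, hAA j j.2,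
      hz.mono fun x hx => ?_⟩
    rw [gp_eq]
    exact hx.2

end Pool.Agent.H95SD
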