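import Mathlib
import Pool.Agent.H95SD.Fin
import Pool.Agent.Y843.HS.Top
import Pool.Agent.Y827.RO.LamR
import Pool.Agent.H442R2.BX.Ra

/-!
# Constellations with differences in a relatively dense subset of a sifted set
-/

set_option autoImplicit false

open Finset Filter

namespace Pool.Agent.H95SD

open Pool.Agent.Y843.HS (VV Pr)

theorem arr_of (T M : ℕ) (hTM : 18 * M < 5 * T) : ARR T M := by
  classical
  have hTM' : (18 * M : ℝ) < 5 * T := by exact_mod_cast hTM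
  obtain ⟨K, hK, δ, -, h⟩ := Pool.Agent.Y827.RO.lamR0 T M (by omega) (by linarith)
  refine ⟨K, T * K + 2, hK, fun W hW => ?_⟩
  obtain ⟨s₀, c, hc, h⟩ := h W
  have hW1 : (1 : ℝ) ≤ W := by exact_mod_cast hW
  have hlog : ∀ᶠ N : ℕ in atTop, 1 / c ≤ Real.log N :=
    (Real.tendsto_log_atTop.comp tendsto_natCast_atTop_atTop).eventually_ge_atTop _
  filter_upwards [h, hlog, eventually_ge_atTop 3] with N hN hNl hN3 b hinj hle hcop hloc
  have hN3' : (3 : ℝ) ≤ N := by exact_mod_cast hN3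
  obtain ⟨s, S, σ, -, -, -, hS, hcard⟩ := hN (fun g i => ((W : ℤ), (b g i : ℤ)))
    (by
      intro x y hxy
      simp only [Prod.mk.injEq, true_and] at hxy
      exact hinj (by exact_mod_cast hxy))
    (by
      intro g i
      refine ⟨?_, by simp, ?_, Nat.isCoprime_iff_coprime.2 (hcop g i), fun t ht _ => ?_⟩
      · show (W : ℤ) ≠ 0
        have : W ≠ 0 := by omega
        exact_mod_cast this
      · simp only [Nat.abs_cast]
        exact_mod_cast hle g i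
      · have h1 : (0 : ℝ) ≤ (b g i : ℝ) := Nat.cast_nonneg _
        have h2 : 0 ≤ (N : ℝ) / 16 := by positivity
        have h3 : t ≤ W * t := le_mul_of_one_le_left (by linarith) hW1
        push_cast
        linarith)
    (by
      intro p hp hpK
      obtain ⟨r, hr⟩ := hloc p hp hpK
      exact ⟨r, fun g i => hr g i⟩)
  refine ⟨S, σ, hS, ?_⟩
  have hl : 0 < Real.log N := Real.log_pos (by linarith)
  have h1 : (N : ℝ) / Real.log N ^ (T * K + 2) ≤ c * (N / Real.log N ^ (T * K + 1)) := by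
    have h2 : 1 / Real.log N ≤ c := by
      rw [div_le_iff₀ hc] at hNl
      rw [div_le_iff₀ hl]
      linarith
    calc (N : ℝ) / Real.log N ^ (T * K + 2) = 1 / Real.log N * (N / Real.log N ^ (T * K + 1)) := by
          rw [pow_succ _ (T * K + 1)]
          field_simp
      _ ≤ _ := mul_le_mul_of_nonneg_right h2 (by positivity)
  refine h1.trans (hcard.trans ?_)
  rw [Nat.cast_le]
  refine card_le_card fun n hn => ?_
  unfold Pool.Agent.Y827.RO.Rs at hn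
  obtain ⟨hn1, hn0, -, -, hn2⟩ := mem_filter.1 hn
  refine mem_filter.2 ⟨hn1, ?_, fun g hg => ?_⟩
  · have h3 : (N : ℝ) ≤ 16 * n := by linarith
    exact_mod_cast h3
  · have h3 := hn2 g hg
    simp only at h3
    have h4 : ((W : ℤ) * (n : ℤ) + (b g (σ g) : ℤ)).toNat = W * n + b g (σ g) := by
      have : (W : ℤ) * (n : ℤ) + (b g (σ g) : ℤ) = ((W * n + b g (σ g) : ℕ) : ℤ) := by push_cast; ring
      rw [this, Int.toNat_natCast]
    rwa [h4] at h3

/-- the conditions on the sieve -/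
def SV (r : ℕ) (κ : ℝ) (H : ℕ) (Z : ℕ → Finset ℕ) : Prop :=
  ∀ p : ℕ, p.Prime → (p : ℝ) ≤ (H : ℝ) ^ κ → (Z p).card ≤ r ∧ (Z p).card < p ∧ ∀ c ∈ Z p, c < p

/-- the sifted set -/
def Sf (κ : ℝ) (H : ℕ) (Z : ℕ → Finset ℕ) (n : ℕ) : Prop :=
  ∀ p : ℕ, p.Prime → (p : ℝ) ≤ (H : ℝ) ^ κ → n % p ∉ Z p

theorem sift (C k r : ℕ) (κ δ : ℝ) (hk : 2 ≤ k) (hκ : 0 < κ) (hδ : 0 < δ) : ∃ D H₀ : ℕ,
    ∀ H u : ℕ, H₀ ≤ H → ∀ Z : ℕ → Finset ℕ, SV r κ H Z → ∀ A : Finset ℕ, A ⊆ Ioc u (u + H) →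
    (∀ n ∈ A, Sf κ H Z n) → δ * H * VV Z 0 ⌊(H : ℝ) ^ κ⌋₊ ≤ A.card →
    ∃ a d : ℕ, 1 ≤ a ∧ 1 ≤ d ∧ (∀ j < k, a + j * d ∈ A) ∧ C * (a + k * d) ≤ 2 * C * (u + H) ∧
      (k * d : ℝ) ≤ Real.log H ^ D := by
  obtain ⟨B, X₀, h⟩ := Pool.Agent.Y843.HS.fin k r κ δ hκ hδ
  have hlog : ∀ᶠ N : ℕ in atTop, (k : ℝ) ≤ Real.log N :=
    (Real.tendsto_log_atTop.comp tendsto_natCast_atTop_atTop).eventually_ge_atTop _
  obtain ⟨X₁, hX₁⟩ := eventually_atTop.1 hlog
  refine ⟨B + 1, max X₀ X₁, fun H u hH Z hZ A hA hs hc => ?_⟩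
  obtain ⟨a, d, hd, hdB, hj⟩ := h H u ((le_max_left _ _).trans hH) Z hZ A hA hs hc
  have h0 := mem_Ioc.1 (hA (hj 0 (by omega)))
  have h1 := mem_Ioc.1 (hA (hj (k - 1) (by omega)))
  have h2 := mem_Ioc.1 (hA (hj 1 (by omega)))
  refine ⟨a, d, by omega, hd, hj, ?_, ?_⟩
  · have h3 : k * d = (k - 1) * d + d := by
      obtain ⟨k', rfl⟩ : ∃ k', k = k' + 1 := ⟨k - 1, by omega⟩
      rw [Nat.add_sub_cancel]; ring
    have h4 : a + k * d ≤ 2 * (u + H) := by omega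
    calc C * (a + k * d) ≤ C * (2 * (u + H)) := Nat.mul_le_mul_left _ h4
      _ = _ := by ring
  · have h3 := hX₁ H ((le_max_right _ _).trans hH)
    have h4 : (0 : ℝ) ≤ k := Nat.cast_nonneg _
    calc (k * d : ℝ) ≤ Real.log H * Real.log H ^ B :=
          mul_le_mul h3 hdB (Nat.cast_nonneg _) (h4.trans h3)
      _ = _ := by ring

/-- the number of the primes `p ≤ x` for which `p + h` is prime -/
noncomputable def pr (h x : ℕ) : ℕ := {p : ℕ | p ≤ x ∧ p.Prime ∧ (p + h).Prime}.ncard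

theorem pair {E : Finset ℕ} {A : Set ℕ} {S : Finset ℕ} {m : ℕ → ℕ} {l : ℕ} (hl : 1 ≤ l)
    (hS : l + 1 ≤ S.card) (h : Pat E A S m) : ∃ i ∈ E, ∃ j ∈ E, i < j ∧ ∃ a ∈ A, ∀ x : ℕ,
      ct S m x ≤ pr ((j - i) * a) x := by
  have hne : S.Nonempty := by rw [← Finset.card_pos]; omega
  obtain ⟨i, hi⟩ : ∃ i, i = S.min' hne := ⟨_, rfl⟩
  have hiS : i ∈ S := hi ▸ S.min'_mem hne
  have hmin : ∀ j ∈ S, i ≤ j := fun j hj => hi ▸ S.min'_le j hj
  obtain ⟨j, hj, hij⟩ : ∃ j ∈ S, j ≠ i := Finset.exists_mem_ne (by omega) i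
  have hlt : i < j := lt_of_le_of_ne (hmin j hj) (Ne.symm hij)
  obtain ⟨a, ha, h1⟩ := h.diff i hiS j hj hlt
  rw [h.zero i hiS hmin, Nat.zero_add] at h1
  refine ⟨i, h.sub hiS, j, h.sub hj, hlt, a, ha, fun x => ?_⟩
  refine Set.ncard_le_ncard ?_ ((Set.finite_le_nat x).subset fun p hp => hp.1)
  intro p hp
  refine ⟨hp.1, hp.2.1, ?_⟩
  have h2 := hp.2.2 j hj
  rwa [h1] at h2

/-- Mertens -/
theorem vv_le (y : ℕ) : VV (fun _ => {0}) 0 y * Real.log (y + 1) ≤ 1 := by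
  have h1 := Pool.Agent.H442R2.BX.TaskRA.sum_le_prod (Icc 1 y) (Icc 1 y) (by
    intro d hd
    have hd := mem_Icc.1 hd
    refine ⟨by omega, fun p hp hpd => mem_Icc.2 ⟨hp.pos, ?_⟩⟩
    exact (Nat.le_of_dvd (by omega) hpd).trans hd.2)
  have h2 : Real.log (y + 1) ≤ ∑ d ∈ Icc 1 y, 1 / (d : ℝ) := by
    have h3 := log_add_one_le_harmonic y
    have h4 : ((harmonic y : ℚ) : ℝ) = ∑ d ∈ Icc 1 y, 1 / (d : ℝ) := by
      rw [harmonic_eq_sum_Icc]
      push_cast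
      simp only [one_div]
    rw [← h4]
    exact_mod_cast h3
  have h5 : VV (fun _ => {0}) 0 y * ∏ p ∈ Icc 1 y with p.Prime, (1 - 1 / (p : ℝ))⁻¹ = 1 := by
    unfold VV Pr
    have e : Ioc 0 y = Icc 1 y := by ext n; simp [mem_Ioc, mem_Icc]; omega
    rw [e, ← prod_mul_distrib]
    apply prod_eq_one
    intro p hp
    have hp := (mem_filter.1 hp).2
    have h6 : (2 : ℝ) ≤ p := by exact_mod_cast hp.two_le
    have h7 : 1 / (p : ℝ) ≤ 1 / 2 := one_div_le_one_div_of_le (by norm_num) h6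
    rw [card_singleton, Nat.cast_one]
    exact mul_inv_cancel₀ (by linarith)
  have h6 : 0 ≤ VV (fun _ => {0}) 0 y := by
    unfold VV Pr
    apply prod_nonneg
    intro p hp
    have hp := (mem_filter.1 hp).2
    have h6 : (2 : ℝ) ≤ p := by exact_mod_cast hp.two_le
    have h7 : 1 / (p : ℝ) ≤ 1 / 2 := one_div_le_one_div_of_le (by norm_num) h6
    rw [card_singleton, Nat.cast_one]
    linarith
  calc VV (fun _ => {0}) 0 y * Real.log (y + 1) ≤ VV (fun _ => {0}) 0 y *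
        ∏ p ∈ Icc 1 y with p.Prime, (1 - 1 / (p : ℝ))⁻¹ :=
        mul_le_mul_of_nonneg_left (h2.trans h1) h6
    _ = 1 := h5

/-- the number of the elements of a set of primes in an interval, if relatively dense subsets of the sifted
set are excluded -/
theorem small_primes (ε : ℝ) (hε : 0 < ε) : ∃ H₀ : ℕ, ∀ H u : ℕ, H₀ ≤ H → ∀ A : Finset ℕ,
    A ⊆ Ioc u (u + H) → (∀ n ∈ A, n.Prime) →
    (∀ A' : Finset ℕ, A' ⊆ A → (∀ n ∈ A', Sf (1 / 2) H (fun _ => {0}) n) →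
      (A'.card : ℝ) ≤ ε / 4 * H * VV (fun _ => {0}) 0 ⌊(H : ℝ) ^ (1 / 2 : ℝ)⌋₊) →
    (A.card : ℝ) ≤ ε * (H / Real.log H) := by
  classical
  have h1 : ∀ᶠ H : ℕ in atTop, (H : ℝ) ^ (1 / 2 : ℝ) ≤ ε / 2 * (H / Real.log H) := by
    have h2 := (isLittleO_log_rpow_atTop (r := 1 / 2) (by norm_num)).bound
      (show (0 : ℝ) < ε / 2 by positivity)
    filter_upwards [(tendsto_natCast_atTop_atTop (R := ℝ)).eventually h2, eventually_ge_atTop 2]
      with H hH hH2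
    have hH2' : (2 : ℝ) ≤ H := by exact_mod_cast hH2
    have hl : 0 < Real.log H := Real.log_pos (by linarith)
    rw [Real.norm_of_nonneg hl.le, Real.norm_of_nonneg (by positivity)] at hH
    have h3 : (H : ℝ) = (H : ℝ) ^ (1 / 2 : ℝ) * (H : ℝ) ^ (1 / 2 : ℝ) := by
      rw [← Real.rpow_add (by linarith)]; norm_num
    rw [mul_div_assoc', le_div_iff₀ hl]
    calc (H : ℝ) ^ (1 / 2 : ℝ) * Real.log H ≤ (H : ℝ) ^ (1 / 2 : ℝ) * (ε / 2 * (H : ℝ) ^ (1 / 2 : ℝ)) := by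
          gcongr
      _ = ε / 2 * ((H : ℝ) ^ (1 / 2 : ℝ) * (H : ℝ) ^ (1 / 2 : ℝ)) := by ring
      _ = ε / 2 * H := by rw [← h3]
  obtain ⟨H₀, hH₀⟩ := eventually_atTop.1 (h1.and (eventually_ge_atTop 2))
  refine ⟨H₀, fun H u hH A hA hp hsub => ?_⟩
  obtain ⟨h2, hH2⟩ := hH₀ H hH
  have hH2' : (2 : ℝ) ≤ H := by exact_mod_cast hH2
  have hl : 0 < Real.log H := Real.log_pos (by linarith)
  obtain ⟨y, hy⟩ : ∃ y, y = ⌊(H : ℝ) ^ (1 / 2 : ℝ)⌋₊ := ⟨_, rfl⟩
  rw [← hy] at hsub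
  have hyle : (y : ℝ) ≤ (H : ℝ) ^ (1 / 2 : ℝ) := by
    rw [hy]; exact Nat.floor_le (by positivity)
  have hylt : (H : ℝ) ^ (1 / 2 : ℝ) < y + 1 := by
    rw [hy]; exact Nat.lt_floor_add_one _
  have h3 := hsub (A.filter (fun n => y < n)) (filter_subset _ _) (by
    intro n hn p hpp hpl
    obtain ⟨hnA, hny⟩ := mem_filter.1 hn
    have hpy : p ≤ y := by rw [hy]; exact Nat.le_floor hpl
    rw [mem_singleton]
    intro h0
    have h4 := Nat.dvd_of_mod_eq_zero h0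
    have h5 := (Nat.prime_dvd_prime_iff_eq hpp (hp n hnA)).1 h4
    omega)
  have h4 : (A.card : ℝ) ≤ y + ((A.filter (fun n => y < n)).card : ℝ) := by
    have h5 := Finset.card_filter_add_card_filter_not (s := A) (fun n => y < n)
    have h6 : (A.filter (fun n => ¬ y < n)).card ≤ y := by
      have h7 : A.filter (fun n => ¬ y < n) ⊆ Icc 1 y := by
        intro n hn
        obtain ⟨hnA, hny⟩ := mem_filter.1 hn
        exact mem_Icc.2 ⟨(hp n hnA).pos, by omega⟩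
      have h8 := card_le_card h7
      rwa [Nat.card_Icc, Nat.add_sub_cancel] at h8
    have h9 : A.card ≤ y + (A.filter (fun n => y < n)).card := by omega
    exact_mod_cast h9
  have hv := vv_le y
  have h5 : Real.log H / 2 ≤ Real.log (y + 1) := by
    have h6 := Real.log_le_log (by positivity) hylt.le
    rw [Real.log_rpow (by linarith)] at h6
    linarith
  have h6 : VV (fun _ => {0}) 0 y ≤ 2 / Real.log H := by
    rw [le_div_iff₀ hl]
    by_contra hcon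
    push Not at hcon
    have h7 : 0 < VV (fun _ => {0}) 0 y := by
      by_contra h8
      push Not at h8
      have := mul_nonpos_of_nonpos_of_nonneg h8 hl.le
      linarith
    have h9 := mul_le_mul_of_nonneg_left h5 h7.le
    linarith
  calc (A.card : ℝ) ≤ y + ((A.filter (fun n => y < n)).card : ℝ) := h4
    _ ≤ ε / 2 * (H / Real.log H) + ε / 4 * H * (2 / Real.log H) := by
        refine add_le_add (hyle.trans h2) (h3.trans ?_)
        exact mul_le_mul_of_nonneg_left h6 (by positivity)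
    _ = ε * (H / Real.log H) := by ring

end Pool.Agent.H95SD
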