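import Mathlib
import Pool.Agent.H95SD.AffQ
import Pool.Agent.H95SD.Sift

/-!
# One of the first three iterates, for almost all parameters from a sifted set
-/

set_option autoImplicit false

open Finset Filter

namespace Pool.Agent.H95SD.AP

open Pool.Agent.W25.IT Pool.Agent.Y863.AA Pool.Agent.Y863.AU
open Pool.Agent.Y843.HS (VV Pr)

open Classical in
theorem arf_of (T M : ℕ) (hTM : 18 * M < 5 * T) : ARF T M := by
  have hTM' : (18 * M : ℝ) < 5 * T := by exact_mod_cast hTM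
  obtain ⟨K, hK, δ, -, h⟩ := Pool.Agent.Y827.RO.lamR0 T M (by omega) (by linarith)
  refine ⟨K, T * K + 2, hK, fun A => ?_⟩
  obtain ⟨s₀, c, hc, h⟩ := h A
  have hlog : ∀ᶠ N : ℕ in atTop, 1 / c ≤ Real.log N :=
    (Real.tendsto_log_atTop.comp tendsto_natCast_atTop_atTop).eventually_ge_atTop _
  filter_upwards [h, hlog, eventually_ge_atTop 3] with N hN hNl hN3 F hinj hd ha hloc
  have hN3' : (3 : ℝ) ≤ N := by exact_mod_cast hN3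
  obtain ⟨s, S, σ, -, -, -, hS, hcard⟩ := hN (fun g i => ((F g i).d, (F g i).a))
    (by
      intro x y hxy
      simp only [Prod.mk.injEq] at hxy
      exact hinj (Af.ext hxy.2 hxy.1))
    (by
      intro g i
      obtain ⟨h1, h2⟩ := hd g i
      have h3 := ha g i
      have h0 : (0 : ℤ) ≤ |(F g i).a| := abs_nonneg _
      refine ⟨?_, ?_, ?_, ?_, fun t ht _ => ?_⟩
      · show (F g i).d ≠ 0
        omega
      · show |(F g i).d| ≤ A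
        rw [abs_of_nonneg (by omega)]
        exact h2
      · show |(F g i).a| ≤ N
        omega
      · show IsCoprime (F g i).d (F g i).a
        rw [Int.isCoprime_iff_gcd_eq_one]
        by_contra hne
        obtain ⟨p, hp, hpd⟩ := Nat.exists_prime_and_dvd hne
        have h5 : (p : ℤ) ∣ (Int.gcd (F g i).d (F g i).a : ℤ) := Int.natCast_dvd_natCast.2 hpd
        have h6 := h5.trans (Int.gcd_dvd_left _ _)
        have h7 := h5.trans (Int.gcd_dvd_right _ _)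
        obtain ⟨r, hr⟩ := hloc p hp
        exact hr g i (dvd_add h7 (Dvd.dvd.mul_right h6 _))
      · show (N : ℝ) / 24 ≤ ((F g i).d : ℝ) * t + ((F g i).a : ℝ)
        have h4 : (100 : ℝ) * |((F g i).a : ℝ)| ≤ N := by
          have h5 : ((100 * |(F g i).a| : ℤ) : ℝ) ≤ N := by exact_mod_cast h3
          rw [Int.cast_mul, Int.cast_abs] at h5
          exact_mod_cast h5
        have h5 := neg_abs_le ((F g i).a : ℝ)
        have h6 : (1 : ℝ) ≤ ((F g i).d : ℝ) := by exact_mod_cast h1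
        have h7 : 0 ≤ (N : ℝ) / 16 := by positivity
        have h8 : t ≤ ((F g i).d : ℝ) * t := le_mul_of_one_le_left (by linarith) h6
        linarith)
    (by
      intro p hp hpK
      obtain ⟨r, hr⟩ := hloc p hp
      refine ⟨r, fun g i hd => hr g i ?_⟩
      unfold Af.ev
      rw [add_comm]
      exact hd)
  refine ⟨S, σ, hS, ?_⟩
  have hl : 0 < Real.log N := Real.log_pos (by linarith)
  have h1 : (N : ℝ) / Real.log N ^ (T * K + 2) ≤ c * (N / Real.log N ^ (T * K + 1)) := by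
    have h2 : 1 / Real.log N ≤ c := by
      rw [div_le_iff₀ hc] at hNl
      rw [div_le_iff₀ hl]
      linarith
    calc (N : ℝ) / Real.log N ^ (T * K + 2) = 1 / Real.log N * (N / Real.log N ^ (T * K + 1)) := by
          rw [pow_succ _ (T * K + 1)]
          field_simp
      _ ≤ _ := mul_le_mul_of_nonneg_right h2 (by positivity)
  refine h1.trans (hcard.trans ?_)
  rw [Nat.cast_le]
  refine card_le_card fun n hn => ?_
  unfold Pool.Agent.Y827.RO.Rs at hn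
  obtain ⟨hn1, hn0, -, -, hn2⟩ := mem_filter.1 hn
  refine mem_filter.2 ⟨hn1, fun g hg => ?_⟩
  have h3 := hn2 g hg
  unfold Af.ev
  rw [add_comm]
  exact h3

/-- the constant of the main theorem -/
theorem main_inf : ∃ B : ℕ, ∀ m : ℕ, 1 ≤ m → ∃ ℓ : ℕ, 2 ≤ ℓ ∧
    (∀ f g : Af, 1 ≤ f.d → 1 ≤ g.d → f.Adm → g.Adm → g ≠ 1 →
      f * g = g ^ m * f → (∀ j < ℓ, (g ^ j * f).Adm ∧ g ^ j * f ≠ 1) → ∃ j < ℓ, Gd B (g ^ j * f)) ∧
    ∀ d d' : ℕ, 1 ≤ d → 1 ≤ d' → ∃ C X₀ : ℕ, ∀ f g : Af, f.d = d → g.d = d' → f.Adm → g.Adm →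
      g ≠ 1 → f * g = g ^ m * f → (∀ j < ℓ, (g ^ j * f).Adm ∧ g ^ j * f ≠ 1) →
      ∀ X : ℕ, X₀ ≤ X → (C : ℤ) * |f.a| ≤ X → (C : ℤ) * |g.a| ≤ X →
      ∃ j < ℓ, GdAt B X (g ^ j * f) :=
  progr_inf (arf_of 4 1 (by norm_num))

/-- the statement about the maps `g ^ j * f`, `j < ℓ` -/
def PG (B m ℓ : ℕ) : Prop := ∀ f g : Af, 1 ≤ f.d → 1 ≤ g.d → f.Adm → g.Adm → g ≠ 1 →
  f * g = g ^ m * f → (∀ j < ℓ, (g ^ j * f).Adm ∧ g ^ j * f ≠ 1) → ∃ j < ℓ, Gd B (g ^ j * f)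

/-- the same at a given scale -/
def PGAt (B m ℓ : ℕ) : Prop := ∀ d d' : ℕ, 1 ≤ d → 1 ≤ d' → ∃ C X₀ : ℕ, ∀ f g : Af, f.d = d →
  g.d = d' → f.Adm → g.Adm → g ≠ 1 → f * g = g ^ m * f →
  (∀ j < ℓ, (g ^ j * f).Adm ∧ g ^ j * f ≠ 1) →
  ∀ X : ℕ, X₀ ≤ X → (C : ℤ) * |f.a| ≤ X → (C : ℤ) * |g.a| ≤ X → ∃ j < ℓ, GdAt B X (g ^ j * f)

/-- sifted exponents -/
theorem expo {B m ℓ : ℕ} (hl : 2 ≤ ℓ) (h : PG B m ℓ) (r : ℕ) (κ ε : ℝ) (hκ : 0 < κ) (hε : 0 < ε) :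
    ∃ H₀ : ℕ, ∀ H u : ℕ, H₀ ≤ H → ∀ Z : ℕ → Finset ℕ, SV r κ H Z → ∀ f g : Af, 1 ≤ f.d →
    1 ≤ g.d → f.Adm → g.Adm → g ≠ 1 → f * g = g ^ m * f → ∀ A : Finset ℕ, A ⊆ Ioc u (u + H) →
    (∀ k ∈ A, Sf κ H Z k) → (∀ k ∈ A, (g ^ k * f).Adm ∧ g ^ k * f ≠ 1 ∧ ¬ Gd B (g ^ k * f)) →
    (A.card : ℝ) ≤ ε * H * VV Z 0 ⌊(H : ℝ) ^ κ⌋₊ := by
  obtain ⟨D, H₀, hs⟩ := sift 1 ℓ r κ ε hl hκ hε
  refine ⟨H₀, fun H u hH Z hZ f g hf hg hfA hgA hg1 hfg A hAI hAs hbad => ?_⟩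
  by_contra hcon
  push Not at hcon
  obtain ⟨a, d, ha, hd, hj, -, -⟩ := hs H u hH Z hZ A hAI hAs hcon.le
  obtain ⟨k1, k2, -⟩ := hbad a (by simpa using hj 0 (by omega))
  obtain ⟨j, hjl, hG⟩ := h (g ^ a * f) (g ^ d) (by
      rw [Af.mul_d, Af.pow_d]
      have h1 : 0 < g.d := by omega
      have h2 : 0 < f.d := by omega
      have : 0 < g.d ^ a * f.d := by positivity
      omega) (by
      rw [Af.pow_d]
      have h1 : 0 < g.d := by omega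
      have : 0 < g.d ^ d := by positivity
      omega) k1 (adm_pow hgA d) (pow_ne hgA hg1 hg hd) (rel_pow hfg a d) (by
      intro j hjl
      rw [pow_step]
      have h3 := hbad _ (hj j hjl)
      rw [Nat.mul_comm j d] at h3
      exact ⟨h3.1, h3.2.1⟩)
  rw [pow_step] at hG
  have h3 := hbad _ (hj j hjl)
  rw [Nat.mul_comm j d] at h3
  exact h3.2.2 hG

/-- the maps `x ↦ a + d x`, `a` in a progression -/
theorem cprog {B ℓ : ℕ} {d : ℕ} (hd : 1 ≤ d) (hl : 2 ≤ ℓ) (h : PG B d ℓ) (h' : PGAt B d ℓ) : ∃ C x₀ : ℕ,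
    ∀ a t : ℤ, t ≠ 0 → (∀ j : ℕ, j < 2 * ℓ → (⟨a + j * t, d⟩ : Af).Adm ∧ (⟨a + j * t, d⟩ : Af) ≠ 1) →
    (∃ j : ℕ, j < 2 * ℓ ∧ Gd B ⟨a + j * t, d⟩) ∧
    ∀ x : ℕ, x₀ ≤ x → (C : ℤ) * (|a| + |t|) ≤ x → ∃ j : ℕ, j < 2 * ℓ ∧ GdAt B x ⟨a + j * t, d⟩ := by
  obtain ⟨C, x₀, h'⟩ := h' d 1 hd le_rfl
  refine ⟨2 * C, x₀, fun a t ht hj => ?_⟩
  have hstep : ∀ j : ℕ, (⟨2 * t, 1⟩ : Af) ^ j * ⟨a, d⟩ = ⟨a + ((2 * j : ℕ) : ℤ) * t, d⟩ := by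
    intro j
    ext
    · rw [Af.mul_a, Af.pow_a, Af.pow_d]
      show itc (2 * t) 1 j + 1 ^ j * a = a + ((2 * j : ℕ) : ℤ) * t
      rw [Af.itc_one, one_pow]
      push_cast
      ring
    · rw [Af.mul_d, Af.pow_d]
      show 1 ^ j * (d : ℤ) = d
      rw [one_pow, one_mul]
  have hfA : (⟨a, d⟩ : Af).Adm := by
    have := (hj 0 (by omega)).1
    simpa using this
  have hgA : (⟨2 * t, 1⟩ : Af).Adm := ⟨by simp, by
    show (2 : ℤ) ∣ 2 * t * 1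
    exact ⟨t, by ring⟩⟩
  have hg1 : (⟨2 * t, 1⟩ : Af) ≠ 1 := by
    intro he
    have h1 := congrArg Af.a he
    rw [Af.one_a] at h1
    have h2 : 2 * t = 0 := h1
    omega
  have hrel : (⟨a, d⟩ : Af) * ⟨2 * t, 1⟩ = (⟨2 * t, 1⟩ : Af) ^ d * ⟨a, d⟩ := by
    rw [hstep]
    ext
    · show a + (d : ℤ) * (2 * t) = a + ((2 * d : ℕ) : ℤ) * t
      push_cast
      ring
    · show (d : ℤ) * 1 = d
      ring
  have hjj : ∀ j < ℓ, ((⟨2 * t, 1⟩ : Af) ^ j * ⟨a, d⟩).Adm ∧ (⟨2 * t, 1⟩ : Af) ^ j * ⟨a, d⟩ ≠ 1 := by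
    intro j hjl
    rw [hstep]
    exact hj (2 * j) (by omega)
  constructor
  · obtain ⟨j, hjl, hG⟩ := h ⟨a, d⟩ ⟨2 * t, 1⟩ (by show (1 : ℤ) ≤ d; exact_mod_cast hd) le_rfl hfA
      hgA hg1 hrel hjj
    rw [hstep] at hG
    exact ⟨2 * j, by omega, hG⟩
  · intro x hx hCx
    have h1 : (0 : ℤ) ≤ |a| := abs_nonneg _
    have h2 : (0 : ℤ) ≤ |t| := abs_nonneg _
    have h3 : (0 : ℤ) ≤ C := Nat.cast_nonneg _
    push_cast at hCx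
    obtain ⟨j, hjl, hG⟩ := h' ⟨a, d⟩ ⟨2 * t, 1⟩ rfl rfl hfA hgA hg1 hrel hjj x hx (by
        show (C : ℤ) * |a| ≤ x
        nlinarith [mul_nonneg h3 h1, mul_nonneg h3 h2]) (by
        show (C : ℤ) * |2 * t| ≤ x
        rw [abs_mul]
        have : |(2 : ℤ)| = 2 := rfl
        rw [this]
        nlinarith [mul_nonneg h3 h1, mul_nonneg h3 h2])
    rw [hstep] at hG
    exact ⟨2 * j, by omega, hG⟩

/-- the maps `x ↦ a + d x`, `a` in a sifted set -/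
theorem consts {B ℓ : ℕ} {d : ℕ} (hd : 1 ≤ d) (hl : 2 ≤ ℓ) (h : PG B d ℓ) (h' : PGAt B d ℓ) :
    ∃ C x₀ : ℕ, ∀ (r : ℕ) (κ ε : ℝ), 0 < κ → 0 < ε → ∃ H₀ : ℕ, ∀ H u : ℕ, H₀ ≤ H →
    ∀ Z : ℕ → Finset ℕ, SV r κ H Z → ∀ σ : ℤ, (σ = 1 ∨ σ = -1) → ∀ A : Finset ℕ, A ⊆ Ioc u (u + H) →
    (∀ k ∈ A, Sf κ H Z k) → (∀ k ∈ A, (⟨σ * k, d⟩ : Af).Adm) →
    ((∀ k ∈ A, ¬ Gd B ⟨σ * k, d⟩) ∨ ∃ x : ℕ, x₀ ≤ x ∧ C * (u + H) ≤ x ∧
      ∀ k ∈ A, ¬ GdAt B x ⟨σ * k, d⟩) →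
    (A.card : ℝ) ≤ ε * H * VV Z 0 ⌊(H : ℝ) ^ κ⌋₊ := by
  obtain ⟨C, x₀, hc⟩ := cprog hd hl h h'
  refine ⟨2 * C, x₀, fun r κ ε hκ hε => ?_⟩
  obtain ⟨D, H₀, hs⟩ := sift C (2 * ℓ) r κ ε (by omega) hκ hε
  refine ⟨H₀, fun H u hH Z hZ σ hσ A hAI hAs hAd hbad => ?_⟩
  by_contra hcon
  push Not at hcon
  obtain ⟨a, t, ha, ht, hj, hCa, -⟩ := hs H u hH Z hZ A hAI hAs hcon.le
  have e1 : ∀ j : ℕ, σ * ((a + j * t : ℕ) : ℤ) = σ * a + j * (σ * t) := by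
    intro j; push_cast; ring
  have hσ0 : σ ≠ 0 := by rcases hσ with rfl | rfl <;> norm_num
  have hσ1 : |σ| = 1 := by rcases hσ with rfl | rfl <;> rfl
  obtain ⟨h1, h2⟩ := hc (σ * a) (σ * t) (mul_ne_zero hσ0 (by exact_mod_cast (by omega : t ≠ 0))) (by
    intro j hjl
    rw [← e1]
    refine ⟨hAd _ (hj j hjl), fun he => ?_⟩
    have h3 := congrArg Af.a he
    rw [Af.one_a] at h3
    have h4 : σ * ((a + j * t : ℕ) : ℤ) = 0 := h3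
    rcases mul_eq_zero.1 h4 with h5 | h5
    · exact hσ0 h5
    · have : a + j * t = 0 := by exact_mod_cast h5
      omega)
  rcases hbad with hbad | ⟨x, hx0, hxX, hbad⟩
  · obtain ⟨j, hjl, hG⟩ := h1
    rw [← e1] at hG
    exact hbad _ (hj j hjl) hG
  · obtain ⟨j, hjl, hG⟩ := h2 x hx0 (by
      rw [abs_mul, abs_mul, hσ1, one_mul, one_mul, abs_of_nonneg (Nat.cast_nonneg _),
        abs_of_nonneg (Nat.cast_nonneg _)]
      have h5 : C * (a + t) ≤ x := by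
        refine le_trans (Nat.mul_le_mul_left _ ?_) (hCa.trans hxX)
        have : t ≤ 2 * ℓ * t := Nat.le_mul_of_pos_left _ (by omega)
        omega
      exact_mod_cast h5)
    rw [← e1] at hG
    exact hbad _ (hj j hjl) hG

end Pool.Agent.H95SD.AP
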