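import Mathlib

/-!
# Sets of primes whose twofold sums have positive density at one scale

Every integer of a range is a sum of boundedly many elements (Cauchy-Davenport modulo one large element of the
set).
-/

set_option autoImplicit false

open Finset Filter
open scoped Pointwise

namespace Pool.Agent.H95SD.Bs

theorem card_nsmul {p : ℕ} (hp : p.Prime) (s : Finset (ZMod p)) (hs : s.Nonempty) (k : ℕ) :
    min p (k * (s.card - 1) + 1) ≤ (k • s).card := by
  induction k with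
  | zero =>
    rw [zero_nsmul]
    simp
  | succ k ih =>
    rw [succ_nsmul]
    have hne : (k • s).Nonempty := by
      rw [← card_pos]
      refine lt_of_lt_of_le ?_ ih
      exact lt_min hp.pos (Nat.succ_pos _)
    have h1 := ZMod.cauchy_davenport hp hne hs
    have h2 : 1 ≤ s.card := card_pos.2 hs
    have h3 : (k + 1) * (s.card - 1) + 1 = (k * (s.card - 1) + 1) + s.card - 1 := by
      rw [Nat.succ_mul]; omega
    refine le_trans ?_ h1
    rw [h3]
    omega

theorem mem_nsmul' {p : ℕ} (S : Finset ℕ) (k : ℕ) (x : ZMod p)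
    (hx : x ∈ k • (S.image (fun n : ℕ => (n : ZMod p)))) :
    ∃ m : Multiset ℕ, m.card = k ∧ (∀ a ∈ m, a ∈ S) ∧ ((m.sum : ℕ) : ZMod p) = x := by
  induction k generalizing x with
  | zero =>
    rw [zero_nsmul, Finset.mem_zero] at hx
    exact ⟨0, rfl, by simp, by rw [hx]; simp⟩
  | succ k ih =>
    rw [succ_nsmul] at hx
    obtain ⟨y, hy, z, hz, rfl⟩ := Finset.mem_add.1 hx
    obtain ⟨m, hm1, hm2, hm3⟩ := ih y hy
    obtain ⟨n, hn, rfl⟩ := mem_image.1 hz
    refine ⟨n ::ₘ m, by rw [Multiset.card_cons, hm1], ?_, ?_⟩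
    · intro a ha
      rcases Multiset.mem_cons.1 ha with rfl | ha
      · exact hn
      · exact hm2 a ha
    · rw [Multiset.sum_cons, Nat.cast_add, hm3, add_comm]

/-- few elements in one residue class -/
theorem class_card (S : Finset ℕ) (x p : ℕ) (hp : 0 < p) (hS : ∀ n ∈ S, n ≤ x) :
    S.card ≤ (S.image (fun n : ℕ => (n : ZMod p))).card * (x / p + 1) := by
  rw [Nat.mul_comm]
  refine card_le_mul_card_image (f := fun n : ℕ => (n : ZMod p)) S (x / p + 1) fun b hb => ?_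
  obtain ⟨n, hn, rfl⟩ := mem_image.1 hb
  have h1 : (S.filter (fun m : ℕ => (m : ZMod p) = (n : ZMod p))) ⊆
      (range (x / p + 1)).image (fun t => n % p + t * p) := by
    intro m hm
    obtain ⟨hmS, hmn⟩ := mem_filter.1 hm
    have h2 : m ≡ n [MOD p] := (ZMod.natCast_eq_natCast_iff _ _ _).1 hmn
    have h3 : m % p = n % p := h2
    refine mem_image.2 ⟨m / p, mem_range.2 ?_, ?_⟩
    · have := Nat.div_le_div_right (c := p) (hS m hmS)
      omega
    · rw [← h3]
      exact Nat.mod_add_div' m p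
  calc (S.filter (fun m : ℕ => (m : ZMod p) = (n : ZMod p))).card ≤
      ((range (x / p + 1)).image (fun t => n % p + t * p)).card := card_le_card h1
    _ ≤ x / p + 1 := card_image_le.trans (by rw [card_range])

/-- **The basis lemma.** -/
theorem basis (c : ℝ) (hc : 0 < c) : ∃ k K X₀ : ℕ, 1 ≤ k ∧ ∀ x : ℕ, X₀ ≤ x → ∀ P : Set ℕ,
    (∀ p ∈ P, p.Prime) → c * x ≤ ({N : ℕ | N ≤ x ∧ ∃ p ∈ P, ∃ q ∈ P, p + q = N}.ncard : ℝ) →
    ∀ N : ℕ, k * x ≤ N → N ≤ 2 * k * x →
    ∃ s : Multiset ℕ, s.card ≤ K ∧ (∀ p ∈ s, p ∈ P) ∧ s.sum = N := by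
  classical
  -- we may assume that `c ≤ 1`
  wlog hc1 : c ≤ 1 generalizing c with H
  · obtain ⟨k, K, X₀, hk, h⟩ := H 1 one_pos le_rfl
    refine ⟨k, K, X₀, hk, fun x hx P hP hcx => h x hx P hP (le_trans ?_ hcx)⟩
    have : (0 : ℝ) ≤ x := Nat.cast_nonneg _
    nlinarith
  obtain ⟨k, hk⟩ : ∃ k : ℕ, (40 / c ^ 2 : ℝ) ≤ k := exists_nat_ge _
  have hk1 : 1 ≤ k := by
    by_contra h0
    have h1 : k = 0 := by omega
    rw [h1] at hk
    have : (0 : ℝ) < 40 / c ^ 2 := by positivity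
    push_cast at hk
    linarith
  obtain ⟨t₀, ht₀⟩ : ∃ t₀ : ℕ, (8 * k / c : ℝ) ≤ t₀ := exists_nat_ge _
  obtain ⟨X₀, hX₀⟩ : ∃ X₀ : ℕ, (40 / c ^ 2 : ℝ) ≤ X₀ := exists_nat_ge _
  refine ⟨k, 2 * k + t₀, X₀, hk1, fun x hx P hP hcx N hN1 hN2 => ?_⟩
  have hxr : (40 / c ^ 2 : ℝ) ≤ x := hX₀.trans (by exact_mod_cast hx)
  have hc2 : 0 < c ^ 2 := by positivity
  have hcc : c ^ 2 ≤ c := by nlinarith
  have hx40 : 40 ≤ c ^ 2 * x := by
    rw [div_le_iff₀ hc2] at hxr
    linarith
  have hx0 : (0 : ℝ) < x := by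
    by_contra h0
    push Not at h0
    nlinarith
  have hcx40 : 40 ≤ c * x := by nlinarith
  obtain ⟨S, hS⟩ : ∃ S : Finset ℕ, ∀ n, n ∈ S ↔ n ≤ x ∧ ∃ p ∈ P, ∃ q ∈ P, p + q = n := by
    have hfin : {N : ℕ | N ≤ x ∧ ∃ p ∈ P, ∃ q ∈ P, p + q = N}.Finite :=
      (Set.finite_le_nat x).subset fun n hn => hn.1
    exact ⟨hfin.toFinset, fun n => by rw [Set.Finite.mem_toFinset]; rfl⟩
  have hSc : c * x ≤ (S.card : ℝ) := by
    refine hcx.trans (le_of_eq ?_)
    rw [← Set.ncard_coe_finset]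
    congr 2
    ext n
    rw [mem_coe, hS]
    rfl
  -- a large element
  obtain ⟨p, hpP, hpx, hpc⟩ : ∃ p ∈ P, p ≤ x ∧ c * x / 4 ≤ (p : ℝ) := by
    by_contra hcon
    push Not at hcon
    have h1 : S ⊆ range (⌊c * x / 2⌋₊ + 1) := by
      intro n hn
      obtain ⟨hnx, p, hp, q, hq, rfl⟩ := (hS n).1 hn
      have h2 := hcon p hp (by omega)
      have h3 := hcon q hq (by omega)
      rw [mem_range, Nat.lt_succ_iff]
      apply Nat.le_floor
      push_cast
      linarith
    have h2 := card_le_card h1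
    rw [card_range] at h2
    have h3 : (S.card : ℝ) ≤ ⌊c * x / 2⌋₊ + 1 := by exact_mod_cast h2
    have h4 := Nat.floor_le (by positivity : 0 ≤ c * x / 2)
    linarith
  have hpp := hP p hpP
  have hp0 : (0 : ℝ) < p := by exact_mod_cast hpp.pos
  have hSne : S.Nonempty := by
    rw [← card_pos]
    have : (0 : ℝ) < S.card := by linarith
    exact_mod_cast this
  -- Cauchy-Davenport
  obtain ⟨I, hI⟩ : ∃ I, I = S.image (fun n : ℕ => (n : ZMod p)) := ⟨_, rfl⟩
  have hIc := class_card S x p hpp.pos (fun n hn => ((hS n).1 hn).1)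
  rw [← hI] at hIc
  have hxp : (((x / p : ℕ) : ℝ)) + 1 ≤ 5 / c := by
    have h1 : ((x / p : ℕ) : ℝ) ≤ (x : ℝ) / p := Nat.cast_div_le
    have h2 : (x : ℝ) / p ≤ 4 / c := by
      rw [div_le_div_iff₀ hp0 hc]
      linarith
    have h3 : 1 ≤ 1 / c := by
      rw [le_div_iff₀ hc]; linarith
    have h4 : 5 / c = 4 / c + 1 / c := by ring
    linarith
  have hIr : c ^ 2 * x / 5 ≤ (I.card : ℝ) := by
    have h1 : (S.card : ℝ) ≤ I.card * (((x / p : ℕ) : ℝ) + 1) := by exact_mod_cast hIc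
    have h2 : (I.card : ℝ) * (((x / p : ℕ) : ℝ) + 1) ≤ I.card * (5 / c) :=
      mul_le_mul_of_nonneg_left hxp (Nat.cast_nonneg _)
    have h3 : c * x ≤ I.card * (5 / c) := by linarith
    have h4 : (I.card : ℝ) * (5 / c) = I.card * 5 / c := by ring
    rw [h4, le_div_iff₀ hc] at h3
    nlinarith
  have hIne : I.Nonempty := by rw [hI]; exact hSne.image _
  have hcd := card_nsmul hpp I hIne k
  have hfact : Fact p.Prime := ⟨hpp⟩
  have hfull : k • I = univ := by
    apply Finset.eq_univ_of_card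
    rw [ZMod.card]
    apply le_antisymm
    · have := card_le_univ (k • I)
      rwa [ZMod.card] at this
    · refine le_trans ?_ hcd
      rw [le_min_iff]
      refine ⟨le_rfl, ?_⟩
      have h1 : (p : ℝ) ≤ k * ((I.card : ℝ) - 1) := by
        have h2 : c ^ 2 * x / 10 ≤ (I.card : ℝ) - 1 := by linarith
        have h3 : (p : ℝ) ≤ x := by exact_mod_cast hpx
        have h4 : 40 ≤ k * c ^ 2 := by
          rw [div_le_iff₀ hc2] at hk
          linarith
        have hk0 : (0 : ℝ) ≤ k := Nat.cast_nonneg _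
        calc (p : ℝ) ≤ x := h3
          _ ≤ 4 * x := by linarith
          _ ≤ (k * c ^ 2) / 10 * x := by
              apply mul_le_mul_of_nonneg_right _ hx0.le
              linarith
          _ = k * (c ^ 2 * x / 10) := by ring
          _ ≤ _ := mul_le_mul_of_nonneg_left h2 hk0
      have h5 : 1 ≤ I.card := card_pos.2 hIne
      have h6 : (p : ℝ) ≤ ((k * (I.card - 1) : ℕ) : ℝ) := by
        push_cast [Nat.cast_sub h5]
        exact h1
      have h7 : p ≤ k * (I.card - 1) := by exact_mod_cast h6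
      omega
  obtain ⟨m, hm1, hm2, hm3⟩ := mem_nsmul' S k ((N : ℕ) : ZMod p) (by
    rw [← hI, hfull]; exact mem_univ _)
  have hmx : m.sum ≤ k * x := by
    have h1 : m.sum ≤ m.card • x := Multiset.sum_le_card_nsmul m x fun a ha => ((hS a).1 (hm2 a ha)).1
    rwa [hm1, smul_eq_mul] at h1
  have hmN : m.sum ≤ N := hmx.trans hN1
  have hdvd : p ∣ N - m.sum := by
    have h1 : m.sum ≡ N [MOD p] := (ZMod.natCast_eq_natCast_iff _ _ _).1 hm3
    exact (Nat.modEq_iff_dvd' hmN).1 h1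
  obtain ⟨t, ht⟩ := hdvd
  have ht1 : t ≤ t₀ := by
    have h1 : (p : ℝ) * t ≤ 2 * k * x := by
      have h2 : p * t ≤ 2 * k * x := by omega
      exact_mod_cast h2
    have h3 : c * x / 4 * t ≤ 2 * k * x := le_trans (mul_le_mul_of_nonneg_right hpc (Nat.cast_nonneg _)) h1
    have h4 : (t : ℝ) ≤ 8 * k / c := by
      rw [le_div_iff₀ hc]
      by_contra h5
      push Not at h5
      have h6 : 8 * k * x < t * c * x := mul_lt_mul_of_pos_right h5 hx0
      linarith
    exact_mod_cast h4.trans ht₀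
  -- the representation
  have hsplit : ∀ n : ℕ, ∃ pq : ℕ × ℕ, n ∈ S → pq.1 ∈ P ∧ pq.2 ∈ P ∧ pq.1 + pq.2 = n := by
    intro n
    by_cases hn : n ∈ S
    · obtain ⟨-, p, hp, q, hq, h⟩ := (hS n).1 hn
      exact ⟨(p, q), fun _ => ⟨hp, hq, h⟩⟩
    · exact ⟨(0, 0), fun h => absurd h hn⟩
  choose f hf using hsplit
  refine ⟨m.map (fun n => (f n).1) + m.map (fun n => (f n).2) + Multiset.replicate t p, ?_, ?_, ?_⟩
  · rw [Multiset.card_add, Multiset.card_add, Multiset.card_map, Multiset.card_map,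
      Multiset.card_replicate, hm1]
    omega
  · intro q hq
    rw [Multiset.mem_add, Multiset.mem_add] at hq
    rcases hq with (hq | hq) | hq
    · obtain ⟨n, hn, rfl⟩ := Multiset.mem_map.1 hq
      exact (hf n (hm2 n hn)).1
    · obtain ⟨n, hn, rfl⟩ := Multiset.mem_map.1 hq
      exact (hf n (hm2 n hn)).2.1
    · rw [Multiset.eq_of_mem_replicate hq]
      exact hpP
  · rw [Multiset.sum_add, Multiset.sum_add, Multiset.sum_replicate, smul_eq_mul]
    have h1 : (m.map (fun n => (f n).1)).sum + (m.map (fun n => (f n).2)).sum = m.sum := by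
      rw [← Multiset.sum_map_add]
      have h2 : m.map (fun n => (f n).1 + (f n).2) = m.map (fun n => n) :=
        Multiset.map_congr rfl fun n hn => (hf n (hm2 n hn)).2.2
      rw [h2, Multiset.map_id']
    rw [h1, Nat.mul_comm t p, ← ht]
    omega

end Pool.Agent.H95SD.Bs
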