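import Mathlib
import Pool.Agent.N694.OB.Blk
import Pool.Agent.H95SD.Comb

/-!
# Arrays of times in the orbits of affine maps

Local conditions for arrays of times, scales, consecutive primes in different classes.
-/

set_option autoImplicit false

open Finset Filter

namespace Pool.Agent.H95SD.CN

open Pool.Agent.N694.OB

/-- the array; local conditions only for the primes for which `e` has none -/
structure ArrC {T K : ℕ} (e : Fin T → ℕ) (k a d w : ℕ) (b : Fin T → Fin K → ℕ) : Prop where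
  cross : ∀ (g h : Fin T) (i l : Fin K), g < h → ∃ j < k, b h l = b g i + (e h - e g) * (a + j * d)
  lt : ∀ (g h : Fin T) (i l : Fin K), g < h → b g i < b h l
  inj : Function.Injective (fun x : Fin T × Fin K => b x.1 x.2)
  le : ∀ g i, b g i ≤ (w + 1) * (a + k * d)
  loc : ∀ p : ℕ, p.Prime → (∃ n : ℤ, ∀ g, ¬ (p : ℤ) ∣ n + e g) → ∃ r : ℤ, ∀ g i, ¬ (p : ℤ) ∣ r + b g i

theorem arrayC (T K w : ℕ) (hK : 1 ≤ K) (e : Fin T → ℕ) (he : StrictMono e)
    (hew : ∀ g, e g ≤ w) :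
    ∃ k : ℕ, 2 ≤ k ∧ ∀ a d : ℕ, 1 ≤ a → 1 ≤ d → ∃ b : Fin T → Fin K → ℕ, ArrC e k a d w b := by
  obtain ⟨P, hP⟩ : ∃ P, P = w.factorial := ⟨_, rfl⟩
  obtain ⟨V, hV⟩ : ∃ V, V = P * K := ⟨_, rfl⟩
  obtain ⟨q, hq⟩ : ∃ q, q = (T * K).factorial := ⟨_, rfl⟩
  have hP0 : 0 < P := hP ▸ Nat.factorial_pos _
  have hq0 : 0 < q := hq ▸ Nat.factorial_pos _
  refine ⟨2 * (V * q) + 1, by
    have : 0 < V * q := Nat.mul_pos (by rw [hV]; exact Nat.mul_pos hP0 (by omega)) hq0
    omega, ?_⟩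
  intro a d ha hd
  obtain ⟨k, hk⟩ : ∃ k, k = 2 * (V * q) + 1 := ⟨_, rfl⟩
  rw [← hk]
  obtain ⟨x, hx⟩ : ∃ x, x = a + V * q * d := ⟨_, rfl⟩
  obtain ⟨b, hb⟩ : ∃ b : Fin T → Fin K → ℕ, b = fun (g : Fin T) (i : Fin K) => x * e g + q * d * (P * (i : ℕ)) :=
    ⟨_, rfl⟩
  -- the cross differences
  have hcross : ∀ (g h : Fin T) (i l : Fin K), g < h → ∃ j < k,
      b h l = b g i + (e h - e g) * (a + j * d) := by
    intro g h i l hgh
    obtain ⟨δ, hδ⟩ : ∃ δ, δ = e h - e g := ⟨_, rfl⟩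
    have hlt := he hgh
    have hδ1 : 1 ≤ δ := by omega
    have hδw : δ ≤ w := by have := hew h; omega
    have heh : e h = e g + δ := by omega
    obtain ⟨R, hR⟩ : δ ∣ P := hP ▸ Nat.dvd_factorial hδ1 hδw
    have hRV : ∀ i : Fin K, q * (R * (i : ℕ)) ≤ V * q := by
      intro i
      have h1 : R * (i : ℕ) ≤ V := by
        rw [hV]
        refine Nat.mul_le_mul ?_ i.2.le
        rw [hR]; exact Nat.le_mul_of_pos_left _ hδ1
      calc q * (R * (i : ℕ)) ≤ q * V := Nat.mul_le_mul_left _ h1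
        _ = V * q := Nat.mul_comm _ _
    obtain ⟨j, hj⟩ : ∃ j, j + q * (R * (i : ℕ)) = V * q + q * (R * (l : ℕ)) :=
      ⟨V * q + q * (R * (l : ℕ)) - q * (R * (i : ℕ)), by have := hRV i; omega⟩
    refine ⟨j, by have := hRV l; omega, ?_⟩
    rw [← hδ, hb]
    simp only
    have h2 : δ * (j * d) + q * d * (P * (i : ℕ)) = δ * (V * q * d) + q * d * (P * (l : ℕ)) := by
      rw [hR]
      calc δ * (j * d) + q * d * (δ * R * (i : ℕ)) = δ * d * (j + q * (R * (i : ℕ))) := by ring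
        _ = δ * d * (V * q + q * (R * (l : ℕ))) := by rw [hj]
        _ = _ := by ring
    have h3 : δ * x = δ * a + δ * (V * q * d) := by rw [hx]; ring
    calc x * e h + q * d * (P * (l : ℕ)) = x * e g + (δ * x + q * d * (P * (l : ℕ))) := by
          rw [heh]; ring
      _ = x * e g + (δ * a + (δ * (V * q * d) + q * d * (P * (l : ℕ)))) := by rw [h3]; ring
      _ = x * e g + (δ * a + (δ * (j * d) + q * d * (P * (i : ℕ)))) := by rw [h2]
      _ = _ := by ring
  have hlt : ∀ (g h : Fin T) (i l : Fin K), g < h → b g i < b h l := by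
    intro g h i l hgh
    obtain ⟨j, -, hj⟩ := hcross g h i l hgh
    have h1 := he hgh
    rw [hj]
    have : 0 < (e h - e g) * (a + j * d) := Nat.mul_pos (by omega) (by omega)
    omega
  have hinj : Function.Injective (fun x : Fin T × Fin K => b x.1 x.2) := by
    rintro ⟨g, i⟩ ⟨h, l⟩ heq
    simp only at heq
    rcases lt_trichotomy g h with hgh | hgh | hgh
    · exact absurd heq (hlt g h i l hgh).ne
    · subst hgh
      rw [hb] at heq
      simp only at heq
      have h1 := Nat.add_left_cancel heq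
      have h2 := Nat.eq_of_mul_eq_mul_left (by positivity) h1
      have h3 := Nat.eq_of_mul_eq_mul_left hP0 h2
      rw [Fin.ext h3]
    · exact absurd heq (hlt h g l i hgh).ne'
  have hle : ∀ g i, b g i ≤ (w + 1) * (a + k * d) := by
    intro g i
    rw [hb]
    simp only
    have h1 : x * e g ≤ (a + k * d) * w := by
      refine Nat.mul_le_mul ?_ (hew g)
      rw [hx, hk]
      have : V * q * d ≤ (2 * (V * q) + 1) * d := Nat.mul_le_mul_right _ (by omega)
      omega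
    have h2 : q * d * (P * (i : ℕ)) ≤ a + k * d := by
      have h3 : P * (i : ℕ) ≤ V := by rw [hV]; exact Nat.mul_le_mul_left _ i.2.le
      calc q * d * (P * (i : ℕ)) ≤ q * d * V := Nat.mul_le_mul_left _ h3
        _ = V * q * d := by ring
        _ ≤ k * d := by rw [hk]; exact Nat.mul_le_mul_right _ (by omega)
        _ ≤ a + k * d := by omega
    nlinarith
  have hloc : ∀ p : ℕ, p.Prime → (∃ n : ℤ, ∀ g, ¬ (p : ℤ) ∣ n + e g) →
      ∃ r : ℤ, ∀ g i, ¬ (p : ℤ) ∣ r + b g i := by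
    intro p hp hadm
    by_cases hpK : p ≤ T * K
    swap
    · obtain ⟨r, hr⟩ := Pool.Agent.H95SD.avoid (univ : Finset (Fin T × Fin K)) (fun x => b x.1 x.2)
        (p := p) (by
          rw [card_univ, Fintype.card_prod, Fintype.card_fin, Fintype.card_fin]; omega)
      exact ⟨r, fun g i => hr (g, i) (mem_univ _)⟩
    have hpp := Nat.prime_iff_prime_int.1 hp
    have hpq : (p : ℤ) ∣ (q : ℤ) := by
      rw [hq]
      exact_mod_cast Nat.dvd_factorial hp.pos hpK
    have hbz : ∀ g i, ((b g i : ℕ) : ℤ) = x * e g + q * (d * (P * (i : ℕ))) := by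
      intro g i
      rw [hb]; push_cast; ring
    by_cases hpx : (p : ℤ) ∣ (x : ℤ)
    · refine ⟨1, fun g i h => hpp.not_isUnit (isUnit_of_dvd_one ?_)⟩
      rw [hbz] at h
      have h1 := dvd_sub h ((dvd_mul_of_dvd_left hpx (e g : ℤ)).add
        (dvd_mul_of_dvd_left hpq (d * (P * (i : ℕ)) : ℤ)))
      have h2 : (1 : ℤ) + (x * e g + q * (d * (P * (i : ℕ)))) - (x * e g + q * (d * (P * (i : ℕ)))) = 1 := by
        ring
      rwa [h2] at h1
    · obtain ⟨n, hn⟩ := hadm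
      refine ⟨x * n, fun g i h => ?_⟩
      rw [hbz] at h
      have h1 := dvd_sub h (dvd_mul_of_dvd_left hpq (d * (P * (i : ℕ)) : ℤ))
      have h2 : (x : ℤ) * n + (x * e g + q * (d * (P * (i : ℕ)))) - q * (d * (P * (i : ℕ))) =
          x * (n + e g) := by ring
      rw [h2] at h1
      rcases hpp.dvd_or_dvd h1 with h3 | h3
      · exact hpx h3
      · exact hn g h3
  exact ⟨b, hcross, hlt, hinj, hle, hloc⟩

/-- two consecutive members of a set of times in different classes -/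
theorem adjP {T K : ℕ} {e : Fin T → ℕ} {k a d w : ℕ} {b : Fin T → Fin K → ℕ} (hb : ArrC e k a d w b)
    (P : ℕ → Prop) (L : ℕ) (hL : ∀ g i, b g i ≤ L) (hV : ∀ t ≤ L, P t → ∃ g i, b g i = t)
    {g₁ g₂ : Fin T} (hg : g₁ < g₂) {i₁ i₂ : Fin K} (h1 : P (b g₁ i₁)) (h2 : P (b g₂ i₂)) :
    ∃ z : (Fin T × Fin T) × (Fin K × Fin K), z.1.1 < z.1.2 ∧ P (b z.1.1 z.2.1) ∧
      P (b z.1.2 z.2.2) ∧ ∀ t, b z.1.1 z.2.1 < t → t < b z.1.2 z.2.2 → ¬ P t := by
  classical
  obtain ⟨i, hi1, hi2⟩ : ∃ i, P (b g₁ i) ∧ ∀ i', P (b g₁ i') → b g₁ i' ≤ b g₁ i := by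
    have hne : (univ.filter (fun i : Fin K => P (b g₁ i))).Nonempty :=
      ⟨i₁, mem_filter.2 ⟨mem_univ _, h1⟩⟩
    obtain ⟨i, hi, hmax⟩ := exists_max_image _ (fun i => b g₁ i) hne
    exact ⟨i, (mem_filter.1 hi).2, fun i' hi' => hmax i' (mem_filter.2 ⟨mem_univ _, hi'⟩)⟩
  have hex : ∃ t, b g₁ i < t ∧ P t := ⟨b g₂ i₂, hb.lt _ _ _ _ hg, h2⟩
  obtain ⟨m, hm⟩ : ∃ m, m = Nat.find hex := ⟨_, rfl⟩
  obtain ⟨hm1, hm2⟩ : b g₁ i < m ∧ P m := hm ▸ Nat.find_spec hex
  have hm3 : ∀ t, b g₁ i < t → t < m → ¬ P t := by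
    intro t ht1 ht2 ht3
    rw [hm] at ht2
    exact Nat.find_min hex ht2 ⟨ht1, ht3⟩
  have hmL : m ≤ L := by
    have : m ≤ b g₂ i₂ := hm ▸ Nat.find_min' hex ⟨hb.lt _ _ _ _ hg, h2⟩
    exact this.trans (hL _ _)
  obtain ⟨h, l, hl⟩ := hV m hmL hm2
  refine ⟨((g₁, h), (i, l)), ?_, hi1, by rw [hl]; exact hm2, by rw [hl]; exact hm3⟩
  rcases lt_trichotomy g₁ h with h' | h' | h'
  · exact h'
  · exfalso
    subst h'
    have := hi2 l (by rw [hl]; exact hm2)
    omega
  · exfalso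
    have := hb.lt h g₁ l i h'
    omega

/-- no local obstruction for the iterates, if there is none for the times and the primes which divide `a - 1` -/
theorem foAdm {a : ℕ} {b : ℤ} (ha : 2 ≤ a) (hab : IsCoprime (a : ℤ) b) {p : ℕ} (hp : p.Prime)
    (E : Set ℕ) (hE : p ∣ a - 1 → ∃ r : ℤ, ∀ v ∈ E, ¬ (p : ℤ) ∣ r + v) :
    ∃ r : ℤ, ∀ v ∈ E, ¬ (p : ℤ) ∣ va a b v r := by
  have hpZ : Prime (p : ℤ) := Nat.prime_iff_prime_int.1 hp
  have hp1 : ¬ (p : ℤ) ∣ 1 := hpZ.not_dvd_one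
  by_cases h1 : (p : ℤ) ∣ a
  · -- then `p` does not divide `b`
    have hb : ¬ (p : ℤ) ∣ b := by
      intro hb
      obtain ⟨u, w, huw⟩ := hab
      exact hp1 (huw ▸ dvd_add (dvd_mul_of_dvd_right h1 u) (dvd_mul_of_dvd_right hb w))
    refine ⟨1, fun v _ hd => ?_⟩
    cases v with
    | zero =>
      rw [va_zero] at hd
      exact hp1 hd
    | succ v =>
      unfold va at hd
      rw [geo_succ] at hd
      have h2 : (p : ℤ) ∣ (a : ℤ) * ((a : ℤ) ^ v + b * geo a v) := dvd_mul_of_dvd_left h1 _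
      have h3 := dvd_sub hd h2
      apply hb
      have h4 : (a : ℤ) ^ (v + 1) * 1 + b * (a * geo a v + 1) - (a : ℤ) * ((a : ℤ) ^ v + b * geo a v) = b := by
        ring
      rwa [h4] at h3
  · by_cases h2 : (p : ℤ) ∣ b
    · refine ⟨1, fun v _ hd => ?_⟩
      unfold va at hd
      rw [mul_one] at hd
      have h3 : (p : ℤ) ∣ (a : ℤ) ^ v := (dvd_add_left (dvd_mul_of_dvd_left h2 _)).1 hd
      exact h1 (hpZ.dvd_of_dvd_pow h3)
    · by_cases h3 : (p : ℤ) ∣ (a : ℤ) - 1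
      · obtain ⟨r, hr⟩ := hE (by
          have h8 : ((a - 1 : ℕ) : ℤ) = (a : ℤ) - 1 := by push_cast [Nat.cast_sub (by omega : 1 ≤ a)]; ring
          rw [← h8] at h3
          exact Int.natCast_dvd_natCast.1 h3)
        refine ⟨b * r, fun v hv hd => ?_⟩
        have h4 : ∀ w : ℕ, (p : ℤ) ∣ geo a w - w ∧ (p : ℤ) ∣ (a : ℤ) ^ w - 1 := by
          intro w
          induction w with
          | zero => simp [geo_zero]
          | succ w ih =>
            constructor
            · rw [geo_succ]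
              have h5 : (a : ℤ) * geo a w + 1 - ((w + 1 : ℕ) : ℤ) =
                  ((a : ℤ) - 1) * geo a w + (geo a w - w) := by push_cast; ring
              rw [h5]
              exact dvd_add (dvd_mul_of_dvd_left h3 _) ih.1
            · have h5 : (a : ℤ) ^ (w + 1) - 1 = ((a : ℤ) - 1) * (a : ℤ) ^ w + ((a : ℤ) ^ w - 1) := by ring
              rw [h5]
              exact dvd_add (dvd_mul_of_dvd_left h3 _) ih.2
        obtain ⟨h5, h6⟩ := h4 v
        unfold va at hd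
        have h7 : (p : ℤ) ∣ b * (r + v) := by
          have h8 := dvd_sub (dvd_sub hd (dvd_mul_of_dvd_left h6 (b * r))) (dvd_mul_of_dvd_right h5 b)
          have e1 : (a : ℤ) ^ v * (b * r) + b * geo a v - ((a : ℤ) ^ v - 1) * (b * r) -
              b * (geo a v - v) = b * (r + v) := by ring
          rwa [e1] at h8
        rcases hpZ.dvd_or_dvd h7 with h8 | h8
        · exact h2 h8
        · exact hr v hv h8
      · have hcop : IsCoprime ((a : ℤ) - 1) (p : ℤ) :=
          ((Prime.coprime_iff_not_dvd hpZ).2 h3).symm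
        obtain ⟨u, w, huw⟩ := hcop
        refine ⟨-b * u, fun v _ hd => ?_⟩
        unfold va at hd
        have h4 : (p : ℤ) ∣ ((a : ℤ) - 1) * ((a : ℤ) ^ v * (-b * u) + b * geo a v) :=
          dvd_mul_of_dvd_right hd _
        have h5 : ((a : ℤ) - 1) * ((a : ℤ) ^ v * (-b * u) + b * geo a v) =
            (a : ℤ) ^ v * b * w * p - b := by
          have h6 : u * ((a : ℤ) - 1) = 1 - w * p := by linarith
          calc ((a : ℤ) - 1) * ((a : ℤ) ^ v * (-b * u) + b * geo a v)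
              = -(a : ℤ) ^ v * b * (u * ((a : ℤ) - 1)) + b * (((a : ℤ) - 1) * geo a v) := by ring
            _ = -(a : ℤ) ^ v * b * (1 - w * p) + b * ((a : ℤ) ^ v - 1) := by rw [h6, geo_mul]
            _ = _ := by ring
        rw [h5] at h4
        apply h2
        exact (dvd_sub_right (dvd_mul_left (p : ℤ) _)).1 h4

/-- the same for the values at `Q n + r` -/
theorem fqAdm {a : ℕ} {b : ℤ} (ha : 2 ≤ a) (hab : IsCoprime (a : ℤ) b) {Q r : ℕ} {p : ℕ} (hp : p.Prime)
    (E : Set ℕ) (hE : p ∣ a - 1 → ∃ r : ℤ, ∀ v ∈ E, ¬ (p : ℤ) ∣ r + v)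
    (hQE : p ∣ Q → ∀ t ∈ E, ¬ (p : ℤ) ∣ va a b t r) :
    ∃ n : ℤ, ∀ v ∈ E, ¬ (p : ℤ) ∣ (fq a b Q r v).1 * n + (fq a b Q r v).2 := by
  by_cases hpQ : p ∣ Q
  · refine ⟨0, fun v hv => ?_⟩
    rw [mul_zero, zero_add]
    exact hQE hpQ v hv
  · obtain ⟨ρ, hρ⟩ := foAdm ha hab hp E hE
    have hpZ : Prime (p : ℤ) := Nat.prime_iff_prime_int.1 hp
    have h1 : IsCoprime (Q : ℤ) (p : ℤ) :=
      ((Prime.coprime_iff_not_dvd hpZ).2 (fun h => hpQ (Int.natCast_dvd_natCast.1 h))).symm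
    obtain ⟨u, w, huw⟩ := h1
    refine ⟨u * (ρ - r), fun v hv hd => hρ v hv ?_⟩
    rw [fq_val] at hd
    have h2 : va a b v (Q * (u * (ρ - r)) + r) =
        va a b v ρ - (p : ℤ) * ((a : ℤ) ^ v * w * (ρ - r)) := by
      have h3 : u * (Q : ℤ) = 1 - w * p := by linarith
      calc va a b v (Q * (u * (ρ - r)) + r)
          = (a : ℤ) ^ v * ((u * Q) * (ρ - r) + r) + b * geo a v := by unfold va; ring
        _ = (a : ℤ) ^ v * ((1 - w * p) * (ρ - r) + r) + b * geo a v := by rw [h3]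
        _ = _ := by unfold va; ring
    rw [h2] at hd
    exact (dvd_sub_left (dvd_mul_right (p : ℤ) _)).1 hd

/-- the scale -/
theorem scaleC (A B M D : ℕ) (hA : 1 ≤ A) : ∀ᶠ X : ℕ in atTop,
    (M : ℝ) * ((X : ℝ) / Real.log X ^ (D + 1)) + B ≤ ((X / (2 * A) : ℕ) : ℝ) /
      Real.log ((X / (2 * A) : ℕ) : ℝ) ^ D := by
  have hlog : ∀ᶠ X : ℕ in atTop, ((8 * A * M : ℕ) : ℝ) ≤ Real.log X :=
    (Real.tendsto_log_atTop.comp tendsto_natCast_atTop_atTop).eventually_ge_atTop _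
  have hlit : ∀ᶠ X : ℕ in atTop, (8 * A * B : ℝ) * Real.log X ^ D ≤ X := by
    have h1 := (Real.isLittleO_pow_log_id_atTop (n := D)).bound
      (show (0 : ℝ) < 1 / (8 * A * B + 1) by positivity)
    filter_upwards [(tendsto_natCast_atTop_atTop (R := ℝ)).eventually h1, eventually_ge_atTop 2]
      with X hX hX2
    have hX2' : (2 : ℝ) ≤ X := by exact_mod_cast hX2
    have hl : 0 < Real.log X := Real.log_pos (by linarith)
    simp only [id] at hX
    rw [Real.norm_of_nonneg (by positivity), Real.norm_of_nonneg (by positivity)] at hX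
    have h2 : (8 * A * B : ℝ) * Real.log X ^ D ≤ (8 * A * B + 1) * (1 / (8 * A * B + 1) * X) := by
      refine mul_le_mul (by linarith) hX (by positivity) (by positivity)
    refine h2.trans (le_of_eq ?_)
    field_simp
  filter_upwards [hlog, hlit, eventually_ge_atTop (8 * A)] with X hX hXl hX8
  obtain ⟨N, hN⟩ : ∃ N, N = X / (2 * A) := ⟨_, rfl⟩
  rw [← hN]
  have hN4 : 4 ≤ N := by
    rw [hN, Nat.le_div_iff_mul_le (by omega)]
    linarith
  have h1 : (X : ℝ) ≤ 4 * A * N := by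
    have h2 : X < 2 * A * (N + 1) := by
      rw [hN]; exact Nat.lt_mul_div_succ _ (by omega)
    have h3 : X ≤ 4 * A * N := by nlinarith
    exact_mod_cast h3
  have h2 : (4 : ℝ) ≤ N := by exact_mod_cast hN4
  have h3 : (N : ℝ) ≤ X := by
    have : N ≤ X := by rw [hN]; exact Nat.div_le_self _ _
    exact_mod_cast this
  have hA' : (1 : ℝ) ≤ A := by exact_mod_cast hA
  have h4 : 0 < Real.log N := Real.log_pos (by linarith)
  have h5 : Real.log N ≤ Real.log X := Real.log_le_log (by linarith) h3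
  have h6 : (0 : ℝ) < Real.log X := by linarith
  have h7 : Real.log N ^ D ≤ Real.log X ^ D := pow_le_pow_left₀ h4.le h5 D
  have h8 : (0 : ℝ) < X := by linarith
  have h6D : (0 : ℝ) < Real.log X ^ D := by positivity
  -- both terms are at most `X / (8 A (log X)^D)`
  have h9 : (M : ℝ) * ((X : ℝ) / Real.log X ^ (D + 1)) ≤ X / (8 * A * Real.log X ^ D) := by
    rw [pow_succ, mul_div_assoc', div_le_div_iff₀ (by positivity) (by positivity)]
    push_cast at hX
    have h10 : (M : ℝ) * X * (8 * A * Real.log X ^ D) = X * Real.log X ^ D * (8 * A * M) := by ring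
    rw [h10]
    calc X * Real.log X ^ D * (8 * A * M) ≤ X * Real.log X ^ D * Real.log X :=
          mul_le_mul_of_nonneg_left hX (by positivity)
      _ = _ := by ring
  have h10 : (B : ℝ) ≤ X / (8 * A * Real.log X ^ D) := by
    rw [le_div_iff₀ (by positivity)]
    calc (B : ℝ) * (8 * A * Real.log X ^ D) = 8 * A * B * Real.log X ^ D := by ring
      _ ≤ X := hXl
  calc (M : ℝ) * ((X : ℝ) / Real.log X ^ (D + 1)) + B
      ≤ X / (8 * A * Real.log X ^ D) + X / (8 * A * Real.log X ^ D) := add_le_add h9 h10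
    _ = (X / (4 * A)) / Real.log X ^ D := by field_simp; ring
    _ ≤ (N : ℝ) / Real.log X ^ D := by
        gcongr
        rw [div_le_iff₀ (by positivity)]
        linarith
    _ ≤ _ := by gcongr

end Pool.Agent.H95SD.CN
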