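import Mathlib
import Pool.Agent.H95SD.CunA

/-!
# Times in the orbits of an affine map with differences from an arithmetic progression

`CPT T l` is the theorem on all patterns of primes and composites for `l + 1` linear forms in different
classes, out of `T` classes. It is applied to the forms `S^τ(Q n + r)`, for an array of times `τ`.
-/

set_option autoImplicit false

open Finset Filter

namespace Pool.Agent.H95SD.CN

open Pool.Agent.N694.OB

/-- all patterns of primes and composites for `l + 1` forms in different classes -/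
def CPT (T l : ℕ) : Prop := ∃ K C : ℕ, 1 ≤ K ∧ ∀ A : ℕ, ∀ᶠ N : ℕ in atTop,
  ∀ F : Fin T → Fin K → ℤ × ℤ, Function.Injective (fun x : Fin T × Fin K => F x.1 x.2) →
  (∀ g i, 1 ≤ (F g i).1 ∧ (F g i).1 ≤ A) → (∀ g i, 100 * |(F g i).2| ≤ N) →
  (∀ p : ℕ, p.Prime → ∃ r : ℤ, ∀ g i, ¬ (p : ℤ) ∣ (F g i).1 * r + (F g i).2) →
  ∃ (γ : Fin (l + 1) → Fin T) (σ : Fin (l + 1) → Fin K), StrictMono γ ∧
    ∀ J : Finset (Fin (l + 1)), (N : ℝ) / Real.log N ^ C ≤ (((Icc 1 N).filter (fun n : ℕ =>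
      ∀ i, ((F (γ i) (σ i)).1 * (n : ℤ) + (F (γ i) (σ i)).2).toNat.Prime ↔ i ∈ J)).card : ℝ)

open Classical in
/-- the number of the `1 ≤ m ≤ X` for which the values at the times `t i` are prime exactly for `i ∈ J` -/
noncomputable def ptn (a : ℕ) (b : ℤ) {l : ℕ} (t : Fin (l + 1) → ℕ) (J : Finset (Fin (l + 1)))
    (X : ℕ) : ℕ :=
  ((Icc 1 X).filter (fun m : ℕ => ∀ i, (va a b (t i) m).toNat.Prime ↔ i ∈ J)).card

open Classical in
/-- the number of the primes `q ≤ X` for which the next prime in the orbit comes at the time `s` -/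
noncomputable def nxt (a : ℕ) (b : ℤ) (s X : ℕ) : ℕ :=
  ((Icc 1 X).filter (fun q : ℕ => q.Prime ∧ (va a b s q).toNat.Prime ∧
    ∀ t, 0 < t → t < s → ¬ (va a b t q).toNat.Prime)).card

/-- the times -/
structure Tms {T l : ℕ} (e : Fin T → ℕ) (k a d w : ℕ) (γ : Fin (l + 1) → Fin T)
    (t : Fin (l + 1) → ℕ) : Prop where
  mono : StrictMono γ
  zero : t 0 = 0
  diff : ∀ i j, i < j → ∃ u < k, t j = t i + (e (γ j) - e (γ i)) * (a + u * d)
  bd : ∀ i, t i ≤ (w + 1) * (a + k * d)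

theorem va_pos {a : ℕ} {b : ℤ} (ha : 2 ≤ a) {Q r n : ℕ} (hQ : 0 < Q) (hn : b.natAbs < n) (t : ℕ) :
    (((va a b t ((Q * n + r : ℕ) : ℤ)).toNat : ℕ) : ℤ) = va a b t ((Q * n + r : ℕ) : ℤ) ∧
    Q * n + r ≤ (va a b t ((Q * n + r : ℕ) : ℤ)).toNat := by
  have hQn : n ≤ Q * n := Nat.le_mul_of_pos_left _ hQ
  have h1 : |b| ≤ ((Q * n + r : ℕ) : ℤ) := by
    have h2 : b.natAbs ≤ Q * n + r := by omega
    have h3 : ((b.natAbs : ℕ) : ℤ) ≤ ((Q * n + r : ℕ) : ℤ) := by exact_mod_cast h2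
    rwa [Int.natCast_natAbs] at h3
  have h2 := le_va (b := b) ha t h1
  have h3 : (0 : ℤ) ≤ va a b t ((Q * n + r : ℕ) : ℤ) := (abs_nonneg b).trans (h1.trans h2)
  have h4 := Int.toNat_of_nonneg h3
  refine ⟨h4, ?_⟩
  have h5 : ((Q * n + r : ℕ) : ℤ) ≤ ((va a b t ((Q * n + r : ℕ) : ℤ)).toNat : ℕ) := by rw [h4]; exact h2
  exact_mod_cast h5

theorem va_split (a : ℕ) (b : ℤ) (t : ℕ) (Q r n : ℕ) :
    va a b t ((Q * n + r : ℕ) : ℤ) = (a : ℤ) ^ t * (Q * n) + va a b t r := by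
  unfold va; push_cast; ring

theorem va_abs {a : ℕ} {b : ℤ} (ha : 2 ≤ a) {t L : ℕ} (ht : t ≤ L) (r : ℕ) :
    |va a b t r| ≤ (a : ℤ) ^ L * r + |b| * geo a L := by
  unfold va
  have ha1 : (1 : ℤ) ≤ a := by exact_mod_cast (by omega : 1 ≤ a)
  have h1 : (a : ℤ) ^ t ≤ (a : ℤ) ^ L := pow_le_pow_right₀ ha1 ht
  have h2 : geo a t ≤ geo a L := by
    unfold geo
    exact sum_le_sum_of_subset_of_nonneg (range_mono ht) fun i _ _ => by positivity
  have h3 : (0 : ℤ) ≤ geo a t := sum_nonneg fun i _ => by positivity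
  calc |(a : ℤ) ^ t * r + b * geo a t| ≤ |(a : ℤ) ^ t * r| + |b * geo a t| := abs_add_le _ _
    _ = (a : ℤ) ^ t * r + |b| * geo a t := by
        rw [abs_mul b, abs_of_nonneg h3, abs_of_nonneg (by positivity)]
    _ ≤ _ := by
        refine add_le_add (mul_le_mul_of_nonneg_right h1 (by positivity))
          (mul_le_mul_of_nonneg_left h2 (abs_nonneg _))

open Classical in
/-- a pigeonhole principle -/
theorem pigeon {ι : Type} [Fintype ι] (S : Finset ℕ) (Z : ι → ℕ → Prop)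
    (h : ∀ n ∈ S, ∃ z, Z z n) (x : ℝ) (hS : (Fintype.card ι : ℝ) * x ≤ S.card) (hne : Nonempty ι) :
    ∃ z, x ≤ ((S.filter (Z z)).card : ℝ) := by
  by_contra hcon
  push Not at hcon
  have h1 : S ⊆ (univ : Finset ι).biUnion (fun z => S.filter (Z z)) := by
    intro n hn
    obtain ⟨z, hz⟩ := h n hn
    exact mem_biUnion.2 ⟨z, mem_univ _, mem_filter.2 ⟨hn, hz⟩⟩
  have h2 := (card_le_card h1).trans card_biUnion_le
  have h3 : (S.card : ℝ) ≤ ∑ z : ι, ((S.filter (Z z)).card : ℝ) := by exact_mod_cast h2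
  have h4 : ∑ z : ι, ((S.filter (Z z)).card : ℝ) < ∑ _z : ι, x :=
    sum_lt_sum_of_nonempty univ_nonempty fun z _ => hcon z
  rw [sum_const, card_univ, nsmul_eq_mul] at h4
  linarith

open Classical in
/-- **The orbit theorem.** -/
theorem orb (T l : ℕ) (hP : CPT T l) (w : ℕ) (e : Fin T → ℕ) (he : StrictMono e)
    (hew : ∀ g, e g ≤ w) : ∃ k B : ℕ, 2 ≤ k ∧ ∀ (a : ℕ) (b : ℤ), 2 ≤ a → IsCoprime (a : ℤ) b →
    (∀ p : ℕ, p.Prime → p ∣ a - 1 → ∃ n : ℤ, ∀ g, ¬ (p : ℤ) ∣ n + e g) →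
    ∀ α d : ℕ, 1 ≤ α → 1 ≤ d → ∀ᶠ X : ℕ in atTop,
      (∃ (γ : Fin (l + 1) → Fin T) (t : Fin (l + 1) → ℕ), Tms e k α d w γ t ∧
        ∀ J : Finset (Fin (l + 1)), (X : ℝ) / Real.log X ^ B ≤ (ptn a b t J X : ℝ)) ∧
      (1 ≤ l → ∃ g h : Fin T, g < h ∧ ∃ j < k,
        (X : ℝ) / Real.log X ^ B ≤ (nxt a b ((e h - e g) * (α + j * d)) X : ℝ)) := by
  obtain ⟨K, C, hK, hP⟩ := hP
  obtain ⟨k, hk, harr⟩ := arrayC T K w hK e he hew
  refine ⟨k, C + 1, hk, ?_⟩
  intro a b ha hab hadm α d hα hd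
  obtain ⟨τ, hτ⟩ := harr α d hα hd
  obtain ⟨L, hL⟩ : ∃ L, L = (w + 1) * (α + k * d) := ⟨_, rfl⟩
  have hτL : ∀ g i, τ g i ≤ L := fun g i => hL ▸ hτ.le g i
  obtain ⟨E, hE⟩ : ∃ E : Finset ℕ, E = univ.image (fun x : Fin T × Fin K => τ x.1 x.2) := ⟨_, rfl⟩
  have hmE : ∀ g i, τ g i ∈ E := fun g i => by
    rw [hE]; exact mem_image_of_mem (fun x : Fin T × Fin K => τ x.1 x.2) (mem_univ (g, i))
  have hEm : ∀ t ∈ E, ∃ g i, τ g i = t := by
    intro t ht
    rw [hE] at ht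
    obtain ⟨⟨g, i⟩, -, h⟩ := mem_image.1 ht
    exact ⟨g, i, h⟩
  have hb : b ≠ 0 := by
    rintro rfl
    have h1 : IsUnit (a : ℤ) := isCoprime_zero_right.1 hab
    have h2 := Int.isUnit_iff.1 h1
    omega
  obtain ⟨Q, r, hQ, hb1, hb2⟩ := block a b ha hb L E (by
    intro t ht
    obtain ⟨g, i, rfl⟩ := hEm t ht
    exact hτL g i)
  obtain ⟨A, hA⟩ : ∃ A : ℕ, A = a ^ L * Q := ⟨_, rfl⟩
  have hA1 : 1 ≤ A := by
    rw [hA]; exact Nat.mul_pos (Nat.pow_pos (by omega)) hQ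
  obtain ⟨B₁, hB₁⟩ : ∃ B₁ : ℕ, (B₁ : ℤ) = (a : ℤ) ^ L * r + |b| * geo a L := by
    have h3 : (0 : ℤ) ≤ geo a L := sum_nonneg fun i _ => by positivity
    have h4 : (0 : ℤ) ≤ (a : ℤ) ^ L * r + |b| * geo a L := by positivity
    exact ⟨((a : ℤ) ^ L * r + |b| * geo a L).toNat, Int.toNat_of_nonneg h4⟩
  have hva : ∀ t ≤ L, |va a b t r| ≤ B₁ := fun t ht => hB₁ ▸ va_abs ha ht r
  obtain ⟨B₀, hB₀⟩ : ∃ B₀ : ℕ, B₀ = Q + b.natAbs := ⟨_, rfl⟩
  have hdiv : Tendsto (fun X : ℕ => X / (2 * A)) atTop atTop := by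
    refine tendsto_atTop.2 fun c => ?_
    filter_upwards [eventually_ge_atTop (c * (2 * A))] with X hX
    exact (Nat.le_div_iff_mul_le (by omega)).2 hX
  filter_upwards [hdiv.eventually (hP A), scaleC A B₀ ((T * T) * (K * K) + 1) C hA1,
    hdiv.eventually (eventually_ge_atTop (100 * B₁ + 4)), eventually_ge_atTop 3] with X hN hsc hNB hX3
  obtain ⟨N, hNd⟩ : ∃ N, N = X / (2 * A) := ⟨_, rfl⟩
  rw [← hNd] at hN hsc hNB
  have hX3' : (3 : ℝ) ≤ X := by exact_mod_cast hX3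
  have hlX : 0 < Real.log X := Real.log_pos (by linarith)
  have h2AN : 2 * A * N ≤ X := by rw [hNd]; exact Nat.mul_div_le X (2 * A)
  -- the values are at most `X`
  have hup : ∀ t ≤ L, ∀ n ≤ N, b.natAbs < n →
      (va a b t ((Q * n + r : ℕ) : ℤ)).toNat ≤ X := by
    intro t ht n hn hbn
    have h1 := (va_pos (r := r) ha hQ hbn t).1
    have h2 : (((va a b t ((Q * n + r : ℕ) : ℤ)).toNat : ℕ) : ℤ) ≤ A * N + B₁ := by
      rw [h1, va_split]
      have h3 := (le_abs_self _).trans (hva t ht)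
      have ha1 : (1 : ℤ) ≤ a := by exact_mod_cast (by omega : 1 ≤ a)
      have h4 : (a : ℤ) ^ t ≤ (a : ℤ) ^ L := pow_le_pow_right₀ ha1 ht
      have h5 : (a : ℤ) ^ t * (Q * n) ≤ A * N := by
        rw [hA]
        push_cast
        have h6 : (n : ℤ) ≤ N := by exact_mod_cast hn
        calc (a : ℤ) ^ t * (Q * n) ≤ (a : ℤ) ^ L * (Q * N) :=
              mul_le_mul h4 (mul_le_mul_of_nonneg_left h6 (by positivity)) (by positivity) (by positivity)
          _ = _ := by ring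
      linarith
    have h3 : B₁ ≤ N := by omega
    have h4 : N ≤ A * N := Nat.le_mul_of_pos_left _ (by omega)
    have h5 : A * N + B₁ ≤ X := by
      have : 2 * A * N = A * N + A * N := by ring
      omega
    have h6 : (va a b t ((Q * n + r : ℕ) : ℤ)).toNat ≤ A * N + B₁ := by exact_mod_cast h2
    omega
  obtain ⟨γ, σ, hγ, hJ⟩ := hN (fun g i => fq a b Q r (τ g i))
    (by
      rintro ⟨g, i⟩ ⟨h, j⟩ heq
      exact hτ.inj (fq_inj ha hQ heq))
    (by
      intro g i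
      constructor
      · have := fq_pos (b := b) (r := r) ha hQ (τ g i)
        omega
      · show (a : ℤ) ^ (τ g i) * Q ≤ A
        rw [hA]
        push_cast
        refine mul_le_mul_of_nonneg_right ?_ (by positivity)
        exact pow_le_pow_right₀ (by exact_mod_cast (by omega : 1 ≤ a)) (hτL g i))
    (by
      intro g i
      show 100 * |va a b (τ g i) r| ≤ N
      have h1 := hva _ (hτL g i)
      have h2 : ((100 * B₁ : ℕ) : ℤ) ≤ N := by exact_mod_cast (by omega : 100 * B₁ ≤ N)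
      push_cast at h2
      linarith)
    (by
      intro p hp
      obtain ⟨n, hn⟩ := fqAdm (Q := Q) (r := r) ha hab hp (E : Set ℕ) (by
        intro hpa
        obtain ⟨s, hs⟩ := hτ.loc p hp (hadm p hp hpa)
        refine ⟨s, fun v hv => ?_⟩
        obtain ⟨g, i, rfl⟩ := hEm v hv
        exact hs g i) (fun hpQ t ht => hb2 p hp hpQ t ht)
      exact ⟨n, fun g i => hn _ (hmE g i)⟩)
  simp only [fq_val] at hJ
  obtain ⟨Sj, hSj⟩ : ∃ Sj : Finset (Fin (l + 1)) → Finset ℕ, Sj = fun J => (Icc 1 N).filter (fun n : ℕ =>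
      ∀ i, (va a b (τ (γ i) (σ i)) (Q * (n : ℤ) + r)).toNat.Prime ↔ i ∈ J) := ⟨_, rfl⟩
  have hJ' : ∀ J, (N : ℝ) / Real.log N ^ C ≤ ((Sj J).card : ℝ) := fun J => by rw [hSj]; exact hJ J
  -- the large elements
  obtain ⟨Tj, hTj⟩ : ∃ Tj : Finset (Fin (l + 1)) → Finset ℕ, Tj = fun J => (Sj J).filter (fun n => B₀ < n) :=
    ⟨_, rfl⟩
  have hTc : ∀ J, ((Sj J).card : ℝ) ≤ (Tj J).card + B₀ := by
    intro J
    have h5 := Finset.card_filter_add_card_filter_not (s := Sj J) (fun n => B₀ < n)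
    have h6 : ((Sj J).filter (fun n => ¬ B₀ < n)).card ≤ B₀ := by
      have h7 : (Sj J).filter (fun n => ¬ B₀ < n) ⊆ Icc 1 B₀ := by
        intro n hn
        obtain ⟨hnA, hny⟩ := mem_filter.1 hn
        rw [hSj] at hnA
        exact mem_Icc.2 ⟨(mem_Icc.1 (mem_filter.1 hnA).1).1, by omega⟩
      have h8 := card_le_card h7
      rwa [Nat.card_Icc, Nat.add_sub_cancel] at h8
    have h9 : (Sj J).card ≤ (Tj J).card + B₀ := by
      rw [hTj]
      show (Sj J).card ≤ ((Sj J).filter (fun n => B₀ < n)).card + B₀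
      omega
    exact_mod_cast h9
  have hTm : ∀ J, ∀ n ∈ Tj J, (1 ≤ n ∧ n ≤ N) ∧ B₀ < n ∧
      ∀ i, (va a b (τ (γ i) (σ i)) ((Q * n + r : ℕ) : ℤ)).toNat.Prime ↔ i ∈ J := by
    intro J n hn
    rw [hTj] at hn
    obtain ⟨h1, h2⟩ := mem_filter.1 hn
    rw [hSj] at h1
    obtain ⟨h3, h4⟩ := mem_filter.1 h1
    refine ⟨mem_Icc.1 h3, h2, fun i => ?_⟩
    push_cast
    exact h4 i
  have hcnt : ∀ J, (((T * T) * (K * K) + 1 : ℕ) : ℝ) * ((X : ℝ) / Real.log X ^ (C + 1)) ≤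
      ((Tj J).card : ℝ) := by
    intro J
    have h1 := hJ' J
    have h2 := hTc J
    linarith
  have hXnn : 0 ≤ (X : ℝ) / Real.log X ^ (C + 1) := by positivity
  have hτ0 : ∀ i, τ (γ 0) (σ 0) ≤ τ (γ i) (σ i) := by
    intro i
    rcases eq_or_ne i 0 with h | h
    · rw [h]
    · exact (hτ.lt _ _ _ _ (hγ (Fin.pos_of_ne_zero h))).le
  constructor
  · refine ⟨γ, fun i => τ (γ i) (σ i) - τ (γ 0) (σ 0), ⟨hγ, Nat.sub_self _, ?_, ?_⟩, ?_⟩
    · intro i j hij
      obtain ⟨u, hu, h1⟩ := hτ.cross _ _ (σ i) (σ j) (hγ hij)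
      refine ⟨u, hu, ?_⟩
      have h2 := hτ0 i
      omega
    · intro i
      have := hτL (γ i) (σ i)
      omega
    · intro J
      have h1 : ((Tj J).card : ℝ) ≤ (ptn a b (fun i => τ (γ i) (σ i) - τ (γ 0) (σ 0)) J X : ℝ) := by
        rw [Nat.cast_le]
        unfold ptn
        refine card_le_card_of_injOn
          (fun n : ℕ => (va a b (τ (γ 0) (σ 0)) ((Q * n + r : ℕ) : ℤ)).toNat) ?_ ?_
        · intro n hn
          obtain ⟨hn1, hn2, hn3⟩ := hTm J n (mem_coe.1 hn)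
          have hbn : b.natAbs < n := by omega
          obtain ⟨h4, h5⟩ := va_pos (r := r) ha hQ hbn (τ (γ 0) (σ 0))
          refine mem_coe.2 (mem_filter.2 ⟨mem_Icc.2 ⟨?_, hup _ (hτL _ _) n hn1.2 hbn⟩, fun i => ?_⟩)
          · have : n ≤ Q * n := Nat.le_mul_of_pos_left _ hQ
            show 1 ≤ (va a b (τ (γ 0) (σ 0)) ((Q * n + r : ℕ) : ℤ)).toNat
            omega
          · rw [h4, ← va_comp, Nat.add_sub_cancel' (hτ0 i)]
            exact hn3 i
        · intro n hn n' hn' heq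
          obtain ⟨hn1, hn2, -⟩ := hTm J n (mem_coe.1 hn)
          obtain ⟨hn1', hn2', -⟩ := hTm J n' (mem_coe.1 hn')
          have h4 := (va_pos (r := r) ha hQ (by omega : b.natAbs < n) (τ (γ 0) (σ 0))).1
          have h5 := (va_pos (r := r) ha hQ (by omega : b.natAbs < n') (τ (γ 0) (σ 0))).1
          have h6 : (va a b (τ (γ 0) (σ 0)) ((Q * n + r : ℕ) : ℤ)).toNat =
            (va a b (τ (γ 0) (σ 0)) ((Q * n' + r : ℕ) : ℤ)).toNat := heq
          have h7 := va_inj ha _ (h4.symm.trans ((congrArg Nat.cast h6).trans h5))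
          have h8 : Q * n + r = Q * n' + r := by exact_mod_cast h7
          exact Nat.eq_of_mul_eq_mul_left hQ (Nat.add_right_cancel h8)
      refine le_trans ?_ ((hcnt J).trans h1)
      have h2 : (1 : ℝ) ≤ (((T * T) * (K * K) + 1 : ℕ) : ℝ) := by
        exact_mod_cast (by omega : 1 ≤ (T * T) * (K * K) + 1)
      nlinarith
  · intro hl
    -- the primes in the window
    have hwin : ∀ n : ℕ, B₀ < n → ∀ t ≤ L, (va a b t ((Q * n + r : ℕ) : ℤ)).toNat.Prime →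
        ∃ g i, τ g i = t := by
      intro n hn t ht hpr
      by_contra hcon
      have htE : t ∉ E := fun h => hcon (hEm t h)
      obtain ⟨p, hp, hpQ, hpd⟩ := hb1 t ht htE
      obtain ⟨h4, h5⟩ := va_pos (r := r) ha hQ (by omega : b.natAbs < n) t
      have h6 : (p : ℤ) ∣ va a b t ((Q * n + r : ℕ) : ℤ) := by
        rw [va_split]
        exact dvd_add ((((Int.natCast_dvd_natCast.2 hpQ).mul_right (n : ℤ))).mul_left _) hpd
      rw [← h4] at h6
      have h7 := (Nat.prime_dvd_prime_iff_eq hp hpr).1 (Int.natCast_dvd_natCast.1 h6)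
      have h8 := Nat.le_of_dvd hQ hpQ
      have h9 : n ≤ Q * n := Nat.le_mul_of_pos_left _ hQ
      omega
    have h01 : (0 : Fin (l + 1)) < Fin.last l := by
      rw [Fin.lt_def]
      show 0 < l
      omega
    have hne : Nonempty ((Fin T × Fin T) × (Fin K × Fin K)) :=
      ⟨((γ 0, γ 0), (σ 0, σ 0))⟩
    obtain ⟨⟨⟨g, h⟩, ⟨i, j⟩⟩, hz⟩ := pigeon (ι := (Fin T × Fin T) × (Fin K × Fin K)) (Tj univ)
      (fun z n => z.1.1 < z.1.2 ∧
        (va a b (τ z.1.1 z.2.1) ((Q * n + r : ℕ) : ℤ)).toNat.Prime ∧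
        (va a b (τ z.1.2 z.2.2) ((Q * n + r : ℕ) : ℤ)).toNat.Prime ∧
        ∀ t, τ z.1.1 z.2.1 < t → t < τ z.1.2 z.2.2 →
          ¬ (va a b t ((Q * n + r : ℕ) : ℤ)).toNat.Prime)
      (by
        intro n hn
        obtain ⟨hn1, hn2, hn3⟩ := hTm univ n hn
        exact adjP hτ (fun t => (va a b t ((Q * n + r : ℕ) : ℤ)).toNat.Prime) L hτL (hwin n hn2) (hγ h01)
          ((hn3 0).2 (mem_univ _)) ((hn3 (Fin.last l)).2 (mem_univ _)))
      ((X : ℝ) / Real.log X ^ (C + 1))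
      (by
        refine le_trans ?_ (hcnt univ)
        refine mul_le_mul_of_nonneg_right ?_ hXnn
        rw [Fintype.card_prod, Fintype.card_prod, Fintype.card_prod, Fintype.card_fin, Fintype.card_fin]
        exact_mod_cast Nat.le_succ _) hne
    simp only at hz
    obtain ⟨R, hR⟩ : ∃ R : Finset ℕ, R = (Tj univ).filter (fun n => g < h ∧
        (va a b (τ g i) ((Q * n + r : ℕ) : ℤ)).toNat.Prime ∧
        (va a b (τ h j) ((Q * n + r : ℕ) : ℤ)).toNat.Prime ∧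
        ∀ t, τ g i < t → t < τ h j → ¬ (va a b t ((Q * n + r : ℕ) : ℤ)).toNat.Prime) := ⟨_, rfl⟩
    rw [← hR] at hz
    have hRne : R.Nonempty := by
      rw [← Finset.card_pos]
      by_contra h0
      have h1 : R.card = 0 := by omega
      rw [h1, Nat.cast_zero] at hz
      have h2 : 0 < (X : ℝ) / Real.log X ^ (C + 1) := by positivity
      linarith
    obtain ⟨n₀, hn₀⟩ := hRne
    have hgh : g < h := by
      rw [hR] at hn₀
      exact (mem_filter.1 hn₀).2.1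
    obtain ⟨u, hu, hcr⟩ := hτ.cross g h i j hgh
    refine ⟨g, h, hgh, u, hu, hz.trans ?_⟩
    rw [Nat.cast_le]
    unfold nxt
    refine card_le_card_of_injOn (fun n : ℕ => (va a b (τ g i) ((Q * n + r : ℕ) : ℤ)).toNat) ?_ ?_
    · intro n hn
      have hn := mem_coe.1 hn
      rw [hR] at hn
      obtain ⟨h1, -, h2, h3, h4⟩ := mem_filter.1 hn
      obtain ⟨hn1, hn2, -⟩ := hTm univ n h1
      have hbn : b.natAbs < n := by omega
      obtain ⟨h5, h6⟩ := va_pos (r := r) ha hQ hbn (τ g i)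
      refine mem_coe.2 (mem_filter.2 ⟨mem_Icc.2 ⟨h2.one_lt.le, hup _ (hτL _ _) n hn1.2 hbn⟩, h2, ?_, ?_⟩)
      · rw [h5, ← va_comp, ← hcr]
        exact h3
      · intro t ht0 hts
        rw [h5, ← va_comp]
        exact h4 _ (by omega) (by omega)
    · intro n hn n' hn' heq
      have hn := mem_coe.1 hn
      have hn' := mem_coe.1 hn'
      rw [hR] at hn hn'
      obtain ⟨hn1, hn2, -⟩ := hTm univ n (mem_filter.1 hn).1
      obtain ⟨hn1', hn2', -⟩ := hTm univ n' (mem_filter.1 hn').1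
      have h4 := (va_pos (r := r) ha hQ (by omega : b.natAbs < n) (τ g i)).1
      have h5 := (va_pos (r := r) ha hQ (by omega : b.natAbs < n') (τ g i)).1
      have h6 : (va a b (τ g i) ((Q * n + r : ℕ) : ℤ)).toNat =
        (va a b (τ g i) ((Q * n' + r : ℕ) : ℤ)).toNat := heq
      have h7 := va_inj ha _ (h4.symm.trans ((congrArg Nat.cast h6).trans h5))
      have h8 : Q * n + r = Q * n' + r := by exact_mod_cast h7
      exact Nat.eq_of_mul_eq_mul_left hQ (Nat.add_right_cancel h8)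

end Pool.Agent.H95SD.CN
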