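import Mathlib
import Pool.Agent.H95SD.CunB

/-!
# Times with differences in a set which contains a long arithmetic progression
-/

set_option autoImplicit false

open Finset Filter

namespace Pool.Agent.H95SD.CN

open Pool.Agent.N694.OB

theorem freq_pick {ι : Type} [Finite ι] (P : ι → ℕ → Prop) (h : ∀ᶠ X in atTop, ∃ i, P i X) :
    ∃ i, ∃ᶠ X in atTop, P i X := by
  by_contra hcon
  push Not at hcon
  have h1 : ∀ᶠ X : ℕ in atTop, ∀ i, ¬ P i X := by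
    rw [eventually_all]
    intro i
    exact hcon i
  obtain ⟨X, ⟨i, hi⟩, hX⟩ := (h.and h1).exists
  exact hX i hi

/-- `s` lists elements of `E`, the first time is `0`, the differences are in `(j - i) A` -/
structure Tim (E : Finset ℕ) (A : Set ℕ) {l : ℕ} (s t : Fin (l + 1) → ℕ) : Prop where
  mono : StrictMono s
  mem : ∀ i, s i ∈ E
  zero : t 0 = 0
  diff : ∀ i j, i < j → ∃ c ∈ A, t j = t i + (s j - s i) * c

/-- the set misses a class modulo every prime factor of `a - 1` -/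
def AdC (a : ℕ) (E : Finset ℕ) : Prop :=
  ∀ p : ℕ, p.Prime → p ∣ a - 1 → ∃ r < p, ∀ s ∈ E, s % p ≠ r

theorem adC_of {a : ℕ} {E : Finset ℕ} (h : AdC a E) (p : ℕ) (hp : p.Prime) (hpa : p ∣ a - 1) :
    ∃ n : ℤ, ∀ s ∈ E, ¬ (p : ℤ) ∣ n + s := by
  obtain ⟨r, hr, h1⟩ := h p hp hpa
  refine ⟨-r, fun i hi hd => h1 i hi ?_⟩
  have h2 : ((i : ℕ) : ℤ) ≡ r [ZMOD p] := by
    apply Int.ModEq.symm
    rw [Int.modEq_iff_dvd]
    have e : (i : ℤ) - r = -r + i := by ring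
    rw [e]; exact hd
  have h3 : i ≡ r [MOD p] := (Int.natCast_modEq_iff).1 h2
  have h4 : i % p = r % p := h3
  rw [h4, Nat.mod_eq_of_lt hr]

/-- **The theorem for sets which contain an arithmetic progression.** -/
theorem mainC (E : Finset ℕ) (l : ℕ) (hP : CPT E.card l) : ∃ B k : ℕ, 2 ≤ k ∧
    ∀ (a : ℕ) (b : ℤ), 2 ≤ a → IsCoprime (a : ℤ) b → AdC a E → ∀ α d : ℕ, 1 ≤ α → 1 ≤ d →
    ∀ A : Set ℕ, (∀ j < k, α + j * d ∈ A) →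
      (∀ᶠ X : ℕ in atTop, ∃ s t : Fin (l + 1) → ℕ, Tim E A s t ∧
        ∀ J : Finset (Fin (l + 1)), (X : ℝ) / Real.log X ^ B ≤ (ptn a b t J X : ℝ)) ∧
      (∃ s t : Fin (l + 1) → ℕ, Tim E A s t ∧ ∃ᶠ X : ℕ in atTop,
        ∀ J : Finset (Fin (l + 1)), (X : ℝ) / Real.log X ^ B ≤ (ptn a b t J X : ℝ)) ∧
      (1 ≤ l → ∀ᶠ X : ℕ in atTop, ∃ c ∈ A, ∃ i ∈ E, ∃ j ∈ E, i < j ∧
        (X : ℝ) / Real.log X ^ B ≤ (nxt a b ((j - i) * c) X : ℝ)) ∧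
      (1 ≤ l → ∃ c ∈ A, ∃ i ∈ E, ∃ j ∈ E, i < j ∧ ∃ᶠ X : ℕ in atTop,
        (X : ℝ) / Real.log X ^ B ≤ (nxt a b ((j - i) * c) X : ℝ)) := by
  classical
  obtain ⟨T, hT⟩ : ∃ T, T = E.card := ⟨_, rfl⟩
  rw [← hT] at hP
  obtain ⟨e, he, heE⟩ : ∃ e : Fin T → ℕ, StrictMono e ∧ ∀ n, n ∈ E ↔ ∃ g, e g = n := by
    refine ⟨E.orderEmbOfFin hT.symm, (E.orderEmbOfFin hT.symm).strictMono, fun n => ?_⟩
    have h1 := Finset.range_orderEmbOfFin E hT.symm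
    constructor
    · intro hn
      have h2 : n ∈ Set.range (E.orderEmbOfFin hT.symm) := by rw [h1]; exact hn
      exact h2
    · rintro ⟨g, rfl⟩
      exact E.orderEmbOfFin_mem hT.symm g
  have hew : ∀ g, e g ≤ E.sup id := fun g => Finset.le_sup (f := id) ((heE _).2 ⟨g, rfl⟩)
  obtain ⟨w, hw⟩ : ∃ w, w = E.sup id := ⟨_, rfl⟩
  obtain ⟨k, B, hk, h⟩ := orb T l hP w e he (hw ▸ hew)
  refine ⟨B, k, hk, ?_⟩
  intro a b ha hab hadm α d hα hd A hA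
  have h := h a b ha hab (fun p hp hpa => by
    obtain ⟨n, hn⟩ := adC_of hadm p hp hpa
    exact ⟨n, fun g => hn _ ((heE _).2 ⟨g, rfl⟩)⟩) α d hα hd
  have htim : ∀ (γ : Fin (l + 1) → Fin T) (t : Fin (l + 1) → ℕ), Tms e k α d w γ t →
      Tim E A (fun i => e (γ i)) t := by
    intro γ t ht
    refine ⟨he.comp ht.mono, fun i => (heE _).2 ⟨γ i, rfl⟩, ht.zero, fun i j hij => ?_⟩
    obtain ⟨u, hu, h1⟩ := ht.diff i j hij
    exact ⟨α + u * d, hA u hu, h1⟩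
  refine ⟨?_, ?_, fun hl => ?_, fun hl => ?_⟩
  · filter_upwards [h] with X hX
    obtain ⟨⟨γ, t, ht, hJ⟩, -⟩ := hX
    exact ⟨_, t, htim γ t ht, hJ⟩
  · obtain ⟨L, hL⟩ : ∃ L, L = (w + 1) * (α + k * d) := ⟨_, rfl⟩
    have h3 : ∀ᶠ X : ℕ in atTop, ∃ z : (Fin (l + 1) → Fin T) × (Fin (l + 1) → Fin (L + 1)),
        Tms e k α d w z.1 (fun i => (z.2 i : ℕ)) ∧
        ∀ J : Finset (Fin (l + 1)), (X : ℝ) / Real.log X ^ B ≤ (ptn a b (fun i => (z.2 i : ℕ)) J X : ℝ) := by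
      filter_upwards [h] with X hX
      obtain ⟨⟨γ, t, ht, hJ⟩, -⟩ := hX
      have hb : ∀ i, t i < L + 1 := fun i => Nat.lt_succ_of_le (hL ▸ ht.bd i)
      exact ⟨(γ, fun i => ⟨t i, hb i⟩), ht, hJ⟩
    obtain ⟨⟨γ, t⟩, hz⟩ := freq_pick _ h3
    simp only at hz
    obtain ⟨x, hx, -⟩ := hz.exists
    exact ⟨_, _, htim γ _ hx, hz.mono fun X hX => hX.2⟩
  · filter_upwards [h] with X hX
    obtain ⟨g, g', hg, j, hj, h1⟩ := hX.2 hl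
    exact ⟨α + j * d, hA j hj, e g, (heE _).2 ⟨g, rfl⟩, e g', (heE _).2 ⟨g', rfl⟩, he hg, h1⟩
  · have h3 : ∀ᶠ X : ℕ in atTop, ∃ z : (Fin T × Fin T) × Fin k, z.1.1 < z.1.2 ∧
        (X : ℝ) / Real.log X ^ B ≤ (nxt a b ((e z.1.2 - e z.1.1) * (α + z.2 * d)) X : ℝ) := by
      filter_upwards [h] with X hX
      obtain ⟨g, g', hg, j, hj, h1⟩ := hX.2 hl
      exact ⟨((g, g'), ⟨j, hj⟩), hg, h1⟩
    obtain ⟨⟨⟨g, g'⟩, j⟩, hz⟩ := freq_pick _ h3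
    simp only at hz
    obtain ⟨x, hx, -⟩ := hz.exists
    exact ⟨α + j * d, hA j j.2, e g, (heE _).2 ⟨g, rfl⟩, e g', (heE _).2 ⟨g', rfl⟩, he hx,
      hz.mono fun X hX => hX.2⟩

end Pool.Agent.H95SD.CN
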