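import Mathlib
import Pool.Agent.N646.AC.Fin
import Pool.Agent.H95SD.CunB

/-!
# All patterns for forms in different classes

From the theorem on almost complete sets of linear forms (`Pool.Agent.N646.AC.covU`).
-/

set_option autoImplicit false

open Finset Filter

namespace Pool.Agent.H95SD.CN

open Pool.Agent.N646.AC Pool.Agent.Y827.GS Pool.Agent.Y827.RO Pool.Agent.Y827.HD

/-- the forms are admitted -/
theorem adf_of {A N : ℕ} {f : ℤ × ℤ} (h1 : 1 ≤ f.1) (h2 : f.1 ≤ A) (h3 : 100 * |f.2| ≤ N)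
    (hloc : ∀ p : ℕ, p.Prime → ∃ r : ℤ, ¬ (p : ℤ) ∣ f.1 * r + f.2) : Adf A N f := by
  have h0 : (0 : ℤ) ≤ |f.2| := abs_nonneg _
  refine ⟨by omega, ?_, by omega, ?_, fun t ht _ => ?_⟩
  · rw [abs_of_nonneg (by omega)]
    exact h2
  · rw [Int.isCoprime_iff_gcd_eq_one]
    by_contra hne
    obtain ⟨p, hp, hpd⟩ := Nat.exists_prime_and_dvd hne
    have h5 : (p : ℤ) ∣ (Int.gcd f.1 f.2 : ℤ) := Int.natCast_dvd_natCast.2 hpd
    have h6 := h5.trans (Int.gcd_dvd_left _ _)
    have h7 := h5.trans (Int.gcd_dvd_right _ _)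
    obtain ⟨r, hr⟩ := hloc p hp
    exact hr (dvd_add (Dvd.dvd.mul_right h6 _) h7)
  · have h4 : (100 : ℝ) * |(f.2 : ℝ)| ≤ N := by
      have h5 : ((100 * |f.2| : ℤ) : ℝ) ≤ N := by exact_mod_cast h3
      rw [Int.cast_mul, Int.cast_abs] at h5
      exact_mod_cast h5
    have h5 := neg_abs_le (f.2 : ℝ)
    have h6 : (1 : ℝ) ≤ (f.1 : ℝ) := by exact_mod_cast h1
    have h7 : 0 ≤ (N : ℝ) / 16 := by positivity
    have h8 : t ≤ (f.1 : ℝ) * t := le_mul_of_one_le_left (by linarith) h6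
    linarith

/-- the total number of elements of the sets which cover almost all elements (a copy of
`Pool.Agent.N646.AC.sum_rare`, which is in a file with many more imports) -/
theorem sumRare {m : ℕ} (V : Finset (ℤ × ℤ)) (U : Fin m → Finset (ℤ × ℤ)) (hU : ∀ j, U j ⊆ V)
    (s e : ℝ) (hs : 0 ≤ s) (h : ((rare V U s).card : ℝ) ≤ e * V.card) :
    s * m * ((1 - e) * V.card) ≤ ∑ j, ((U j).card : ℝ) := by
  classical
  have e1 : ∑ j, ((U j).card : ℝ) = ∑ v ∈ V, ((univ.filter (fun j => v ∈ U j)).card : ℝ) := by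
    have h1 : ∀ j, ((U j).card : ℝ) = ∑ v ∈ V, if v ∈ U j then (1 : ℝ) else 0 := by
      intro j
      rw [← sum_filter, sum_const, nsmul_eq_mul, mul_one]
      congr 2
      ext v
      rw [mem_filter]
      exact ⟨fun hv => ⟨hU j hv, hv⟩, fun hv => hv.2⟩
    rw [sum_congr rfl (fun j _ => h1 j), sum_comm]
    refine sum_congr rfl fun v _ => ?_
    rw [← sum_filter, sum_const, nsmul_eq_mul, mul_one]
  rw [e1]
  have h2 : ∑ v ∈ V \ rare V U s, ((univ.filter (fun j => v ∈ U j)).card : ℝ) ≤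
      ∑ v ∈ V, ((univ.filter (fun j => v ∈ U j)).card : ℝ) :=
    sum_le_sum_of_subset_of_nonneg sdiff_subset fun _ _ _ => Nat.cast_nonneg _
  refine le_trans ?_ h2
  have h3 : ∀ v ∈ V \ rare V U s, s * m ≤ ((univ.filter (fun j => v ∈ U j)).card : ℝ) := by
    intro v hv
    rw [Finset.mem_sdiff] at hv
    by_contra hcon
    push Not at hcon
    apply hv.2
    unfold rare
    rw [mem_filter]
    exact ⟨hv.1, hcon⟩
  have h4 : s * m * ((V \ rare V U s).card : ℝ) ≤
      ∑ v ∈ V \ rare V U s, ((univ.filter (fun j => v ∈ U j)).card : ℝ) := by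
    calc s * m * ((V \ rare V U s).card : ℝ) = ∑ _v ∈ V \ rare V U s, s * m := by
          rw [sum_const, nsmul_eq_mul]; ring
      _ ≤ _ := sum_le_sum h3
  refine le_trans ?_ h4
  have h5 : ((V \ rare V U s).card : ℝ) + (rare V U s).card = V.card := by
    have h6 : rare V U s ⊆ V := by unfold rare; exact filter_subset _ _
    exact_mod_cast card_sdiff_add_card_eq_card h6
  have h6 : (1 - e) * (V.card : ℝ) ≤ ((V \ rare V U s).card : ℝ) := by linarith
  exact mul_le_mul_of_nonneg_left h6 (by positivity)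

open Classical in
theorem cpt_of (T l : ℕ) (hTl : 18 * l < 5 * T) : CPT T l := by
  have hT1 : 1 ≤ T := by omega
  have hTR : (1 : ℝ) ≤ T := by exact_mod_cast hT1
  obtain ⟨η, hη⟩ : ∃ η : ℝ, η = 5 / 18 * T - l := ⟨_, rfl⟩
  have hη0 : 0 < η := by
    have : (18 * l : ℝ) < 5 * T := by exact_mod_cast hTl
    rw [hη]; linarith
  obtain ⟨c, hc⟩ : ∃ c : ℝ, c = η / (4 * T) := ⟨_, rfl⟩
  have hc0 : 0 < c := by rw [hc]; positivity
  obtain ⟨ε, hε⟩ : ∃ ε : ℝ, ε = min (1 / 18) (min (η / (4 * T)) ((c / T) ^ (l + 1) / 2)) := ⟨_, rfl⟩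
  have hε0 : 0 < ε := by rw [hε]; exact lt_min (by norm_num) (lt_min (by positivity) (by positivity))
  have hε1 : ε ≤ 1 / 18 := by rw [hε]; exact min_le_left _ _
  have hε2 : ε ≤ η / (4 * T) := by rw [hε]; exact (min_le_right _ _).trans (min_le_left _ _)
  have hε3 : ε ≤ (c / T) ^ (l + 1) / 2 := by rw [hε]; exact (min_le_right _ _).trans (min_le_right _ _)
  obtain ⟨z, n₀, C, m, hm, h⟩ := covU l ε hε0
  refine ⟨n₀ + 1, C, by omega, fun A => ?_⟩
  obtain ⟨K, hK⟩ : ∃ K, K = n₀ + 1 := ⟨_, rfl⟩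
  rw [← hK]
  have hK1 : 1 ≤ K := by omega
  have hKR : (0 : ℝ) < K := by exact_mod_cast hK1
  filter_upwards [h A] with N hN F hinj hF1 hF2 hloc
  obtain ⟨V, hV⟩ : ∃ V : Finset (ℤ × ℤ), V = univ.image (fun x : Fin T × Fin K => F x.1 x.2) := ⟨_, rfl⟩
  have hVc : V.card = T * K := by
    rw [hV, card_image_of_injective _ hinj, card_univ, Fintype.card_prod, Fintype.card_fin, Fintype.card_fin]
  have hVm : ∀ f ∈ V, ∃ g i, f = F g i := by
    intro f hf
    rw [hV] at hf
    obtain ⟨⟨g, i⟩, -, h1⟩ := mem_image.1 hf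
    exact ⟨g, i, h1.symm⟩
  obtain ⟨U, hU, hr⟩ := hN V (by
    intro f hf
    obtain ⟨g, i, rfl⟩ := hVm f hf
    exact adf_of (hF1 g i).1 (hF1 g i).2 (hF2 g i) fun p hp => by
      obtain ⟨r, hr⟩ := hloc p hp
      exact ⟨r, hr g i⟩) (by
    intro p _ hp
    obtain ⟨r, hr⟩ := hloc p hp
    refine ⟨r, fun f hf => ?_⟩
    obtain ⟨g, i, rfl⟩ := hVm f hf
    exact hr g i) (by
    rw [hVc]
    have : K ≤ T * K := Nat.le_mul_of_pos_left _ hT1
    omega)
  have h4 := sumRare V U (fun j => (hU j).1) (5 / 18 - ε) ε (by linarith) hr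
  have hmR : (0 : ℝ) < m := by exact_mod_cast hm
  have hVR : (V.card : ℝ) = T * K := by rw [hVc]; push_cast; ring
  obtain ⟨j, hj⟩ : ∃ j, (l + η / 2) * K ≤ ((U j).card : ℝ) := by
    by_contra hno
    push Not at hno
    have hne : (univ : Finset (Fin m)).Nonempty := ⟨⟨0, hm⟩, mem_univ _⟩
    have h5 : ∑ j, ((U j).card : ℝ) < ∑ _j : Fin m, (l + η / 2) * K :=
      sum_lt_sum_of_nonempty hne fun j _ => hno j
    rw [sum_const, card_univ, Fintype.card_fin, nsmul_eq_mul] at h5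
    rw [hVR] at h4
    have h6 : (l + η / 2) ≤ (5 / 18 - ε) * ((1 - ε) * T) := by
      have h7 : ε * T ≤ η / 4 := by
        rw [le_div_iff₀ (by positivity)] at hε2
        linarith
      have h8 : (5 / 18 - ε) * ((1 - ε) * T) = 5 / 18 * T - (ε * T) * (5 / 18 + 1 - ε) := by ring
      rw [h8]
      have h9 : (ε * T) * (5 / 18 + 1 - ε) ≤ (ε * T) * 2 :=
        mul_le_mul_of_nonneg_left (by linarith) (by positivity)
      have h10 : 5 / 18 * (T : ℝ) = l + η := by rw [hη]; ring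
      rw [h10]
      linarith
    have h7 : (m : ℝ) * ((l + η / 2) * K) ≤ m * (((5 / 18 - ε) * ((1 - ε) * T)) * K) :=
      mul_le_mul_of_nonneg_left (mul_le_mul_of_nonneg_right h6 hKR.le) hmR.le
    have h9 : (5 / 18 - ε) * m * ((1 - ε) * (T * K)) = m * (((5 / 18 - ε) * ((1 - ε) * T)) * K) := by ring
    linarith
  -- the classes
  obtain ⟨Y, hY⟩ : ∃ Y : Fin T → Finset (Fin K), Y = fun g => univ.filter (fun i => F g i ∈ U j) := ⟨_, rfl⟩
  have hYm : ∀ g i, i ∈ Y g ↔ F g i ∈ U j := by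
    intro g i; rw [hY]; simp only [mem_filter, mem_univ, true_and]
  have hUc : ((U j).card : ℝ) = ∑ g, ((Y g).card : ℝ) := by
    have h5 : (U j).card = ((univ : Finset (Fin T)).sigma Y).card := by
      symm
      refine card_bij (fun x _ => F x.1 x.2) ?_ ?_ ?_
      · rintro ⟨g, i⟩ hx
        rw [mem_sigma] at hx
        exact (hYm g i).1 hx.2
      · rintro ⟨g, i⟩ _ ⟨g', i'⟩ _ heq
        have h6 := hinj (a₁ := (g, i)) (a₂ := (g', i')) heq
        simp only [Prod.mk.injEq] at h6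
        obtain ⟨rfl, rfl⟩ := h6
        rfl
      · intro f hf
        obtain ⟨g, i, rfl⟩ := hVm f ((hU j).1 hf)
        exact ⟨⟨g, i⟩, mem_sigma.2 ⟨mem_univ _, (hYm g i).2 hf⟩, rfl⟩
    rw [h5, card_sigma]
    push_cast
    rfl
  have hYK : ∀ g, ((Y g).card : ℝ) ≤ K := by
    intro g
    have := card_le_univ (Y g)
    rw [Fintype.card_fin] at this
    exact_mod_cast this
  obtain ⟨G, hG⟩ : ∃ G : Finset (Fin T), G = univ.filter (fun g => c * K ≤ ((Y g).card : ℝ)) := ⟨_, rfl⟩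
  have hGc : l + 1 ≤ G.card := by
    by_contra hcon
    have h5 : (G.card : ℝ) ≤ l := by exact_mod_cast (by omega : G.card ≤ l)
    have h6 : ∑ g, ((Y g).card : ℝ) ≤ ∑ g : Fin T, ((if g ∈ G then (K : ℝ) else 0) + c * K) := by
      refine sum_le_sum fun g _ => ?_
      by_cases hg : g ∈ G
      · rw [if_pos hg]
        have := hYK g
        have : 0 ≤ c * K := by positivity
        linarith
      · rw [if_neg hg]
        have h7 : ¬ c * K ≤ ((Y g).card : ℝ) := fun h' => hg (by rw [hG]; exact mem_filter.2 ⟨mem_univ _, h'⟩)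
        push Not at h7
        linarith
    rw [sum_add_distrib, sum_const, card_univ, Fintype.card_fin, nsmul_eq_mul, ← sum_filter, sum_const,
      nsmul_eq_mul] at h6
    have h7 : (univ : Finset (Fin T)).filter (fun g => g ∈ G) = G := by ext g; simp
    rw [h7] at h6
    have h8 : (T : ℝ) * (c * K) = η / 4 * K := by
      rw [hc]; field_simp
    have h9 : (G.card : ℝ) * K ≤ l * K := mul_le_mul_of_nonneg_right h5 hKR.le
    have h10 : 0 < η * K := by positivity
    rw [hUc] at hj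
    rw [h8] at h6
    nlinarith
  obtain ⟨γ, hγ, hγG⟩ : ∃ γ : Fin (l + 1) → Fin T, StrictMono γ ∧ ∀ i, γ i ∈ G :=
    ⟨G.orderEmbOfCardLe hGc, (G.orderEmbOfCardLe hGc).strictMono, fun i => G.orderEmbOfCardLe_mem hGc i⟩
  by_contra hcon
  have hall : ∀ σ : Fin (l + 1) → Fin K, ¬ AllP C N (fun i => F (γ i) (σ i)) := by
    intro σ hσ
    refine hcon ⟨γ, σ, hγ, fun J => ?_⟩
    have h5 := hσ J
    unfold pat at h5
    convert h5
  have h5 : ((Fintype.piFinset (fun i => Y (γ i))).card : ℝ) ≤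
      ((exc (k := l) (U j) (AllP C N)).card : ℝ) := by
    rw [Nat.cast_le]
    refine card_le_card_of_injOn (fun σ i => F (γ i) (σ i)) ?_ ?_
    · intro σ hσ
      have hσ := Fintype.mem_piFinset.1 (mem_coe.1 hσ)
      refine mem_coe.2 (mem_exc.2 ⟨fun i => (hYm _ _).1 (hσ i), ?_, hall σ⟩)
      intro i i' hii
      have h6 := hinj (a₁ := (γ i, σ i)) (a₂ := (γ i', σ i')) hii
      simp only [Prod.mk.injEq] at h6
      exact hγ.injective h6.1
    · intro σ _ σ' _ heq
      funext i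
      have h6 := hinj (a₁ := (γ i, σ i)) (a₂ := (γ i, σ' i)) (congrFun heq i)
      simp only [Prod.mk.injEq] at h6
      exact h6.2
  have h6 : (c * K) ^ (l + 1) ≤ ((Fintype.piFinset (fun i => Y (γ i))).card : ℝ) := by
    rw [Fintype.card_piFinset]
    push_cast
    calc (c * K) ^ (l + 1) = ∏ _i : Fin (l + 1), (c * K) := by
          rw [prod_const, card_univ, Fintype.card_fin]
      _ ≤ _ := prod_le_prod (fun i _ => by positivity) fun i _ => by
          have h7 := hγG i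
          rw [hG] at h7
          exact (mem_filter.1 h7).2
  have h7 : ((U j).card : ℝ) ^ (l + 1) ≤ ((T : ℝ) * K) ^ (l + 1) := by
    refine pow_le_pow_left₀ (Nat.cast_nonneg _) ?_ _
    rw [← hVR]
    exact_mod_cast card_le_card (hU j).1
  have h8 : (c * K) ^ (l + 1) ≤ ε * ((T : ℝ) * K) ^ (l + 1) :=
    (h6.trans h5).trans ((hU j).2.trans (mul_le_mul_of_nonneg_left h7 hε0.le))
  have h9 : ε * ((T : ℝ) * K) ^ (l + 1) ≤ (c / T) ^ (l + 1) / 2 * ((T : ℝ) * K) ^ (l + 1) :=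
    mul_le_mul_of_nonneg_right hε3 (by positivity)
  have h10 : (c / T) ^ (l + 1) / 2 * ((T : ℝ) * K) ^ (l + 1) = (c * K) ^ (l + 1) / 2 := by
    have h11 : c * K = (c / T) * (T * K) := by field_simp
    rw [h11, mul_pow]; ring
  rw [h10] at h9
  have h12 : 0 < (c * K) ^ (l + 1) := by positivity
  linarith

end Pool.Agent.H95SD.CN
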