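import Mathlib

/-!
# The variance of sums in short intervals: expansion and second moment over a family

`M a x H` is the sum of `a n` over `|n - x| < H / 2` and `G a u v H` the integral of its squared absolute value
over `[u, v]`. For a random function `a` with small correlations of order four the values `G a u v H` are close
to the diagonal terms.
-/

set_option autoImplicit false

open Finset MeasureTheory

namespace Pool.Agent.H95SD.GC

/-- the sum of `a n` over the integers `n ≥ 0` with `|n - x| < H / 2` -/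
noncomputable def M (a : ℕ → ℂ) (x H : ℝ) : ℂ :=
  ∑ n ∈ (range (⌈x + H⌉₊ + 1)).filter (fun n : ℕ => |(n : ℝ) - x| < H / 2), a n

/-- the indicator function of `|n - x| < H / 2` -/
noncomputable def ind (H : ℝ) (n : ℕ) (x : ℝ) : ℝ := if |(n : ℝ) - x| < H / 2 then 1 else 0

/-- the measure of the `x` in `[u, v]` for which both `n` and `m` are in the window -/
noncomputable def w (u v H : ℝ) (n m : ℕ) : ℝ := ∫ x in u..v, ind H n x * ind H m x

/-- the integral of `|M a x H|²` over `[u, v]` -/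
noncomputable def G (a : ℕ → ℂ) (u v H : ℝ) : ℝ := ∫ x in u..v, ‖M a x H‖ ^ 2

lemma M_eq (a : ℕ → ℂ) {x H : ℝ} {N : ℕ} (hN : x + H / 2 ≤ N) :
    M a x H = ∑ n ∈ range (N + 1), (ind H n x : ℂ) * a n := by
  have e : ∀ n : ℕ, ((ind H n x : ℝ) : ℂ) * a n = if |(n : ℝ) - x| < H / 2 then a n else 0 := by
    intro n
    unfold ind
    split_ifs <;> simp
  unfold M
  rw [Finset.sum_congr rfl fun n _ => e n, ← Finset.sum_filter]
  congr 1
  ext n
  simp only [mem_filter, mem_range]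
  constructor
  · rintro ⟨_, h2⟩
    refine ⟨?_, h2⟩
    have h3 := (abs_lt.1 h2).2
    have h4 : (n : ℝ) < N := by linarith
    have h5 : n < N := by exact_mod_cast h4
    omega
  · rintro ⟨_, h2⟩
    refine ⟨?_, h2⟩
    have h0 := abs_nonneg ((n : ℝ) - x)
    have h3 := (abs_lt.1 h2).2
    have h4 : (n : ℝ) ≤ ⌈x + H⌉₊ := by
      have := Nat.le_ceil (x + H)
      linarith
    have h5 : n ≤ ⌈x + H⌉₊ := by exact_mod_cast h4
    omega

lemma ind_set (H : ℝ) (n : ℕ) (x : ℝ) :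
    ind H n x = (Set.Ioo ((n : ℝ) - H / 2) (n + H / 2)).indicator (fun _ => (1 : ℝ)) x := by
  unfold ind
  rw [Set.indicator_apply]
  have : |(n : ℝ) - x| < H / 2 ↔ x ∈ Set.Ioo ((n : ℝ) - H / 2) (n + H / 2) := by
    rw [abs_lt, Set.mem_Ioo]
    constructor
    · rintro ⟨h1, h2⟩
      constructor <;> linarith
    · rintro ⟨h1, h2⟩
      constructor <;> linarith
  by_cases h : |(n : ℝ) - x| < H / 2
  · rw [if_pos h, if_pos (this.1 h)]
  · rw [if_neg h, if_neg (fun h' => h (this.2 h'))]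

lemma ind_nonneg (H : ℝ) (n : ℕ) (x : ℝ) : 0 ≤ ind H n x := by
  unfold ind
  split_ifs <;> norm_num

lemma ind_le (H : ℝ) (n : ℕ) (x : ℝ) : ind H n x ≤ 1 := by
  unfold ind
  split_ifs <;> norm_num

lemma ind_sq (H : ℝ) (n : ℕ) (x : ℝ) : ind H n x * ind H n x = ind H n x := by
  unfold ind
  split_ifs <;> norm_num

lemma ind_meas (H : ℝ) (n : ℕ) : Measurable (ind H n) := by
  have : ind H n = (Set.Ioo ((n : ℝ) - H / 2) (n + H / 2)).indicator (fun _ => (1 : ℝ)) :=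
    funext fun x => ind_set H n x
  rw [this]
  exact measurable_const.indicator measurableSet_Ioo

lemma bdd_int {f : ℝ → ℝ} (hf : Measurable f) {C : ℝ} (hC : ∀ x, |f x| ≤ C) (u v : ℝ) :
    IntervalIntegrable f volume u v := by
  rw [intervalIntegrable_iff]
  exact Measure.integrableOn_of_bounded (M := C) (by simp) hf.aestronglyMeasurable
    (Filter.Eventually.of_forall fun x => by rw [Real.norm_eq_abs]; exact hC x)

lemma ind_int (H : ℝ) (n : ℕ) (u v : ℝ) : IntervalIntegrable (ind H n) volume u v :=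
  bdd_int (ind_meas H n) (C := 1) (fun x => by rw [abs_of_nonneg (ind_nonneg H n x)]; exact ind_le H n x) u v

lemma ind2_int (H : ℝ) (n m : ℕ) (u v : ℝ) :
    IntervalIntegrable (fun x => ind H n x * ind H m x) volume u v :=
  bdd_int ((ind_meas H n).mul (ind_meas H m)) (C := 1) (fun x => by
    show |ind H n x * ind H m x| ≤ 1
    rw [abs_of_nonneg (mul_nonneg (ind_nonneg H n x) (ind_nonneg H m x))]
    exact mul_le_one₀ (ind_le H n x) (ind_nonneg H m x) (ind_le H m x)) u v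

lemma isum {s : Finset ℕ} {f : ℕ → ℝ → ℝ} {u v : ℝ} (h : ∀ i ∈ s, IntervalIntegrable (f i) volume u v) :
    IntervalIntegrable (fun x => ∑ i ∈ s, f i x) volume u v := by
  rw [intervalIntegrable_iff]
  exact integrable_finsetSum s fun i hi => intervalIntegrable_iff.1 (h i hi)

/-- the integral of the indicator function is the measure of an intersection -/
lemma int_ind (H : ℝ) (n : ℕ) {u v : ℝ} (huv : u ≤ v) :
    ∫ x in u..v, ind H n x = volume.real (Set.Ioc u v ∩ Set.Ioo ((n : ℝ) - H / 2) (n + H / 2)) := by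
  rw [intervalIntegral.integral_of_le huv]
  have : (fun x => ind H n x) = (Set.Ioo ((n : ℝ) - H / 2) (n + H / 2)).indicator (fun _ => (1 : ℝ)) :=
    funext fun x => ind_set H n x
  rw [this, MeasureTheory.setIntegral_indicator measurableSet_Ioo, MeasureTheory.setIntegral_const]
  simp

lemma int_ind_le {H : ℝ} (hH : 0 ≤ H) (n : ℕ) {u v : ℝ} (huv : u ≤ v) : ∫ x in u..v, ind H n x ≤ H := by
  rw [int_ind H n huv]
  refine (measureReal_mono Set.inter_subset_right (by simp)).trans ?_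
  rw [Real.volume_real_Ioo_of_le (by linarith)]
  linarith

lemma w_nonneg {u v H : ℝ} (huv : u ≤ v) (n m : ℕ) : 0 ≤ w u v H n m :=
  intervalIntegral.integral_nonneg huv fun x _ => mul_nonneg (ind_nonneg H n x) (ind_nonneg H m x)

lemma w_le {u v H : ℝ} (hH : 0 ≤ H) (huv : u ≤ v) (n m : ℕ) : w u v H n m ≤ H := by
  refine le_trans ?_ (int_ind_le hH n huv)
  refine intervalIntegral.integral_mono_on huv (ind2_int H n m u v) (ind_int H n u v) fun x _ => ?_
  exact mul_le_of_le_one_right (ind_nonneg H n x) (ind_le H m x)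

lemma w_zero {u v H : ℝ} {n m : ℕ} (h : H ≤ |(n : ℝ) - m|) : w u v H n m = 0 := by
  unfold w
  have : ∀ x : ℝ, ind H n x * ind H m x = 0 := by
    intro x
    unfold ind
    split_ifs with h1 h2
    · exfalso
      have : |(n : ℝ) - m| ≤ |(n : ℝ) - x| + |(m : ℝ) - x| := by
        have := abs_sub_le (n : ℝ) x m
        rwa [abs_sub_comm x (m : ℝ)] at this
      linarith
    all_goals norm_num
  simp [this]

lemma w_self (u v H : ℝ) (n : ℕ) : w u v H n n = ∫ x in u..v, ind H n x := by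
  unfold w
  simp only [ind_sq]

lemma w_self_full {u v H : ℝ} (hH : 0 ≤ H) {n : ℕ} (h1 : u ≤ (n : ℝ) - H / 2) (h2 : (n : ℝ) + H / 2 ≤ v) :
    w u v H n n = H := by
  have huv : u ≤ v := by linarith
  rw [w_self, int_ind H n huv]
  have : Set.Ioc u v ∩ Set.Ioo ((n : ℝ) - H / 2) (n + H / 2) = Set.Ioo ((n : ℝ) - H / 2) (n + H / 2) := by
    apply Set.inter_eq_right.2
    intro x hx
    exact ⟨lt_of_le_of_lt h1 hx.1, hx.2.le.trans h2⟩
  rw [this, Real.volume_real_Ioo_of_le (by linarith)]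
  ring

lemma w_self_zero {u v H : ℝ} (huv : u ≤ v) {n : ℕ} (h : (n : ℝ) + H / 2 ≤ u ∨ v ≤ (n : ℝ) - H / 2) :
    w u v H n n = 0 := by
  rw [w_self, int_ind H n huv]
  have : Set.Ioc u v ∩ Set.Ioo ((n : ℝ) - H / 2) (n + H / 2) = ∅ := by
    ext x
    simp only [Set.mem_inter_iff, Set.mem_Ioc, Set.mem_Ioo, Set.mem_empty_iff_false, iff_false]
    rintro ⟨⟨h1, h2⟩, h3, h4⟩
    rcases h with h | h <;> linarith
  rw [this]
  simp

/-- expansion of the square -/
lemma normSq_M (a : ℕ → ℂ) {x H : ℝ} {N : ℕ} (hN : x + H / 2 ≤ N) :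
    ‖M a x H‖ ^ 2 = ∑ n ∈ range (N + 1), ∑ m ∈ range (N + 1),
      (a n * (starRingEnd ℂ) (a m)).re * (ind H n x * ind H m x) := by
  have h1 : ((‖M a x H‖ ^ 2 : ℝ) : ℂ) = M a x H * (starRingEnd ℂ) (M a x H) := by
    rw [Complex.mul_conj, Complex.normSq_eq_norm_sq]
  have h2 : ‖M a x H‖ ^ 2 = (M a x H * (starRingEnd ℂ) (M a x H)).re := by
    rw [← h1, Complex.ofReal_re]
  rw [h2, M_eq a hN, map_sum, Finset.sum_mul_sum, Complex.re_sum]
  refine Finset.sum_congr rfl fun n _ => ?_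
  rw [Complex.re_sum]
  refine Finset.sum_congr rfl fun m _ => ?_
  rw [map_mul, Complex.conj_ofReal]
  have : (ind H n x : ℂ) * a n * ((ind H m x : ℂ) * (starRingEnd ℂ) (a m)) =
      ((ind H n x * ind H m x : ℝ) : ℂ) * (a n * (starRingEnd ℂ) (a m)) := by
    push_cast
    ring
  rw [this, Complex.re_ofReal_mul]
  ring

lemma G_eq (a : ℕ → ℂ) {u v H : ℝ} (huv : u ≤ v) {N : ℕ} (hN : v + H / 2 ≤ N) :
    G a u v H = ∑ n ∈ range (N + 1), ∑ m ∈ range (N + 1),
      (a n * (starRingEnd ℂ) (a m)).re * w u v H n m := by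
  unfold G
  have h1 : ∫ x in u..v, ‖M a x H‖ ^ 2 = ∫ x in u..v, ∑ n ∈ range (N + 1), ∑ m ∈ range (N + 1),
      (a n * (starRingEnd ℂ) (a m)).re * (ind H n x * ind H m x) := by
    refine intervalIntegral.integral_congr fun x hx => ?_
    rw [Set.uIcc_of_le huv] at hx
    exact normSq_M a (by linarith [hx.2])
  rw [h1, intervalIntegral.integral_finsetSum]
  · refine Finset.sum_congr rfl fun n _ => ?_
    rw [intervalIntegral.integral_finsetSum]
    · refine Finset.sum_congr rfl fun m _ => ?_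
      rw [intervalIntegral.integral_const_mul]
      rfl
    · intro m _
      exact (ind2_int H n m u v).const_mul _
  · intro n _
    exact isum fun m _ => (ind2_int H n m u v).const_mul _

/-- the pairs of different integers at distance less than `H` -/
noncomputable def Pr (N : ℕ) (H : ℝ) : Finset (ℕ × ℕ) :=
  ((range (N + 1)) ×ˢ (range (N + 1))).filter (fun p => p.1 ≠ p.2 ∧ |(p.1 : ℝ) - p.2| < H)

/-- the product of the values at a pair -/
noncomputable def bb (a : ℕ → ℂ) (p : ℕ × ℕ) : ℂ := a p.1 * (starRingEnd ℂ) (a p.2)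

lemma G_sub (a : ℕ → ℂ) {u v H : ℝ} (huv : u ≤ v) {N : ℕ} (hN : v + H / 2 ≤ N) :
    G a u v H - ∑ n ∈ range (N + 1), ‖a n‖ ^ 2 * w u v H n n =
      (∑ p ∈ Pr N H, bb a p * (w u v H p.1 p.2 : ℂ)).re := by
  rw [G_eq a huv hN, ← Finset.sum_product', Complex.re_sum]
  have hdiag : ∑ n ∈ range (N + 1), ‖a n‖ ^ 2 * w u v H n n =
      ∑ p ∈ ((range (N + 1)) ×ˢ (range (N + 1))).filter (fun p => p.1 = p.2),
        (a p.1 * (starRingEnd ℂ) (a p.2)).re * w u v H p.1 p.2 := by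
    symm
    refine Finset.sum_nbij' (fun p => p.1) (fun n => (n, n)) ?_ ?_ ?_ ?_ ?_
    · intro p hp
      rw [mem_filter, mem_product] at hp
      exact hp.1.1
    · intro n hn
      rw [mem_filter, mem_product]
      exact ⟨⟨hn, hn⟩, rfl⟩
    · intro p hp
      rw [mem_filter] at hp
      exact Prod.ext rfl hp.2
    · intro n _
      rfl
    · intro p hp
      rw [mem_filter] at hp
      rw [← hp.2, Complex.mul_conj, Complex.normSq_eq_norm_sq, Complex.ofReal_re]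
  rw [hdiag, ← Finset.sum_filter_add_sum_filter_not ((range (N + 1)) ×ˢ (range (N + 1))) (fun p => p.1 = p.2)
    (fun p => (a p.1 * (starRingEnd ℂ) (a p.2)).re * w u v H p.1 p.2), add_sub_cancel_left]
  have hsub : Pr N H ⊆ ((range (N + 1)) ×ˢ (range (N + 1))).filter (fun p => ¬ p.1 = p.2) := by
    intro p hp
    rw [Pr, mem_filter] at hp
    rw [mem_filter]
    exact ⟨hp.1, hp.2.1⟩
  rw [← Finset.sum_subset hsub]
  · refine Finset.sum_congr rfl fun p _ => ?_
    rw [bb, Complex.re_mul_ofReal]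
  · intro p hp hp'
    rw [mem_filter] at hp
    rw [Pr, mem_filter, not_and] at hp'
    have h := hp' hp.1
    rw [not_and, not_lt] at h
    rw [w_zero (h hp.2), mul_zero]

/-- **the second moment over the family** -/
theorem var_bound {Ω : Type} [MeasurableSpace Ω] (P : Measure Ω) [IsProbabilityMeasure P] (a : Ω → ℕ → ℂ)
    (hm : ∀ n, Measurable (fun ω => a ω n)) (hb : ∀ ω n, ‖a ω n‖ ≤ 1) {N : ℕ} {u v H R : ℝ}
    (huv : u ≤ v) (hH : 0 ≤ H) (hN : v + H / 2 ≤ N)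
    (hR : ∑ p ∈ Pr N H, ∑ p' ∈ Pr N H, ‖∫ ω, bb (a ω) p * (starRingEnd ℂ) (bb (a ω) p') ∂P‖ ≤ R) :
    ∫ ω, (G (a ω) u v H - ∑ n ∈ range (N + 1), ‖a ω n‖ ^ 2 * w u v H n n) ^ 2 ∂P ≤ H ^ 2 * R := by
  have hbm : ∀ p : ℕ × ℕ, Measurable (fun ω => bb (a ω) p) := fun p =>
    (hm p.1).mul (Complex.continuous_conj.measurable.comp (hm p.2))
  have hbb : ∀ (p : ℕ × ℕ) (ω : Ω), ‖bb (a ω) p‖ ≤ 1 := by
    intro p ω
    rw [bb, norm_mul, RCLike.norm_conj]
    exact mul_le_one₀ (hb ω _) (norm_nonneg _) (hb ω _)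
  have hi2 : ∀ p p' : ℕ × ℕ, Integrable (fun ω => bb (a ω) p * (starRingEnd ℂ) (bb (a ω) p')) P := by
    intro p p'
    refine Integrable.of_bound ((hbm p).mul (Complex.continuous_conj.measurable.comp (hbm p'))).aestronglyMeasurable
      1 (Filter.Eventually.of_forall fun ω => ?_)
    rw [norm_mul, RCLike.norm_conj]
    exact mul_le_one₀ (hbb p ω) (norm_nonneg _) (hbb p' ω)
  -- pointwise
  have h1 : ∀ ω, (G (a ω) u v H - ∑ n ∈ range (N + 1), ‖a ω n‖ ^ 2 * w u v H n n) ^ 2 ≤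
      (∑ p ∈ Pr N H, ∑ p' ∈ Pr N H, ((w u v H p.1 p.2 * w u v H p'.1 p'.2 : ℝ) : ℂ) *
        (bb (a ω) p * (starRingEnd ℂ) (bb (a ω) p'))).re := by
    intro ω
    rw [G_sub (a ω) huv hN]
    set Z : ℂ := ∑ p ∈ Pr N H, bb (a ω) p * (w u v H p.1 p.2 : ℂ) with hZ
    have h2 : Z.re ^ 2 ≤ ‖Z‖ ^ 2 := by
      have := Complex.abs_re_le_norm Z
      rw [← sq_abs]
      exact pow_le_pow_left₀ (abs_nonneg _) this 2
    refine h2.trans (le_of_eq ?_)
    have h3 : ((‖Z‖ ^ 2 : ℝ) : ℂ) = Z * (starRingEnd ℂ) Z := by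
      rw [Complex.mul_conj, Complex.normSq_eq_norm_sq]
    have h4 : ‖Z‖ ^ 2 = (Z * (starRingEnd ℂ) Z).re := by
      rw [← h3, Complex.ofReal_re]
    rw [h4, hZ, map_sum, Finset.sum_mul_sum]
    congr 1
    refine Finset.sum_congr rfl fun p _ => Finset.sum_congr rfl fun p' _ => ?_
    rw [map_mul, Complex.conj_ofReal]
    push_cast
    ring
  have hint : Integrable (fun ω => ∑ p ∈ Pr N H, ∑ p' ∈ Pr N H,
      ((w u v H p.1 p.2 * w u v H p'.1 p'.2 : ℝ) : ℂ) *
        (bb (a ω) p * (starRingEnd ℂ) (bb (a ω) p'))) P :=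
    integrable_finsetSum _ fun p _ => integrable_finsetSum _ fun p' _ => (hi2 p p').const_mul _
  have h5 : ∫ ω, (G (a ω) u v H - ∑ n ∈ range (N + 1), ‖a ω n‖ ^ 2 * w u v H n n) ^ 2 ∂P ≤
      ∫ ω, (∑ p ∈ Pr N H, ∑ p' ∈ Pr N H, ((w u v H p.1 p.2 * w u v H p'.1 p'.2 : ℝ) : ℂ) *
        (bb (a ω) p * (starRingEnd ℂ) (bb (a ω) p'))).re ∂P :=
    integral_mono_of_nonneg (Filter.Eventually.of_forall fun ω => sq_nonneg _) hint.re
      (Filter.Eventually.of_forall h1)
  refine h5.trans ?_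
  have h6 : ∫ ω, (∑ p ∈ Pr N H, ∑ p' ∈ Pr N H, ((w u v H p.1 p.2 * w u v H p'.1 p'.2 : ℝ) : ℂ) *
        (bb (a ω) p * (starRingEnd ℂ) (bb (a ω) p'))).re ∂P =
      (∑ p ∈ Pr N H, ∑ p' ∈ Pr N H, ((w u v H p.1 p.2 * w u v H p'.1 p'.2 : ℝ) : ℂ) *
        ∫ ω, (bb (a ω) p * (starRingEnd ℂ) (bb (a ω) p')) ∂P).re := by
    rw [show (∫ ω, (∑ p ∈ Pr N H, ∑ p' ∈ Pr N H, ((w u v H p.1 p.2 * w u v H p'.1 p'.2 : ℝ) : ℂ) *
        (bb (a ω) p * (starRingEnd ℂ) (bb (a ω) p'))).re ∂P) =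
      (∫ ω, (∑ p ∈ Pr N H, ∑ p' ∈ Pr N H, ((w u v H p.1 p.2 * w u v H p'.1 p'.2 : ℝ) : ℂ) *
        (bb (a ω) p * (starRingEnd ℂ) (bb (a ω) p'))) ∂P).re from integral_re hint]
    congr 1
    rw [integral_finsetSum _ fun p _ => integrable_finsetSum _ fun p' _ => (hi2 p p').const_mul _]
    refine Finset.sum_congr rfl fun p _ => ?_
    rw [integral_finsetSum _ fun p' _ => (hi2 p p').const_mul _]
    refine Finset.sum_congr rfl fun p' _ => ?_
    rw [integral_const_mul]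
  rw [h6]
  refine (Complex.re_le_norm _).trans ?_
  refine (norm_sum_le _ _).trans ?_
  calc ∑ p ∈ Pr N H, ‖∑ p' ∈ Pr N H, ((w u v H p.1 p.2 * w u v H p'.1 p'.2 : ℝ) : ℂ) *
        ∫ ω, (bb (a ω) p * (starRingEnd ℂ) (bb (a ω) p')) ∂P‖
      ≤ ∑ p ∈ Pr N H, ∑ p' ∈ Pr N H, H ^ 2 *
        ‖∫ ω, (bb (a ω) p * (starRingEnd ℂ) (bb (a ω) p')) ∂P‖ := by
        refine Finset.sum_le_sum fun p _ => (norm_sum_le _ _).trans
          (Finset.sum_le_sum fun p' _ => ?_)
        rw [norm_mul, Complex.norm_real, Real.norm_eq_abs, abs_of_nonneg (mul_nonneg (w_nonneg huv _ _)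
          (w_nonneg huv _ _)), sq]
        exact mul_le_mul_of_nonneg_right (mul_le_mul (w_le hH huv _ _) (w_le hH huv _ _)
          (w_nonneg huv _ _) hH) (norm_nonneg _)
    _ = H ^ 2 * ∑ p ∈ Pr N H, ∑ p' ∈ Pr N H,
        ‖∫ ω, (bb (a ω) p * (starRingEnd ℂ) (bb (a ω) p')) ∂P‖ := by
        rw [Finset.mul_sum]
        refine Finset.sum_congr rfl fun p _ => ?_
        rw [Finset.mul_sum]
    _ ≤ H ^ 2 * R := mul_le_mul_of_nonneg_left hR (sq_nonneg _)

end Pool.Agent.H95SD.GC
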