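import Pool.Agent.H95SD.GC1
import Pool.Agent.Y288.TY.MaxM

/-!
# The variance of sums in short intervals: the diagonal, and the maximal function
-/

set_option autoImplicit false

open Finset MeasureTheory

namespace Pool.Agent.H95SD.GC

open Pool.Agent.Y288.TY (Sb Qb Qb_nonneg chain)

/-- the diagonal terms -/
theorem diag_bound (s : ℕ → ℝ) (hs : ∀ n, 0 ≤ s n) {κ E0 : ℝ} (hκ : 0 ≤ κ) (hE : 0 ≤ E0) {N : ℕ}
    (hc : ∀ k : ℕ, k ≤ N + 1 → |∑ n ∈ range k, s n - κ * k| ≤ E0) {u v H : ℝ} (huv : u ≤ v) (hH : 0 ≤ H)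
    (hu : H / 2 ≤ u) (hN : v + H / 2 ≤ N) :
    |∑ n ∈ range (N + 1), s n * w u v H n n - κ * (v - u) * H| ≤ H * (κ * (H + 1) + 2 * E0) := by
  have hS : ∀ k l : ℕ, k ≤ l → l ≤ N + 1 → |∑ n ∈ Ico k l, s n - κ * ((l : ℝ) - k)| ≤ 2 * E0 := by
    intro k l h1 h2
    rw [Finset.sum_Ico_eq_sub _ h1]
    have h3 := hc k (h1.trans h2)
    have h4 := hc l h2
    rw [abs_le] at h3 h4 ⊢
    constructor <;> nlinarith [h3.1, h3.2, h4.1, h4.2]
  have hw0 : ∀ n, 0 ≤ w u v H n n := fun n => w_nonneg huv n n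
  rw [abs_le]
  constructor
  · -- lower bound
    set k3 : ℕ := ⌈u + H / 2⌉₊ with hk3
    set k4 : ℕ := ⌊v - H / 2⌋₊ + 1 with hk4
    have h3 : (k3 : ℝ) < u + H / 2 + 1 := Nat.ceil_lt_add_one (by linarith)
    have h4 : v - H / 2 < k4 := by
      rw [hk4]
      push_cast
      exact Nat.lt_floor_add_one _
    rcases le_or_gt k3 k4 with h | h
    · rcases le_or_gt 0 (v - H / 2) with hv | hv
      · have h5 : k4 ≤ N + 1 := by
          have : (⌊v - H / 2⌋₊ : ℝ) ≤ N := (Nat.floor_le hv).trans (by linarith)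
          have : ⌊v - H / 2⌋₊ ≤ N := by exact_mod_cast this
          omega
        have h6 := (abs_le.1 (hS k3 k4 h h5)).1
        have h7 : H * ∑ n ∈ Ico k3 k4, s n ≤ ∑ n ∈ range (N + 1), s n * w u v H n n := by
          rw [Finset.mul_sum]
          calc ∑ n ∈ Ico k3 k4, H * s n = ∑ n ∈ Ico k3 k4, s n * w u v H n n := by
                refine Finset.sum_congr rfl fun n hn => ?_
                rw [mem_Ico] at hn
                have h8 : u + H / 2 ≤ n := Nat.ceil_le.1 hn.1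
                have h9 : (n : ℝ) ≤ v - H / 2 := by
                  have : n ≤ ⌊v - H / 2⌋₊ := by omega
                  exact (Nat.le_floor_iff hv).1 this
                rw [w_self_full hH (by linarith) (by linarith)]
                ring
            _ ≤ _ := by
                refine Finset.sum_le_sum_of_subset_of_nonneg ?_ (fun n _ _ => mul_nonneg (hs n) (hw0 n))
                intro n hn
                rw [mem_Ico] at hn
                rw [mem_range]
                omega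
        have h8 : κ * (v - u - H - 1) - 2 * E0 ≤ ∑ n ∈ Ico k3 k4, s n := by
          have : v - u - H - 1 ≤ (k4 : ℝ) - k3 := by linarith
          have := mul_le_mul_of_nonneg_left this hκ
          linarith
        have h9 := mul_le_mul_of_nonneg_left h8 hH
        nlinarith
      · have h1 : κ * (v - u) * H ≤ κ * H * H := by
          have : v - u ≤ H := by linarith
          have := mul_le_mul_of_nonneg_left this (mul_nonneg hκ hH)
          nlinarith
        have h2 : 0 ≤ ∑ n ∈ range (N + 1), s n * w u v H n n :=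
          Finset.sum_nonneg fun n _ => mul_nonneg (hs n) (hw0 n)
        have h5 : 0 ≤ κ * H := mul_nonneg hκ hH
        have h6 : 0 ≤ H * E0 := mul_nonneg hH hE
        nlinarith
    · have h5 : (k4 : ℝ) + 1 ≤ k3 := by exact_mod_cast h
      have h1 : κ * (v - u) * H ≤ κ * H * H := by
        have : v - u ≤ H := by linarith
        have := mul_le_mul_of_nonneg_left this (mul_nonneg hκ hH)
        nlinarith
      have h2 : 0 ≤ ∑ n ∈ range (N + 1), s n * w u v H n n :=
        Finset.sum_nonneg fun n _ => mul_nonneg (hs n) (hw0 n)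
      have h5 : 0 ≤ κ * H := mul_nonneg hκ hH
      have h6 : 0 ≤ H * E0 := mul_nonneg hH hE
      nlinarith
  · -- upper bound
    set k1 : ℕ := ⌊u - H / 2⌋₊ + 1 with hk1
    set k2 : ℕ := ⌈v + H / 2⌉₊ with hk2
    have h1 : u - H / 2 < k1 := by
      rw [hk1]
      push_cast
      exact Nat.lt_floor_add_one _
    have h2 : (k2 : ℝ) < v + H / 2 + 1 := Nat.ceil_lt_add_one (by linarith)
    have h12 : k2 ≤ N := Nat.ceil_le.2 hN
    have h3 : ∑ n ∈ range (N + 1), s n * w u v H n n ≤ H * ∑ n ∈ Ico k1 k2, s n := by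
      rw [Finset.mul_sum]
      have hsub : Ico k1 k2 ⊆ range (N + 1) := by
        intro n hn
        rw [mem_Ico] at hn
        rw [mem_range]
        omega
      rw [← Finset.sum_sdiff hsub]
      have h4 : ∑ n ∈ range (N + 1) \ Ico k1 k2, s n * w u v H n n = 0 := by
        refine Finset.sum_eq_zero fun n hn => ?_
        rw [mem_sdiff, mem_Ico, not_and, not_lt] at hn
        rw [w_self_zero huv, mul_zero]
        by_cases h5 : k1 ≤ n
        · right
          have := Nat.ceil_le.1 (hn.2 h5)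
          linarith
        · left
          have h6 : n ≤ ⌊u - H / 2⌋₊ := by omega
          have := (Nat.le_floor_iff (by linarith : 0 ≤ u - H / 2)).1 h6
          linarith
      rw [h4, zero_add]
      refine Finset.sum_le_sum fun n _ => ?_
      rw [mul_comm]
      exact mul_le_mul_of_nonneg_right (w_le hH huv n n) (hs n)
    have h4 : ∑ n ∈ Ico k1 k2, s n ≤ κ * (v - u + H + 1) + 2 * E0 := by
      rcases le_or_gt k1 k2 with h | h
      · have h6 := (abs_le.1 (hS k1 k2 h (by omega))).2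
        have : (k2 : ℝ) - k1 ≤ v - u + H + 1 := by linarith
        have := mul_le_mul_of_nonneg_left this hκ
        linarith
      · rw [Finset.Ico_eq_empty (by omega), Finset.sum_empty]
        have : 0 ≤ κ * (v - u + H + 1) := mul_nonneg hκ (by linarith)
        linarith
    have h5 := mul_le_mul_of_nonneg_left h4 hH
    nlinarith

/-- the quantity that controls all the sums over at most `2 ^ r` integers from `N` on -/
noncomputable def QQ (a : ℕ → ℂ) (r N : ℕ) : ℝ := Qb (fun i => (a i).re) r N + Qb (fun i => (a i).im) r N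

lemma QQ_nonneg (a : ℕ → ℂ) (r N : ℕ) : 0 ≤ QQ a r N := add_nonneg (Qb_nonneg _ _ _) (Qb_nonneg _ _ _)

lemma norm_Sb (a : ℕ → ℂ) (N k : ℕ) :
    ‖∑ i ∈ Ico N (N + k), a i‖ ^ 2 = Sb (fun i => (a i).re) N k ^ 2 + Sb (fun i => (a i).im) N k ^ 2 := by
  rw [← Complex.normSq_eq_norm_sq, Complex.normSq_apply, Complex.re_sum, Complex.im_sum]
  unfold Sb
  ring

lemma QQ_chain (a : ℕ → ℂ) (r N k : ℕ) (hk : k ≤ 2 ^ r) :
    ‖∑ i ∈ Ico N (N + k), a i‖ ^ 2 ≤ ((r : ℝ) + 1) * QQ a r N := by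
  rw [norm_Sb]
  have h1 := chain (fun i => (a i).re) r N k hk
  have h2 := chain (fun i => (a i).im) r N k hk
  unfold QQ
  linarith

lemma QQ_step (r N : ℕ) (x : ℕ → ℂ) : QQ x (r + 1) N =
    ‖∑ i ∈ Ico N (N + 2 ^ (r + 1)), x i‖ ^ 2 + (QQ x r N + QQ x r (N + 2 ^ r)) := by
  rw [norm_Sb]
  simp only [QQ, Qb]
  ring

lemma QQ_zero (N : ℕ) (x : ℕ → ℂ) : QQ x 0 N = ‖∑ i ∈ Ico N (N + 1), x i‖ ^ 2 := by
  rw [norm_Sb]
  simp only [QQ, Qb]

section prob

variable {Ω : Type} [MeasurableSpace Ω] (P : Measure Ω) [IsProbabilityMeasure P] (a : Ω → ℕ → ℂ)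
  (hm : ∀ n, Measurable (fun ω => a ω n)) (hb : ∀ ω n, ‖a ω n‖ ≤ 1)

include hm hb

lemma int_block (N k : ℕ) : Integrable (fun ω => ‖∑ i ∈ Ico N (N + k), a ω i‖ ^ 2) P := by
  have h1 : Measurable (fun ω => ∑ i ∈ Ico N (N + k), a ω i) := Finset.measurable_sum _ fun i _ => hm i
  refine Integrable.of_bound (h1.norm.pow_const 2).aestronglyMeasurable ((k : ℝ) ^ 2)
    (Filter.Eventually.of_forall fun ω => ?_)
  rw [Real.norm_eq_abs, abs_of_nonneg (sq_nonneg _)]
  refine pow_le_pow_left₀ (norm_nonneg _) ?_ 2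
  refine (norm_sum_le _ _).trans ?_
  refine (Finset.sum_le_sum fun i _ => hb ω i).trans ?_
  simp

lemma int_QQ (r : ℕ) : ∀ N : ℕ, Integrable (fun ω => QQ (a ω) r N) P := by
  induction r with
  | zero =>
    intro N
    simp only [QQ_zero]
    exact int_block P a hm hb N 1
  | succ r ih =>
    intro N
    simp only [QQ_step r N]
    exact (int_block P a hm hb N _).add ((ih N).add (ih _))

theorem QQ_mean {β : ℝ} {N1 K1 : ℕ} (hO : ∀ u k : ℕ, u + k ≤ N1 → k ≤ K1 →
    ∫ ω, ‖∑ i ∈ Ico u (u + k), a ω i‖ ^ 2 ∂P ≤ β * k) (r : ℕ) :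
    ∀ N : ℕ, N + 2 ^ r ≤ N1 → 2 ^ r ≤ K1 → ∫ ω, QQ (a ω) r N ∂P ≤ ((r : ℝ) + 1) * (β * 2 ^ r) := by
  induction r with
  | zero =>
    intro N h1 h2
    simp only [QQ_zero]
    have := hO N 1 (by simpa using h1) (by simpa using h2)
    simpa using this
  | succ r ih =>
    intro N h1 h2
    have e : (2 : ℕ) ^ (r + 1) = 2 ^ r + 2 ^ r := by ring
    have h3 := hO N (2 ^ (r + 1)) h1 h2
    rw [e] at h1 h2
    have hp : 0 < 2 ^ r := Nat.pos_of_ne_zero (by positivity)
    have h4 := ih N (by omega) (by omega)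
    have h5 := ih (N + 2 ^ r) (by omega) (by omega)
    have h6 : ∫ ω, QQ (a ω) (r + 1) N ∂P = ∫ ω, ‖∑ i ∈ Ico N (N + 2 ^ (r + 1)), a ω i‖ ^ 2 ∂P +
        (∫ ω, QQ (a ω) r N ∂P + ∫ ω, QQ (a ω) r (N + 2 ^ r) ∂P) := by
      simp only [QQ_step r N]
      have h7 : Integrable (fun ω => QQ (a ω) r N + QQ (a ω) r (N + 2 ^ r)) P :=
        (int_QQ P a hm hb r N).add (int_QQ P a hm hb r _)
      rw [integral_add (int_block P a hm hb N _) h7,
        integral_add (int_QQ P a hm hb r N) (int_QQ P a hm hb r _)]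
    rw [h6]
    push_cast at h3 ⊢
    have e2 : (2 : ℝ) ^ (r + 1) = 2 * 2 ^ r := by ring
    rw [e2] at h3 ⊢
    nlinarith

end prob

/-- integrals of functions of a counting variable -/
lemma int_fun (f : ℕ → ℝ) (hf : ∀ n, 0 ≤ f n) (φ : ℝ → ℕ) (hφ : Measurable φ) {u v : ℝ} (huv : u ≤ v)
    {N' : ℕ} (h1 : ∀ n : ℕ, volume.real ({x | φ x = n} ∩ Set.Ioc u v) ≤ 1)
    (h2 : ∀ x ∈ Set.Ioc u v, φ x < N') : ∫ x in u..v, f (φ x) ≤ ∑ n ∈ range N', f n := by
  have hms : ∀ n : ℕ, MeasurableSet {x | φ x = n} := fun n => hφ (measurableSet_singleton n)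
  have e : ∫ x in u..v, f (φ x) = ∫ x in u..v, ∑ n ∈ range N', f n *
      ({x | φ x = n}.indicator (fun _ => (1 : ℝ)) x) := by
    rw [intervalIntegral.integral_of_le huv, intervalIntegral.integral_of_le huv]
    refine setIntegral_congr_fun measurableSet_Ioc fun x hx => ?_
    simp only [Set.indicator_apply, Set.mem_ofPred_eq]
    rw [Finset.sum_eq_single_of_mem (φ x) (mem_range.2 (h2 x hx))]
    · simp
    · intro n _ hn
      rw [if_neg (fun h => hn h.symm), mul_zero]
  have hint : ∀ n : ℕ, IntervalIntegrable (fun x => f n * ({x | φ x = n}.indicator (fun _ => (1 : ℝ)) x))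
      volume u v := by
    intro n
    refine bdd_int ((measurable_const.indicator (hms n)).const_mul _) (C := f n) (fun x => ?_) u v
    rw [abs_mul, abs_of_nonneg (hf n)]
    refine mul_le_of_le_one_right (hf n) ?_
    rw [Set.indicator_apply]
    split_ifs <;> norm_num
  rw [e, intervalIntegral.integral_finsetSum fun n _ => hint n]
  refine Finset.sum_le_sum fun n _ => ?_
  rw [intervalIntegral.integral_const_mul]
  refine mul_le_of_le_one_right (hf n) ?_
  rw [intervalIntegral.integral_of_le huv, MeasureTheory.integral_indicator (hms n),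
    Measure.restrict_restrict (hms n), MeasureTheory.setIntegral_const]
  simpa using h1 n

lemma int_ceil (f : ℕ → ℝ) (hf : ∀ n, 0 ≤ f n) {u v c : ℝ} (huv : u ≤ v) (hu : 0 ≤ u + c) {N' : ℕ}
    (hN : v + c + 1 ≤ N') : ∫ x in u..v, f ⌈x + c⌉₊ ≤ ∑ n ∈ range N', f n := by
  refine int_fun f hf (fun x => ⌈x + c⌉₊) (Nat.measurable_ceil.comp (measurable_id.add_const c)) huv ?_ ?_
  · intro n
    refine (measureReal_mono (s₂ := Set.Ioc ((n : ℝ) - 1 - c) (n - c)) ?_ (by simp)).trans ?_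
    · rintro x ⟨h1, h2⟩
      have h1' : ⌈x + c⌉₊ = n := h1
      have h3 := Nat.le_ceil (x + c)
      have h4 := Nat.ceil_lt_add_one (a := x + c) (by linarith [h2.1])
      rw [h1'] at h3 h4
      constructor <;> linarith
    · rw [Real.volume_real_Ioc_of_le (by linarith)]
      linarith
  · intro x hx
    have h4 := Nat.ceil_lt_add_one (a := x + c) (by linarith [hx.1])
    have : (⌈x + c⌉₊ : ℝ) < N' := by linarith [hx.2]
    exact_mod_cast this

lemma int_floor (f : ℕ → ℝ) (hf : ∀ n, 0 ≤ f n) {u v c : ℝ} (huv : u ≤ v) (hu : 0 ≤ u - c) (hc : 0 ≤ c)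
    {N' : ℕ} (hN : v + 2 ≤ N') : ∫ x in u..v, f (⌊x - c⌋₊ + 1) ≤ ∑ n ∈ range N', f n := by
  refine int_fun f hf (fun x => ⌊x - c⌋₊ + 1)
    ((Nat.measurable_floor.comp (measurable_id.sub_const c)).add_const 1) huv ?_ ?_
  · intro n
    refine (measureReal_mono (s₂ := Set.Ico ((n : ℝ) - 1 + c) (n + c)) ?_ (by simp)).trans ?_
    · rintro x ⟨h1, h2⟩
      have h1' : ⌊x - c⌋₊ + 1 = n := h1
      have h3 := Nat.floor_le (a := x - c) (by linarith [h2.1])
      have h4 := Nat.lt_floor_add_one (x - c)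
      have h5 : (n : ℝ) = ⌊x - c⌋₊ + 1 := by
        rw [← h1']
        push_cast
        ring
      rw [Set.mem_Ico, h5]
      constructor <;> linarith
    · rw [Real.volume_real_Ico_of_le (by linarith)]
      linarith
  · intro x hx
    have h3 := Nat.floor_le (a := x - c) (by linarith [hx.1])
    have : ((⌊x - c⌋₊ + 1 : ℕ) : ℝ) < N' := by
      push_cast
      linarith [hx.2]
    exact_mod_cast this

/-- the difference of the sums over two windows with the same centre -/
lemma M_sub (a : ℕ → ℂ) {x L H : ℝ} (hL : 0 < L) (hLH : L ≤ H) (hx : H / 2 ≤ x) :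
    M a x H - M a x L = ∑ n ∈ Ico ⌈x + L / 2⌉₊ ⌈x + H / 2⌉₊, a n +
      ∑ n ∈ Ico (⌊x - H / 2⌋₊ + 1) (⌊x - L / 2⌋₊ + 1), a n := by
  set N : ℕ := ⌈x + H / 2⌉₊ with hN
  have h1 : x + H / 2 ≤ N := Nat.le_ceil _
  have h2 : x + L / 2 ≤ N := by linarith
  have e : ∀ (h : ℝ), x + h / 2 ≤ N → M a x h =
      ∑ n ∈ (range (N + 1)).filter (fun n : ℕ => |(n : ℝ) - x| < h / 2), a n := by
    intro h hh
    rw [M_eq a hh, Finset.sum_filter]
    refine Finset.sum_congr rfl fun n _ => ?_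
    unfold ind
    split_ifs <;> simp
  rw [e H h1, e L h2]
  have hsub : (range (N + 1)).filter (fun n : ℕ => |(n : ℝ) - x| < L / 2) ⊆
      (range (N + 1)).filter (fun n : ℕ => |(n : ℝ) - x| < H / 2) := by
    intro n hn
    rw [mem_filter] at hn ⊢
    exact ⟨hn.1, by linarith [hn.2]⟩
  rw [← Finset.sum_sdiff hsub, add_sub_cancel_right, ← Finset.sum_union]
  · congr 1
    ext n
    simp only [mem_sdiff, mem_filter, mem_range, mem_union, mem_Ico, not_and, not_lt]
    constructor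
    · rintro ⟨⟨h3, h4⟩, h5⟩
      have h6 := h5 h3
      rw [abs_lt] at h4
      rw [le_abs] at h6
      rcases h6 with h6 | h6
      · left
        exact ⟨Nat.ceil_le.2 (by linarith), Nat.lt_ceil.2 (by linarith)⟩
      · right
        constructor
        · have : ⌊x - H / 2⌋₊ < n := (Nat.floor_lt (by linarith)).2 (by linarith)
          omega
        · have : n ≤ ⌊x - L / 2⌋₊ := (Nat.le_floor_iff (by linarith)).2 (by linarith)
          omega
    · rintro (⟨h3, h4⟩ | ⟨h3, h4⟩)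
      · have h5 := Nat.ceil_le.1 h3
        have h6 := Nat.lt_ceil.1 h4
        refine ⟨⟨by omega, ?_⟩, fun _ => ?_⟩
        · rw [abs_lt]
          constructor <;> linarith
        · rw [le_abs]
          left
          linarith
      · have h5 : x - H / 2 < n := (Nat.floor_lt (by linarith)).1 (by omega)
        have h6 : (n : ℝ) ≤ x - L / 2 := (Nat.le_floor_iff (by linarith)).1 (by omega)
        have h7 : (n : ℝ) ≤ N := by linarith
        have h8 : n ≤ N := by exact_mod_cast h7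
        refine ⟨⟨by omega, ?_⟩, fun _ => ?_⟩
        · rw [abs_lt]
          constructor <;> linarith
        · rw [le_abs]
          right
          linarith
  · rw [Finset.disjoint_left]
    intro n h3 h4
    rw [mem_Ico] at h3 h4
    have h5 := Nat.ceil_le.1 h3.1
    have h6 : (n : ℝ) ≤ x - L / 2 := (Nat.le_floor_iff (by linarith)).1 (by omega)
    linarith

lemma M_sub_sq (a : ℕ → ℂ) {x L H : ℝ} (hL : 0 < L) (hLH : L ≤ H) (hx : H / 2 ≤ x) {r : ℕ}
    (hr : (H - L) / 2 + 1 ≤ 2 ^ r) :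
    ‖M a x H - M a x L‖ ^ 2 ≤ 2 * ((r : ℝ) + 1) * (QQ a r ⌈x + L / 2⌉₊ + QQ a r (⌊x - H / 2⌋₊ + 1)) := by
  rw [M_sub a hL hLH hx]
  have hk : ∀ p q : ℕ, p ≤ q → (q : ℝ) - p ≤ (H - L) / 2 + 1 →
      ‖∑ n ∈ Ico p q, a n‖ ^ 2 ≤ ((r : ℝ) + 1) * QQ a r p := by
    intro p q hpq h
    obtain ⟨k, rfl⟩ := Nat.exists_eq_add_of_le hpq
    refine QQ_chain a r p k ?_
    push_cast at h
    have : (k : ℝ) ≤ 2 ^ r := by linarith
    exact_mod_cast this
  have h1 := hk ⌈x + L / 2⌉₊ ⌈x + H / 2⌉₊ (Nat.ceil_mono (by linarith)) (by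
    have h2 := Nat.le_ceil (x + L / 2)
    have h3 := Nat.ceil_lt_add_one (a := x + H / 2) (by linarith)
    linarith)
  have h2 := hk (⌊x - H / 2⌋₊ + 1) (⌊x - L / 2⌋₊ + 1) (by
    have := Nat.floor_mono (show x - H / 2 ≤ x - L / 2 by linarith)
    omega) (by
    have h2 := Nat.lt_floor_add_one (x - H / 2)
    have h3 := Nat.floor_le (a := x - L / 2) (by linarith)
    push_cast
    linarith)
  have h3 : ∀ z t : ℂ, ‖z + t‖ ^ 2 ≤ 2 * (‖z‖ ^ 2 + ‖t‖ ^ 2) := by
    intro z t
    have h4 := norm_add_le z t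
    have h5 : ‖z + t‖ ^ 2 ≤ (‖z‖ + ‖t‖) ^ 2 := pow_le_pow_left₀ (norm_nonneg _) h4 2
    nlinarith [sq_nonneg (‖z‖ - ‖t‖)]
  refine (h3 _ _).trans ?_
  nlinarith

end Pool.Agent.H95SD.GC
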