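import Pool.Agent.H95SD.GC2

/-!
# The variance of sums in short intervals: from a net to all positions and lengths
-/

set_option autoImplicit false

open Finset MeasureTheory

namespace Pool.Agent.H95SD.GC

lemma G_int (a : ℕ → ℂ) (H : ℝ) {u v : ℝ} (huv : u ≤ v) :
    IntervalIntegrable (fun x => ‖M a x H‖ ^ 2) volume u v := by
  set N : ℕ := ⌈v + H / 2⌉₊ with hN
  have h1 : v + H / 2 ≤ N := Nat.le_ceil _
  have h2 : IntervalIntegrable (fun x => ∑ n ∈ range (N + 1), ∑ m ∈ range (N + 1),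
      (a n * (starRingEnd ℂ) (a m)).re * (ind H n x * ind H m x)) volume u v :=
    isum fun n _ => isum fun m _ => (ind2_int H n m u v).const_mul _
  refine h2.congr ?_
  rw [Set.uIoc_of_le huv]
  intro x hx
  exact (normSq_M a (by linarith [hx.2])).symm

lemma G_mono (a : ℕ → ℂ) (H : ℝ) {u u' v v' : ℝ} (h1 : u' ≤ u) (h2 : u ≤ v) (h3 : v ≤ v') :
    G a u v H ≤ G a u' v' H := by
  unfold G
  refine intervalIntegral.integral_mono_interval h1 h2 h3 ?_ (G_int a H (by linarith))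
  exact Filter.Eventually.of_forall fun x => sq_nonneg _

lemma G_nonneg (a : ℕ → ℂ) (H : ℝ) {u v : ℝ} (h : u ≤ v) : 0 ≤ G a u v H :=
  intervalIntegral.integral_nonneg h fun x _ => sq_nonneg _

lemma fun_int (f : ℕ → ℝ) (φ : ℝ → ℕ) (hφ : Measurable φ) {u v : ℝ} (huv : u ≤ v)
    {N' : ℕ} (h2 : ∀ x ∈ Set.Ioc u v, φ x < N') : IntervalIntegrable (fun x => f (φ x)) volume u v := by
  have hms : ∀ n : ℕ, MeasurableSet {x | φ x = n} := fun n => hφ (measurableSet_singleton n)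
  have hint : ∀ n : ℕ, IntervalIntegrable (fun x => f n * ({x | φ x = n}.indicator (fun _ => (1 : ℝ)) x))
      volume u v := by
    intro n
    refine bdd_int ((measurable_const.indicator (hms n)).const_mul _) (C := |f n|) (fun x => ?_) u v
    rw [abs_mul]
    refine mul_le_of_le_one_right (abs_nonneg _) ?_
    rw [Set.indicator_apply]
    split_ifs <;> norm_num
  refine (isum (s := range N') fun n _ => hint n).congr ?_
  rw [Set.uIoc_of_le huv]
  intro x hx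
  simp only [Set.indicator_apply, Set.mem_ofPred_eq]
  rw [Finset.sum_eq_single_of_mem (φ x) (mem_range.2 (h2 x hx))]
  · simp
  · intro n _ hn
    rw [if_neg (fun h => hn h.symm), mul_zero]

lemma sq_add_le (z t : ℂ) {c : ℝ} (hc : 0 < c) :
    ‖z‖ ^ 2 ≤ (1 + c) * ‖t‖ ^ 2 + (1 + 1 / c) * ‖z - t‖ ^ 2 := by
  have h1 : ‖z‖ ≤ ‖t‖ + ‖z - t‖ := by
    have := norm_add_le t (z - t)
    rwa [add_sub_cancel] at this
  have h2 : ‖z‖ ^ 2 ≤ (‖t‖ + ‖z - t‖) ^ 2 := pow_le_pow_left₀ (norm_nonneg _) h1 2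
  have h3 : (1 + c) * ‖t‖ ^ 2 + (1 + 1 / c) * ‖z - t‖ ^ 2 - (‖t‖ + ‖z - t‖) ^ 2 =
      (c * ‖t‖ - ‖z - t‖) ^ 2 / c := by
    field_simp
    ring
  have h4 : 0 ≤ (c * ‖t‖ - ‖z - t‖) ^ 2 / c := by positivity
  linarith

/-- comparison of two lengths -/
lemma G_cmp (a : ℕ → ℂ) {u v L H c : ℝ} (hc : 0 < c) (huv : u ≤ v) (hL : 0 < L) (hLH : L ≤ H)
    (hu : H / 2 ≤ u) {r N' : ℕ} (hr : (H - L) / 2 + 1 ≤ 2 ^ r) (hN : v + H / 2 + 2 ≤ N') :
    G a u v H ≤ (1 + c) * G a u v L + (1 + 1 / c) * (4 * ((r : ℝ) + 1) * ∑ n ∈ range N', QQ a r n) ∧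
    G a u v L ≤ (1 + c) * G a u v H + (1 + 1 / c) * (4 * ((r : ℝ) + 1) * ∑ n ∈ range N', QQ a r n) := by
  have hQ : ∀ n, 0 ≤ QQ a r n := QQ_nonneg a r
  have i1 : IntervalIntegrable (fun x => QQ a r ⌈x + L / 2⌉₊) volume u v := by
    refine fun_int (QQ a r) (fun x => ⌈x + L / 2⌉₊) (Nat.measurable_ceil.comp (measurable_id.add_const _))
      huv (N' := N') ?_
    intro x hx
    have h4 := Nat.ceil_lt_add_one (a := x + L / 2) (by linarith [hx.1])
    have : (⌈x + L / 2⌉₊ : ℝ) < N' := by linarith [hx.2]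
    exact_mod_cast this
  have i2 : IntervalIntegrable (fun x => QQ a r (⌊x - H / 2⌋₊ + 1)) volume u v := by
    refine fun_int (QQ a r) (fun x => ⌊x - H / 2⌋₊ + 1)
      ((Nat.measurable_floor.comp (measurable_id.sub_const _)).add_const 1) huv (N' := N') ?_
    intro x hx
    have h3 := Nat.floor_le (a := x - H / 2) (by linarith [hx.1])
    have : ((⌊x - H / 2⌋₊ + 1 : ℕ) : ℝ) < N' := by
      push_cast
      linarith [hx.2]
    exact_mod_cast this
  have b1 : ∫ x in u..v, QQ a r ⌈x + L / 2⌉₊ ≤ ∑ n ∈ range N', QQ a r n :=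
    int_ceil (QQ a r) hQ huv (by linarith) (by linarith)
  have b2 : ∫ x in u..v, QQ a r (⌊x - H / 2⌋₊ + 1) ≤ ∑ n ∈ range N', QQ a r n :=
    int_floor (QQ a r) hQ huv (by linarith) (by linarith) (by linarith)
  have key : ∀ (F1 F2 : ℝ → ℂ), (IntervalIntegrable (fun x => ‖F1 x‖ ^ 2) volume u v) →
      (IntervalIntegrable (fun x => ‖F2 x‖ ^ 2) volume u v) →
      (∀ x ∈ Set.Icc u v, ‖F1 x - F2 x‖ ^ 2 ≤
        2 * ((r : ℝ) + 1) * (QQ a r ⌈x + L / 2⌉₊ + QQ a r (⌊x - H / 2⌋₊ + 1))) →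
      ∫ x in u..v, ‖F1 x‖ ^ 2 ≤ (1 + c) * (∫ x in u..v, ‖F2 x‖ ^ 2) +
        (1 + 1 / c) * (4 * ((r : ℝ) + 1) * ∑ n ∈ range N', QQ a r n) := by
    intro F1 F2 hF1 hF2 h
    have hr0 : (0 : ℝ) ≤ (r : ℝ) + 1 := by positivity
    have hc0 : 0 ≤ 1 + 1 / c := by positivity
    calc ∫ x in u..v, ‖F1 x‖ ^ 2 ≤ ∫ x in u..v, ((1 + c) * ‖F2 x‖ ^ 2 +
          (1 + 1 / c) * (2 * ((r : ℝ) + 1)) * (QQ a r ⌈x + L / 2⌉₊ + QQ a r (⌊x - H / 2⌋₊ + 1))) := by
          refine intervalIntegral.integral_mono_on huv hF1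
            ((hF2.const_mul _).add ((i1.add i2).const_mul _)) fun x hx => ?_
          have h1 := sq_add_le (F1 x) (F2 x) hc
          have h2 := mul_le_mul_of_nonneg_left (h x hx) hc0
          nlinarith
      _ = (1 + c) * (∫ x in u..v, ‖F2 x‖ ^ 2) + (1 + 1 / c) * (2 * ((r : ℝ) + 1)) *
          ((∫ x in u..v, QQ a r ⌈x + L / 2⌉₊) + ∫ x in u..v, QQ a r (⌊x - H / 2⌋₊ + 1)) := by
          rw [intervalIntegral.integral_add (hF2.const_mul _) ((i1.add i2).const_mul _),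
            intervalIntegral.integral_const_mul, intervalIntegral.integral_const_mul,
            intervalIntegral.integral_add i1 i2]
      _ ≤ _ := by
          have h3 : (1 + 1 / c) * (2 * ((r : ℝ) + 1)) *
              ((∫ x in u..v, QQ a r ⌈x + L / 2⌉₊) + ∫ x in u..v, QQ a r (⌊x - H / 2⌋₊ + 1)) ≤
              (1 + 1 / c) * (2 * ((r : ℝ) + 1)) * (2 * ∑ n ∈ range N', QQ a r n) :=
            mul_le_mul_of_nonneg_left (by linarith) (by positivity)
          nlinarith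
  constructor
  · refine key (fun x => M a x H) (fun x => M a x L) (G_int a H huv) (G_int a L huv) fun x hx => ?_
    exact M_sub_sq a hL hLH (by linarith [hx.1]) hr
  · refine key (fun x => M a x L) (fun x => M a x H) (G_int a L huv) (G_int a H huv) fun x hx => ?_
    rw [← norm_neg, neg_sub]
    exact M_sub_sq a hL hLH (by linarith [hx.1]) hr

/-- positions of the net -/
noncomputable def Xn (Y : ℝ) (T j : ℕ) : ℝ := Y * (1 + j / T)

/-- lengths of the net -/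
noncomputable def Ln (T k i : ℕ) : ℝ := 2 ^ k * (1 + i / T)

/-- the asymptotic formula on the net -/
def E1 (a : ℕ → ℂ) (Y κ δ : ℝ) (T k i j : ℕ) : Prop :=
  |G a (Xn Y T (j + 1)) (2 * Xn Y T j) (Ln T k i) - κ * (2 * Xn Y T j - Xn Y T (j + 1)) * Ln T k i| ≤
      δ * Y * Ln T k i ∧
  |G a (Xn Y T j) (2 * Xn Y T (j + 1)) (Ln T k i) - κ * (2 * Xn Y T (j + 1) - Xn Y T j) * Ln T k i| ≤
      δ * Y * Ln T k i

/-- **from the net to all positions and lengths** -/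
theorem net (a : ℕ → ℂ) {Y κ δ θ c : ℝ} {τ k0 k1 N' : ℕ} (hY : 1 ≤ Y) (hκ0 : 0 ≤ κ) (hκ1 : κ ≤ 1)
    (hδ0 : 0 ≤ δ) (hδ1 : δ ≤ 1) (hc0 : 0 < c) (hc1 : c ≤ 1) (hθ : 0 ≤ θ) (hτ : 2 ≤ τ) (hk0 : τ + 1 ≤ k0)
    (hk1 : (2 : ℝ) ^ k1 ≤ Y) (hN' : 7 * Y + 2 ≤ N')
    (h1 : ∀ k i j : ℕ, k0 ≤ k → k < k1 → i < 2 ^ τ → j < 2 ^ τ → E1 a Y κ δ (2 ^ τ) k i j)
    (h2 : ∀ k : ℕ, k0 ≤ k → k < k1 → ∑ n ∈ range N', QQ a (k - τ) n ≤ θ * 2 ^ k * Y)
    {X H : ℝ} (hX1 : Y ≤ X) (hX2 : X < 2 * Y) (hH1 : (2 : ℝ) ^ k0 ≤ H) (hH2 : H < 2 ^ k1) :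
    |G a X (2 * X) H - κ * X * H| ≤
      (7 * c + 4 / 2 ^ τ + 2 * δ + 16 * (k1 + 1) * θ / c) * (Y * H) := by
  have hY0 : 0 < Y := by linarith
  have hH0 : 0 < H := lt_of_lt_of_le (by positivity) hH1
  have hHY : H ≤ Y := by linarith
  set T : ℝ := 2 ^ τ with hT
  have hT4 : 4 ≤ T := by
    rw [hT]
    calc (4 : ℝ) = 2 ^ 2 := by norm_num
      _ ≤ 2 ^ τ := pow_le_pow_right₀ (by norm_num) hτ
  have hT0 : 0 < T := by linarith
  have hTn : ((2 ^ τ : ℕ) : ℝ) = T := by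
    rw [hT]
    push_cast
    rfl
  -- the exponent k
  obtain ⟨k, hk1', hk2'⟩ : ∃ k : ℕ, (2 : ℝ) ^ k ≤ H ∧ H < 2 ^ (k + 1) := by
    have h1H : 1 ≤ H := le_trans (one_le_pow₀ (by norm_num)) hH1
    exact exists_nat_pow_near h1H (by norm_num)
  have hkk0 : k0 ≤ k := by
    by_contra h
    have h3 : (2 : ℝ) ^ (k + 1) ≤ 2 ^ k0 := pow_le_pow_right₀ (by norm_num) (by omega)
    linarith
  have hkk1 : k < k1 := by
    by_contra h
    have h3 : (2 : ℝ) ^ k1 ≤ 2 ^ k := pow_le_pow_right₀ (by norm_num) (by omega)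
    linarith
  -- the index i
  set i : ℕ := ⌊(H / 2 ^ k - 1) * T⌋₊ with hi
  have hHk : 1 ≤ H / 2 ^ k := (one_le_div (by positivity)).2 hk1'
  have hHk2 : H / 2 ^ k < 2 := by
    rw [div_lt_iff₀ (by positivity)]
    rw [pow_succ] at hk2'
    linarith
  have hi1 : (i : ℝ) ≤ (H / 2 ^ k - 1) * T := Nat.floor_le (mul_nonneg (by linarith) hT0.le)
  have hi2 : (H / 2 ^ k - 1) * T < i + 1 := Nat.lt_floor_add_one _
  have hiT : i < 2 ^ τ := by
    have h3 := mul_lt_mul_of_pos_right (show H / 2 ^ k - 1 < 1 by linarith) hT0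
    have : (i : ℝ) < T := by linarith
    rw [← hTn] at this
    exact_mod_cast this
  set L : ℝ := Ln (2 ^ τ) k i with hLdef
  have hLe : L = 2 ^ k * (1 + i / T) := by rw [hLdef, Ln, hTn]
  have hLH : L ≤ H := by
    rw [hLe]
    have : (i : ℝ) / T ≤ H / 2 ^ k - 1 := by rwa [div_le_iff₀ hT0]
    calc (2 : ℝ) ^ k * (1 + i / T) ≤ 2 ^ k * (H / 2 ^ k) := mul_le_mul_of_nonneg_left (by linarith) (by positivity)
      _ = H := by field_simp
  have hHL : H - L ≤ 2 ^ k / T := by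
    rw [hLe]
    have h3 : H / 2 ^ k ≤ 1 + ((i : ℝ) + 1) / T := by
      have : H / 2 ^ k - 1 ≤ ((i : ℝ) + 1) / T := by
        rw [le_div_iff₀ hT0]
        exact hi2.le
      linarith
    have h4 : H = 2 ^ k * (H / 2 ^ k) := by field_simp
    have h5 : (2 : ℝ) ^ k * (H / 2 ^ k) ≤ 2 ^ k * (1 + ((i : ℝ) + 1) / T) :=
      mul_le_mul_of_nonneg_left h3 (by positivity)
    have h6 : (2 : ℝ) ^ k * (1 + ((i : ℝ) + 1) / T) - 2 ^ k * (1 + i / T) = 2 ^ k / T := by
      field_simp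
      ring
    linarith
  have hL0 : 0 < L := by
    rw [hLe]
    positivity
  -- the index j
  set j : ℕ := ⌊(X / Y - 1) * T⌋₊ with hj
  have hXY : 1 ≤ X / Y := (one_le_div hY0).2 hX1
  have hXY2 : X / Y < 2 := by
    rw [div_lt_iff₀ hY0]
    linarith
  have hj1 : (j : ℝ) ≤ (X / Y - 1) * T := Nat.floor_le (mul_nonneg (by linarith) hT0.le)
  have hj2 : (X / Y - 1) * T < j + 1 := Nat.lt_floor_add_one _
  have hjT : j < 2 ^ τ := by
    have h3 := mul_lt_mul_of_pos_right (show X / Y - 1 < 1 by linarith) hT0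
    have : (j : ℝ) < T := by linarith
    rw [← hTn] at this
    exact_mod_cast this
  have hjTr : (j : ℝ) + 1 ≤ T := by
    rw [← hTn]
    exact_mod_cast hjT
  set x0 : ℝ := Xn Y (2 ^ τ) j with hx0
  set x1 : ℝ := Xn Y (2 ^ τ) (j + 1) with hx1
  have hx0e : x0 = Y * (1 + j / T) := by rw [hx0, Xn, hTn]
  have hx1e : x1 = x0 + Y / T := by
    rw [hx1, Xn, hTn, hx0e]
    push_cast
    ring
  have hx0X : x0 ≤ X := by
    rw [hx0e]
    have : (j : ℝ) / T ≤ X / Y - 1 := by rwa [div_le_iff₀ hT0]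
    calc Y * (1 + j / T) ≤ Y * (X / Y) := mul_le_mul_of_nonneg_left (by linarith) hY0.le
      _ = X := by field_simp
  have hXx1 : X ≤ x1 := by
    rw [hx1e, hx0e]
    have h3 : X / Y - 1 ≤ ((j : ℝ) + 1) / T := by
      rw [le_div_iff₀ hT0]
      exact hj2.le
    have h4 : X = Y * (X / Y) := by field_simp
    have h5 : Y * (X / Y) ≤ Y * (1 + ((j : ℝ) + 1) / T) := mul_le_mul_of_nonneg_left (by linarith) hY0.le
    have h6 : Y * (1 + ((j : ℝ) + 1) / T) = Y * (1 + j / T) + Y / T := by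
      field_simp
      ring
    linarith
  have hYT : Y / T ≤ Y / 4 := div_le_div_of_nonneg_left hY0.le (by norm_num) hT4
  have hYT0 : 0 < Y / T := by positivity
  have hx0Y : Y ≤ x0 := by
    rw [hx0e]
    have : (0 : ℝ) ≤ (j : ℝ) / T := by positivity
    exact le_mul_of_one_le_right hY0.le (by linarith)
  have hx1Y : x1 ≤ 2 * Y := by
    rw [hx1e, hx0e]
    have h3 : ((j : ℝ) + 1) / T ≤ 1 := (div_le_one hT0).2 hjTr
    have h6 : Y * (1 + ((j : ℝ) + 1) / T) = Y * (1 + j / T) + Y / T := by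
      field_simp
      ring
    have h7 : Y * (((j : ℝ) + 1) / T) ≤ Y * 1 := mul_le_mul_of_nonneg_left h3 hY0.le
    have h8 : Y * (1 + ((j : ℝ) + 1) / T) = Y + Y * (((j : ℝ) + 1) / T) := by ring
    linarith
  obtain ⟨e1, e2⟩ := h1 k i j hkk0 hkk1 hiT hjT
  rw [← hx0, ← hx1, ← hLdef] at e1 e2
  have e1' := (abs_le.1 e1).1
  have e2' := (abs_le.1 e2).2
  have hS := h2 k hkk0 hkk1
  have hr : (H - L) / 2 + 1 ≤ 2 ^ (k - τ) := by
    have h3 : (2 : ℝ) ^ k / T = 2 ^ (k - τ) := by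
      rw [hT, pow_sub₀ (2 : ℝ) (by norm_num) (by omega), div_eq_mul_inv]
    have h4 : (2 : ℝ) ≤ 2 ^ (k - τ) := by
      calc (2 : ℝ) = 2 ^ 1 := by norm_num
        _ ≤ 2 ^ (k - τ) := pow_le_pow_right₀ (by norm_num) (by omega)
    rw [h3] at hHL
    linarith
  set ρ : ℝ := (1 + 1 / c) * (4 * (((k - τ : ℕ) : ℝ) + 1) * ∑ n ∈ range N', QQ a (k - τ) n) with hρ
  have hρ0 : 0 ≤ ρ := by
    have : 0 ≤ ∑ n ∈ range N', QQ a (k - τ) n := Finset.sum_nonneg fun n _ => QQ_nonneg a _ n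
    positivity
  have hρ1 : ρ ≤ 8 * (k1 + 1) * θ / c * (Y * H) := by
    have h3 : 1 + 1 / c ≤ 2 / c := by
      rw [le_div_iff₀ hc0]
      have : (1 + 1 / c) * c = c + 1 := by field_simp
      linarith
    have h4 : ((k - τ : ℕ) : ℝ) + 1 ≤ k1 + 1 := by
      have : (k - τ : ℕ) ≤ k1 := by omega
      have : ((k - τ : ℕ) : ℝ) ≤ k1 := by exact_mod_cast this
      linarith
    have h5 : θ * 2 ^ k * Y ≤ θ * H * Y :=
      mul_le_mul_of_nonneg_right (mul_le_mul_of_nonneg_left hk1' hθ) hY0.le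
    have h6 : 0 ≤ ∑ n ∈ range N', QQ a (k - τ) n := Finset.sum_nonneg fun n _ => QQ_nonneg a _ n
    calc ρ ≤ 2 / c * (4 * (k1 + 1) * (θ * H * Y)) := by
          rw [hρ]
          refine mul_le_mul h3 ?_ (by positivity) (by positivity)
          exact mul_le_mul (by linarith) (hS.trans h5) h6 (by positivity)
      _ = 8 * (k1 + 1) * θ / c * (Y * H) := by
          field_simp
          ring
  have hNN : ∀ v : ℝ, v ≤ 4 * Y → v + H / 2 + 2 ≤ N' := by
    intro v hv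
    linarith
  -- upper bound
  have hcmpU := (G_cmp a (u := x0) (v := 2 * x1) hc0 (by linarith) hL0 hLH (by linarith) hr
    (hNN _ (by linarith))).1
  have hcmpL := (G_cmp a (u := x1) (v := 2 * x0) hc0 (by linarith) hL0 hLH (by linarith) hr
    (hNN _ (by linarith))).2
  rw [← hρ] at hcmpU hcmpL
  have hmU : G a X (2 * X) H ≤ G a x0 (2 * x1) H := G_mono a H hx0X (by linarith) (by linarith)
  have hmL : G a x1 (2 * x0) H ≤ G a X (2 * X) H := G_mono a H hXx1 (by linarith) (by linarith)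
  have hYH0 : 0 ≤ Y * H := by positivity
  have hYLH : Y * L ≤ Y * H := mul_le_mul_of_nonneg_left hLH hY0.le
  have hYL0 : 0 ≤ Y * L := by positivity
  have hT4' : 4 / T ≤ 1 := (div_le_one hT0).2 hT4
  have hTi : 0 < 1 / T := by positivity
  have hYTe : Y / T = Y * (1 / T) := by ring
  have h4T : 4 / T = 4 * (1 / T) := by ring
  -- G a x0 (2 x1) L
  have hA : G a x0 (2 * x1) L ≤ κ * X * L + (2 / T + δ) * (Y * L) := by
    have h3 : 2 * x1 - x0 ≤ X + 2 * (Y / T) := by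
      rw [hx1e]
      linarith
    have h4 : κ * (2 * x1 - x0) * L ≤ κ * (X + 2 * (Y / T)) * L :=
      mul_le_mul_of_nonneg_right (mul_le_mul_of_nonneg_left h3 hκ0) hL0.le
    have h5 : κ * (2 * (Y / T)) * L ≤ 1 * (2 * (Y / T)) * L :=
      mul_le_mul_of_nonneg_right (mul_le_mul_of_nonneg_right hκ1 (by positivity)) hL0.le
    have h6 : 1 * (2 * (Y / T)) * L = 2 / T * (Y * L) := by ring
    have h7 : κ * (X + 2 * (Y / T)) * L = κ * X * L + κ * (2 * (Y / T)) * L := by ring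
    have h8 : (2 / T + δ) * (Y * L) = 2 / T * (Y * L) + δ * Y * L := by ring
    rw [h8]
    linarith
  have hκX : κ * X ≤ 2 * Y := by
    have := mul_le_mul_of_nonneg_right hκ1 (show 0 ≤ X by linarith)
    linarith
  have hκXL : κ * X * L ≤ 2 * (Y * L) := by
    have := mul_le_mul_of_nonneg_right hκX hL0.le
    linarith
  have hκXH : κ * X * H ≤ 2 * (Y * H) := by
    have := mul_le_mul_of_nonneg_right hκX hH0.le
    linarith
  have hU : G a X (2 * X) H ≤ κ * X * H + (2 * c + 4 / T + 2 * δ) * (Y * H) + ρ := by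
    have h3 : (1 + c) * G a x0 (2 * x1) L ≤ (1 + c) * (κ * X * L + (2 / T + δ) * (Y * L)) :=
      mul_le_mul_of_nonneg_left hA (by linarith)
    have h4 : (1 + c) * (κ * X * L + (2 / T + δ) * (Y * L)) ≤
        κ * X * L + (2 * c + 4 / T + 2 * δ) * (Y * L) := by
      have h5 : c * (κ * X * L) ≤ c * (2 * (Y * L)) := mul_le_mul_of_nonneg_left hκXL hc0.le
      have h6 : c * ((2 / T + δ) * (Y * L)) ≤ 1 * ((2 / T + δ) * (Y * L)) :=
        mul_le_mul_of_nonneg_right hc1 (by positivity)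
      have h7 : (2 * c + 4 / T + 2 * δ) * (Y * L) = c * (2 * (Y * L)) + 2 * ((2 / T + δ) * (Y * L)) := by ring
      have h8 : (1 + c) * (κ * X * L + (2 / T + δ) * (Y * L)) = κ * X * L + c * (κ * X * L) +
          (2 / T + δ) * (Y * L) + c * ((2 / T + δ) * (Y * L)) := by ring
      rw [h7, h8]
      linarith
    have h5 : κ * X * L ≤ κ * X * H := mul_le_mul_of_nonneg_left hLH (mul_nonneg hκ0 (by linarith))
    have h6 : (2 * c + 4 / T + 2 * δ) * (Y * L) ≤ (2 * c + 4 / T + 2 * δ) * (Y * H) :=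
      mul_le_mul_of_nonneg_left hYLH (by positivity)
    linarith
  have hLow : κ * X * H - (7 * c + 4 / T + 2 * δ) * (Y * H) - 2 * ρ ≤ G a X (2 * X) H := by
    -- (1 + c) G ≥ A - ρ
    have h3 : κ * (2 * x0 - x1) * L - δ * Y * L ≤ G a x1 (2 * x0) L := by linarith
    have h4 : κ * X * H - 4 / T * (Y * H) ≤ κ * (2 * x0 - x1) * L := by
      have h5 : X - 2 * (Y / T) ≤ 2 * x0 - x1 := by
        rw [hx1e] at hXx1 ⊢
        linarith
      have h6 : H - H * (1 / T) ≤ L := by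
        have : (2 : ℝ) ^ k / T ≤ H * (1 / T) := by
          rw [div_eq_mul_one_div]
          exact mul_le_mul_of_nonneg_right hk1' hTi.le
        linarith
      have h7 : 0 ≤ X - 2 * (Y / T) := by linarith
      have h8 : 0 ≤ H - H * (1 / T) := by
        have h9 : 1 / T ≤ 1 := by
          rw [div_le_one hT0]
          linarith
        have h10 := mul_le_mul_of_nonneg_left h9 hH0.le
        linarith
      have h9 : κ * ((X - 2 * (Y / T)) * (H - H * (1 / T))) ≤ κ * ((2 * x0 - x1) * L) :=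
        mul_le_mul_of_nonneg_left (mul_le_mul h5 h6 h8 (by linarith)) hκ0
      have h10 : (X - 2 * (Y / T)) * (H - H * (1 / T)) ≥ X * H - 4 * (1 / T) * (Y * H) := by
        have h11 : (X - 2 * (Y / T)) * (H - H * (1 / T)) =
            X * H - X * H * (1 / T) - 2 * (1 / T) * (Y * H) + 2 * (1 / T) * (1 / T) * (Y * H) := by
          rw [hYTe]
          ring
        have h12 : X * H * (1 / T) ≤ 2 * (1 / T) * (Y * H) := by
          have h14 : X * H ≤ 2 * Y * H := mul_le_mul_of_nonneg_right hX2.le hH0.le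
          have h15 := mul_le_mul_of_nonneg_right h14 hTi.le
          have h16 : 2 * Y * H * (1 / T) = 2 * (1 / T) * (Y * H) := by ring
          linarith
        have h13 : 0 ≤ 2 * (1 / T) * (1 / T) * (Y * H) := by positivity
        linarith
      have h14 : κ * (4 * (1 / T) * (Y * H)) ≤ 1 * (4 * (1 / T) * (Y * H)) :=
        mul_le_mul_of_nonneg_right hκ1 (by positivity)
      have h15 := mul_le_mul_of_nonneg_left h10 hκ0
      have h16 : κ * (X * H - 4 * (1 / T) * (Y * H)) = κ * X * H - κ * (4 * (1 / T) * (Y * H)) := by ring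
      have h17 : κ * (2 * x0 - x1) * L = κ * ((2 * x0 - x1) * L) := by ring
      rw [h4T, h17]
      rw [h16] at h15
      linarith
    have h5 : δ * Y * L ≤ δ * (Y * H) := by
      rw [mul_assoc]
      exact mul_le_mul_of_nonneg_left hYLH hδ0
    have h6 : κ * X * H - 4 / T * (Y * H) - δ * (Y * H) ≤ (1 + c) * G a x1 (2 * x0) H + ρ := by
      linarith
    have h7 : c * G a x1 (2 * x0) H ≤ 7 * (c * (Y * H)) + c * ρ := by
      have e7 : 7 * (c * (Y * H)) + c * ρ = c * (7 * (Y * H) + ρ) := by ring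
      rw [e7]
      refine mul_le_mul_of_nonneg_left ?_ hc0.le
      refine (hmL.trans hU).trans ?_
      have h9 : (2 * c + 4 / T + 2 * δ) * (Y * H) ≤ 5 * (Y * H) :=
        mul_le_mul_of_nonneg_right (by linarith) hYH0
      linarith
    have h8 : c * ρ ≤ 1 * ρ := mul_le_mul_of_nonneg_right hc1 hρ0
    have h9 : G a x1 (2 * x0) H ≤ G a X (2 * X) H := hmL
    have h10 : 0 ≤ δ * (Y * H) := by positivity
    have h11 : (7 * c + 4 / T + 2 * δ) * (Y * H) = 7 * (c * (Y * H)) + 4 / T * (Y * H) + 2 * (δ * (Y * H)) := by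
      ring
    have h12 : (1 + c) * G a x1 (2 * x0) H = G a x1 (2 * x0) H + c * G a x1 (2 * x0) H := by ring
    rw [h11]
    rw [h12] at h6
    linarith
  have hfin : 2 * ρ ≤ 16 * (k1 + 1) * θ / c * (Y * H) := by
    have : 16 * (k1 + 1) * θ / c * (Y * H) = 2 * (8 * (k1 + 1) * θ / c * (Y * H)) := by ring
    rw [this]
    linarith
  have hcYH : 0 ≤ c * (Y * H) := by positivity
  have e1 : (7 * c + 4 / T + 2 * δ + 16 * (k1 + 1) * θ / c) * (Y * H) =
      7 * (c * (Y * H)) + 4 / T * (Y * H) + 2 * (δ * (Y * H)) + 16 * (k1 + 1) * θ / c * (Y * H) := by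
    ring
  have e2 : (7 * c + 4 / T + 2 * δ) * (Y * H) =
      7 * (c * (Y * H)) + 4 / T * (Y * H) + 2 * (δ * (Y * H)) := by
    ring
  have e3 : (2 * c + 4 / T + 2 * δ) * (Y * H) =
      2 * (c * (Y * H)) + 4 / T * (Y * H) + 2 * (δ * (Y * H)) := by
    ring
  rw [e2] at hLow
  rw [e3] at hU
  rw [e1, abs_le]
  constructor <;> linarith

end Pool.Agent.H95SD.GC
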