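import Pool.Agent.H95SD.GC3

/-!
# The variance of sums in short intervals: the probability of a large deviation

For a family of sequences with fixed absolute values, the probability that the asymptotic formula fails at some
position and length of a dyadic range.
-/

set_option autoImplicit false

open Finset MeasureTheory

namespace Pool.Agent.H95SD.GC

section prob

variable {Ω : Type} [MeasurableSpace Ω] (P : Measure Ω) [IsProbabilityMeasure P] (a : Ω → ℕ → ℂ)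
  (hm : ∀ n, Measurable (fun ω => a ω n)) (hb : ∀ ω n, ‖a ω n‖ ≤ 1)

include hm hb

lemma G_meas {u v H : ℝ} (huv : u ≤ v) : Measurable (fun ω => G (a ω) u v H) := by
  set N : ℕ := ⌈v + H / 2⌉₊ with hN
  have h1 : v + H / 2 ≤ N := Nat.le_ceil _
  have : (fun ω => G (a ω) u v H) = fun ω => ∑ n ∈ range (N + 1), ∑ m ∈ range (N + 1),
      (a ω n * (starRingEnd ℂ) (a ω m)).re * w u v H n m := funext fun ω => G_eq (a ω) huv h1
  rw [this]
  refine Finset.measurable_sum _ fun n _ => Finset.measurable_sum _ fun m _ => ?_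
  refine Measurable.mul_const ?_ _
  exact Complex.measurable_re.comp ((hm n).mul (Complex.continuous_conj.measurable.comp (hm m)))

lemma G_le {u v H : ℝ} (huv : u ≤ v) (hH : 0 ≤ H) {N : ℕ} (hN : v + H / 2 ≤ N) (ω : Ω) :
    |G (a ω) u v H| ≤ ((N : ℝ) + 1) ^ 2 * H := by
  rw [G_eq (a ω) huv hN]
  refine (Finset.abs_sum_le_sum_abs _ _).trans ?_
  calc ∑ n ∈ range (N + 1), |∑ m ∈ range (N + 1), (a ω n * (starRingEnd ℂ) (a ω m)).re * w u v H n m|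
      ≤ ∑ _n ∈ range (N + 1), ∑ _m ∈ range (N + 1), H := by
        refine Finset.sum_le_sum fun n _ => (Finset.abs_sum_le_sum_abs _ _).trans
          (Finset.sum_le_sum fun m _ => ?_)
        rw [abs_mul, abs_of_nonneg (w_nonneg huv n m)]
        have h1 : |(a ω n * (starRingEnd ℂ) (a ω m)).re| ≤ 1 := by
          refine (Complex.abs_re_le_norm _).trans ?_
          rw [norm_mul, RCLike.norm_conj]
          exact mul_le_one₀ (hb ω n) (norm_nonneg _) (hb ω m)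
        calc |(a ω n * (starRingEnd ℂ) (a ω m)).re| * w u v H n m ≤ 1 * H :=
              mul_le_mul h1 (w_le hH huv n m) (w_nonneg huv n m) zero_le_one
          _ = H := one_mul H
    _ = ((N : ℝ) + 1) ^ 2 * H := by
        rw [Finset.sum_const, Finset.sum_const, card_range, nsmul_eq_mul, nsmul_eq_mul]
        push_cast
        ring

/-- Chebyshev's inequality for the deviation from the diagonal -/
lemma cheb {s : ℕ → ℝ} (hs : ∀ ω n, ‖a ω n‖ ^ 2 = s n) {N : ℕ} {u v H R ρ : ℝ}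
    (huv : u ≤ v) (hH : 0 ≤ H) (hN : v + H / 2 ≤ N) (hρ : 0 < ρ)
    (hR : ∑ p ∈ Pr N H, ∑ p' ∈ Pr N H, ‖∫ ω, bb (a ω) p * (starRingEnd ℂ) (bb (a ω) p') ∂P‖ ≤ R) :
    P.real {ω | ρ < |G (a ω) u v H - ∑ n ∈ range (N + 1), s n * w u v H n n|} ≤ H ^ 2 * R / ρ ^ 2 := by
  have h1 := var_bound P a hm hb huv hH hN hR
  have h2 : ∀ ω, ∑ n ∈ range (N + 1), ‖a ω n‖ ^ 2 * w u v H n n = ∑ n ∈ range (N + 1), s n * w u v H n n :=
    fun ω => Finset.sum_congr rfl fun n _ => by rw [hs ω n]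
  simp only [h2] at h1
  set D : ℝ := ∑ n ∈ range (N + 1), s n * w u v H n n with hD
  have hmeas : Measurable (fun ω => (G (a ω) u v H - D) ^ 2) :=
    ((G_meas a hm hb huv).sub_const D).pow_const 2
  have hint : Integrable (fun ω => (G (a ω) u v H - D) ^ 2) P := by
    refine Integrable.of_bound hmeas.aestronglyMeasurable ((((N : ℝ) + 1) ^ 2 * H + |D|) ^ 2)
      (Filter.Eventually.of_forall fun ω => ?_)
    rw [Real.norm_eq_abs, abs_of_nonneg (sq_nonneg _), ← sq_abs]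
    refine pow_le_pow_left₀ (abs_nonneg _) ?_ 2
    exact (abs_sub _ _).trans (add_le_add (G_le a hm hb huv hH hN ω) le_rfl)
  have h3 := mul_meas_ge_le_integral_of_nonneg (μ := P) (f := fun ω => (G (a ω) u v H - D) ^ 2)
    (Filter.Eventually.of_forall fun ω => sq_nonneg _) hint (ρ ^ 2)
  rw [le_div_iff₀ (by positivity)]
  have h4 : P.real {ω | ρ < |G (a ω) u v H - D|} ≤ P.real {ω | ρ ^ 2 ≤ (G (a ω) u v H - D) ^ 2} := by
    refine measureReal_mono ?_ (by simp)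
    intro ω hω
    have hω' : ρ < |G (a ω) u v H - D| := hω
    show ρ ^ 2 ≤ (G (a ω) u v H - D) ^ 2
    rw [← sq_abs (G (a ω) u v H - D)]
    exact pow_le_pow_left₀ hρ.le hω'.le 2
  nlinarith [sq_nonneg ρ]

/-- Markov's inequality for the sums of maximal functions -/
lemma mark {β : ℝ} {N1 K1 : ℕ} (hO : ∀ u k : ℕ, u + k ≤ N1 → k ≤ K1 →
    ∫ ω, ‖∑ i ∈ Ico u (u + k), a ω i‖ ^ 2 ∂P ≤ β * k) {r N' : ℕ} (h1 : N' + 2 ^ r ≤ N1) (h2 : 2 ^ r ≤ K1)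
    {ρ : ℝ} (hρ : 0 < ρ) :
    P.real {ω | ρ < ∑ n ∈ range N', QQ (a ω) r n} ≤ N' * (((r : ℝ) + 1) * (β * 2 ^ r)) / ρ := by
  have hint : Integrable (fun ω => ∑ n ∈ range N', QQ (a ω) r n) P :=
    integrable_finsetSum _ fun n _ => int_QQ P a hm hb r n
  have h3 := mul_meas_ge_le_integral_of_nonneg (μ := P) (f := fun ω => ∑ n ∈ range N', QQ (a ω) r n)
    (Filter.Eventually.of_forall fun ω => Finset.sum_nonneg fun n _ => QQ_nonneg _ _ _) hint ρ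
  rw [le_div_iff₀ hρ]
  have h4 : P.real {ω | ρ < ∑ n ∈ range N', QQ (a ω) r n} ≤ P.real {ω | ρ ≤ ∑ n ∈ range N', QQ (a ω) r n} := by
    refine measureReal_mono ?_ (by simp)
    intro ω hω
    have hω' : ρ < ∑ n ∈ range N', QQ (a ω) r n := hω
    exact hω'.le
  have h5 : ∫ ω, ∑ n ∈ range N', QQ (a ω) r n ∂P ≤ N' * (((r : ℝ) + 1) * (β * 2 ^ r)) := by
    rw [integral_finsetSum _ fun n _ => int_QQ P a hm hb r n]
    calc ∑ n ∈ range N', ∫ ω, QQ (a ω) r n ∂P ≤ ∑ _n ∈ range N', ((r : ℝ) + 1) * (β * 2 ^ r) := by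
          refine Finset.sum_le_sum fun n hn => ?_
          rw [mem_range] at hn
          exact QQ_mean P a hm hb hO r n (by omega) h2
      _ = _ := by
          rw [Finset.sum_const, card_range, nsmul_eq_mul]
  nlinarith

omit hm hb in
lemma Pr_mono {N : ℕ} {H H' : ℝ} (h : H ≤ H') : Pr N H ⊆ Pr N H' := by
  intro p hp
  rw [Pr, mem_filter] at hp ⊢
  exact ⟨hp.1, hp.2.1, by linarith [hp.2.2]⟩

omit hm hb in
lemma R_mono {N : ℕ} {H H' R : ℝ} (h : H ≤ H')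
    (hR : ∑ p ∈ Pr N H', ∑ p' ∈ Pr N H', ‖∫ ω, bb (a ω) p * (starRingEnd ℂ) (bb (a ω) p') ∂P‖ ≤ R) :
    ∑ p ∈ Pr N H, ∑ p' ∈ Pr N H, ‖∫ ω, bb (a ω) p * (starRingEnd ℂ) (bb (a ω) p') ∂P‖ ≤ R := by
  refine le_trans ?_ hR
  calc ∑ p ∈ Pr N H, ∑ p' ∈ Pr N H, ‖∫ ω, bb (a ω) p * (starRingEnd ℂ) (bb (a ω) p') ∂P‖
      ≤ ∑ p ∈ Pr N H, ∑ p' ∈ Pr N H', ‖∫ ω, bb (a ω) p * (starRingEnd ℂ) (bb (a ω) p') ∂P‖ :=
        Finset.sum_le_sum fun p _ => Finset.sum_le_sum_of_subset_of_nonneg (Pr_mono h)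
          fun _ _ _ => norm_nonneg _
    _ ≤ _ := Finset.sum_le_sum_of_subset_of_nonneg (Pr_mono h) fun _ _ _ =>
        Finset.sum_nonneg fun _ _ => norm_nonneg _

/-- **the probability that the asymptotic formula fails somewhere in a dyadic range** -/
theorem bad_prob {s : ℕ → ℝ} (hs : ∀ ω n, ‖a ω n‖ ^ 2 = s n) {y k0 k1 τ N1 K1 : ℕ}
    {κ E0 δ θ c R β : ℝ} (hy : 2 ≤ y) (hκ0 : 0 ≤ κ) (hκ1 : κ ≤ 1) (hδ0 : 0 < δ) (hδ1 : δ ≤ 1) (hc0 : 0 < c)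
    (hc1 : c ≤ 1) (hθ : 0 < θ) (hτ : 2 ≤ τ) (hk0 : τ + 1 ≤ k0) (hk1 : k1 ≤ y) (hβ : 0 ≤ β) (hR0 : 0 ≤ R)
    (hE0 : 0 ≤ E0)
    (hc : ∀ k : ℕ, k ≤ 5 * 2 ^ y + 1 → |∑ n ∈ range k, s n - κ * k| ≤ E0)
    (hδE : κ * ((2 : ℝ) ^ k1 + 1) + 2 * E0 ≤ δ / 2 * 2 ^ y)
    (hO : ∀ u k : ℕ, u + k ≤ N1 → k ≤ K1 → ∫ ω, ‖∑ i ∈ Ico u (u + k), a ω i‖ ^ 2 ∂P ≤ β * k)
    (hN1 : 9 * 2 ^ y ≤ N1) (hK1 : 2 ^ k1 ≤ K1)
    (hR : ∑ p ∈ Pr (5 * 2 ^ y) (2 ^ k1), ∑ p' ∈ Pr (5 * 2 ^ y) (2 ^ k1),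
      ‖∫ ω, bb (a ω) p * (starRingEnd ℂ) (bb (a ω) p') ∂P‖ ≤ R) :
    P.real {ω | ∃ X H : ℝ, (2 : ℝ) ^ y ≤ X ∧ X < 2 * 2 ^ y ∧ (2 : ℝ) ^ k0 ≤ H ∧ H < 2 ^ k1 ∧
      (7 * c + 4 / 2 ^ τ + 2 * δ + 16 * (k1 + 1) * θ / c) * (2 ^ y * H) < |G (a ω) X (2 * X) H - κ * X * H|} ≤
      k1 * (8 * 4 ^ τ * R / (δ * 2 ^ y) ^ 2 + 8 * (k1 + 1) * β / (θ * 2 ^ τ)) := by
  set Y : ℝ := 2 ^ y with hY
  have hY4 : 4 ≤ Y := by
    rw [hY]
    calc (4 : ℝ) = 2 ^ 2 := by norm_num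
      _ ≤ 2 ^ y := pow_le_pow_right₀ (by norm_num) hy
  have hY0 : 0 < Y := by linarith
  have hk1Y : (2 : ℝ) ^ k1 ≤ Y := pow_le_pow_right₀ (by norm_num) hk1
  set N : ℕ := 5 * 2 ^ y with hN
  have hNY : (N : ℝ) = 5 * Y := by
    rw [hN]
    push_cast
    rfl
  set N' : ℕ := 8 * 2 ^ y with hN'
  have hNY' : (N' : ℝ) = 8 * Y := by
    rw [hN']
    push_cast
    rfl
  -- the positions
  have hT0 : (0 : ℝ) < 2 ^ τ := by positivity
  have hTn : ((2 ^ τ : ℕ) : ℝ) = 2 ^ τ := by push_cast; rfl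
  have hX : ∀ j : ℕ, j ≤ 2 ^ τ → Y ≤ Xn Y (2 ^ τ) j ∧ Xn Y (2 ^ τ) j ≤ 2 * Y := by
    intro j hj
    have h1 : (j : ℝ) ≤ 2 ^ τ := by exact_mod_cast hj
    have h2 : (j : ℝ) / 2 ^ τ ≤ 1 := (div_le_one hT0).2 h1
    have h3 : 0 ≤ (j : ℝ) / 2 ^ τ := by positivity
    rw [Xn, hTn]
    constructor <;> nlinarith
  have hL : ∀ k i : ℕ, k < k1 → i < 2 ^ τ → 0 < Ln (2 ^ τ) k i ∧ Ln (2 ^ τ) k i ≤ 2 ^ k1 := by
    intro k i hk hi
    have h1 : (i : ℝ) ≤ 2 ^ τ := by exact_mod_cast hi.le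
    have h2 : (i : ℝ) / 2 ^ τ ≤ 1 := (div_le_one hT0).2 h1
    have h3 : 0 ≤ (i : ℝ) / 2 ^ τ := by positivity
    have h4 : (2 : ℝ) ^ (k + 1) ≤ 2 ^ k1 := pow_le_pow_right₀ (by norm_num) (by omega)
    rw [pow_succ] at h4
    have h5 : (0 : ℝ) < 2 ^ k := by positivity
    rw [Ln, hTn]
    constructor
    · positivity
    · nlinarith
  -- one interval
  have hone : ∀ (u v L : ℝ), Y ≤ u → u ≤ v → v ≤ 4 * Y → 0 < L → L ≤ 2 ^ k1 →
      P.real {ω | ¬ |G (a ω) u v L - κ * (v - u) * L| ≤ δ * Y * L} ≤ 4 * R / (δ * Y) ^ 2 := by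
    intro u v L h1 h2 h3 h4 h5
    have h6 : v + L / 2 ≤ N := by
      rw [hNY]
      linarith
    have h7 := diag_bound s (fun n => by
      have hne : Nonempty Ω := by
        by_contra hne
        rw [not_nonempty_iff] at hne
        have h8 : P Set.univ = 0 := by
          rw [Set.univ_eq_empty_iff.2 hne]
          simp
        rw [measure_univ] at h8
        exact one_ne_zero h8
      obtain ⟨ω⟩ := hne
      rw [← hs ω n]
      positivity) hκ0 hE0 hc h2 h4.le (by linarith : L / 2 ≤ u) h6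
    have h8 : L * (κ * (L + 1) + 2 * E0) ≤ δ / 2 * Y * L := by
      have : κ * (L + 1) ≤ κ * ((2 : ℝ) ^ k1 + 1) := mul_le_mul_of_nonneg_left (by linarith) hκ0
      have h9 : κ * (L + 1) + 2 * E0 ≤ δ / 2 * Y := by linarith
      have := mul_le_mul_of_nonneg_left h9 h4.le
      linarith
    have h9 := cheb P a hm hb hs h2 h4.le h6 (show 0 < δ / 2 * Y * L by positivity) (R_mono P a h5 hR)
    refine le_trans (measureReal_mono ?_ (by simp)) (h9.trans (le_of_eq ?_))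
    · intro ω hω
      have hω' : ¬ |G (a ω) u v L - κ * (v - u) * L| ≤ δ * Y * L := hω
      rw [not_le] at hω'
      show δ / 2 * Y * L < |G (a ω) u v L - ∑ n ∈ range (N + 1), s n * w u v L n n|
      have h10 := abs_add_le (G (a ω) u v L - ∑ n ∈ range (N + 1), s n * w u v L n n)
        (∑ n ∈ range (N + 1), s n * w u v L n n - κ * (v - u) * L)
      rw [sub_add_sub_cancel] at h10
      linarith
    · field_simp
      ring
  -- the pairs of intervals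
  have hE1 : ∀ k i j : ℕ, k < k1 → i < 2 ^ τ → j < 2 ^ τ →
      P.real {ω | ¬ E1 (a ω) Y κ δ (2 ^ τ) k i j} ≤ 2 * (4 * R / (δ * Y) ^ 2) := by
    intro k i j hk hi hj
    obtain ⟨hL0, hL1⟩ := hL k i hk hi
    obtain ⟨hj0, hj1⟩ := hX j hj.le
    obtain ⟨hj2, hj3⟩ := hX (j + 1) hj
    have h1 := hone (Xn Y (2 ^ τ) (j + 1)) (2 * Xn Y (2 ^ τ) j) _ hj2 (by linarith) (by linarith) hL0 hL1
    have h2 := hone (Xn Y (2 ^ τ) j) (2 * Xn Y (2 ^ τ) (j + 1)) _ hj0 (by linarith) (by linarith) hL0 hL1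
    have h3 := add_le_add h1 h2
    rw [← two_mul] at h3
    refine le_trans (measureReal_mono ?_ (by simp)) ((measureReal_union_le _ _).trans h3)
    intro ω hω
    have hω' : ¬ E1 (a ω) Y κ δ (2 ^ τ) k i j := hω
    rw [E1, not_and_or] at hω'
    exact hω'
  -- the maximal functions
  have hE2 : ∀ k : ℕ, k0 ≤ k → k < k1 →
      P.real {ω | ¬ ∑ n ∈ range N', QQ (a ω) (k - τ) n ≤ θ * 2 ^ k * Y} ≤ 8 * (k1 + 1) * β / (θ * 2 ^ τ) := by
    intro k hk0' hk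
    have h1 : 2 ^ (k - τ) ≤ 2 ^ k1 := Nat.pow_le_pow_right (by norm_num) (by omega)
    have h2 : 2 ^ (k - τ) ≤ 2 ^ y := Nat.pow_le_pow_right (by norm_num) (by omega)
    have h3 := mark P a hm hb hO (r := k - τ) (N' := N') (by omega) (h1.trans hK1)
      (show 0 < θ * 2 ^ k * Y by positivity)
    refine le_trans (measureReal_mono ?_ (by simp)) (h3.trans ?_)
    · intro ω hω
      have hω' : ¬ ∑ n ∈ range N', QQ (a ω) (k - τ) n ≤ θ * 2 ^ k * Y := hω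
      rw [not_le] at hω'
      exact hω'
    · have h4 : (2 : ℝ) ^ k = 2 ^ (k - τ) * 2 ^ τ := by
        rw [← pow_add]
        congr 1
        omega
      have h5 : ((k - τ : ℕ) : ℝ) ≤ k1 := by exact_mod_cast (by omega : k - τ ≤ k1)
      rw [hNY', h4]
      have h6 : 8 * Y * ((((k - τ : ℕ) : ℝ) + 1) * (β * 2 ^ (k - τ))) / (θ * (2 ^ (k - τ) * 2 ^ τ) * Y) =
          8 * (((k - τ : ℕ) : ℝ) + 1) * β / (θ * 2 ^ τ) := by
        field_simp
      rw [h6]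
      refine div_le_div_of_nonneg_right ?_ (by positivity)
      exact mul_le_mul_of_nonneg_right (by linarith) hβ
  -- the union
  have hsub : {ω | ∃ X H : ℝ, Y ≤ X ∧ X < 2 * Y ∧ (2 : ℝ) ^ k0 ≤ H ∧ H < 2 ^ k1 ∧
      (7 * c + 4 / 2 ^ τ + 2 * δ + 16 * (k1 + 1) * θ / c) * (Y * H) < |G (a ω) X (2 * X) H - κ * X * H|} ⊆
      ⋃ k ∈ Ico k0 k1, ((⋃ i ∈ range (2 ^ τ), ⋃ j ∈ range (2 ^ τ), {ω | ¬ E1 (a ω) Y κ δ (2 ^ τ) k i j}) ∪
        {ω | ¬ ∑ n ∈ range N', QQ (a ω) (k - τ) n ≤ θ * 2 ^ k * Y}) := by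
    intro ω hω
    by_contra hcon
    simp only [Set.mem_iUnion, Set.mem_union, not_exists, not_or, mem_Ico, mem_range, Set.mem_ofPred_eq,
      not_not] at hcon
    obtain ⟨X, H, h1, h2, h3, h4, h5⟩ := hω
    have h6 := net (a ω) (Y := Y) (κ := κ) (δ := δ) (θ := θ) (c := c) (τ := τ) (k0 := k0) (k1 := k1) (N' := N')
      (by linarith) hκ0 hκ1 hδ0.le hδ1 hc0 hc1 hθ.le hτ hk0 hk1Y (by rw [hNY']; linarith)
      (fun k i j a1 a2 a3 a4 => (hcon k ⟨a1, a2⟩).1 i a3 j a4) (fun k a1 a2 => (hcon k ⟨a1, a2⟩).2)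
      h1 h2 h3 h4
    linarith
  refine (measureReal_mono hsub (by simp)).trans ?_
  refine (measureReal_biUnion_finset_le _ _).trans ?_
  have hb0 : 0 ≤ 8 * 4 ^ τ * R / (δ * Y) ^ 2 + 8 * (k1 + 1) * β / (θ * 2 ^ τ) := by positivity
  calc ∑ k ∈ Ico k0 k1, P.real ((⋃ i ∈ range (2 ^ τ), ⋃ j ∈ range (2 ^ τ), {ω | ¬ E1 (a ω) Y κ δ (2 ^ τ) k i j}) ∪
        {ω | ¬ ∑ n ∈ range N', QQ (a ω) (k - τ) n ≤ θ * 2 ^ k * Y})
      ≤ ∑ _k ∈ Ico k0 k1, (8 * 4 ^ τ * R / (δ * Y) ^ 2 + 8 * (k1 + 1) * β / (θ * 2 ^ τ)) := by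
        refine Finset.sum_le_sum fun k hk => ?_
        rw [mem_Ico] at hk
        refine (measureReal_union_le _ _).trans (add_le_add ?_ (hE2 k hk.1 hk.2))
        refine (measureReal_biUnion_finset_le _ _).trans ?_
        calc ∑ i ∈ range (2 ^ τ), P.real (⋃ j ∈ range (2 ^ τ), {ω | ¬ E1 (a ω) Y κ δ (2 ^ τ) k i j})
            ≤ ∑ _i ∈ range (2 ^ τ), ∑ _j ∈ range (2 ^ τ), 2 * (4 * R / (δ * Y) ^ 2) := by
              refine Finset.sum_le_sum fun i hi => (measureReal_biUnion_finset_le _ _).trans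
                (Finset.sum_le_sum fun j hj => ?_)
              rw [mem_range] at hi hj
              exact hE1 k i j hk.2 hi hj
          _ = 8 * 4 ^ τ * R / (δ * Y) ^ 2 := by
              rw [Finset.sum_const, Finset.sum_const, card_range, nsmul_eq_mul, nsmul_eq_mul, hTn]
              have h4 : (4 : ℝ) ^ τ = 2 ^ τ * 2 ^ τ := by
                rw [← mul_pow]
                norm_num
              rw [h4]
              ring
    _ = ((k1 - k0 : ℕ) : ℝ) * (8 * 4 ^ τ * R / (δ * Y) ^ 2 + 8 * (k1 + 1) * β / (θ * 2 ^ τ)) := by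
        rw [Finset.sum_const, Nat.card_Ico, nsmul_eq_mul]
    _ ≤ _ := by
        refine mul_le_mul_of_nonneg_right ?_ hb0
        exact_mod_cast Nat.sub_le k1 k0

end prob

end Pool.Agent.H95SD.GC
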