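import Pool.Agent.H95SD.GC4

/-!
# The variance of sums in short intervals: characters

Finite families with the uniform distribution, and the correlations of order four of the sequences `μ(n) χ(n)`,
where `χ` runs over the Dirichlet characters modulo `q`.
-/

set_option autoImplicit false

open Finset MeasureTheory

namespace Pool.Agent.H95SD.GC

/-- the bad event, for a single sequence -/
def Bad (a : ℕ → ℂ) (y k0 k1 : ℕ) (κ ε0 : ℝ) : Prop :=
  ∃ X H : ℝ, (2 : ℝ) ^ y ≤ X ∧ X < 2 * 2 ^ y ∧ (2 : ℝ) ^ k0 ≤ H ∧ H < 2 ^ k1 ∧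
    ε0 * (2 ^ y * H) < |G a X (2 * X) H - κ * X * H|

open scoped Classical in
/-- **finite families** -/
theorem bad_fin {Ω : Type} [Fintype Ω] [Nonempty Ω] (a : Ω → ℕ → ℂ) (hb : ∀ ω n, ‖a ω n‖ ≤ 1)
    {s : ℕ → ℝ} (hs : ∀ ω n, ‖a ω n‖ ^ 2 = s n) {y k0 k1 τ N1 K1 : ℕ}
    {κ E0 δ θ c R β : ℝ} (hy : 2 ≤ y) (hκ0 : 0 ≤ κ) (hκ1 : κ ≤ 1) (hδ0 : 0 < δ) (hδ1 : δ ≤ 1) (hc0 : 0 < c)
    (hc1 : c ≤ 1) (hθ : 0 < θ) (hτ : 2 ≤ τ) (hk0 : τ + 1 ≤ k0) (hk1 : k1 ≤ y) (hβ : 0 ≤ β) (hR0 : 0 ≤ R)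
    (hE0 : 0 ≤ E0)
    (hc : ∀ k : ℕ, k ≤ 5 * 2 ^ y + 1 → |∑ n ∈ range k, s n - κ * k| ≤ E0)
    (hδE : κ * ((2 : ℝ) ^ k1 + 1) + 2 * E0 ≤ δ / 2 * 2 ^ y)
    (hO : ∀ u k : ℕ, u + k ≤ N1 → k ≤ K1 →
      (Fintype.card Ω : ℝ)⁻¹ * ∑ ω, ‖∑ i ∈ Ico u (u + k), a ω i‖ ^ 2 ≤ β * k)
    (hN1 : 9 * 2 ^ y ≤ N1) (hK1 : 2 ^ k1 ≤ K1)
    (hR : ∑ p ∈ Pr (5 * 2 ^ y) (2 ^ k1), ∑ p' ∈ Pr (5 * 2 ^ y) (2 ^ k1),
      ‖(Fintype.card Ω : ℂ)⁻¹ * ∑ ω, bb (a ω) p * (starRingEnd ℂ) (bb (a ω) p')‖ ≤ R) :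
    ((univ.filter fun ω => Bad (a ω) y k0 k1 κ (7 * c + 4 / 2 ^ τ + 2 * δ + 16 * (k1 + 1) * θ / c)).card : ℝ) ≤
      Fintype.card Ω * (k1 * (8 * 4 ^ τ * R / (δ * 2 ^ y) ^ 2 + 8 * (k1 + 1) * β / (θ * 2 ^ τ))) := by
  letI : MeasurableSpace Ω := ⊤
  haveI : MeasurableSingletonClass Ω := ⟨fun _ => MeasurableSpace.measurableSet_top⟩
  set P : Measure Ω := (PMF.uniformOfFintype Ω).toMeasure with hP
  have hcard : (0 : ℝ) < Fintype.card Ω := by exact_mod_cast Fintype.card_pos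
  have hw : ∀ ω : Ω, ((PMF.uniformOfFintype Ω) ω).toReal = (Fintype.card Ω : ℝ)⁻¹ := by
    intro ω
    rw [PMF.uniformOfFintype_apply]
    simp
  have hi : ∀ f : Ω → ℝ, ∫ ω, f ω ∂P = (Fintype.card Ω : ℝ)⁻¹ * ∑ ω, f ω := by
    intro f
    rw [hP, PMF.integral_eq_sum, Finset.mul_sum]
    refine Finset.sum_congr rfl fun ω _ => ?_
    rw [hw, smul_eq_mul]
  have hic : ∀ f : Ω → ℂ, ∫ ω, f ω ∂P = (Fintype.card Ω : ℂ)⁻¹ * ∑ ω, f ω := by
    intro f
    rw [hP, PMF.integral_eq_sum, Finset.mul_sum]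
    refine Finset.sum_congr rfl fun ω _ => ?_
    rw [hw, Complex.real_smul]
    push_cast
    rfl
  have h1 := bad_prob P a (fun n => measurable_from_top) hb hs (R := R) (β := β) (c := c) (θ := θ) (δ := δ)
    (κ := κ) (E0 := E0) (y := y) (k0 := k0) (k1 := k1) (τ := τ) (N1 := N1) (K1 := K1) hy hκ0 hκ1 hδ0 hδ1 hc0 hc1
    hθ hτ hk0 hk1 hβ hR0 hE0 hc hδE (fun u k h2 h3 => by rw [hi]; exact hO u k h2 h3) hN1 hK1
    (by simp only [hic]; exact hR)
  have h2 : P.real {ω | Bad (a ω) y k0 k1 κ (7 * c + 4 / 2 ^ τ + 2 * δ + 16 * (k1 + 1) * θ / c)} =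
      ((univ.filter fun ω => Bad (a ω) y k0 k1 κ
        (7 * c + 4 / 2 ^ τ + 2 * δ + 16 * (k1 + 1) * θ / c)).card : ℝ) / Fintype.card Ω := by
    rw [measureReal_def, hP, PMF.toMeasure_uniformOfFintype_apply _ MeasurableSpace.measurableSet_top,
      ENNReal.toReal_div, ENNReal.toReal_natCast, ENNReal.toReal_natCast]
    congr 2
    rw [Fintype.card_subtype]
    rfl
  have h3 : {ω | Bad (a ω) y k0 k1 κ (7 * c + 4 / 2 ^ τ + 2 * δ + 16 * (k1 + 1) * θ / c)} =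
      {ω | ∃ X H : ℝ, (2 : ℝ) ^ y ≤ X ∧ X < 2 * 2 ^ y ∧ (2 : ℝ) ^ k0 ≤ H ∧ H < 2 ^ k1 ∧
      (7 * c + 4 / 2 ^ τ + 2 * δ + 16 * (k1 + 1) * θ / c) * (2 ^ y * H) < |G (a ω) X (2 * X) H - κ * X * H|} := rfl
  rw [← h3, h2, div_le_iff₀ hcard] at h1
  linarith

/-! ### counting -/

/-- integers of a class in an interval -/
lemma card_class {q : ℕ} (hq : 0 < q) (Z : ℕ) (r : ℤ) :
    ((Icc (-(Z : ℤ)) Z).filter (fun v => (q : ℤ) ∣ v - r)).card ≤ 2 * Z / q + 1 := by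
  have hq0 : (0 : ℤ) < q := by exact_mod_cast hq
  rw [← card_range (2 * Z / q + 1)]
  refine Finset.card_le_card_of_injOn (fun v => ((v + Z) / q).toNat) ?_ ?_
  · intro v hv
    rw [mem_coe, mem_filter, mem_Icc] at hv
    rw [mem_coe, mem_range]
    have h1 : 0 ≤ (v + Z) / q := Int.ediv_nonneg (by omega) hq0.le
    have h2 : (v + Z) / (q : ℤ) ≤ (2 * Z : ℤ) / q := Int.ediv_le_ediv hq0 (by omega)
    have h3 : ((2 * Z / q : ℕ) : ℤ) = (2 * Z : ℤ) / q := by push_cast; rfl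
    show ((v + Z) / (q : ℤ)).toNat < 2 * Z / q + 1
    omega
  · intro v hv v' hv' h
    rw [mem_coe, mem_filter, mem_Icc] at hv hv'
    have h1 : 0 ≤ (v + Z) / (q : ℤ) := Int.ediv_nonneg (by omega) hq0.le
    have h1' : 0 ≤ (v' + Z) / (q : ℤ) := Int.ediv_nonneg (by omega) hq0.le
    have h2 : (v + Z) / (q : ℤ) = (v' + Z) / q := by
      have : ((v + Z) / (q : ℤ)).toNat = ((v' + Z) / (q : ℤ)).toNat := h
      omega
    have h3 : (q : ℤ) ∣ (v + Z) - (v' + Z) := by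
      have := dvd_sub hv.2 hv'.2
      have e : (v + Z) - (v' + Z) = v - r - (v' - r) := by ring
      rw [e]
      exact this
    have h4 : (v' + Z) % (q : ℤ) = (v + Z) % q := by
      have := (Int.modEq_iff_dvd.2 h3)
      exact this
    have h5 := Int.mul_ediv_add_emod (v + Z) q
    have h6 := Int.mul_ediv_add_emod (v' + Z) q
    rw [← h2, h4] at h6
    linarith

/-- the quadruples that correlate -/
noncomputable def Sq (q N L : ℕ) : Finset ((ℕ × ℕ) × (ℕ × ℕ)) :=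
  (Pr N L ×ˢ Pr N L).filter fun x => (x.1.2 * x.2.1).Coprime q ∧
    (q : ℤ) ∣ (x.1.1 * x.2.2 : ℤ) - x.1.2 * x.2.1

lemma card_Sq {q N L D : ℕ} (hq : 2 ≤ q) (hD : ∀ v : ℕ, 1 ≤ v → v ≤ N * L → v.divisors.card ≤ D) :
    (Sq q N L).card ≤ D * (2 * (N * L) / q + 1) * ((N + 1) * (2 * L)) := by
  have hA : ((range (N + 1)) ×ˢ (Ioo (-(L : ℤ)) L)).card ≤ (N + 1) * (2 * L) := by
    rw [card_product, card_range, Int.card_Ioo]
    refine Nat.mul_le_mul_left _ ?_
    omega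
  refine le_trans ?_ (Nat.mul_le_mul_left _ hA)
  refine Finset.card_le_mul_card_image_of_maps_to
    (f := fun x : (ℕ × ℕ) × (ℕ × ℕ) => ((x.1.1, (x.2.2 : ℤ) - x.2.1) : ℕ × ℤ)) ?_ _ ?_
  · intro x hx
    rw [Sq, mem_filter, mem_product] at hx
    obtain ⟨⟨h1, h2⟩, -⟩ := hx
    rw [Pr, mem_filter, mem_product] at h1 h2
    rw [mem_product]
    refine ⟨h1.1.1, ?_⟩
    have h3 := abs_lt.1 h2.2.2
    rw [mem_Ioo]
    have h4 : ((-(L : ℤ) : ℤ) : ℝ) < (((x.2.2 : ℤ) - x.2.1 : ℤ) : ℝ) := by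
      push_cast
      linarith [h3.2]
    have h5 : (((x.2.2 : ℤ) - x.2.1 : ℤ) : ℝ) < ((L : ℤ) : ℝ) := by
      push_cast
      linarith [h3.1]
    exact ⟨by exact_mod_cast h4, by exact_mod_cast h5⟩
  · rintro ⟨n1, k⟩ -
    set B : Finset ℤ := (Icc (-((N * L : ℕ) : ℤ)) (N * L : ℕ)).filter (fun v => (q : ℤ) ∣ v - n1 * k) with hB
    have hBc : B.card ≤ 2 * (N * L) / q + 1 := card_class (by omega) (N * L) (n1 * k)
    refine le_trans ?_ (Nat.mul_le_mul_left D hBc)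
    refine Finset.card_le_mul_card_image_of_maps_to
      (f := fun x : (ℕ × ℕ) × (ℕ × ℕ) => ((x.1.2 : ℤ) - x.1.1) * x.2.1) ?_ _ ?_
    · intro x hx
      rw [mem_filter, Sq, mem_filter, mem_product] at hx
      obtain ⟨⟨⟨h1, h2⟩, h3, h4⟩, h5⟩ := hx
      rw [Pr, mem_filter, mem_product, mem_range, mem_range] at h1 h2
      obtain ⟨rfl, h7⟩ := Prod.mk.inj h5
      have h8 := abs_lt.1 h1.2.2
      have h9 : -(L : ℤ) < (x.1.2 : ℤ) - x.1.1 := by
        have : ((-(L : ℤ) : ℤ) : ℝ) < (((x.1.2 : ℤ) - x.1.1 : ℤ) : ℝ) := by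
          push_cast
          linarith [h8.2]
        exact_mod_cast this
      have h10 : (x.1.2 : ℤ) - x.1.1 < L := by
        have : (((x.1.2 : ℤ) - x.1.1 : ℤ) : ℝ) < ((L : ℤ) : ℝ) := by
          push_cast
          linarith [h8.1]
        exact_mod_cast this
      have h11 : (x.2.1 : ℤ) ≤ N := by
        have := h2.1.1
        omega
      rw [hB, mem_filter, mem_Icc]
      push_cast
      have h12 : |((x.1.2 : ℤ) - x.1.1) * x.2.1| ≤ N * L := by
        rw [abs_mul, abs_of_nonneg (by positivity : (0 : ℤ) ≤ (x.2.1 : ℤ)), mul_comm]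
        refine mul_le_mul h11 ?_ (abs_nonneg _) (by positivity)
        rw [abs_le]
        constructor <;> linarith
      refine ⟨abs_le.1 h12, ?_⟩
      have e : ((x.1.2 : ℤ) - x.1.1) * x.2.1 - x.1.1 * k = -((x.1.1 * x.2.2 : ℤ) - x.1.2 * x.2.1) := by
        rw [← h7]
        ring
      rw [e]
      exact (dvd_neg).2 h4
    · intro v hv
      rw [hB, mem_filter, mem_Icc] at hv
      by_cases hv0 : v = 0
      · -- no solutions
        rw [Finset.card_eq_zero.2]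
        · exact Nat.zero_le _
        · rw [Finset.filter_eq_empty_iff]
          intro x hx h
          rw [mem_filter, Sq, mem_filter, mem_product] at hx
          obtain ⟨⟨⟨h1, h2⟩, h3, h4⟩, h5⟩ := hx
          rw [Pr, mem_filter] at h1
          rw [hv0] at h
          rcases mul_eq_zero.1 h with h6 | h6
          · apply h1.2.1
            omega
          · have h7 : x.2.1 = 0 := by exact_mod_cast h6
            rw [h7, mul_zero, Nat.coprime_zero_left] at h3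
            omega
      · have hv1 : 1 ≤ v.natAbs := Nat.pos_of_ne_zero (Int.natAbs_ne_zero.2 hv0)
        have hv2 : v.natAbs ≤ N * L := by omega
        refine le_trans ?_ (hD v.natAbs hv1 hv2)
        refine Finset.card_le_card_of_injOn (fun x : (ℕ × ℕ) × (ℕ × ℕ) => x.2.1) ?_ ?_
        · intro x hx
          rw [mem_coe, mem_filter] at hx
          rw [mem_coe, Nat.mem_divisors]
          refine ⟨?_, by omega⟩
          have h1 : ((x.1.2 : ℤ) - x.1.1) * x.2.1 = v := hx.2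
          rw [← h1, Int.natAbs_mul, Int.natAbs_natCast]
          exact dvd_mul_left _ _
        · intro x hx x' hx' h
          rw [mem_coe, mem_filter, mem_filter] at hx hx'
          obtain ⟨⟨h1, h2⟩, h3⟩ := hx
          obtain ⟨⟨h1', h2'⟩, h3'⟩ := hx'
          have h4 : x.2.1 = x'.2.1 := h
          obtain ⟨h5, h6⟩ := Prod.mk.inj h2
          obtain ⟨h5', h6'⟩ := Prod.mk.inj h2'
          have h7 : ((x.1.2 : ℤ) - x.1.1) * x.2.1 = v := h3
          have h7' : ((x'.1.2 : ℤ) - x'.1.1) * x'.2.1 = v := h3'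
          have h8 : (x.2.1 : ℤ) ≠ 0 := by
            intro h9
            rw [h9, mul_zero] at h7
            exact hv0 h7.symm
          rw [← h4, ← h7] at h7'
          have h9 := mul_right_cancel₀ h8 h7'
          have h10 : x.1.2 = x'.1.2 := by omega
          have h11 : x.1.1 = x'.1.1 := by omega
          have h12 : x.2.2 = x'.2.2 := by omega
          exact Prod.ext (Prod.ext h11 h10) (Prod.ext h4 h12)

/-! ### characters -/

section chars

variable (q : ℕ)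

/-- the sequence of a character -/
noncomputable def ac (χ : DirichletCharacter ℂ q) (n : ℕ) : ℂ := (ArithmeticFunction.moebius n : ℂ) * χ n

lemma ac_le (χ : DirichletCharacter ℂ q) (n : ℕ) : ‖ac q χ n‖ ≤ 1 := by
  rw [ac, norm_mul]
  refine mul_le_one₀ ?_ (norm_nonneg _) (χ.norm_le_one _)
  have h1 : ‖((ArithmeticFunction.moebius n : ℤ) : ℂ)‖ = |((ArithmeticFunction.moebius n : ℤ) : ℝ)| := by
    rw [Complex.norm_intCast]
  rw [h1]
  exact_mod_cast ArithmeticFunction.abs_moebius_le_one (n := n)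

variable [NeZero q]

lemma sum_chars (x y : ZMod q) : ‖((Fintype.card (DirichletCharacter ℂ q) : ℂ)⁻¹ *
    ∑ χ : DirichletCharacter ℂ q, χ x * (starRingEnd ℂ) (χ y))‖ ≤ if IsUnit y ∧ x = y then 1 else 0 := by
  classical
  have hcard : Fintype.card (DirichletCharacter ℂ q) = q.totient := by
    rw [← Nat.card_eq_fintype_card]
    exact DirichletCharacter.card_eq_totient_of_hasEnoughRootsOfUnity ℂ q
  by_cases hy : IsUnit y
  · have h1 : ∀ χ : DirichletCharacter ℂ q, χ x * (starRingEnd ℂ) (χ y) = χ y⁻¹ * χ x := by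
      intro χ
      have h2 : ‖χ y‖ = 1 := by
        obtain ⟨u, rfl⟩ := hy
        exact χ.unit_norm_eq_one u
      have h3 : χ y⁻¹ * χ y = 1 := by
        rw [← map_mul, ZMod.inv_mul_of_unit y hy, map_one]
      have h4 : (starRingEnd ℂ) (χ y) * χ y = 1 := by
        rw [mul_comm, Complex.mul_conj, Complex.normSq_eq_norm_sq, h2]
        norm_num
      have h5 : χ y ≠ 0 := by
        intro h
        rw [h, mul_zero] at h3
        exact zero_ne_one h3
      have h6 : (starRingEnd ℂ) (χ y) = χ y⁻¹ := mul_right_cancel₀ h5 (h4.trans h3.symm)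
      rw [h6, mul_comm]
    rw [Finset.sum_congr rfl fun χ _ => h1 χ, DirichletCharacter.sum_char_inv_mul_char_eq ℂ hy x, hcard]
    by_cases hxy : y = x
    · rw [if_pos hxy, if_pos ⟨hy, hxy.symm⟩]
      have h2 : (q.totient : ℂ) ≠ 0 := by
        have : 0 < q.totient := Nat.totient_pos.2 (NeZero.pos q)
        exact_mod_cast this.ne'
      rw [inv_mul_cancel₀ h2]
      simp
    · rw [if_neg hxy, mul_zero, norm_zero]
      split_ifs <;> norm_num
  · have h1 : ∀ χ : DirichletCharacter ℂ q, χ x * (starRingEnd ℂ) (χ y) = 0 := by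
      intro χ
      rw [χ.map_nonunit hy]
      simp
    rw [Finset.sum_congr rfl fun χ _ => h1 χ, Finset.sum_const_zero, mul_zero, norm_zero]
    split_ifs <;> norm_num

lemma corr (p p' : ℕ × ℕ) : ‖((Fintype.card (DirichletCharacter ℂ q) : ℂ)⁻¹ *
    ∑ χ : DirichletCharacter ℂ q, bb (ac q χ) p * (starRingEnd ℂ) (bb (ac q χ) p'))‖ ≤
      if (p.2 * p'.1).Coprime q ∧ (q : ℤ) ∣ (p.1 * p'.2 : ℤ) - p.2 * p'.1 then 1 else 0 := by
  set m : ℂ := (ArithmeticFunction.moebius p.1 : ℂ) * (ArithmeticFunction.moebius p.2 : ℂ) *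
    (ArithmeticFunction.moebius p'.1 : ℂ) * (ArithmeticFunction.moebius p'.2 : ℂ) with hm
  have hm1 : ‖m‖ ≤ 1 := by
    have h1 : ∀ n : ℕ, ‖((ArithmeticFunction.moebius n : ℤ) : ℂ)‖ ≤ 1 := by
      intro n
      rw [Complex.norm_intCast]
      exact_mod_cast ArithmeticFunction.abs_moebius_le_one (n := n)
    rw [hm, norm_mul, norm_mul, norm_mul]
    exact mul_le_one₀ (mul_le_one₀ (mul_le_one₀ (h1 _) (norm_nonneg _) (h1 _)) (norm_nonneg _) (h1 _))
      (norm_nonneg _) (h1 _)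
  have h1 : ∀ χ : DirichletCharacter ℂ q, bb (ac q χ) p * (starRingEnd ℂ) (bb (ac q χ) p') =
      m * (χ ((p.1 * p'.2 : ℕ) : ZMod q) * (starRingEnd ℂ) (χ ((p.2 * p'.1 : ℕ) : ZMod q))) := by
    intro χ
    unfold bb ac
    push_cast
    simp only [map_mul, Complex.conj_conj, map_intCast]
    rw [hm]
    ring
  rw [Finset.sum_congr rfl fun χ _ => h1 χ, ← Finset.mul_sum, ← mul_assoc, mul_comm _ m, mul_assoc, norm_mul]
  refine (mul_le_of_le_one_left (norm_nonneg _) hm1).trans ((sum_chars q _ _).trans ?_)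
  have h2 : (IsUnit (((p.2 * p'.1 : ℕ)) : ZMod q) ∧ ((p.1 * p'.2 : ℕ) : ZMod q) = ((p.2 * p'.1 : ℕ) : ZMod q)) ↔
      ((p.2 * p'.1).Coprime q ∧ (q : ℤ) ∣ (p.1 * p'.2 : ℤ) - p.2 * p'.1) := by
    rw [ZMod.isUnit_iff_coprime]
    refine and_congr Iff.rfl ?_
    rw [eq_comm]
    have h3 := ZMod.intCast_eq_intCast_iff_dvd_sub (p.2 * p'.1 : ℤ) (p.1 * p'.2 : ℤ) q
    push_cast at h3 ⊢
    exact h3
  split_ifs with h3 h4 h4
  · exact le_rfl
  · exact absurd (h2.1 h3) h4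
  · norm_num
  · exact le_rfl

/-- the correlations of order four -/
theorem R_chars {N L D : ℕ} (hq : 2 ≤ q) (hD : ∀ v : ℕ, 1 ≤ v → v ≤ N * L → v.divisors.card ≤ D) :
    ∑ p ∈ Pr N L, ∑ p' ∈ Pr N L, ‖((Fintype.card (DirichletCharacter ℂ q) : ℂ)⁻¹ *
      ∑ χ : DirichletCharacter ℂ q, bb (ac q χ) p * (starRingEnd ℂ) (bb (ac q χ) p'))‖ ≤
      D * (2 * (N * L) / q + 1) * ((N + 1) * (2 * L)) := by
  have h1 : ∑ p ∈ Pr N L, ∑ p' ∈ Pr N L, ‖((Fintype.card (DirichletCharacter ℂ q) : ℂ)⁻¹ *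
      ∑ χ : DirichletCharacter ℂ q, bb (ac q χ) p * (starRingEnd ℂ) (bb (ac q χ) p'))‖ ≤
      ((Sq q N L).card : ℝ) := by
    rw [← Finset.sum_product', Sq, Finset.card_filter]
    push_cast
    refine Finset.sum_le_sum fun x _ => ?_
    exact corr q x.1 x.2
  refine h1.trans ?_
  have h2 := card_Sq (N := N) (L := L) hq hD
  have h3 : ((Sq q N L).card : ℝ) ≤ ((D * (2 * (N * L) / q + 1) * ((N + 1) * (2 * L)) : ℕ) : ℝ) := by
    exact_mod_cast h2
  refine h3.trans ?_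
  push_cast
  have h4 : ((2 * (N * L) / q : ℕ) : ℝ) ≤ 2 * (N * L) / q := by
    have := Nat.cast_div_le (α := ℝ) (m := 2 * (N * L)) (n := q)
    push_cast at this
    exact this
  refine mul_le_mul_of_nonneg_right (mul_le_mul_of_nonneg_left (by linarith) (by positivity)) (by positivity)

/-- sums over blocks -/
theorem O_chars (u k : ℕ) (hk : k ≤ q) :
    (Fintype.card (DirichletCharacter ℂ q) : ℝ)⁻¹ *
      ∑ χ : DirichletCharacter ℂ q, ‖∑ i ∈ Ico u (u + k), ac q χ i‖ ^ 2 ≤ 1 * k := by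
  have h1 : (((Fintype.card (DirichletCharacter ℂ q) : ℝ)⁻¹ *
      ∑ χ : DirichletCharacter ℂ q, ‖∑ i ∈ Ico u (u + k), ac q χ i‖ ^ 2 : ℝ) : ℂ) =
      ∑ i ∈ Ico u (u + k), ∑ j ∈ Ico u (u + k), ((ArithmeticFunction.moebius i : ℂ) *
        (ArithmeticFunction.moebius j : ℂ)) * ((Fintype.card (DirichletCharacter ℂ q) : ℂ)⁻¹ *
        ∑ χ : DirichletCharacter ℂ q, χ (i : ZMod q) * (starRingEnd ℂ) (χ (j : ZMod q))) := by
    push_cast
    have h2 : ∀ χ : DirichletCharacter ℂ q, ((‖∑ i ∈ Ico u (u + k), ac q χ i‖ : ℝ) : ℂ) ^ 2 =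
        ∑ i ∈ Ico u (u + k), ∑ j ∈ Ico u (u + k), ((ArithmeticFunction.moebius i : ℂ) *
        (ArithmeticFunction.moebius j : ℂ)) * (χ (i : ZMod q) * (starRingEnd ℂ) (χ (j : ZMod q))) := by
      intro χ
      have h3 : (((‖∑ i ∈ Ico u (u + k), ac q χ i‖ ^ 2 : ℝ)) : ℂ) =
          (∑ i ∈ Ico u (u + k), ac q χ i) * (starRingEnd ℂ) (∑ i ∈ Ico u (u + k), ac q χ i) := by
        rw [Complex.mul_conj, Complex.normSq_eq_norm_sq]
      push_cast at h3
      rw [h3, map_sum, Finset.sum_mul_sum]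
      refine Finset.sum_congr rfl fun i _ => Finset.sum_congr rfl fun j _ => ?_
      unfold ac
      simp only [map_mul, map_intCast]
      ring
    rw [Finset.sum_congr rfl fun χ _ => h2 χ, Finset.sum_comm, Finset.mul_sum]
    refine Finset.sum_congr rfl fun i _ => ?_
    rw [Finset.sum_comm, Finset.mul_sum]
    refine Finset.sum_congr rfl fun j _ => ?_
    rw [← Finset.mul_sum]
    ring
  have h0 : 0 ≤ (Fintype.card (DirichletCharacter ℂ q) : ℝ)⁻¹ *
      ∑ χ : DirichletCharacter ℂ q, ‖∑ i ∈ Ico u (u + k), ac q χ i‖ ^ 2 := by positivity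
  have h2 : (Fintype.card (DirichletCharacter ℂ q) : ℝ)⁻¹ *
      ∑ χ : DirichletCharacter ℂ q, ‖∑ i ∈ Ico u (u + k), ac q χ i‖ ^ 2 =
      ‖(((Fintype.card (DirichletCharacter ℂ q) : ℝ)⁻¹ *
      ∑ χ : DirichletCharacter ℂ q, ‖∑ i ∈ Ico u (u + k), ac q χ i‖ ^ 2 : ℝ) : ℂ)‖ := by
    rw [Complex.norm_real, Real.norm_eq_abs, abs_of_nonneg h0]
  rw [h2, h1]
  refine (norm_sum_le _ _).trans ?_
  calc ∑ i ∈ Ico u (u + k), ‖∑ j ∈ Ico u (u + k), ((ArithmeticFunction.moebius i : ℂ) *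
        (ArithmeticFunction.moebius j : ℂ)) * ((Fintype.card (DirichletCharacter ℂ q) : ℂ)⁻¹ *
        ∑ χ : DirichletCharacter ℂ q, χ (i : ZMod q) * (starRingEnd ℂ) (χ (j : ZMod q)))‖
      ≤ ∑ i ∈ Ico u (u + k), ∑ j ∈ Ico u (u + k), if i = j then (1 : ℝ) else 0 := by
        refine Finset.sum_le_sum fun i hi => (norm_sum_le _ _).trans (Finset.sum_le_sum fun j hj => ?_)
        rw [norm_mul]
        have h3 : ∀ n : ℕ, ‖((ArithmeticFunction.moebius n : ℤ) : ℂ)‖ ≤ 1 := by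
          intro n
          rw [Complex.norm_intCast]
          exact_mod_cast ArithmeticFunction.abs_moebius_le_one (n := n)
        have h4 : ‖((ArithmeticFunction.moebius i : ℂ) * (ArithmeticFunction.moebius j : ℂ))‖ ≤ 1 := by
          rw [norm_mul]
          exact mul_le_one₀ (h3 i) (norm_nonneg _) (h3 j)
        refine (mul_le_of_le_one_left (norm_nonneg _) h4).trans ((sum_chars q _ _).trans ?_)
        rw [mem_Ico] at hi hj
        split_ifs with h5 h6 h6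
        · exact le_rfl
        · exfalso
          apply h6
          have h7 := (ZMod.natCast_eq_natCast_iff' i j q).1 h5.2
          rcases le_total i j with h8 | h8
          · have h9 : q ∣ j - i := (Nat.modEq_iff_dvd' h8).1 h7
            have h10 : j - i < q := by omega
            have := Nat.eq_zero_of_dvd_of_lt h9 h10
            omega
          · have h9 : q ∣ i - j := (Nat.modEq_iff_dvd' h8).1 h7.symm
            have h10 : i - j < q := by omega
            have := Nat.eq_zero_of_dvd_of_lt h9 h10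
            omega
        · norm_num
        · exact le_rfl
    _ = 1 * k := by
        rw [Finset.sum_congr rfl fun i hi => Finset.sum_ite_eq (Ico u (u + k)) i (fun _ => (1 : ℝ))]
        rw [Finset.sum_congr rfl fun i hi => if_pos hi, Finset.sum_const, Nat.card_Ico, nsmul_eq_mul]
        push_cast
        simp

end chars

end Pool.Agent.H95SD.GC
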