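import Pool.Agent.N873.F15.Dn

/-!
# Counting the squarefree integers prime to `q`
-/

set_option autoImplicit false

open Finset Filter Topology

namespace Pool.Agent.H95SD.SqC

open Pool.Agent.Y293.SF (mu abs_mu_le mu_zero indic_eq)
open Pool.Agent.N873.F15.Dn (ep ep_pos mu_sum)

/-- the number of the integers in `[1, M]` prime to `q` -/
noncomputable def Phi (q M : ℕ) : ℝ := (((Icc 1 M).filter fun m => m.Coprime q).card : ℝ)

lemma sum_mu_div (n : ℕ) : ∑ d ∈ n.divisors, mu d = if n = 1 then 1 else 0 := by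
  have h2 : (∑ d ∈ n.divisors, (ArithmeticFunction.moebius d : ℤ)) = if n = 1 then 1 else 0 := by
    have := congrArg (fun f => f n) ArithmeticFunction.moebius_mul_coe_zeta
    simp only [ArithmeticFunction.coe_mul_zeta_apply, ArithmeticFunction.one_apply] at this
    exact this
  have := congrArg (fun z : ℤ => (z : ℝ)) h2
  push_cast at this
  exact this

lemma Phi_eq {q : ℕ} (hq : 0 < q) (M : ℕ) : Phi q M = ∑ d ∈ q.divisors, mu d * ((M / d : ℕ) : ℝ) := by
  have h1 : Phi q M = ∑ m ∈ Icc 1 M, if m.Coprime q then (1 : ℝ) else 0 := by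
    rw [Phi, Finset.sum_ite, Finset.sum_const_zero, add_zero, Finset.sum_const, nsmul_eq_mul, mul_one]
  have h2 : ∀ m ∈ Icc 1 M, (if m.Coprime q then (1 : ℝ) else 0) = ∑ d ∈ q.divisors, if d ∣ m then mu d else 0 := by
    intro m hm
    rw [mem_Icc] at hm
    have h3 := sum_mu_div (m.gcd q)
    rw [← Finset.sum_filter]
    have h4 : q.divisors.filter (fun d => d ∣ m) = (m.gcd q).divisors := by
      ext d
      rw [mem_filter, Nat.mem_divisors, Nat.mem_divisors, Nat.dvd_gcd_iff]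
      have : m.gcd q ≠ 0 := (Nat.gcd_pos_of_pos_left q (by omega)).ne'
      constructor
      · rintro ⟨⟨h5, h6⟩, h7⟩
        exact ⟨⟨h7, h5⟩, this⟩
      · rintro ⟨⟨h5, h6⟩, h7⟩
        exact ⟨⟨h6, hq.ne'⟩, h5⟩
    rw [h4, h3]
  rw [h1, Finset.sum_congr rfl h2, Finset.sum_comm]
  refine Finset.sum_congr rfl fun d hd => ?_
  rw [← Finset.sum_filter, Finset.sum_const, nsmul_eq_mul, mul_comm]
  congr 2
  have : Icc 1 M = Ioc 0 M := by
    ext x
    simp only [mem_Icc, mem_Ioc]
    omega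
  rw [this, Nat.Ioc_filter_dvd_card_eq_div]

lemma Phi_bound0 {q : ℕ} (hq : 0 < q) (M : ℕ) :
    |Phi q M - (∑ d ∈ q.divisors, mu d / d) * M| ≤ (q.divisors.card : ℝ) := by
  rw [Phi_eq hq, Finset.sum_mul, ← Finset.sum_sub_distrib]
  refine (Finset.abs_sum_le_sum_abs _ _).trans ?_
  calc ∑ d ∈ q.divisors, |mu d * ((M / d : ℕ) : ℝ) - mu d / d * M| ≤ ∑ _d ∈ q.divisors, (1 : ℝ) := by
        refine Finset.sum_le_sum fun d hd => ?_
        have hd0 : 0 < d := Nat.pos_of_mem_divisors hd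
        have hd0' : (0 : ℝ) < d := by exact_mod_cast hd0
        have e : mu d * ((M / d : ℕ) : ℝ) - mu d / d * M = mu d * (((M / d : ℕ) : ℝ) - (M : ℝ) / d) := by
          ring
        rw [e, abs_mul]
        refine mul_le_one₀ (abs_mu_le d) (abs_nonneg _) ?_
        have h1 : ((M / d : ℕ) : ℝ) ≤ (M : ℝ) / d := Nat.cast_div_le
        have h2 : (M : ℝ) / d < ((M / d : ℕ) : ℝ) + 1 := by
          rw [div_lt_iff₀ hd0']
          have := Nat.lt_div_mul_add (a := M) hd0
          have h3 : (M : ℝ) < ((M / d * d + d : ℕ) : ℝ) := by exact_mod_cast this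
          push_cast at h3
          linarith
        rw [abs_le]
        constructor <;> linarith
    _ = _ := by rw [Finset.sum_const, nsmul_eq_mul, mul_one]

lemma Phi_mul {q : ℕ} (hq : 0 < q) (t : ℕ) : Phi q (q * t) = (q.totient : ℝ) * t := by
  have h1 : ((Icc 1 (q * t)).filter fun m => m.Coprime q).card = q.totient * t := by
    induction t with
    | zero => simp
    | succ t ih =>
      have e1 : (Icc 1 (q * (t + 1))).filter (fun m => m.Coprime q) =
          (Icc 1 (q * t)).filter (fun m => m.Coprime q) ∪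
            (Ico (q * t + 1) (q * t + 1 + q)).filter (fun m => m.Coprime q) := by
        rw [← Finset.filter_union]
        congr 1
        ext x
        rw [mem_union, mem_Icc, mem_Icc, mem_Ico]
        have : q * (t + 1) = q * t + q := by ring
        omega
      have e2 : ((Ico (q * t + 1) (q * t + 1 + q)).filter (fun m => m.Coprime q)).card = q.totient := by
        have := Nat.filter_coprime_Ico_eq_totient q (q * t + 1)
        rw [← this]
        congr 1
        refine Finset.filter_congr fun x _ => ?_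
        exact Nat.coprime_comm
      rw [e1, card_union_of_disjoint, ih, e2]
      · ring
      · refine disjoint_filter_filter ?_
        rw [Finset.disjoint_left]
        intro x hx hx'
        rw [mem_Icc] at hx
        rw [mem_Ico] at hx'
        omega
  rw [Phi, h1]
  push_cast
  ring

lemma totient_sum {q : ℕ} (hq : 0 < q) : (∑ d ∈ q.divisors, mu d / d) = (q.totient : ℝ) / q := by
  have hq0 : (0 : ℝ) < q := by exact_mod_cast hq
  by_contra hne
  set A : ℝ := ∑ d ∈ q.divisors, mu d / d with hA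
  have h1 : 0 < |(q.totient : ℝ) - A * q| := by
    rw [abs_pos]
    intro h
    apply hne
    rw [eq_div_iff hq0.ne']
    linarith
  obtain ⟨t, ht⟩ := exists_nat_gt ((q.divisors.card : ℝ) / |(q.totient : ℝ) - A * q|)
  rw [div_lt_iff₀ h1] at ht
  have h2 := Phi_bound0 hq (q * t)
  rw [Phi_mul hq, ← hA] at h2
  push_cast at h2
  have e : (q.totient : ℝ) * t - A * (q * t) = t * ((q.totient : ℝ) - A * q) := by ring
  rw [e, abs_mul, abs_of_nonneg (by positivity : (0 : ℝ) ≤ (t : ℝ))] at h2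
  linarith

lemma Phi_bound {q : ℕ} (hq : 0 < q) (M : ℕ) :
    |Phi q M - (q.totient : ℝ) / q * M| ≤ (q.divisors.card : ℝ) := by
  rw [← totient_sum hq]
  exact Phi_bound0 hq M

/-- the indicator function of the squarefree integers prime to `q` -/
noncomputable def sc (q n : ℕ) : ℝ := if Squarefree n ∧ n.Coprime q then 1 else 0

lemma sc_nonneg (q n : ℕ) : 0 ≤ sc q n := by
  unfold sc
  split_ifs <;> norm_num

/-- the density -/
noncomputable def kap (q : ℕ) : ℝ := (q.totient : ℝ) / q * (6 / Real.pi ^ 2 / ep q)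

lemma sum_sc {q : ℕ} (K : ℕ) : ∑ n ∈ Icc 1 K, sc q n =
    ∑ d ∈ Icc 1 K, mu d * (if d.Coprime q then Phi q (K / d ^ 2) else 0) := by
  have h1 : ∀ n ∈ Icc 1 K, sc q n = ∑ d ∈ Icc 1 K, if d ^ 2 ∣ n ∧ n.Coprime q then mu d else 0 := by
    intro n hn
    rw [mem_Icc] at hn
    by_cases hc : n.Coprime q
    · have h2 : sc q n = if Squarefree n then (1 : ℝ) else 0 := by
        unfold sc
        exact if_congr (and_iff_left hc) rfl rfl
      have h3 : ∀ d : ℕ, (if d ^ 2 ∣ n ∧ n.Coprime q then mu d else 0) = if d ^ 2 ∣ n then mu d else 0 :=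
        fun d => if_congr (and_iff_left hc) rfl rfl
      rw [h2, indic_eq n (by omega), Finset.sum_congr rfl fun d _ => h3 d]
      apply Finset.sum_subset (Finset.Icc_subset_Icc_right hn.2)
      intro d hd hd'
      rw [if_neg]
      intro h
      apply hd'
      rw [Finset.mem_Icc] at hd ⊢
      refine ⟨hd.1, ?_⟩
      have : d ∣ n := dvd_trans (dvd_pow_self d two_ne_zero) h
      exact Nat.le_of_dvd (by omega) this
    · have h2 : sc q n = 0 := by
        unfold sc
        exact if_neg fun h => hc h.2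
      rw [h2, Finset.sum_eq_zero fun d _ => if_neg fun h => hc h.2]
  rw [Finset.sum_congr rfl h1, Finset.sum_comm]
  refine Finset.sum_congr rfl fun d hd => ?_
  rw [mem_Icc] at hd
  rw [← Finset.sum_filter, Finset.sum_const, nsmul_eq_mul, mul_comm]
  congr 1
  by_cases hc : d.Coprime q
  · rw [if_pos hc, Phi]
    congr 1
    symm
    refine Finset.card_nbij' (fun m => d ^ 2 * m) (fun n => n / d ^ 2) ?_ ?_ ?_ ?_
    · intro m hm
      rw [mem_coe, mem_filter, mem_Icc] at hm
      rw [mem_coe, mem_filter, mem_Icc]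
      refine ⟨⟨?_, ?_⟩, dvd_mul_right _ _, ?_⟩
      · have : 0 < d ^ 2 := Nat.pow_pos (by omega)
        exact Nat.mul_pos this (by omega)
      · exact (Nat.mul_le_mul_left _ hm.1.2).trans (Nat.mul_div_le _ _)
      · exact Nat.Coprime.mul_left (Nat.Coprime.pow_left 2 hc) hm.2
    · intro n hn
      rw [mem_coe, mem_filter, mem_Icc] at hn
      rw [mem_coe, mem_filter, mem_Icc]
      obtain ⟨⟨h3, h4⟩, ⟨m, rfl⟩, h6⟩ := hn
      have hd2 : 0 < d ^ 2 := Nat.pow_pos (by omega)
      show (1 ≤ d ^ 2 * m / d ^ 2 ∧ d ^ 2 * m / d ^ 2 ≤ K / d ^ 2) ∧ (d ^ 2 * m / d ^ 2).Coprime q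
      rw [Nat.mul_div_cancel_left m hd2]
      refine ⟨⟨?_, ?_⟩, ?_⟩
      · rcases Nat.eq_zero_or_pos m with h | h
        · rw [h] at h3
          simp at h3
        · exact h
      · rw [Nat.le_div_iff_mul_le hd2]
        rw [mul_comm]
        exact h4
      · exact Nat.Coprime.coprime_mul_left h6
    · intro m hm
      have hd2 : 0 < d ^ 2 := by
        have : 0 < d := by omega
        positivity
      exact Nat.mul_div_cancel_left m hd2
    · intro n hn
      rw [mem_coe, mem_filter] at hn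
      exact Nat.mul_div_cancel' hn.2.1
  · rw [if_neg hc]
    have : (Icc 1 K).filter (fun n => d ^ 2 ∣ n ∧ n.Coprime q) = ∅ := by
      rw [Finset.filter_eq_empty_iff]
      rintro n - ⟨h3, h4⟩
      exact hc ((Nat.Coprime.coprime_dvd_left ((dvd_pow_self d two_ne_zero).trans h3)) h4)
    rw [this]
    simp

/-- the tail of the sum over `d` -/
lemma tail {q : ℕ} (hq : 0 < q) (D : ℕ) :
    |6 / Real.pi ^ 2 / ep q - ∑ d ∈ Icc 1 D, mu d * (if d.Coprime q then 1 / (d : ℝ) ^ 2 else 0)| ≤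
      2 / ((D : ℝ) + 1) := by
  have h1 := (mu_sum hq).tendsto_sum_nat
  have h0 : ∑ d ∈ Icc 1 D, mu d * (if d.Coprime q then 1 / (d : ℝ) ^ 2 else 0) =
      ∑ d ∈ range (D + 1), mu d * (if d.Coprime q then 1 / (d : ℝ) ^ 2 else 0) := by
    rw [Finset.range_eq_Ico, Finset.sum_eq_sum_Ico_succ_bot (by omega), mu_zero, zero_mul, zero_add]
    rfl
  rw [h0]
  have h2 : Tendsto (fun n : ℕ => |∑ d ∈ range n, mu d * (if d.Coprime q then 1 / (d : ℝ) ^ 2 else 0) -
      ∑ d ∈ range (D + 1), mu d * (if d.Coprime q then 1 / (d : ℝ) ^ 2 else 0)|) atTop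
      (𝓝 |6 / Real.pi ^ 2 / ep q - ∑ d ∈ range (D + 1), mu d * (if d.Coprime q then 1 / (d : ℝ) ^ 2 else 0)|) :=
    (h1.sub_const _).abs
  refine le_of_tendsto h2 ?_
  filter_upwards [eventually_ge_atTop (D + 1)] with n hn
  rw [← Finset.sum_Ico_eq_sub _ hn]
  refine (Finset.abs_sum_le_sum_abs _ _).trans ?_
  have h3 : Ico (D + 1) n = Ioo D n := by
    ext x
    simp only [mem_Ico, mem_Ioo]
    omega
  rw [h3]
  refine le_trans (Finset.sum_le_sum fun d _ => ?_) (sum_Ioo_inv_sq_le D n)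
  rw [abs_mul]
  split_ifs
  · rw [one_div, abs_of_nonneg (by positivity : (0 : ℝ) ≤ ((d : ℝ) ^ 2)⁻¹)]
    exact mul_le_of_le_one_left (by positivity) (abs_mu_le d)
  · simp only [abs_zero, mul_zero]
    positivity

lemma totient_div_le (q : ℕ) : (q.totient : ℝ) / q ≤ 1 := by
  refine div_le_one_of_le₀ ?_ (by positivity)
  exact_mod_cast Nat.totient_le q

/-- **the number of the squarefree integers prime to `q`** -/
theorem sum_sc_bound {q : ℕ} (hq : 0 < q) (K : ℕ) :
    |∑ n ∈ Icc 1 K, sc q n - kap q * K| ≤ Real.sqrt K * ((q.divisors.card : ℝ) + 5) := by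
  rcases Nat.eq_zero_or_pos K with rfl | hK
  · simp
  set D : ℕ := Nat.sqrt K with hD
  have hD1 : 1 ≤ D := by
    rw [hD, Nat.one_le_iff_ne_zero, Nat.pos_iff_ne_zero.symm.trans Nat.sqrt_pos |>.symm.symm]
    exact hK
  have hD2 : D * D ≤ K := Nat.sqrt_le K
  have hD3 : K < (D + 1) * (D + 1) := Nat.lt_succ_sqrt K
  have hD1' : (1 : ℝ) ≤ D := by exact_mod_cast hD1
  have hD3' : (K : ℝ) ≤ ((D : ℝ) + 1) * (D + 1) := by exact_mod_cast hD3.le
  have hDs : (D : ℝ) ≤ Real.sqrt K := by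
    apply Real.le_sqrt_of_sq_le
    rw [sq]
    exact_mod_cast hD2
  set ρ : ℝ := (q.totient : ℝ) / q with hρ
  have hρ0 : 0 ≤ ρ := by positivity
  have hρ1 : ρ ≤ 1 := totient_div_le q
  have hsub : Icc 1 D ⊆ Icc 1 K := Icc_subset_Icc_right (by
    have : D ≤ D * D := Nat.le_mul_self D
    omega)
  rw [sum_sc K]
  rw [← Finset.sum_subset hsub (f := fun d => mu d * (if d.Coprime q then Phi q (K / d ^ 2) else 0)) (by
    intro d hd hd'
    rw [mem_Icc] at hd hd'
    have h1 : D + 1 ≤ d := by omega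
    have h2 : K < d ^ 2 := by
      calc K < (D + 1) * (D + 1) := hD3
        _ ≤ d * d := Nat.mul_le_mul h1 h1
        _ = d ^ 2 := by ring
    rw [Nat.div_eq_of_lt h2]
    simp [Phi])]
  have h1 : |∑ d ∈ Icc 1 D, mu d * (if d.Coprime q then Phi q (K / d ^ 2) else 0) -
      ρ * K * ∑ d ∈ Icc 1 D, mu d * (if d.Coprime q then 1 / (d : ℝ) ^ 2 else 0)| ≤
      D * ((q.divisors.card : ℝ) + 1) := by
    rw [Finset.mul_sum, ← Finset.sum_sub_distrib]
    refine (Finset.abs_sum_le_sum_abs _ _).trans ?_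
    calc ∑ d ∈ Icc 1 D, |mu d * (if d.Coprime q then Phi q (K / d ^ 2) else 0) -
          ρ * K * (mu d * (if d.Coprime q then 1 / (d : ℝ) ^ 2 else 0))|
        ≤ ∑ _d ∈ Icc 1 D, ((q.divisors.card : ℝ) + 1) := by
          refine Finset.sum_le_sum fun d hd => ?_
          rw [mem_Icc] at hd
          have hd0 : 0 < d ^ 2 := by
            have : 0 < d := by omega
            positivity
          have hd0' : (0 : ℝ) < ((d ^ 2 : ℕ) : ℝ) := by exact_mod_cast hd0
          split_ifs with hc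
          · have e : mu d * Phi q (K / d ^ 2) - ρ * K * (mu d * (1 / (d : ℝ) ^ 2)) =
                mu d * ((Phi q (K / d ^ 2) - ρ * ((K / d ^ 2 : ℕ) : ℝ)) +
                  ρ * (((K / d ^ 2 : ℕ) : ℝ) - (K : ℝ) / ((d ^ 2 : ℕ) : ℝ))) := by
              push_cast
              ring
            rw [e, abs_mul]
            refine (mul_le_of_le_one_left (abs_nonneg _) (abs_mu_le d)).trans ?_
            refine (abs_add_le _ _).trans (add_le_add (Phi_bound hq _) ?_)
            rw [abs_mul, abs_of_nonneg hρ0]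
            refine mul_le_one₀ hρ1 (abs_nonneg _) ?_
            have h1 : ((K / d ^ 2 : ℕ) : ℝ) ≤ (K : ℝ) / ((d ^ 2 : ℕ) : ℝ) := Nat.cast_div_le
            have h2 : (K : ℝ) / ((d ^ 2 : ℕ) : ℝ) < ((K / d ^ 2 : ℕ) : ℝ) + 1 := by
              rw [div_lt_iff₀ hd0']
              have := Nat.lt_div_mul_add (a := K) hd0
              have h3 : (K : ℝ) < ((K / d ^ 2 * d ^ 2 + d ^ 2 : ℕ) : ℝ) := by exact_mod_cast this
              push_cast at h3 ⊢
              linarith
            rw [abs_le]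
            constructor <;> linarith
          · simp only [mul_zero, sub_zero, abs_zero]
            positivity
      _ = _ := by
          rw [Finset.sum_const, Nat.card_Icc, nsmul_eq_mul]
          simp
  have h2 := tail hq D
  have h3 : |ρ * K * ∑ d ∈ Icc 1 D, mu d * (if d.Coprime q then 1 / (d : ℝ) ^ 2 else 0) - kap q * K| ≤ 4 * D := by
    have e : ρ * K * ∑ d ∈ Icc 1 D, mu d * (if d.Coprime q then 1 / (d : ℝ) ^ 2 else 0) - kap q * K =
        -(ρ * K * (6 / Real.pi ^ 2 / ep q -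
          ∑ d ∈ Icc 1 D, mu d * (if d.Coprime q then 1 / (d : ℝ) ^ 2 else 0))) := by
      rw [kap, ← hρ]
      ring
    rw [e, abs_neg, abs_mul, abs_of_nonneg (by positivity : 0 ≤ ρ * (K : ℝ))]
    calc ρ * K * |6 / Real.pi ^ 2 / ep q -
          ∑ d ∈ Icc 1 D, mu d * (if d.Coprime q then 1 / (d : ℝ) ^ 2 else 0)|
        ≤ 1 * K * (2 / ((D : ℝ) + 1)) := by
          refine mul_le_mul ?_ h2 (abs_nonneg _) (by positivity)
          exact mul_le_mul_of_nonneg_right hρ1 (by positivity)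
      _ ≤ 1 * (((D : ℝ) + 1) * (D + 1)) * (2 / ((D : ℝ) + 1)) :=
          mul_le_mul_of_nonneg_right (by linarith) (by positivity)
      _ = 2 * ((D : ℝ) + 1) := by
          field_simp
      _ ≤ 4 * D := by linarith
  have h4 := abs_sub_le (∑ d ∈ Icc 1 D, mu d * (if d.Coprime q then Phi q (K / d ^ 2) else 0))
    (ρ * K * ∑ d ∈ Icc 1 D, mu d * (if d.Coprime q then 1 / (d : ℝ) ^ 2 else 0)) (kap q * K)
  have h5 : (D : ℝ) * ((q.divisors.card : ℝ) + 5) ≤ Real.sqrt K * ((q.divisors.card : ℝ) + 5) :=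
    mul_le_mul_of_nonneg_right hDs (by positivity)
  linarith

lemma one_sub_inv_sq {p : ℕ} (hp : p.Prime) : 0 < 1 - 1 / (p : ℝ) ^ 2 := by
  have h2 : (2 : ℝ) ≤ p := by exact_mod_cast hp.two_le
  have h4 : 1 / (p : ℝ) ^ 2 < 1 := by
    rw [div_lt_one (by positivity)]
    nlinarith
  linarith

/-- the density as a product -/
theorem kap_eq {q : ℕ} (hq : 0 < q) : kap q = 6 / Real.pi ^ 2 * ∏ p ∈ q.primeFactors, ((p : ℝ) / (p + 1)) := by
  have hq0 : (q : ℝ) ≠ 0 := by exact_mod_cast hq.ne'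
  have h1 : (q.totient : ℝ) / q = ∏ p ∈ q.primeFactors, (1 - (p : ℝ)⁻¹) := by
    have := Nat.totient_eq_mul_prod_factors q
    have h2 : (q.totient : ℝ) = q * ∏ p ∈ q.primeFactors, (1 - (p : ℝ)⁻¹) := by
      have h3 := congrArg (fun x : ℚ => (x : ℝ)) this
      push_cast at h3
      exact h3
    rw [h2]
    field_simp
  rw [kap, h1, ep]
  have h2 : ∏ p ∈ q.primeFactors, (1 - (p : ℝ)⁻¹) =
      (∏ p ∈ q.primeFactors, ((p : ℝ) / (p + 1))) * ∏ p ∈ q.primeFactors, (1 - 1 / (p : ℝ) ^ 2) := by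
    rw [← Finset.prod_mul_distrib]
    refine Finset.prod_congr rfl fun p hp => ?_
    have h3 : (0 : ℝ) < p := by exact_mod_cast (Nat.prime_of_mem_primeFactors hp).pos
    field_simp
    ring
  have h3 : ∏ p ∈ q.primeFactors, (1 - 1 / (p : ℝ) ^ 2) ≠ 0 :=
    Finset.prod_ne_zero_iff.2 fun p hp => (one_sub_inv_sq (Nat.prime_of_mem_primeFactors hp)).ne'
  rw [h2]
  field_simp

lemma kap_nonneg (q : ℕ) : 0 ≤ kap q := by
  have := ep_pos q
  unfold kap
  positivity

lemma kap_le {q : ℕ} (hq : 0 < q) : kap q ≤ 1 := by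
  rw [kap_eq hq]
  have h1 : 6 / Real.pi ^ 2 ≤ 1 := by
    rw [div_le_one (by positivity)]
    have := Real.pi_gt_three
    nlinarith
  have h2 : ∏ p ∈ q.primeFactors, ((p : ℝ) / (p + 1)) ≤ 1 := by
    refine Finset.prod_le_one (fun p _ => by positivity) fun p _ => ?_
    rw [div_le_one (by positivity)]
    linarith
  exact mul_le_one₀ h1 (Finset.prod_nonneg fun p _ => by positivity) h2

theorem range_bound {q : ℕ} (hq : 0 < q) (k : ℕ) :
    |∑ n ∈ range k, sc q n - kap q * k| ≤ Real.sqrt k * ((q.divisors.card : ℝ) + 6) := by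
  rcases Nat.eq_zero_or_pos k with rfl | hk
  · simp
  obtain ⟨K, rfl⟩ : ∃ K, k = K + 1 := ⟨k - 1, by omega⟩
  have h0 : ∑ n ∈ range (K + 1), sc q n = ∑ n ∈ Icc 1 K, sc q n := by
    rw [Finset.range_eq_Ico, Finset.sum_eq_sum_Ico_succ_bot (by omega)]
    have : sc q 0 = 0 := by
      unfold sc
      simp
    rw [this, zero_add]
    rfl
  rw [h0]
  have h1 := sum_sc_bound hq K
  have h2 : Real.sqrt K ≤ Real.sqrt ((K + 1 : ℕ) : ℝ) := Real.sqrt_le_sqrt (by push_cast; linarith)
  have h3 : 1 ≤ Real.sqrt ((K + 1 : ℕ) : ℝ) := by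
    rw [Real.one_le_sqrt]
    push_cast
    have : (0 : ℝ) ≤ K := by positivity
    linarith
  have h4 : |∑ n ∈ Icc 1 K, sc q n - kap q * ((K + 1 : ℕ) : ℝ)| ≤
      |∑ n ∈ Icc 1 K, sc q n - kap q * K| + 1 := by
    have e : ∑ n ∈ Icc 1 K, sc q n - kap q * ((K + 1 : ℕ) : ℝ) =
        (∑ n ∈ Icc 1 K, sc q n - kap q * K) + (-kap q) := by
      push_cast
      ring
    rw [e]
    refine (abs_add_le _ _).trans (add_le_add le_rfl ?_)
    rw [abs_neg, abs_of_nonneg (kap_nonneg q)]
    exact kap_le hq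
  have h5 : Real.sqrt K * ((q.divisors.card : ℝ) + 5) ≤ Real.sqrt ((K + 1 : ℕ) : ℝ) * ((q.divisors.card : ℝ) + 5) :=
    mul_le_mul_of_nonneg_right h2 (by positivity)
  have h6 : Real.sqrt ((K + 1 : ℕ) : ℝ) * ((q.divisors.card : ℝ) + 6) =
      Real.sqrt ((K + 1 : ℕ) : ℝ) * ((q.divisors.card : ℝ) + 5) + Real.sqrt ((K + 1 : ℕ) : ℝ) := by ring
  linarith

end Pool.Agent.H95SD.SqC
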