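import Pool.Agent.H95SD.GC5
import Pool.Agent.H95SD.SqC
import Pool.Agent.H510R2.Div

/-!
# The variance of sums in short intervals: almost all characters
-/

set_option autoImplicit false

open Finset MeasureTheory

namespace Pool.Agent.H95SD.GC

open Pool.Agent.H95SD.SqC (sc kap kap_nonneg kap_le range_bound)

lemma ac_sq (q : ℕ) [NeZero q] (χ : DirichletCharacter ℂ q) (n : ℕ) : ‖ac q χ n‖ ^ 2 = sc q n := by
  rw [ac, norm_mul, mul_pow, Complex.norm_intCast]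
  by_cases hn : n.Coprime q
  · have h1 : ‖χ (n : ZMod q)‖ = 1 := by
      obtain ⟨u, hu⟩ := (ZMod.isUnit_iff_coprime n q).2 hn
      rw [← hu]
      exact χ.unit_norm_eq_one u
    rw [h1, one_pow, mul_one]
    by_cases hs : Squarefree n
    · have h2 : sc q n = 1 := if_pos ⟨hs, hn⟩
      rw [h2, sq_abs]
      have := ArithmeticFunction.moebius_sq_eq_one_of_squarefree hs
      exact_mod_cast this
    · have h2 : sc q n = 0 := if_neg fun h => hs h.1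
      rw [h2, ArithmeticFunction.moebius_eq_zero_of_not_squarefree hs]
      norm_num
  · have h1 : χ (n : ZMod q) = 0 := χ.map_nonunit fun h => hn ((ZMod.isUnit_iff_coprime n q).1 h)
    have h2 : sc q n = 0 := if_neg fun h => hn h.2
    rw [h1, h2, norm_zero]
    norm_num

lemma Bad_mono {a : ℕ → ℂ} {y k0 k1 : ℕ} {κ ε0 ε1 : ℝ} (h : ε0 ≤ ε1) (hB : Bad a y k0 k1 κ ε1) :
    Bad a y k0 k1 κ ε0 := by
  obtain ⟨X, H, h1, h2, h3, h4, h5⟩ := hB
  refine ⟨X, H, h1, h2, h3, h4, lt_of_le_of_lt ?_ h5⟩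
  have hH : 0 < H := lt_of_lt_of_le (by positivity) h3
  exact mul_le_mul_of_nonneg_right h (by positivity)

open scoped Classical in
/-- one dyadic range -/
theorem chars_y {q y k0 k1 τ D : ℕ} [NeZero q] {W i C : ℝ} (hq : 2 ≤ q) (hW : 4 ≤ W) (hi : i * W = 1)
    (hC : 0 ≤ C) (hy : 2 ≤ y) (hτ : 2 ≤ τ) (hk0 : τ + 1 ≤ k0) (hk1 : k1 ≤ y)
    (hτ1 : (2 : ℝ) ^ τ ≤ W ^ 8) (hτ2 : W ^ 8 ≤ 2 * 2 ^ τ) (hL1 : (2 : ℝ) ^ k1 * W ^ 160 ≤ 8 * 2 ^ y)
    (hL2 : ((2 : ℝ) ^ k1) ^ 2 * W ^ 160 ≤ 4 * q) (hK1 : 2 ^ k1 ≤ q)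
    (hD : ∀ v : ℕ, 1 ≤ v → v ≤ 5 * 2 ^ y * 2 ^ k1 → v.divisors.card ≤ D) (hDC : (D : ℝ) ≤ C * W ^ 8)
    (hE : Real.sqrt (5 * 2 ^ y + 1) * ((q.divisors.card : ℝ) + 6) * W ^ 16 ≤ 2 ^ y)
    (hWk : 33 + 16 * (k1 : ℝ) ≤ W) :
    ((univ.filter fun χ : DirichletCharacter ℂ q => Bad (ac q χ) y k0 k1 (kap q) i).card : ℝ) ≤
      q.totient * (k1 * ((4608 * C + 16 * (k1 + 1)) * i ^ 4)) := by
  have hW0 : 0 < W := by linarith
  have hi0 : 0 < i := by
    by_contra h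
    push Not at h
    nlinarith
  have hi4 : i ≤ 1 / 4 := by
    by_contra h
    push Not at h
    nlinarith
  have hiW : ∀ n : ℕ, i ^ n * W ^ n = 1 := fun n => by rw [← mul_pow, hi, one_pow]
  have hi1 : ∀ n : ℕ, i ^ n ≤ 1 := fun n => pow_le_one₀ hi0.le (by linarith)
  set Y : ℝ := 2 ^ y with hY
  have hY4 : 4 ≤ Y := by
    rw [hY]
    calc (4 : ℝ) = 2 ^ 2 := by norm_num
      _ ≤ 2 ^ y := pow_le_pow_right₀ (by norm_num) hy
  have hY0 : 0 < Y := by linarith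
  set L : ℝ := 2 ^ k1 with hL
  have hL0 : 0 < L := by positivity
  have hq0 : (0 : ℝ) < q := by
    have : 0 < q := by omega
    exact_mod_cast this
  have hcard : Fintype.card (DirichletCharacter ℂ q) = q.totient := by
    rw [← Nat.card_eq_fintype_card]
    exact DirichletCharacter.card_eq_totient_of_hasEnoughRootsOfUnity ℂ q
  -- the bounds for L
  have hL1' : L ≤ 8 * Y * i ^ 160 := by
    have h1 := mul_le_mul_of_nonneg_right hL1 (pow_pos hi0 160).le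
    have h2 : L * W ^ 160 * i ^ 160 = L * (i ^ 160 * W ^ 160) := by ring
    rw [h2, hiW, mul_one] at h1
    exact h1
  have hL2' : L ^ 2 ≤ 4 * q * i ^ 160 := by
    have h1 := mul_le_mul_of_nonneg_right hL2 (pow_pos hi0 160).le
    have h2 : L ^ 2 * W ^ 160 * i ^ 160 = L ^ 2 * (i ^ 160 * W ^ 160) := by ring
    rw [h2, hiW, mul_one] at h1
    exact h1
  set E0 : ℝ := Real.sqrt (5 * Y + 1) * ((q.divisors.card : ℝ) + 6) with hE0
  have hE0' : 0 ≤ E0 := by positivity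
  have hE' : E0 ≤ Y * i ^ 16 := by
    have h1 := mul_le_mul_of_nonneg_right hE (pow_pos hi0 16).le
    have h2 : E0 * W ^ 16 * i ^ 16 = E0 * (i ^ 16 * W ^ 16) := by ring
    rw [h2, hiW, mul_one] at h1
    exact h1
  -- R
  set R : ℝ := D * (2 * (((5 * 2 ^ y : ℕ) : ℝ) * ((2 ^ k1 : ℕ) : ℝ)) / q + 1) *
    ((((5 * 2 ^ y : ℕ) : ℝ) + 1) * (2 * ((2 ^ k1 : ℕ) : ℝ))) with hR
  have hRe : R = D * (10 * (Y * L) / q + 1) * ((5 * Y + 1) * (2 * L)) := by
    rw [hR]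
    push_cast
    rw [← hY, ← hL]
    ring
  have hR0 : 0 ≤ R := by
    rw [hRe]
    positivity
  have hR1 : R ≤ 576 * C * i ^ 152 * Y ^ 2 := by
    have h1 : (10 * (Y * L) / q + 1) * ((5 * Y + 1) * (2 * L)) ≤ 576 * i ^ 160 * Y ^ 2 := by
      have h2 : (10 * (Y * L) / q + 1) * ((5 * Y + 1) * (2 * L)) ≤
          (10 * (Y * L) / q + 1) * (6 * Y * (2 * L)) :=
        mul_le_mul_of_nonneg_left (mul_le_mul_of_nonneg_right (by linarith) (by positivity)) (by positivity)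
      have h3 : (10 * (Y * L) / q + 1) * (6 * Y * (2 * L)) = 120 * Y ^ 2 * (L ^ 2 / q) + 12 * Y * L := by
        field_simp
        ring
      have h4 : L ^ 2 / q ≤ 4 * i ^ 160 := by
        rw [div_le_iff₀ hq0]
        linarith
      have h5 : 120 * Y ^ 2 * (L ^ 2 / q) ≤ 120 * Y ^ 2 * (4 * i ^ 160) :=
        mul_le_mul_of_nonneg_left h4 (by positivity)
      have h6 : 12 * Y * L ≤ 12 * Y * (8 * Y * i ^ 160) := mul_le_mul_of_nonneg_left hL1' (by positivity)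
      have h7 : 12 * Y * (8 * Y * i ^ 160) = 96 * i ^ 160 * Y ^ 2 := by ring
      have h8 : 120 * Y ^ 2 * (4 * i ^ 160) = 480 * i ^ 160 * Y ^ 2 := by ring
      linarith
    have h2 : (D : ℝ) * (576 * i ^ 160 * Y ^ 2) ≤ (C * W ^ 8) * (576 * i ^ 160 * Y ^ 2) :=
      mul_le_mul_of_nonneg_right hDC (by positivity)
    have h3 : (C * W ^ 8) * (576 * i ^ 160 * Y ^ 2) = 576 * C * i ^ 152 * Y ^ 2 * (i ^ 8 * W ^ 8) := by ring
    rw [h3, hiW, mul_one] at h2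
    have h4 := mul_le_mul_of_nonneg_left h1 (Nat.cast_nonneg (α := ℝ) D)
    rw [hRe, mul_assoc]
    linarith
  have hDn : ∀ v : ℕ, 1 ≤ v → v ≤ (5 * 2 ^ y) * (2 ^ k1) → v.divisors.card ≤ D := hD
  have hRR := R_chars q (N := 5 * 2 ^ y) (L := 2 ^ k1) hq hDn
  rw [← hR] at hRR
  have hcast : (((2 ^ k1 : ℕ)) : ℝ) = 2 ^ k1 := by push_cast; rfl
  rw [hcast] at hRR
  have h1 := bad_fin (ac q) (ac_le q) (s := sc q) (ac_sq q) (y := y) (k0 := k0) (k1 := k1) (τ := τ)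
    (N1 := 9 * 2 ^ y) (K1 := q) (κ := kap q) (E0 := E0) (δ := i ^ 8) (θ := i ^ 4) (c := i ^ 2) (R := R)
    (β := 1) hy (kap_nonneg q) (kap_le (by omega)) (by positivity) (hi1 8) (by positivity) (hi1 2) (by positivity)
    hτ hk0 hk1 zero_le_one hR0 hE0' (fun k hk => by
      refine (range_bound (by omega) k).trans ?_
      rw [hE0]
      refine mul_le_mul_of_nonneg_right (Real.sqrt_le_sqrt ?_) (by positivity)
      have : (k : ℝ) ≤ ((5 * 2 ^ y + 1 : ℕ) : ℝ) := by exact_mod_cast hk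
      push_cast at this
      exact this) (by
      have h2 : kap q * (L + 1) ≤ 1 * (L + 1) :=
        mul_le_mul_of_nonneg_right (kap_le (by omega)) (by positivity)
      have h3 : i ^ 160 ≤ i ^ 16 := pow_le_pow_of_le_one hi0.le (by linarith) (by norm_num)
      have h4 : 8 * Y * i ^ 160 ≤ 8 * Y * i ^ 16 := mul_le_mul_of_nonneg_left h3 (by positivity)
      have h5 : 22 * (Y * i ^ 16) ≤ Y * i ^ 8 := by
        have h6 : 22 * i ^ 8 ≤ 1 := by
          have : i ^ 8 ≤ (1 / 4) ^ 8 := pow_le_pow_left₀ hi0.le hi4 8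
          norm_num at this ⊢
          linarith
        have h7 : 22 * (Y * i ^ 16) = Y * i ^ 8 * (22 * i ^ 8) := by ring
        rw [h7]
        exact mul_le_of_le_one_right (by positivity) h6
      have h6 : 1 ≤ Y * i ^ 16 := by
        refine le_trans ?_ hE'
        rw [hE0]
        have h7 : 1 ≤ Real.sqrt (5 * Y + 1) := by
          rw [Real.one_le_sqrt]
          linarith
        have h8 : (1 : ℝ) ≤ (q.divisors.card : ℝ) + 6 := by
          have : (0 : ℝ) ≤ (q.divisors.card : ℝ) := by positivity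
          linarith
        nlinarith
      linarith) (fun u k _ hk => O_chars q u k hk) le_rfl hK1 hRR
  have hnet : 7 * i ^ 2 + 4 / 2 ^ τ + 2 * i ^ 8 + 16 * (k1 + 1) * i ^ 4 / i ^ 2 ≤ i := by
    have h2 : 4 / (2 : ℝ) ^ τ ≤ 8 * i ^ 2 := by
      rw [div_le_iff₀ (by positivity)]
      have h3 : 8 * i ^ 2 * 2 ^ τ ≥ 4 * i ^ 2 * W ^ 8 := by
        have := mul_le_mul_of_nonneg_left hτ2 (by positivity : 0 ≤ 4 * i ^ 2)
        linarith
      have h4 : 4 * i ^ 2 * W ^ 8 = 4 * W ^ 6 * (i ^ 2 * W ^ 2) := by ring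
      rw [h4, hiW, mul_one] at h3
      have h5 : 1 ≤ W ^ 6 := one_le_pow₀ (by linarith)
      linarith
    have h3 : i ^ 8 ≤ i ^ 2 := pow_le_pow_of_le_one hi0.le (by linarith) (by norm_num)
    have h4 : 16 * ((k1 : ℝ) + 1) * i ^ 4 / i ^ 2 = 16 * (k1 + 1) * i ^ 2 := by
      field_simp
    rw [h4]
    have h5 : (33 + 16 * (k1 : ℝ)) * i ^ 2 ≤ W * i ^ 2 := mul_le_mul_of_nonneg_right hWk (by positivity)
    have h6 : W * i ^ 2 = i * (i * W) := by ring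
    rw [h6, hi, mul_one] at h5
    nlinarith
  have h2 : ((univ.filter fun χ : DirichletCharacter ℂ q => Bad (ac q χ) y k0 k1 (kap q) i).card : ℝ) ≤
      ((univ.filter fun χ : DirichletCharacter ℂ q => Bad (ac q χ) y k0 k1 (kap q)
        (7 * i ^ 2 + 4 / 2 ^ τ + 2 * i ^ 8 + 16 * (k1 + 1) * i ^ 4 / i ^ 2)).card : ℝ) := by
    have : (univ.filter fun χ : DirichletCharacter ℂ q => Bad (ac q χ) y k0 k1 (kap q) i) ⊆
        (univ.filter fun χ : DirichletCharacter ℂ q => Bad (ac q χ) y k0 k1 (kap q)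
        (7 * i ^ 2 + 4 / 2 ^ τ + 2 * i ^ 8 + 16 * (k1 + 1) * i ^ 4 / i ^ 2)) := by
      intro χ hχ
      rw [mem_filter] at hχ ⊢
      exact ⟨hχ.1, Bad_mono hnet hχ.2⟩
    exact_mod_cast card_le_card this
  refine h2.trans (h1.trans ?_)
  rw [hcard]
  refine mul_le_mul_of_nonneg_left (mul_le_mul_of_nonneg_left ?_ (Nat.cast_nonneg _)) (Nat.cast_nonneg _)
  have h3 : 8 * 4 ^ τ * R / (i ^ 8 * Y) ^ 2 ≤ 4608 * C * i ^ 4 := by
    rw [div_le_iff₀ (by positivity)]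
    have h4 : (4 : ℝ) ^ τ ≤ W ^ 16 := by
      have h5 : (4 : ℝ) ^ τ = (2 ^ τ) ^ 2 := by
        rw [← pow_mul, mul_comm, pow_mul]
        norm_num
      have h6 : W ^ 16 = (W ^ 8) ^ 2 := by ring
      rw [h5, h6]
      exact pow_le_pow_left₀ (by positivity) hτ1 2
    calc 8 * 4 ^ τ * R ≤ 8 * W ^ 16 * (576 * C * i ^ 152 * Y ^ 2) :=
          mul_le_mul (by linarith) hR1 hR0 (by positivity)
      _ = 4608 * C * i ^ 136 * Y ^ 2 * (i ^ 16 * W ^ 16) := by ring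
      _ = 4608 * C * i ^ 136 * Y ^ 2 := by rw [hiW, mul_one]
      _ ≤ 4608 * C * i ^ 20 * Y ^ 2 := by
          have : i ^ 136 ≤ i ^ 20 := pow_le_pow_of_le_one hi0.le (by linarith) (by norm_num)
          gcongr
      _ = 4608 * C * i ^ 4 * (i ^ 8 * Y) ^ 2 := by ring
  have h4 : 8 * ((k1 : ℝ) + 1) * 1 / (i ^ 4 * 2 ^ τ) ≤ 16 * (k1 + 1) * i ^ 4 := by
    rw [div_le_iff₀ (by positivity)]
    have h5 : 16 * ((k1 : ℝ) + 1) * i ^ 8 * 2 ^ τ ≥ 8 * (k1 + 1) * i ^ 8 * W ^ 8 := by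
      have := mul_le_mul_of_nonneg_left hτ2 (by positivity : 0 ≤ 8 * ((k1 : ℝ) + 1) * i ^ 8)
      linarith
    have h6 : 8 * ((k1 : ℝ) + 1) * i ^ 8 * W ^ 8 = 8 * (k1 + 1) * (i ^ 8 * W ^ 8) := by ring
    rw [h6, hiW, mul_one] at h5
    have h7 : 16 * ((k1 : ℝ) + 1) * i ^ 4 * (i ^ 4 * 2 ^ τ) = 16 * (k1 + 1) * i ^ 8 * 2 ^ τ := by ring
    rw [h7, mul_one]
    exact h5
  have h5 : (4608 * C + 16 * ((k1 : ℝ) + 1)) * i ^ 4 = 4608 * C * i ^ 4 + 16 * (k1 + 1) * i ^ 4 := by ring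
  rw [h5]
  exact add_le_add h3 h4

end Pool.Agent.H95SD.GC
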