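import Pool.Agent.H95SD.GC6

/-!
# The variance of sums in short intervals: almost all characters, all positions and lengths
-/

set_option autoImplicit false

open Finset MeasureTheory Filter

namespace Pool.Agent.H95SD.GC

open Pool.Agent.H95SD.SqC (sc kap kap_nonneg kap_le range_bound)

lemma ev_log (B s : ℝ) (hs : 0 < s) : ∀ᶠ q : ℕ in atTop,
    B * (Real.logb 2 q + 2) ^ 3 ≤ (q : ℝ) ^ s := by
  have h1 : ∀ᶠ x : ℝ in atTop, Real.log x ≤ x ^ (s / 6) := by
    have := (isLittleO_log_rpow_atTop (show 0 < s / 6 by positivity)).bound (zero_lt_one)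
    filter_upwards [this, eventually_ge_atTop 1] with x hx hx1
    rw [one_mul, Real.norm_eq_abs, Real.norm_eq_abs, abs_of_nonneg (Real.log_nonneg hx1),
      abs_of_nonneg (by positivity)] at hx
    exact hx
  have h2 : ∀ᶠ x : ℝ in atTop, |B| * 125 ≤ x ^ (s / 2) :=
    (tendsto_rpow_atTop (show 0 < s / 2 by positivity)).eventually_ge_atTop _
  have h3 : ∀ᶠ x : ℝ in atTop, B * (Real.logb 2 x + 2) ^ 3 ≤ x ^ s := by
    filter_upwards [h1, h2, eventually_ge_atTop 3] with x hx1 hx2 hx3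
    have hx0 : 0 < x := by linarith
    have hlog2 : 1 / 2 < Real.log 2 := by
      have := Real.log_two_gt_d9
      linarith
    have hlx : 1 ≤ Real.log x := by
      rw [Real.le_log_iff_exp_le hx0]
      have := Real.exp_one_lt_d9
      linarith
    have h4 : Real.logb 2 x ≤ 2 * Real.log x := by
      rw [Real.logb, div_le_iff₀ (by linarith)]
      nlinarith
    have h4' : 0 ≤ Real.logb 2 x := Real.logb_nonneg (by norm_num) (by linarith)
    have hp : 1 ≤ x ^ (s / 6) := Real.one_le_rpow (by linarith) (by positivity)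
    have h5 : Real.logb 2 x + 2 ≤ 5 * x ^ (s / 6) := by linarith
    have h6 : (Real.logb 2 x + 2) ^ 3 ≤ (5 * x ^ (s / 6)) ^ 3 := pow_le_pow_left₀ (by linarith) h5 3
    have h7 : (5 * x ^ (s / 6)) ^ 3 = 125 * x ^ (s / 2) := by
      rw [mul_pow, ← Real.rpow_natCast (x ^ (s / 6)) 3, ← Real.rpow_mul hx0.le]
      norm_num
      congr 1
      ring
    have h8 : x ^ s = x ^ (s / 2) * x ^ (s / 2) := by
      rw [← Real.rpow_add hx0]
      congr 1
      ring
    calc B * (Real.logb 2 x + 2) ^ 3 ≤ |B| * (Real.logb 2 x + 2) ^ 3 :=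
          mul_le_mul_of_nonneg_right (le_abs_self B) (by positivity)
      _ ≤ |B| * (125 * x ^ (s / 2)) := by
          rw [← h7]
          exact mul_le_mul_of_nonneg_left h6 (abs_nonneg _)
      _ = (|B| * 125) * x ^ (s / 2) := by ring
      _ ≤ x ^ (s / 2) * x ^ (s / 2) := mul_le_mul_of_nonneg_right hx2 (by positivity)
      _ = x ^ s := h8.symm
  exact tendsto_natCast_atTop_atTop.eventually h3

open scoped Classical in
/-- **almost all characters, all positions and lengths** -/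
theorem chars_main {ε η A : ℝ} (hε : 0 < ε) (hε4 : ε ≤ 1 / 4) (hη : 0 < η) (hη1 : η ≤ 1) (hA : 1 ≤ A) :
    ∃ c : ℝ, 0 < c ∧ ∃ q₀ : ℕ, ∀ q : ℕ, q₀ ≤ q → ∃ E : Finset (DirichletCharacter ℂ q),
      (E.card : ℝ) ≤ q.totient / (q : ℝ) ^ c ∧
      ∀ χ : DirichletCharacter ℂ q, χ ∉ E → ∀ X H : ℝ, (q : ℝ) ^ η ≤ X → X ≤ (q : ℝ) ^ A →
        X ^ ε ≤ H → H ≤ X ^ (1 - ε) → H ≤ (q : ℝ) ^ (1 / 2 - ε) →
        |G (ac q χ) X (2 * X) H - kap q * X * H| ≤ X * H / X ^ c := by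
  set c1 : ℝ := ε * η / 20 with hc1
  have hc10 : 0 < c1 := by positivity
  have hεη : ε * η ≤ 1 / 4 := by nlinarith
  have hc11 : c1 ≤ 1 / 80 := by rw [hc1]; linarith
  set s : ℝ := c1 / (2 * A) with hs
  have hs0 : 0 < s := by positivity
  have hs1 : s ≤ c1 := by
    rw [hs]
    exact div_le_self hc10.le (by linarith)
  obtain ⟨C0, hC0, hdiv⟩ := Pool.Agent.H510R2.divisor_bound s hs0
  set C : ℝ := 5 * C0 with hC
  set c : ℝ := c1 / (8 * A) with hc
  have hc0 : 0 < c := by positivity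
  refine ⟨c, hc0, ?_⟩
  have hev := (ev_log (4 + 49 + 18 * (C0 + 6) ^ 2 + A * (4608 * C + 16)) (c1 / 8) (by positivity)).and
    (eventually_ge_atTop 2)
  obtain ⟨q₀, hq₀⟩ := eventually_atTop.1 hev
  refine ⟨q₀, fun q hq => ?_⟩
  obtain ⟨hW1, hq2⟩ := hq₀ q hq
  haveI : NeZero q := ⟨by omega⟩
  set W : ℝ := (q : ℝ) ^ (c1 / 8) with hW
  set ℓ : ℝ := Real.logb 2 q with hℓ
  have hq0 : (0 : ℝ) < q := by
    have : 0 < q := by omega
    exact_mod_cast this
  have hq1 : (1 : ℝ) ≤ q := by exact_mod_cast (by omega : 1 ≤ q)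
  have hℓ0 : 0 ≤ ℓ := Real.logb_nonneg (by norm_num) hq1
  have h2ℓ : (2 : ℝ) ^ ℓ = q := Real.rpow_logb (by norm_num) (by norm_num) hq0
  have hqr : ∀ t : ℝ, (q : ℝ) ^ t = (2 : ℝ) ^ (ℓ * t) := by
    intro t
    rw [Real.rpow_mul (by norm_num), h2ℓ]
  have hW0 : 0 < W := by positivity
  -- consequences of `hW1`
  have hU1 : 1 ≤ (ℓ + 2) ^ 3 := one_le_pow₀ (by linarith)
  have hU2 : ℓ + 2 ≤ (ℓ + 2) ^ 3 := by
    have : (ℓ + 2) ^ 3 = (ℓ + 2) * ((ℓ + 2) ^ 2) := by ring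
    rw [this]
    exact le_mul_of_one_le_right (by linarith) (one_le_pow₀ (by linarith))
  have hC00 : 0 ≤ 18 * (C0 + 6) ^ 2 := by positivity
  have hAC : 0 ≤ A * (4608 * C + 16) := by positivity
  have hex : (4 + 49 + 18 * (C0 + 6) ^ 2 + A * (4608 * C + 16)) * (ℓ + 2) ^ 3 = 4 * (ℓ + 2) ^ 3 +
      49 * (ℓ + 2) ^ 3 + 18 * (C0 + 6) ^ 2 * (ℓ + 2) ^ 3 + A * (4608 * C + 16) * (ℓ + 2) ^ 3 := by ring
  rw [hex] at hW1
  have hp1 : 18 * (C0 + 6) ^ 2 ≤ 18 * (C0 + 6) ^ 2 * (ℓ + 2) ^ 3 := le_mul_of_one_le_right hC00 hU1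
  have hp2 : 0 ≤ A * (4608 * C + 16) * (ℓ + 2) ^ 3 := mul_nonneg hAC (by positivity)
  have hW4 : 4 ≤ W := by linarith
  have hWa : 49 * (ℓ + 2) ≤ W := by linarith
  have hWb : 18 * (C0 + 6) ^ 2 ≤ W := by linarith
  have hWc : A * (4608 * C + 16) * (ℓ + 2) ^ 3 ≤ W := by linarith
  have hWk : ∀ n : ℕ, W ^ n = (q : ℝ) ^ (c1 / 8 * n) := by
    intro n
    rw [hW, ← Real.rpow_natCast, ← Real.rpow_mul hq0.le]
  have hW8 : W ^ 8 = (q : ℝ) ^ c1 := by
    rw [hWk]
    congr 1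
    push_cast
    ring
  have hW160 : W ^ 160 = (q : ℝ) ^ (ε * η) := by
    rw [hWk]
    congr 1
    rw [hc1]
    push_cast
    ring
  set i : ℝ := W⁻¹ with hi
  have hiW : i * W = 1 := inv_mul_cancel₀ hW0.ne'
  have hi0 : 0 < i := inv_pos.2 hW0
  -- the divisor function
  set D : ℕ := ⌊C0 * (5 * (q : ℝ) ^ (2 * A)) ^ s⌋₊ with hD
  have h5s : (5 * (q : ℝ) ^ (2 * A)) ^ s ≤ 5 * W ^ 8 := by
    rw [Real.mul_rpow (by norm_num) (by positivity), ← Real.rpow_mul hq0.le, hW8]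
    have e : 2 * A * s = c1 := by
      rw [hs]
      field_simp
    rw [e]
    have : (5 : ℝ) ^ s ≤ 5 ^ (1 : ℝ) := Real.rpow_le_rpow_of_exponent_le (by norm_num) (by linarith)
    rw [Real.rpow_one] at this
    exact mul_le_mul_of_nonneg_right this (by positivity)
  have hDC : (D : ℝ) ≤ C * W ^ 8 := by
    refine (Nat.floor_le (by positivity)).trans ?_
    have := mul_le_mul_of_nonneg_left h5s hC0.le
    rw [hC]
    linarith
  have hdq : (q.divisors.card : ℝ) ≤ C0 * W ^ 8 := by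
    refine (hdiv q (by omega)).trans (mul_le_mul_of_nonneg_left ?_ hC0.le)
    rw [hW8]
    exact Real.rpow_le_rpow_of_exponent_le hq1 hs1
  -- the exponents
  set τ : ℕ := ⌊c1 * ℓ⌋₊ with hτ
  have hcℓ : 0 ≤ c1 * ℓ := by positivity
  have hτa : (τ : ℝ) ≤ c1 * ℓ := Nat.floor_le hcℓ
  have hτb : c1 * ℓ < τ + 1 := Nat.lt_floor_add_one _
  have hτ1 : (2 : ℝ) ^ τ ≤ W ^ 8 := by
    rw [hW8, hqr, ← Real.rpow_natCast]
    exact Real.rpow_le_rpow_of_exponent_le (by norm_num) (by linarith)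
  have hτ2 : W ^ 8 ≤ 2 * 2 ^ τ := by
    have e : (2 : ℝ) * 2 ^ τ = 2 ^ ((τ : ℝ) + 1) := by
      rw [Real.rpow_add (by norm_num), Real.rpow_natCast, Real.rpow_one]
      ring
    rw [hW8, hqr, e]
    exact Real.rpow_le_rpow_of_exponent_le (by norm_num) (by linarith)
  have hτ3 : 2 ≤ τ := by
    by_contra h
    have h1 : τ ≤ 1 := by omega
    have h2 : (2 : ℝ) ^ τ ≤ 2 ^ 1 := pow_le_pow_right₀ (by norm_num) h1
    have h3 : (4 : ℝ) ^ 8 ≤ W ^ 8 := pow_le_pow_left₀ (by norm_num) hW4 8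
    norm_num at h2 h3
    linarith
  have hτ3' : (2 : ℝ) ≤ τ := by exact_mod_cast hτ3
  set k0 : ℕ → ℕ := fun y => ⌊ε * y⌋₊ with hk0
  set m : ℕ → ℝ := fun y => min ((1 - ε) * y + 1) (ℓ * (1 / 2 - ε)) with hm
  set k1 : ℕ → ℕ := fun y => ⌊m y⌋₊ + 1 with hk1
  have hm0 : ∀ y : ℕ, 0 ≤ m y := by
    intro y
    refine le_min ?_ ?_
    · have : 0 ≤ (1 - ε) * (y : ℝ) := mul_nonneg (by linarith) (Nat.cast_nonneg y)
      linarith
    · exact mul_nonneg hℓ0 (by linarith)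
  have hk1a : ∀ y : ℕ, (k1 y : ℝ) ≤ m y + 1 := by
    intro y
    have := Nat.floor_le (hm0 y)
    rw [hk1]
    push_cast
    linarith
  have hk1b : ∀ y : ℕ, m y < k1 y := by
    intro y
    rw [hk1]
    push_cast
    exact Nat.lt_floor_add_one _
  set y0 : ℕ := ⌈η * ℓ - 1⌉₊ with hy0
  set y1 : ℕ := ⌊A * ℓ⌋₊ with hy1
  have hy1' : (y1 : ℝ) ≤ A * ℓ := Nat.floor_le (by positivity)
  -- one range
  have hone : ∀ y ∈ Icc y0 y1,
      ((univ.filter fun χ : DirichletCharacter ℂ q => Bad (ac q χ) y (k0 y) (k1 y) (kap q) i).card : ℝ) ≤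
      q.totient * ((ℓ + 1) * ((4608 * C + 16 * (ℓ + 2)) * i ^ 4)) := by
    intro y hy
    rw [mem_Icc] at hy
    have hya : η * ℓ - 1 ≤ y := Nat.ceil_le.1 hy.1
    have hyb : (y : ℝ) ≤ A * ℓ := (Nat.cast_le.2 hy.2).trans hy1'
    have hY0 : (0 : ℝ) < 2 ^ y := by positivity
    have hYr : (2 : ℝ) ^ y = (2 : ℝ) ^ (y : ℝ) := (Real.rpow_natCast 2 y).symm
    have hk0' : τ + 1 ≤ k0 y := by
      rw [hk0]
      refine Nat.le_floor ?_
      push_cast
      have h1 : ε * (η * ℓ - 1) ≤ ε * y := mul_le_mul_of_nonneg_left hya hε.le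
      have h2 : ε * (η * ℓ - 1) = 20 * (c1 * ℓ) - ε := by
        rw [hc1]
        ring
      linarith
    have hεy : (τ : ℝ) + 1 ≤ ε * y := by
      have h1 : ((τ + 1 : ℕ) : ℝ) ≤ k0 y := by exact_mod_cast hk0'
      have h2 : ((k0 y : ℕ) : ℝ) ≤ ε * y := Nat.floor_le (by positivity)
      push_cast at h1
      linarith
    have hy2 : 2 ≤ y := by
      have h1 : ε * (y : ℝ) ≤ 1 * y := mul_le_mul_of_nonneg_right (by linarith) (Nat.cast_nonneg y)
      have h2 : (2 : ℝ) ≤ y := by linarith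
      exact_mod_cast h2
    have hkℓ : (k1 y : ℝ) ≤ ℓ + 1 := by
      have h1 : m y ≤ ℓ * (1 / 2 - ε) := min_le_right _ _
      have h2 : ℓ * (1 / 2 - ε) ≤ ℓ * 1 := mul_le_mul_of_nonneg_left (by linarith) hℓ0
      have := hk1a y
      linarith
    have hL1 : (2 : ℝ) ^ (k1 y) * W ^ 160 ≤ 8 * 2 ^ y := by
      have h1 : (2 : ℝ) ^ (k1 y) ≤ 4 * 2 ^ ((1 - ε) * (y : ℝ)) := by
        have e : (4 : ℝ) * 2 ^ ((1 - ε) * (y : ℝ)) = 2 ^ ((1 - ε) * (y : ℝ) + 2) := by
          rw [Real.rpow_add (by norm_num)]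
          norm_num
          ring
        rw [e, ← Real.rpow_natCast]
        refine Real.rpow_le_rpow_of_exponent_le (by norm_num) ?_
        have h2 : m y ≤ (1 - ε) * y + 1 := min_le_left _ _
        have := hk1a y
        linarith
      have h2 : W ^ 160 ≤ 2 * 2 ^ (ε * (y : ℝ)) := by
        have e : (2 : ℝ) * 2 ^ (ε * (y : ℝ)) = 2 ^ (ε * (y : ℝ) + 1) := by
          rw [Real.rpow_add (by norm_num), Real.rpow_one]
          ring
        rw [e, hW160, hqr]
        refine Real.rpow_le_rpow_of_exponent_le (by norm_num) ?_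
        have h3 : ε * (η * ℓ - 1) ≤ ε * y := mul_le_mul_of_nonneg_left hya hε.le
        have h4 : ε * (η * ℓ - 1) = ℓ * (ε * η) - ε := by ring
        linarith
      calc (2 : ℝ) ^ (k1 y) * W ^ 160 ≤ (4 * 2 ^ ((1 - ε) * (y : ℝ))) * (2 * 2 ^ (ε * (y : ℝ))) :=
            mul_le_mul h1 h2 (by positivity) (by positivity)
        _ = 8 * (2 ^ ((1 - ε) * (y : ℝ)) * 2 ^ (ε * (y : ℝ))) := by ring
        _ = 8 * 2 ^ y := by
            rw [← Real.rpow_add (by norm_num), hYr]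
            congr 2
            ring
    have hL2 : ((2 : ℝ) ^ (k1 y)) ^ 2 * W ^ 160 ≤ 4 * q := by
      have h1 : (2 : ℝ) ^ (k1 y) ≤ 2 * 2 ^ (ℓ * (1 / 2 - ε)) := by
        have e : (2 : ℝ) * 2 ^ (ℓ * (1 / 2 - ε)) = 2 ^ (ℓ * (1 / 2 - ε) + 1) := by
          rw [Real.rpow_add (by norm_num), Real.rpow_one]
          ring
        rw [e, ← Real.rpow_natCast]
        refine Real.rpow_le_rpow_of_exponent_le (by norm_num) ?_
        have h2 : m y ≤ ℓ * (1 / 2 - ε) := min_le_right _ _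
        have := hk1a y
        linarith
      have h2 : ((2 : ℝ) ^ (k1 y)) ^ 2 ≤ (2 * 2 ^ (ℓ * (1 / 2 - ε))) ^ 2 :=
        pow_le_pow_left₀ (by positivity) h1 2
      have h3 : (2 * (2 : ℝ) ^ (ℓ * (1 / 2 - ε))) ^ 2 = 4 * 2 ^ (ℓ * (1 - 2 * ε)) := by
        rw [mul_pow, ← Real.rpow_natCast ((2 : ℝ) ^ (ℓ * (1 / 2 - ε))) 2, ← Real.rpow_mul (by norm_num)]
        norm_num
        congr 1
        ring
      have h4 : W ^ 160 ≤ 2 ^ (ℓ * (2 * ε)) := by
        rw [hW160, hqr]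
        refine Real.rpow_le_rpow_of_exponent_le (by norm_num) (mul_le_mul_of_nonneg_left ?_ hℓ0)
        have : ε * η ≤ ε * 1 := mul_le_mul_of_nonneg_left hη1 hε.le
        linarith
      calc ((2 : ℝ) ^ (k1 y)) ^ 2 * W ^ 160 ≤ (4 * 2 ^ (ℓ * (1 - 2 * ε))) * 2 ^ (ℓ * (2 * ε)) := by
            rw [← h3]
            exact mul_le_mul h2 h4 (by positivity) (by positivity)
        _ = 4 * (2 ^ (ℓ * (1 - 2 * ε)) * 2 ^ (ℓ * (2 * ε))) := by ring
        _ = 4 * q := by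
            rw [← Real.rpow_add (by norm_num)]
            congr 1
            rw [← h2ℓ]
            congr 1
            ring
    have hW160' : 8 ≤ W ^ 160 := by
      have h1 : W ^ 2 ≤ W ^ 160 := pow_le_pow_right₀ (by linarith) (by norm_num)
      have h2 : (4 : ℝ) ^ 2 ≤ W ^ 2 := pow_le_pow_left₀ (by norm_num) hW4 2
      norm_num at h2
      linarith
    have hk1y : k1 y ≤ y := by
      by_contra h
      have h1 : y + 1 ≤ k1 y := by omega
      have h2 : (2 : ℝ) ^ (y + 1) ≤ 2 ^ (k1 y) := pow_le_pow_right₀ (by norm_num) h1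
      rw [pow_succ] at h2
      have h3 : (2 : ℝ) ^ (k1 y) * 8 ≤ 2 ^ (k1 y) * W ^ 160 := mul_le_mul_of_nonneg_left hW160' (by positivity)
      linarith
    have hK1 : 2 ^ (k1 y) ≤ q := by
      have h1 : ((2 : ℝ) ^ (k1 y)) ^ 2 * 8 ≤ ((2 : ℝ) ^ (k1 y)) ^ 2 * W ^ 160 :=
        mul_le_mul_of_nonneg_left hW160' (by positivity)
      have h2 : (2 : ℝ) ^ (k1 y) ≤ q := by
        have h3 : (1 : ℝ) ≤ 2 ^ (k1 y) := one_le_pow₀ (by norm_num)
        have h4 : (2 : ℝ) ^ (k1 y) ≤ ((2 : ℝ) ^ (k1 y)) ^ 2 := by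
          rw [sq]
          exact le_mul_of_one_le_right (by linarith) h3
        linarith
      exact_mod_cast h2
    have hDv : ∀ v : ℕ, 1 ≤ v → v ≤ 5 * 2 ^ y * 2 ^ (k1 y) → v.divisors.card ≤ D := by
      intro v hv1 hv2
      refine Nat.le_floor ((hdiv v hv1).trans (mul_le_mul_of_nonneg_left ?_ hC0.le))
      refine Real.rpow_le_rpow (by positivity) ?_ hs0.le
      have h1 : (v : ℝ) ≤ 5 * 2 ^ y * 2 ^ (k1 y) := by exact_mod_cast hv2
      have h2 : (2 : ℝ) ^ (k1 y) ≤ 2 ^ y := pow_le_pow_right₀ (by norm_num) hk1y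
      have h3 : (2 : ℝ) ^ y * 2 ^ y ≤ (q : ℝ) ^ (2 * A) := by
        rw [hqr, hYr, ← Real.rpow_add (by norm_num)]
        exact Real.rpow_le_rpow_of_exponent_le (by norm_num) (by linarith)
      calc (v : ℝ) ≤ 5 * 2 ^ y * 2 ^ (k1 y) := h1
        _ ≤ 5 * 2 ^ y * 2 ^ y := mul_le_mul_of_nonneg_left h2 (by positivity)
        _ = 5 * (2 ^ y * 2 ^ y) := by ring
        _ ≤ _ := mul_le_mul_of_nonneg_left h3 (by norm_num)
    have hE : Real.sqrt (5 * 2 ^ y + 1) * ((q.divisors.card : ℝ) + 6) * W ^ 16 ≤ 2 ^ y := by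
      have hY1 : (1 : ℝ) ≤ 2 ^ y := one_le_pow₀ (by norm_num)
      have h1 : Real.sqrt (5 * 2 ^ y + 1) ≤ 3 * Real.sqrt (2 ^ y) := by
        have e : (3 : ℝ) * Real.sqrt (2 ^ y) = Real.sqrt (9 * 2 ^ y) := by
          rw [Real.sqrt_mul (by norm_num)]
          congr 1
          rw [show (9 : ℝ) = 3 ^ 2 by norm_num, Real.sqrt_sq (by norm_num)]
        rw [e]
        exact Real.sqrt_le_sqrt (by linarith)
      have hW81 : 1 ≤ W ^ 8 := one_le_pow₀ (by linarith)
      have h2 : (q.divisors.card : ℝ) + 6 ≤ (C0 + 6) * W ^ 8 := by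
        have e : (C0 + 6) * W ^ 8 = C0 * W ^ 8 + 6 * W ^ 8 := by ring
        rw [e]
        linarith
      have h3 : 3 * (C0 + 6) * W ^ 24 ≤ Real.sqrt (2 ^ y) := by
        apply Real.le_sqrt_of_sq_le
        have h4 : W ^ 49 ≤ 2 * 2 ^ y := by
          have e : (2 : ℝ) * 2 ^ y = 2 ^ ((y : ℝ) + 1) := by
            rw [Real.rpow_add (by norm_num), Real.rpow_natCast, Real.rpow_one]
            ring
          rw [hWk, hqr, e]
          refine Real.rpow_le_rpow_of_exponent_le (by norm_num) ?_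
          have h5 : c1 / 8 * ((49 : ℕ) : ℝ) ≤ η := by
            rw [hc1]
            push_cast
            have h7 : ε * η ≤ 1 * η := mul_le_mul_of_nonneg_right (by linarith) hη.le
            linarith
          have h6 : ℓ * (c1 / 8 * ((49 : ℕ) : ℝ)) ≤ ℓ * η := mul_le_mul_of_nonneg_left h5 hℓ0
          linarith
        have h5 : 18 * (C0 + 6) ^ 2 * W ^ 48 ≤ W * W ^ 48 := mul_le_mul_of_nonneg_right hWb (by positivity)
        have h6 : (3 * (C0 + 6) * W ^ 24) ^ 2 = 9 * (C0 + 6) ^ 2 * W ^ 48 := by ring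
        have h7 : W * W ^ 48 = W ^ 49 := by ring
        rw [h6]
        linarith
      calc Real.sqrt (5 * 2 ^ y + 1) * ((q.divisors.card : ℝ) + 6) * W ^ 16
          ≤ (3 * Real.sqrt (2 ^ y)) * ((C0 + 6) * W ^ 8) * W ^ 16 := by
            refine mul_le_mul_of_nonneg_right (mul_le_mul h1 h2 (by positivity) (by positivity)) (by positivity)
        _ = Real.sqrt (2 ^ y) * (3 * (C0 + 6) * W ^ 24) := by ring
        _ ≤ Real.sqrt (2 ^ y) * Real.sqrt (2 ^ y) := mul_le_mul_of_nonneg_left h3 (Real.sqrt_nonneg _)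
        _ = 2 ^ y := Real.mul_self_sqrt hY0.le
    have h1 := chars_y (q := q) (y := y) (k0 := k0 y) (k1 := k1 y) (τ := τ) (D := D) (W := W) (i := i) (C := C)
      hq2 hW4 hiW (by positivity) hy2 hτ3 hk0' hk1y hτ1 hτ2 hL1 hL2 hK1 hDv hDC hE (by linarith)
    refine h1.trans (mul_le_mul_of_nonneg_left ?_ (Nat.cast_nonneg _))
    refine mul_le_mul hkℓ (mul_le_mul_of_nonneg_right (by linarith) (by positivity)) (by positivity) (by linarith)
  set E : Finset (DirichletCharacter ℂ q) := (Icc y0 y1).biUnion fun y =>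
    univ.filter fun χ : DirichletCharacter ℂ q => Bad (ac q χ) y (k0 y) (k1 y) (kap q) i with hEdef
  have hqc : (q : ℝ) ^ c ≤ W := by
    rw [hW]
    refine Real.rpow_le_rpow_of_exponent_le hq1 ?_
    rw [hc]
    exact div_le_div_of_nonneg_left hc10.le (by norm_num) (by linarith)
  refine ⟨E, ?_, ?_⟩
  · have h1 : (E.card : ℝ) ≤ ∑ y ∈ Icc y0 y1,
        ((univ.filter fun χ : DirichletCharacter ℂ q => Bad (ac q χ) y (k0 y) (k1 y) (kap q) i).card : ℝ) := by
      have := Finset.card_biUnion_le (s := Icc y0 y1) (t := fun y =>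
        univ.filter fun χ : DirichletCharacter ℂ q => Bad (ac q χ) y (k0 y) (k1 y) (kap q) i)
      exact_mod_cast this
    have hT0 : (0 : ℝ) ≤ q.totient := Nat.cast_nonneg _
    have h2 : (E.card : ℝ) ≤ (A * ℓ + 1) * (q.totient * ((ℓ + 1) * ((4608 * C + 16 * (ℓ + 2)) * i ^ 4))) := by
      refine h1.trans ((Finset.sum_le_sum hone).trans ?_)
      rw [Finset.sum_const, Nat.card_Icc, nsmul_eq_mul]
      refine mul_le_mul_of_nonneg_right ?_ (by positivity)
      have h3 : ((y1 + 1 - y0 : ℕ) : ℝ) ≤ ((y1 + 1 : ℕ) : ℝ) := by exact_mod_cast Nat.sub_le _ _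
      push_cast at h3
      linarith
    refine h2.trans ?_
    have h3 : (A * ℓ + 1) * ((ℓ + 1) * (4608 * C + 16 * (ℓ + 2))) ≤ W := by
      refine le_trans ?_ hWc
      have h4 : A * ℓ + 1 ≤ A * (ℓ + 2) := by
        rw [mul_add]
        linarith
      have h5 : 4608 * C + 16 * (ℓ + 2) ≤ (4608 * C + 16) * (ℓ + 2) := by
        have h7 : 0 ≤ C := by positivity
        have h8 : C ≤ C * (ℓ + 2) := le_mul_of_one_le_right h7 (by linarith)
        rw [add_mul]
        linarith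
      calc (A * ℓ + 1) * ((ℓ + 1) * (4608 * C + 16 * (ℓ + 2)))
          ≤ (A * (ℓ + 2)) * ((ℓ + 2) * ((4608 * C + 16) * (ℓ + 2))) := by
            refine mul_le_mul h4 (mul_le_mul (by linarith) h5 (by positivity) (by linarith)) (by positivity)
              (by positivity)
        _ = A * (4608 * C + 16) * (ℓ + 2) ^ 3 := by ring
    rw [le_div_iff₀ (by positivity)]
    have h6 : (A * ℓ + 1) * (q.totient * ((ℓ + 1) * ((4608 * C + 16 * (ℓ + 2)) * i ^ 4))) * (q : ℝ) ^ c =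
        q.totient * (((A * ℓ + 1) * ((ℓ + 1) * (4608 * C + 16 * (ℓ + 2)))) * (i ^ 4 * (q : ℝ) ^ c)) := by ring
    rw [h6]
    refine mul_le_of_le_one_right hT0 ?_
    have h7 : ((A * ℓ + 1) * ((ℓ + 1) * (4608 * C + 16 * (ℓ + 2)))) * (i ^ 4 * (q : ℝ) ^ c) ≤ W * (i ^ 4 * W) :=
      mul_le_mul h3 (mul_le_mul_of_nonneg_left hqc (by positivity)) (by positivity) hW0.le
    refine h7.trans ?_
    have h8 : W * (i ^ 4 * W) = (i * W) * (i * W) * i ^ 2 := by ring
    rw [h8, hiW, one_mul, one_mul]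
    refine pow_le_one₀ hi0.le ?_
    exact inv_le_one_of_one_le₀ (by linarith)
  · intro χ hχ X H hX1 hX2 hH1 hH2 hH3
    have hX0 : 1 ≤ X := le_trans (Real.one_le_rpow hq1 hη.le) hX1
    have hXp : 0 < X := by linarith
    obtain ⟨y, hya, hyb⟩ : ∃ y : ℕ, (2 : ℝ) ^ y ≤ X ∧ X < 2 ^ (y + 1) := exists_nat_pow_near hX0 (by norm_num)
    have hHp : 0 < H := lt_of_lt_of_le (by positivity) hH1
    have hyA : (y : ℝ) ≤ A * ℓ := by
      have h1 : (2 : ℝ) ^ (y : ℝ) ≤ 2 ^ (ℓ * A) := by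
        rw [Real.rpow_natCast, ← hqr]
        exact hya.trans hX2
      have := (Real.rpow_le_rpow_left_iff (by norm_num : (1 : ℝ) < 2)).1 h1
      linarith
    have hyη : η * ℓ - 1 ≤ y := by
      have h1 : (2 : ℝ) ^ (ℓ * η) ≤ 2 ^ ((y : ℝ) + 1) := by
        rw [← hqr]
        have e : (2 : ℝ) ^ ((y : ℝ) + 1) = 2 ^ (y + 1) := by
          rw [← Real.rpow_natCast]
          push_cast
          rfl
        rw [e]
        exact (hX1.trans hyb.le)
      have := (Real.rpow_le_rpow_left_iff (by norm_num : (1 : ℝ) < 2)).1 h1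
      linarith
    have hymem : y ∈ Icc y0 y1 := by
      rw [mem_Icc]
      exact ⟨Nat.ceil_le.2 hyη, Nat.le_floor hyA⟩
    have hnb : ¬ Bad (ac q χ) y (k0 y) (k1 y) (kap q) i := by
      intro hB
      apply hχ
      rw [hEdef, mem_biUnion]
      exact ⟨y, hymem, mem_filter.2 ⟨mem_univ _, hB⟩⟩
    have hHlow : (2 : ℝ) ^ (k0 y) ≤ H := by
      refine le_trans ?_ hH1
      have h1 : ((k0 y : ℕ) : ℝ) ≤ ε * y := Nat.floor_le (by positivity)
      calc (2 : ℝ) ^ (k0 y) = (2 : ℝ) ^ ((k0 y : ℕ) : ℝ) := (Real.rpow_natCast 2 _).symm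
        _ ≤ (2 : ℝ) ^ ((y : ℝ) * ε) := Real.rpow_le_rpow_of_exponent_le (by norm_num) (by linarith)
        _ = ((2 : ℝ) ^ y) ^ ε := by rw [Real.rpow_mul (by norm_num), Real.rpow_natCast]
        _ ≤ X ^ ε := Real.rpow_le_rpow (by positivity) hya hε.le
    have hHup : H < 2 ^ (k1 y) := by
      have h1 : H ≤ 2 ^ (m y) := by
        rw [hm]
        rcases min_choice ((1 - ε) * (y : ℝ) + 1) (ℓ * (1 / 2 - ε)) with h2 | h2
        · simp only [h2]
          refine hH2.trans ?_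
          calc X ^ (1 - ε) ≤ ((2 : ℝ) ^ (y + 1)) ^ (1 - ε) := Real.rpow_le_rpow hXp.le hyb.le (by linarith)
            _ = (2 : ℝ) ^ (((y : ℝ) + 1) * (1 - ε)) := by
                rw [Real.rpow_mul (by norm_num)]
                congr 1
                rw [← Real.rpow_natCast]
                push_cast
                rfl
            _ ≤ (2 : ℝ) ^ ((1 - ε) * (y : ℝ) + 1) :=
                Real.rpow_le_rpow_of_exponent_le (by norm_num) (by
                  have : ((y : ℝ) + 1) * (1 - ε) = (1 - ε) * y + (1 - ε) := by ring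
                  rw [this]
                  linarith)
        · simp only [h2]
          rw [← hqr]
          exact hH3
      refine h1.trans_lt ?_
      rw [← Real.rpow_natCast]
      exact (Real.rpow_lt_rpow_left_iff (by norm_num : (1 : ℝ) < 2)).2 (hk1b y)
    have hle : |G (ac q χ) X (2 * X) H - kap q * X * H| ≤ i * (2 ^ y * H) := by
      by_contra hcon
      rw [not_le] at hcon
      refine hnb ⟨X, H, hya, ?_, hHlow, hHup, hcon⟩
      rw [pow_succ] at hyb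
      linarith
    refine hle.trans ?_
    have hXc : X ^ c ≤ W := by
      calc X ^ c ≤ ((q : ℝ) ^ A) ^ c := Real.rpow_le_rpow hXp.le hX2 hc0.le
        _ = (q : ℝ) ^ (A * c) := (Real.rpow_mul hq0.le _ _).symm
        _ = W := by
            rw [hW]
            congr 1
            rw [hc]
            field_simp
    have hXc0 : 0 < X ^ c := Real.rpow_pos_of_pos hXp c
    calc i * (2 ^ y * H) ≤ i * (X * H) :=
          mul_le_mul_of_nonneg_left (mul_le_mul_of_nonneg_right hya hHp.le) hi0.le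
      _ ≤ (X ^ c)⁻¹ * (X * H) := by
          refine mul_le_mul_of_nonneg_right ?_ (by positivity)
          exact inv_anti₀ hXc0 hXc
      _ = X * H / X ^ c := by
          rw [div_eq_mul_inv]
          ring

end Pool.Agent.H95SD.GC
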