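import Pool.Agent.H95SD.GC5

/-!
# The variance of sums in short intervals: families of sequences with varying supports

The probability that the asymptotic formula fails at some position and length of a dyadic range, for a family of
sequences whose absolute values and densities may depend on the member.
-/

set_option autoImplicit false

open Finset MeasureTheory

namespace Pool.Agent.H95SD.GJ

open Pool.Agent.H95SD.GC

section prob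

variable {Ω : Type} [MeasurableSpace Ω] (P : Measure Ω) [IsProbabilityMeasure P] (a : Ω → ℕ → ℂ)
  (hm : ∀ n, Measurable (fun ω => a ω n)) (hb : ∀ ω n, ‖a ω n‖ ≤ 1)

include hm hb

/-- Chebyshev's inequality for the deviation from the diagonal -/
lemma cheb {s : Ω → ℕ → ℝ} (hs : ∀ ω n, ‖a ω n‖ ^ 2 = s ω n) {N : ℕ} {u v H R ρ : ℝ}
    (huv : u ≤ v) (hH : 0 ≤ H) (hN : v + H / 2 ≤ N) (hρ : 0 < ρ)
    (hR : ∑ p ∈ Pr N H, ∑ p' ∈ Pr N H, ‖∫ ω, bb (a ω) p * (starRingEnd ℂ) (bb (a ω) p') ∂P‖ ≤ R) :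
    P.real {ω | ρ < |G (a ω) u v H - ∑ n ∈ range (N + 1), s ω n * w u v H n n|} ≤ H ^ 2 * R / ρ ^ 2 := by
  have h1 := var_bound P a hm hb huv hH hN hR
  have h2 : ∀ ω, ∑ n ∈ range (N + 1), ‖a ω n‖ ^ 2 * w u v H n n = ∑ n ∈ range (N + 1), s ω n * w u v H n n :=
    fun ω => Finset.sum_congr rfl fun n _ => by rw [hs ω n]
  set D : Ω → ℝ := fun ω => ∑ n ∈ range (N + 1), s ω n * w u v H n n with hD
  have hDe : ∀ ω, ∑ n ∈ range (N + 1), ‖a ω n‖ ^ 2 * w u v H n n = D ω := fun ω => h2 ω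
  simp only [hDe] at h1
  have hDm : Measurable D := by
    have : D = fun ω => ∑ n ∈ range (N + 1), ‖a ω n‖ ^ 2 * w u v H n n := funext fun ω => (hDe ω).symm
    rw [this]
    exact Finset.measurable_sum _ fun n _ => (((hm n).norm).pow_const 2).mul_const _
  have hDb : ∀ ω, |D ω| ≤ ((N : ℝ) + 1) * H := by
    intro ω
    rw [← hDe ω]
    refine (Finset.abs_sum_le_sum_abs _ _).trans ?_
    calc ∑ n ∈ range (N + 1), |‖a ω n‖ ^ 2 * w u v H n n| ≤ ∑ _n ∈ range (N + 1), H := by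
          refine Finset.sum_le_sum fun n _ => ?_
          rw [abs_mul, abs_of_nonneg (w_nonneg huv n n), abs_of_nonneg (by positivity)]
          have h3 : ‖a ω n‖ ^ 2 ≤ 1 := pow_le_one₀ (norm_nonneg _) (hb ω n)
          calc ‖a ω n‖ ^ 2 * w u v H n n ≤ 1 * H :=
                mul_le_mul h3 (w_le hH huv n n) (w_nonneg huv n n) zero_le_one
            _ = H := one_mul H
      _ = ((N : ℝ) + 1) * H := by
          rw [Finset.sum_const, card_range, nsmul_eq_mul]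
          push_cast
          ring
  have hmeas : Measurable (fun ω => (G (a ω) u v H - D ω) ^ 2) :=
    ((G_meas a hm hb huv).sub hDm).pow_const 2
  have hint : Integrable (fun ω => (G (a ω) u v H - D ω) ^ 2) P := by
    refine Integrable.of_bound hmeas.aestronglyMeasurable ((((N : ℝ) + 1) ^ 2 * H + ((N : ℝ) + 1) * H) ^ 2)
      (Filter.Eventually.of_forall fun ω => ?_)
    rw [Real.norm_eq_abs, abs_of_nonneg (sq_nonneg _), ← sq_abs]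
    refine pow_le_pow_left₀ (abs_nonneg _) ?_ 2
    exact (abs_sub _ _).trans (add_le_add (G_le a hm hb huv hH hN ω) (hDb ω))
  have h3 := mul_meas_ge_le_integral_of_nonneg (μ := P) (f := fun ω => (G (a ω) u v H - D ω) ^ 2)
    (Filter.Eventually.of_forall fun ω => sq_nonneg _) hint (ρ ^ 2)
  rw [le_div_iff₀ (by positivity)]
  have h4 : P.real {ω | ρ < |G (a ω) u v H - D ω|} ≤ P.real {ω | ρ ^ 2 ≤ (G (a ω) u v H - D ω) ^ 2} := by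
    refine measureReal_mono ?_ (by simp)
    intro ω hω
    have hω' : ρ < |G (a ω) u v H - D ω| := hω
    show ρ ^ 2 ≤ (G (a ω) u v H - D ω) ^ 2
    rw [← sq_abs (G (a ω) u v H - D ω)]
    exact pow_le_pow_left₀ hρ.le hω'.le 2
  nlinarith [sq_nonneg ρ]

/-- **the probability that the asymptotic formula fails somewhere in a dyadic range** -/
theorem bad_prob {s : Ω → ℕ → ℝ} (hs : ∀ ω n, ‖a ω n‖ ^ 2 = s ω n) {y k0 k1 τ N1 K1 : ℕ} {κ : Ω → ℝ}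
    {E0 δ θ c R β : ℝ} (hy : 2 ≤ y) (hκ0 : ∀ ω, 0 ≤ κ ω) (hκ1 : ∀ ω, κ ω ≤ 1) (hδ0 : 0 < δ) (hδ1 : δ ≤ 1) (hc0 : 0 < c)
    (hc1 : c ≤ 1) (hθ : 0 < θ) (hτ : 2 ≤ τ) (hk0 : τ + 1 ≤ k0) (hk1 : k1 ≤ y) (hβ : 0 ≤ β) (hR0 : 0 ≤ R)
    (hE0 : 0 ≤ E0)
    (hc : ∀ ω, ∀ k : ℕ, k ≤ 5 * 2 ^ y + 1 → |∑ n ∈ range k, s ω n - κ ω * k| ≤ E0)
    (hδE : ((2 : ℝ) ^ k1 + 1) + 2 * E0 ≤ δ / 2 * 2 ^ y)
    (hO : ∀ u k : ℕ, u + k ≤ N1 → k ≤ K1 → ∫ ω, ‖∑ i ∈ Ico u (u + k), a ω i‖ ^ 2 ∂P ≤ β * k)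
    (hN1 : 9 * 2 ^ y ≤ N1) (hK1 : 2 ^ k1 ≤ K1)
    (hR : ∑ p ∈ Pr (5 * 2 ^ y) (2 ^ k1), ∑ p' ∈ Pr (5 * 2 ^ y) (2 ^ k1),
      ‖∫ ω, bb (a ω) p * (starRingEnd ℂ) (bb (a ω) p') ∂P‖ ≤ R) :
    P.real {ω | ∃ X H : ℝ, (2 : ℝ) ^ y ≤ X ∧ X < 2 * 2 ^ y ∧ (2 : ℝ) ^ k0 ≤ H ∧ H < 2 ^ k1 ∧
      (7 * c + 4 / 2 ^ τ + 2 * δ + 16 * (k1 + 1) * θ / c) * (2 ^ y * H) < |G (a ω) X (2 * X) H - κ ω * X * H|} ≤
      k1 * (8 * 4 ^ τ * R / (δ * 2 ^ y) ^ 2 + 8 * (k1 + 1) * β / (θ * 2 ^ τ)) := by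
  set Y : ℝ := 2 ^ y with hY
  have hY4 : 4 ≤ Y := by
    rw [hY]
    calc (4 : ℝ) = 2 ^ 2 := by norm_num
      _ ≤ 2 ^ y := pow_le_pow_right₀ (by norm_num) hy
  have hY0 : 0 < Y := by linarith
  have hk1Y : (2 : ℝ) ^ k1 ≤ Y := pow_le_pow_right₀ (by norm_num) hk1
  set N : ℕ := 5 * 2 ^ y with hN
  have hNY : (N : ℝ) = 5 * Y := by
    rw [hN]
    push_cast
    rfl
  set N' : ℕ := 8 * 2 ^ y with hN'
  have hNY' : (N' : ℝ) = 8 * Y := by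
    rw [hN']
    push_cast
    rfl
  -- the positions
  have hT0 : (0 : ℝ) < 2 ^ τ := by positivity
  have hTn : ((2 ^ τ : ℕ) : ℝ) = 2 ^ τ := by push_cast; rfl
  have hX : ∀ j : ℕ, j ≤ 2 ^ τ → Y ≤ Xn Y (2 ^ τ) j ∧ Xn Y (2 ^ τ) j ≤ 2 * Y := by
    intro j hj
    have h1 : (j : ℝ) ≤ 2 ^ τ := by exact_mod_cast hj
    have h2 : (j : ℝ) / 2 ^ τ ≤ 1 := (div_le_one hT0).2 h1
    have h3 : 0 ≤ (j : ℝ) / 2 ^ τ := by positivity
    rw [Xn, hTn]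
    constructor <;> nlinarith
  have hL : ∀ k i : ℕ, k < k1 → i < 2 ^ τ → 0 < Ln (2 ^ τ) k i ∧ Ln (2 ^ τ) k i ≤ 2 ^ k1 := by
    intro k i hk hi
    have h1 : (i : ℝ) ≤ 2 ^ τ := by exact_mod_cast hi.le
    have h2 : (i : ℝ) / 2 ^ τ ≤ 1 := (div_le_one hT0).2 h1
    have h3 : 0 ≤ (i : ℝ) / 2 ^ τ := by positivity
    have h4 : (2 : ℝ) ^ (k + 1) ≤ 2 ^ k1 := pow_le_pow_right₀ (by norm_num) (by omega)
    rw [pow_succ] at h4
    have h5 : (0 : ℝ) < 2 ^ k := by positivity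
    rw [Ln, hTn]
    constructor
    · positivity
    · nlinarith
  -- one interval
  have hone : ∀ (u v L : ℝ), Y ≤ u → u ≤ v → v ≤ 4 * Y → 0 < L → L ≤ 2 ^ k1 →
      P.real {ω | ¬ |G (a ω) u v L - κ ω * (v - u) * L| ≤ δ * Y * L} ≤ 4 * R / (δ * Y) ^ 2 := by
    intro u v L h1 h2 h3 h4 h5
    have h6 : v + L / 2 ≤ N := by
      rw [hNY]
      linarith
    have h7 : ∀ ω, _ := fun ω => diag_bound (s ω) (fun n => by
      rw [← hs ω n]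
      positivity) (hκ0 ω) hE0 (hc ω) h2 h4.le (by linarith : L / 2 ≤ u) h6
    have h8 : ∀ ω, L * (κ ω * (L + 1) + 2 * E0) ≤ δ / 2 * Y * L := by
      intro ω
      have : κ ω * (L + 1) ≤ 1 * ((2 : ℝ) ^ k1 + 1) :=
        mul_le_mul (hκ1 ω) (by linarith) (by linarith) zero_le_one
      have h9 : κ ω * (L + 1) + 2 * E0 ≤ δ / 2 * Y := by linarith
      have := mul_le_mul_of_nonneg_left h9 h4.le
      linarith
    have h9 := cheb P a hm hb hs h2 h4.le h6 (show 0 < δ / 2 * Y * L by positivity) (R_mono P a h5 hR)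
    refine le_trans (measureReal_mono ?_ (by simp)) (h9.trans (le_of_eq ?_))
    · intro ω hω
      have hω' : ¬ |G (a ω) u v L - κ ω * (v - u) * L| ≤ δ * Y * L := hω
      rw [not_le] at hω'
      show δ / 2 * Y * L < |G (a ω) u v L - ∑ n ∈ range (N + 1), s ω n * w u v L n n|
      have h10 := abs_add_le (G (a ω) u v L - ∑ n ∈ range (N + 1), s ω n * w u v L n n)
        (∑ n ∈ range (N + 1), s ω n * w u v L n n - κ ω * (v - u) * L)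
      rw [sub_add_sub_cancel] at h10
      have h11 := h7 ω
      have h12 := h8 ω
      linarith
    · field_simp
      ring
  -- the pairs of intervals
  have hE1 : ∀ k i j : ℕ, k < k1 → i < 2 ^ τ → j < 2 ^ τ →
      P.real {ω | ¬ E1 (a ω) Y (κ ω) δ (2 ^ τ) k i j} ≤ 2 * (4 * R / (δ * Y) ^ 2) := by
    intro k i j hk hi hj
    obtain ⟨hL0, hL1⟩ := hL k i hk hi
    obtain ⟨hj0, hj1⟩ := hX j hj.le
    obtain ⟨hj2, hj3⟩ := hX (j + 1) hj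
    have h1 := hone (Xn Y (2 ^ τ) (j + 1)) (2 * Xn Y (2 ^ τ) j) _ hj2 (by linarith) (by linarith) hL0 hL1
    have h2 := hone (Xn Y (2 ^ τ) j) (2 * Xn Y (2 ^ τ) (j + 1)) _ hj0 (by linarith) (by linarith) hL0 hL1
    have h3 := add_le_add h1 h2
    rw [← two_mul] at h3
    refine le_trans (measureReal_mono ?_ (by simp)) ((measureReal_union_le _ _).trans h3)
    intro ω hω
    have hω' : ¬ E1 (a ω) Y (κ ω) δ (2 ^ τ) k i j := hω
    rw [E1, not_and_or] at hω'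
    exact hω'
  -- the maximal functions
  have hE2 : ∀ k : ℕ, k0 ≤ k → k < k1 →
      P.real {ω | ¬ ∑ n ∈ range N', QQ (a ω) (k - τ) n ≤ θ * 2 ^ k * Y} ≤ 8 * (k1 + 1) * β / (θ * 2 ^ τ) := by
    intro k hk0' hk
    have h1 : 2 ^ (k - τ) ≤ 2 ^ k1 := Nat.pow_le_pow_right (by norm_num) (by omega)
    have h2 : 2 ^ (k - τ) ≤ 2 ^ y := Nat.pow_le_pow_right (by norm_num) (by omega)
    have h3 := mark P a hm hb hO (r := k - τ) (N' := N') (by omega) (h1.trans hK1)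
      (show 0 < θ * 2 ^ k * Y by positivity)
    refine le_trans (measureReal_mono ?_ (by simp)) (h3.trans ?_)
    · intro ω hω
      have hω' : ¬ ∑ n ∈ range N', QQ (a ω) (k - τ) n ≤ θ * 2 ^ k * Y := hω
      rw [not_le] at hω'
      exact hω'
    · have h4 : (2 : ℝ) ^ k = 2 ^ (k - τ) * 2 ^ τ := by
        rw [← pow_add]
        congr 1
        omega
      have h5 : ((k - τ : ℕ) : ℝ) ≤ k1 := by exact_mod_cast (by omega : k - τ ≤ k1)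
      rw [hNY', h4]
      have h6 : 8 * Y * ((((k - τ : ℕ) : ℝ) + 1) * (β * 2 ^ (k - τ))) / (θ * (2 ^ (k - τ) * 2 ^ τ) * Y) =
          8 * (((k - τ : ℕ) : ℝ) + 1) * β / (θ * 2 ^ τ) := by
        field_simp
      rw [h6]
      refine div_le_div_of_nonneg_right ?_ (by positivity)
      exact mul_le_mul_of_nonneg_right (by linarith) hβ
  -- the union
  have hsub : {ω | ∃ X H : ℝ, Y ≤ X ∧ X < 2 * Y ∧ (2 : ℝ) ^ k0 ≤ H ∧ H < 2 ^ k1 ∧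
      (7 * c + 4 / 2 ^ τ + 2 * δ + 16 * (k1 + 1) * θ / c) * (Y * H) < |G (a ω) X (2 * X) H - κ ω * X * H|} ⊆
      ⋃ k ∈ Ico k0 k1, ((⋃ i ∈ range (2 ^ τ), ⋃ j ∈ range (2 ^ τ), {ω | ¬ E1 (a ω) Y (κ ω) δ (2 ^ τ) k i j}) ∪
        {ω | ¬ ∑ n ∈ range N', QQ (a ω) (k - τ) n ≤ θ * 2 ^ k * Y}) := by
    intro ω hω
    by_contra hcon
    simp only [Set.mem_iUnion, Set.mem_union, not_exists, not_or, mem_Ico, mem_range, Set.mem_ofPred_eq,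
      not_not] at hcon
    obtain ⟨X, H, h1, h2, h3, h4, h5⟩ := hω
    have h6 := net (a ω) (Y := Y) (κ := κ ω) (δ := δ) (θ := θ) (c := c) (τ := τ) (k0 := k0) (k1 := k1) (N' := N')
      (by linarith) (hκ0 ω) (hκ1 ω) hδ0.le hδ1 hc0 hc1 hθ.le hτ hk0 hk1Y (by rw [hNY']; linarith)
      (fun k i j a1 a2 a3 a4 => (hcon k ⟨a1, a2⟩).1 i a3 j a4) (fun k a1 a2 => (hcon k ⟨a1, a2⟩).2)
      h1 h2 h3 h4
    linarith
  refine (measureReal_mono hsub (by simp)).trans ?_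
  refine (measureReal_biUnion_finset_le _ _).trans ?_
  have hb0 : 0 ≤ 8 * 4 ^ τ * R / (δ * Y) ^ 2 + 8 * (k1 + 1) * β / (θ * 2 ^ τ) := by positivity
  calc ∑ k ∈ Ico k0 k1, P.real ((⋃ i ∈ range (2 ^ τ), ⋃ j ∈ range (2 ^ τ), {ω | ¬ E1 (a ω) Y (κ ω) δ (2 ^ τ) k i j}) ∪
        {ω | ¬ ∑ n ∈ range N', QQ (a ω) (k - τ) n ≤ θ * 2 ^ k * Y})
      ≤ ∑ _k ∈ Ico k0 k1, (8 * 4 ^ τ * R / (δ * Y) ^ 2 + 8 * (k1 + 1) * β / (θ * 2 ^ τ)) := by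
        refine Finset.sum_le_sum fun k hk => ?_
        rw [mem_Ico] at hk
        refine (measureReal_union_le _ _).trans (add_le_add ?_ (hE2 k hk.1 hk.2))
        refine (measureReal_biUnion_finset_le _ _).trans ?_
        calc ∑ i ∈ range (2 ^ τ), P.real (⋃ j ∈ range (2 ^ τ), {ω | ¬ E1 (a ω) Y (κ ω) δ (2 ^ τ) k i j})
            ≤ ∑ _i ∈ range (2 ^ τ), ∑ _j ∈ range (2 ^ τ), 2 * (4 * R / (δ * Y) ^ 2) := by
              refine Finset.sum_le_sum fun i hi => (measureReal_biUnion_finset_le _ _).trans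
                (Finset.sum_le_sum fun j hj => ?_)
              rw [mem_range] at hi hj
              exact hE1 k i j hk.2 hi hj
          _ = 8 * 4 ^ τ * R / (δ * Y) ^ 2 := by
              rw [Finset.sum_const, Finset.sum_const, card_range, nsmul_eq_mul, nsmul_eq_mul, hTn]
              have h4 : (4 : ℝ) ^ τ = 2 ^ τ * 2 ^ τ := by
                rw [← mul_pow]
                norm_num
              rw [h4]
              ring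
    _ = ((k1 - k0 : ℕ) : ℝ) * (8 * 4 ^ τ * R / (δ * Y) ^ 2 + 8 * (k1 + 1) * β / (θ * 2 ^ τ)) := by
        rw [Finset.sum_const, Nat.card_Ico, nsmul_eq_mul]
    _ ≤ _ := by
        refine mul_le_mul_of_nonneg_right ?_ hb0
        exact_mod_cast Nat.sub_le k1 k0

end prob

open scoped Classical in
/-- **finite families** -/
theorem bad_fin {Ω : Type} [Fintype Ω] [Nonempty Ω] (a : Ω → ℕ → ℂ) (hb : ∀ ω n, ‖a ω n‖ ≤ 1)
    {s : Ω → ℕ → ℝ} (hs : ∀ ω n, ‖a ω n‖ ^ 2 = s ω n) {y k0 k1 τ N1 K1 : ℕ} {κ : Ω → ℝ}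
    {E0 δ θ c R β : ℝ} (hy : 2 ≤ y) (hκ0 : ∀ ω, 0 ≤ κ ω) (hκ1 : ∀ ω, κ ω ≤ 1) (hδ0 : 0 < δ) (hδ1 : δ ≤ 1) (hc0 : 0 < c)
    (hc1 : c ≤ 1) (hθ : 0 < θ) (hτ : 2 ≤ τ) (hk0 : τ + 1 ≤ k0) (hk1 : k1 ≤ y) (hβ : 0 ≤ β) (hR0 : 0 ≤ R)
    (hE0 : 0 ≤ E0)
    (hc : ∀ ω, ∀ k : ℕ, k ≤ 5 * 2 ^ y + 1 → |∑ n ∈ range k, s ω n - κ ω * k| ≤ E0)
    (hδE : ((2 : ℝ) ^ k1 + 1) + 2 * E0 ≤ δ / 2 * 2 ^ y)
    (hO : ∀ u k : ℕ, u + k ≤ N1 → k ≤ K1 →
      (Fintype.card Ω : ℝ)⁻¹ * ∑ ω, ‖∑ i ∈ Ico u (u + k), a ω i‖ ^ 2 ≤ β * k)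
    (hN1 : 9 * 2 ^ y ≤ N1) (hK1 : 2 ^ k1 ≤ K1)
    (hR : ∑ p ∈ Pr (5 * 2 ^ y) (2 ^ k1), ∑ p' ∈ Pr (5 * 2 ^ y) (2 ^ k1),
      ‖(Fintype.card Ω : ℂ)⁻¹ * ∑ ω, bb (a ω) p * (starRingEnd ℂ) (bb (a ω) p')‖ ≤ R) :
    ((univ.filter fun ω => Bad (a ω) y k0 k1 (κ ω) (7 * c + 4 / 2 ^ τ + 2 * δ + 16 * (k1 + 1) * θ / c)).card : ℝ) ≤
      Fintype.card Ω * (k1 * (8 * 4 ^ τ * R / (δ * 2 ^ y) ^ 2 + 8 * (k1 + 1) * β / (θ * 2 ^ τ))) := by
  letI : MeasurableSpace Ω := ⊤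
  haveI : MeasurableSingletonClass Ω := ⟨fun _ => MeasurableSpace.measurableSet_top⟩
  set P : Measure Ω := (PMF.uniformOfFintype Ω).toMeasure with hP
  have hcard : (0 : ℝ) < Fintype.card Ω := by exact_mod_cast Fintype.card_pos
  have hw : ∀ ω : Ω, ((PMF.uniformOfFintype Ω) ω).toReal = (Fintype.card Ω : ℝ)⁻¹ := by
    intro ω
    rw [PMF.uniformOfFintype_apply]
    simp
  have hi : ∀ f : Ω → ℝ, ∫ ω, f ω ∂P = (Fintype.card Ω : ℝ)⁻¹ * ∑ ω, f ω := by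
    intro f
    rw [hP, PMF.integral_eq_sum, Finset.mul_sum]
    refine Finset.sum_congr rfl fun ω _ => ?_
    rw [hw, smul_eq_mul]
  have hic : ∀ f : Ω → ℂ, ∫ ω, f ω ∂P = (Fintype.card Ω : ℂ)⁻¹ * ∑ ω, f ω := by
    intro f
    rw [hP, PMF.integral_eq_sum, Finset.mul_sum]
    refine Finset.sum_congr rfl fun ω _ => ?_
    rw [hw, Complex.real_smul]
    push_cast
    rfl
  have h1 := bad_prob P a (fun n => measurable_from_top) hb hs (R := R) (β := β) (c := c) (θ := θ) (δ := δ)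
    (κ := κ) (E0 := E0) (y := y) (k0 := k0) (k1 := k1) (τ := τ) (N1 := N1) (K1 := K1) hy hκ0 hκ1 hδ0 hδ1 hc0 hc1
    hθ hτ hk0 hk1 hβ hR0 hE0 hc hδE (fun u k h2 h3 => by rw [hi]; exact hO u k h2 h3) hN1 hK1
    (by simp only [hic]; exact hR)
  have h2 : P.real {ω | Bad (a ω) y k0 k1 (κ ω) (7 * c + 4 / 2 ^ τ + 2 * δ + 16 * (k1 + 1) * θ / c)} =
      ((univ.filter fun ω => Bad (a ω) y k0 k1 (κ ω)
        (7 * c + 4 / 2 ^ τ + 2 * δ + 16 * (k1 + 1) * θ / c)).card : ℝ) / Fintype.card Ω := by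
    rw [measureReal_def, hP, PMF.toMeasure_uniformOfFintype_apply _ MeasurableSpace.measurableSet_top,
      ENNReal.toReal_div, ENNReal.toReal_natCast, ENNReal.toReal_natCast]
    congr 2
    rw [Fintype.card_subtype]
    rfl
  have h3 : {ω | Bad (a ω) y k0 k1 (κ ω) (7 * c + 4 / 2 ^ τ + 2 * δ + 16 * (k1 + 1) * θ / c)} =
      {ω | ∃ X H : ℝ, (2 : ℝ) ^ y ≤ X ∧ X < 2 * 2 ^ y ∧ (2 : ℝ) ^ k0 ≤ H ∧ H < 2 ^ k1 ∧
      (7 * c + 4 / 2 ^ τ + 2 * δ + 16 * (k1 + 1) * θ / c) * (2 ^ y * H) < |G (a ω) X (2 * X) H - κ ω * X * H|} := rfl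
  rw [← h3, h2, div_le_iff₀ hcard] at h1
  linarith

end Pool.Agent.H95SD.GJ
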