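import Pool.Agent.H95SD.GJ1
import Pool.Agent.Helper919.Char
import Pool.Agent.H343R2.PV

/-!
# The variance of sums in short intervals: squares among the products of four integers

The number of the quadruples of squarefree integers whose product is a square and which form two pairs of close
integers, and the sums of the Jacobi symbols over the lower entry.
-/

set_option autoImplicit false

open Finset

namespace Pool.Agent.H95SD.GJ

open Pool.Agent.H95SD.GC (Pr bb)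
open Pool.Agent.Helper919 (XX XX_apply XX_sum_bound XX_abs_le psi psi_apply psi_ne_one XX_zero_of_not_coprime)

/-! ### the partial sums of a Jacobi symbol over the lower entry -/

/-- the inequality of Pólya for the lower entry -/
lemma XX_pv {n : ℕ} (hn : n ≠ 0) (hsq : ¬ IsSquare n) (N : ℕ) :
    |∑ d ∈ Ioc 0 N, XX (n : ℤ) d| ≤
      ((4 * n).divisors.card : ℝ) * (2 * Real.sqrt ((4 * n : ℕ) : ℝ) * (1 + Real.log ((4 * n : ℕ) : ℝ))) := by
  have hn' : (n : ℤ) ≠ 0 := by exact_mod_cast hn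
  have hsq' : ¬ IsSquare (n : ℤ) := by
    rw [Int.isSquare_natCast_iff]
    exact hsq
  have hM : 1 ≤ 4 * n := by omega
  have hNZ : NeZero (4 * n) := ⟨by omega⟩
  obtain ⟨χ, hχ⟩ : ∃ χ : DirichletCharacter ℂ (4 * n), χ = psi (n : ℤ) hn' := ⟨_, rfl⟩
  have hχ1 : χ ≠ 1 := by
    rw [hχ]
    exact psi_ne_one (n : ℤ) hn' hsq'
  have happ : ∀ d : ℕ, χ (d : ZMod (4 * n)) = ((XX (n : ℤ) d : ℝ) : ℂ) := by
    intro d
    rw [hχ]
    exact psi_apply (n : ℤ) hn' d
  have hc1 : χ.conductor ≠ 1 := fun h => hχ1 ((χ.eq_one_iff_conductor_eq_one).mpr h)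
  have hc0 : χ.conductor ≠ 0 := χ.conductor_ne_zero
  have hcd := χ.conductor_dvd_level
  have hcM : χ.conductor ≤ 4 * n := Nat.le_of_dvd hM hcd
  have h1 := H343.PV χ.conductor (4 * n) N (by omega) hM χ.primitiveCharacter
    χ.primitiveCharacter_isPrimitive
  have h2 : ∑ a ∈ (Icc 1 N).filter (fun a => a.Coprime (4 * n)),
      χ.primitiveCharacter (a : ZMod χ.conductor) =
      ((∑ d ∈ Ioc 0 N, XX (n : ℤ) d : ℝ) : ℂ) := by
    rw [sum_filter]
    push_cast
    refine sum_congr rfl ?_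
    intro a _
    split_ifs with hco
    · have h3 : IsCoprime (a : ℤ) ((4 * n : ℕ) : ℤ) := Nat.isCoprime_iff_coprime.mpr hco
      have h4 := χ.primitiveCharacter_apply_of_isCoprime h3
      push_cast at h4
      rw [h4]
      exact happ a
    · have h3 : XX (n : ℤ) a = 0 := XX_zero_of_not_coprime (n : ℤ) a (by simpa using hco)
      rw [h3]
      norm_num
  rw [h2, Complex.norm_real, Real.norm_eq_abs] at h1
  refine h1.trans ?_
  have hc1' : (1 : ℝ) ≤ χ.conductor := by exact_mod_cast (by omega : 1 ≤ χ.conductor)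
  have hcM' : (χ.conductor : ℝ) ≤ ((4 * n : ℕ) : ℝ) := by exact_mod_cast hcM
  have h5 : Real.sqrt χ.conductor ≤ Real.sqrt ((4 * n : ℕ) : ℝ) := Real.sqrt_le_sqrt hcM'
  have h6 : Real.log χ.conductor ≤ Real.log ((4 * n : ℕ) : ℝ) := Real.log_le_log (by linarith) hcM'
  have h7 : 0 ≤ Real.log χ.conductor := Real.log_nonneg hc1'
  gcongr

/-! ### squares -/

lemma sq_aux {s w : ℕ} (hs : Squarefree s) (h : IsSquare (s * w)) : ∃ t, w = s * t ^ 2 := by
  obtain ⟨z, hz⟩ := h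
  have h1 : s ∣ z ^ 2 := ⟨w, by rw [hz]; ring⟩
  obtain ⟨t, ht⟩ := (hs.dvd_pow_iff_dvd (by norm_num)).1 h1
  refine ⟨t, ?_⟩
  have hs0 : 0 < s := Nat.pos_of_ne_zero hs.ne_zero
  refine Nat.eq_of_mul_eq_mul_left hs0 ?_
  rw [hz, ht]
  ring

lemma sq_aux2 {s w : ℕ} (hs : Squarefree s) (hw : Squarefree w) (h : IsSquare (s * w)) : w = s := by
  obtain ⟨t, ht⟩ := sq_aux hs h
  have h1 : t * t ∣ w := ⟨s, by rw [ht]; ring⟩
  have h2 : IsUnit t := hw t h1
  rw [Nat.isUnit_iff] at h2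
  rw [ht, h2]
  ring

open scoped Classical in
/-- the pairs whose product is `s` times a square -/
lemma fib {N T s : ℕ} (hT : ∀ v : ℕ, 1 ≤ v → v ≤ N ^ 2 → v.divisors.card ≤ T) :
    (((Icc 1 N) ×ˢ (Icc 1 N)).filter fun p : ℕ × ℕ => ∃ y, p.1 * p.2 = s * y ^ 2).card ≤
      T * Nat.sqrt (N ^ 2 / s) := by
  have h0 : (Icc 1 (Nat.sqrt (N ^ 2 / s))).card = Nat.sqrt (N ^ 2 / s) := by simp
  rw [← h0]
  refine Finset.card_le_mul_card_image_of_maps_to (f := fun p : ℕ × ℕ => Nat.sqrt (p.1 * p.2 / s)) ?_ T ?_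
  · intro p hp
    rw [mem_filter, mem_product, mem_Icc, mem_Icc] at hp
    obtain ⟨⟨⟨h1, h2⟩, h3, h4⟩, y, hy⟩ := hp
    have h5 : 0 < p.1 * p.2 := Nat.mul_pos h1 h3
    have hs : 0 < s := by
      rcases Nat.eq_zero_or_pos s with h | h
      · rw [h, zero_mul] at hy
        omega
      · exact h
    have hy0 : 0 < y := by
      rcases Nat.eq_zero_or_pos y with h | h
      · rw [h] at hy
        simp at hy
        omega
      · exact h
    rw [mem_Icc]
    constructor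
    · rw [hy, Nat.mul_div_cancel_left _ hs, Nat.sqrt_eq' y]
      exact hy0
    · refine Nat.sqrt_le_sqrt (Nat.div_le_div_right ?_)
      rw [sq]
      exact Nat.mul_le_mul h2 h4
  · intro y hy
    rw [mem_Icc] at hy
    have hs : 0 < s := by
      rcases Nat.eq_zero_or_pos s with h | h
      · rw [h, Nat.div_zero, Nat.sqrt_zero] at hy
        omega
      · exact h
    have h1 : s * y ^ 2 ≤ N ^ 2 := by
      have h2 : y ^ 2 ≤ N ^ 2 / s := by
        have := Nat.sqrt_le' (N ^ 2 / s)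
        exact (Nat.pow_le_pow_left hy.2 2).trans this
      calc s * y ^ 2 ≤ s * (N ^ 2 / s) := Nat.mul_le_mul_left s h2
        _ ≤ N ^ 2 := Nat.mul_div_le _ _
    have h2 : 1 ≤ s * y ^ 2 := Nat.mul_pos hs (pow_pos hy.1 2)
    refine le_trans ?_ (hT (s * y ^ 2) h2 h1)
    refine Finset.card_le_card_of_injOn (fun p : ℕ × ℕ => p.1) ?_ ?_
    · intro p hp
      rw [mem_coe, mem_filter, mem_filter] at hp
      obtain ⟨⟨h3, z, hz⟩, h4⟩ := hp
      have h5 : z = y := by
        rw [← h4]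
        show z = Nat.sqrt (p.1 * p.2 / s)
        rw [hz, Nat.mul_div_cancel_left _ hs, Nat.sqrt_eq' z]
      rw [mem_coe, Nat.mem_divisors]
      refine ⟨⟨p.2, ?_⟩, by omega⟩
      rw [← h5, ← hz]
    · intro p hp p' hp' h
      rw [mem_coe, mem_filter, mem_filter, mem_product, mem_Icc, mem_Icc] at hp hp'
      obtain ⟨⟨h3, z, hz⟩, h4⟩ := hp
      obtain ⟨⟨h3', z', hz'⟩, h4'⟩ := hp'
      have h5 : z = y := by
        rw [← h4]
        show z = Nat.sqrt (p.1 * p.2 / s)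
        rw [hz, Nat.mul_div_cancel_left _ hs, Nat.sqrt_eq' z]
      have h5' : z' = y := by
        rw [← h4']
        show z' = Nat.sqrt (p'.1 * p'.2 / s)
        rw [hz', Nat.mul_div_cancel_left _ hs, Nat.sqrt_eq' z']
      have h6 : p.1 = p'.1 := h
      have h7 : p.1 * p.2 = p.1 * p'.2 := by rw [hz, h6, hz', h5, h5']
      exact Prod.ext h6 (Nat.eq_of_mul_eq_mul_left h3.1.1 h7)

/-- the greatest common divisors of `n` and the integers close to it -/
lemma gsum {n N L : ℕ} (hn : 1 ≤ n) :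
    ∑ m ∈ (range (N + 1)).filter (fun m : ℕ => n ≠ m ∧ |(n : ℝ) - m| < L), Nat.gcd n m ≤
      2 * L * n.divisors.card := by
  have h1 : ∀ m : ℕ, Nat.gcd n m ≤ ∑ g ∈ n.divisors.filter (fun g => g ∣ m), g := by
    intro m
    refine Finset.single_le_sum (f := fun g : ℕ => g) (fun _ _ => Nat.zero_le _) ?_
    rw [mem_filter, Nat.mem_divisors]
    exact ⟨⟨Nat.gcd_dvd_left n m, by omega⟩, Nat.gcd_dvd_right n m⟩
  refine (Finset.sum_le_sum fun m _ => h1 m).trans ?_
  simp only [Finset.sum_filter]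
  rw [← Finset.sum_filter, Finset.sum_comm]
  have h2 : ∀ g ∈ n.divisors, ∑ m ∈ (range (N + 1)).filter (fun m : ℕ => n ≠ m ∧ |(n : ℝ) - m| < L),
      (if g ∣ m then g else 0) ≤ 2 * L := by
    intro g hg
    rw [Nat.mem_divisors] at hg
    rw [← Finset.sum_filter, Finset.sum_const, smul_eq_mul]
    have h3 : (((range (N + 1)).filter (fun m : ℕ => n ≠ m ∧ |(n : ℝ) - m| < L)).filter (fun m => g ∣ m)) ⊆
        ((Ioc 0 L).filter (fun k => g ∣ k)).image (fun k => n + k) ∪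
        ((Ioc 0 L).filter (fun k => g ∣ k)).image (fun k => n - k) := by
      intro m hm
      rw [mem_filter, mem_filter, mem_range] at hm
      obtain ⟨⟨h4, h5, h6⟩, h7⟩ := hm
      rw [abs_lt] at h6
      rw [mem_union, mem_image, mem_image]
      rcases Nat.lt_or_gt_of_ne h5 with h8 | h8
      · left
        refine ⟨m - n, ?_, by omega⟩
        rw [mem_filter, mem_Ioc]
        refine ⟨⟨by omega, ?_⟩, Nat.dvd_sub h7 hg.1⟩
        have : (m : ℝ) < ((L + n : ℕ) : ℝ) := by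
          push_cast
          linarith [h6.1]
        have : m < L + n := by exact_mod_cast this
        omega
      · right
        refine ⟨n - m, ?_, by omega⟩
        rw [mem_filter, mem_Ioc]
        refine ⟨⟨by omega, ?_⟩, Nat.dvd_sub hg.1 h7⟩
        have : (n : ℝ) < ((L + m : ℕ) : ℝ) := by
          push_cast
          linarith [h6.2]
        have : n < L + m := by exact_mod_cast this
        omega
    have h4 : ((Ioc 0 L).filter (fun k => g ∣ k)).card = L / g := Nat.Ioc_filter_dvd_card_eq_div L g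
    have h5 := (card_le_card h3).trans (card_union_le _ _)
    have h6 : (((Ioc 0 L).filter (fun k => g ∣ k)).image (fun k => n + k)).card ≤ L / g := by
      rw [← h4]
      exact card_image_le
    have h7 : (((Ioc 0 L).filter (fun k => g ∣ k)).image (fun k => n - k)).card ≤ L / g := by
      rw [← h4]
      exact card_image_le
    calc _ ≤ (L / g + L / g) * g := Nat.mul_le_mul_right g (h5.trans (Nat.add_le_add h6 h7))
      _ = 2 * (L / g * g) := by ring
      _ ≤ 2 * L := Nat.mul_le_mul_left 2 (Nat.div_mul_le_self L g)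
  calc _ ≤ ∑ _g ∈ n.divisors, 2 * L := Finset.sum_le_sum h2
    _ = 2 * L * n.divisors.card := by
        rw [Finset.sum_const, smul_eq_mul]
        ring

/-- the quadruples of squarefree integers whose product is a square -/
noncomputable def SQ (N L : ℕ) : Finset ((ℕ × ℕ) × (ℕ × ℕ)) :=
  open scoped Classical in (Pr N L ×ˢ Pr N L).filter fun x => Squarefree x.1.1 ∧ Squarefree x.1.2 ∧
    Squarefree x.2.1 ∧ Squarefree x.2.2 ∧ IsSquare (x.1.1 * x.1.2 * (x.2.1 * x.2.2))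

open scoped Classical in
/-- the quadruples with a given first pair -/
lemma fib_pair {N T : ℕ} (hT : ∀ v : ℕ, 1 ≤ v → v ≤ N ^ 2 → v.divisors.card ≤ T) (L : ℕ) {p : ℕ × ℕ}
    (h1 : Squarefree p.1) (h2 : Squarefree p.2) :
    (((Pr N L).filter fun p' => Squarefree p'.1 ∧ Squarefree p'.2 ∧
      IsSquare (p.1 * p.2 * (p'.1 * p'.2))).card : ℝ) ≤
      T * (N * ((Nat.gcd p.1 p.2 : ℝ) * (1 / p.1 + 1 / p.2) / 2)) := by
  have hp1 : 0 < p.1 := Nat.pos_of_ne_zero h1.ne_zero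
  have hp2 : 0 < p.2 := Nat.pos_of_ne_zero h2.ne_zero
  set g := Nat.gcd p.1 p.2 with hg
  have hg0 : 0 < g := Nat.gcd_pos_of_pos_left _ hp1
  obtain ⟨a, ha⟩ : g ∣ p.1 := Nat.gcd_dvd_left _ _
  obtain ⟨b, hb⟩ : g ∣ p.2 := Nat.gcd_dvd_right _ _
  have hab : Nat.Coprime a b := by
    have := Nat.coprime_div_gcd_div_gcd (m := p.1) (n := p.2) hg0
    rw [← hg] at this
    have e1 : p.1 / g = a := by
      rw [ha]
      exact Nat.mul_div_cancel_left a hg0
    have e2 : p.2 / g = b := by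
      rw [hb]
      exact Nat.mul_div_cancel_left b hg0
    rwa [e1, e2] at this
  have ha0 : 0 < a := by
    rcases Nat.eq_zero_or_pos a with h | h
    · rw [h, mul_zero] at ha
      omega
    · exact h
  have hb0 : 0 < b := by
    rcases Nat.eq_zero_or_pos b with h | h
    · rw [h, mul_zero] at hb
      omega
    · exact h
  have hsa : Squarefree a := h1.squarefree_of_dvd ⟨g, by rw [ha]; ring⟩
  have hsb : Squarefree b := h2.squarefree_of_dvd ⟨g, by rw [hb]; ring⟩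
  have hs : Squarefree (a * b) := (Nat.squarefree_mul hab).2 ⟨hsa, hsb⟩
  have hsub : ((Pr N L).filter fun p' => Squarefree p'.1 ∧ Squarefree p'.2 ∧
      IsSquare (p.1 * p.2 * (p'.1 * p'.2))) ⊆
      (((Icc 1 N) ×ˢ (Icc 1 N)).filter fun p' : ℕ × ℕ => ∃ y, p'.1 * p'.2 = (a * b) * y ^ 2) := by
    intro p' hp'
    rw [mem_filter, Pr, mem_filter, mem_product, mem_range, mem_range] at hp'
    obtain ⟨⟨⟨h3, h4⟩, -⟩, h5, h6, h7⟩ := hp'
    rw [mem_filter, mem_product, mem_Icc, mem_Icc]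
    have h8 : 0 < p'.1 := Nat.pos_of_ne_zero h5.ne_zero
    have h9 : 0 < p'.2 := Nat.pos_of_ne_zero h6.ne_zero
    refine ⟨⟨⟨h8, by omega⟩, h9, by omega⟩, sq_aux hs ?_⟩
    obtain ⟨z, hz⟩ := h7
    have e : p.1 * p.2 * (p'.1 * p'.2) = g ^ 2 * (a * b * (p'.1 * p'.2)) := by
      rw [ha, hb]
      ring
    rw [e] at hz
    have h10 : g ^ 2 ∣ z ^ 2 := ⟨_, by rw [sq z, ← hz]⟩
    obtain ⟨t, ht⟩ := (Nat.pow_dvd_pow_iff (by norm_num)).1 h10
    refine ⟨t, ?_⟩
    have : g ^ 2 * (a * b * (p'.1 * p'.2)) = g ^ 2 * (t * t) := by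
      rw [hz, ht]
      ring
    exact Nat.eq_of_mul_eq_mul_left (pow_pos hg0 2) this
  have h3 := (card_le_card hsub).trans (fib (s := a * b) hT)
  have h4 : (((Pr N L).filter fun p' => Squarefree p'.1 ∧ Squarefree p'.2 ∧
      IsSquare (p.1 * p.2 * (p'.1 * p'.2))).card : ℝ) ≤ T * (Nat.sqrt (N ^ 2 / (a * b)) : ℝ) := by
    exact_mod_cast h3
  refine h4.trans (mul_le_mul_of_nonneg_left ?_ (Nat.cast_nonneg T))
  have ha' : (0 : ℝ) < a := by exact_mod_cast ha0
  have hb' : (0 : ℝ) < b := by exact_mod_cast hb0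
  have hg' : (0 : ℝ) < g := by exact_mod_cast hg0
  have h5 : (Nat.sqrt (N ^ 2 / (a * b)) : ℝ) ≤ N / Real.sqrt (a * b) := by
    refine (Real.nat_sqrt_le_real_sqrt).trans ?_
    have h6 : ((N ^ 2 / (a * b) : ℕ) : ℝ) ≤ (N : ℝ) ^ 2 / (a * b) := by
      have := Nat.cast_div_le (α := ℝ) (m := N ^ 2) (n := a * b)
      push_cast at this
      exact this
    refine (Real.sqrt_le_sqrt h6).trans ?_
    rw [Real.sqrt_div (by positivity), Real.sqrt_sq (Nat.cast_nonneg N)]
  refine h5.trans ?_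
  have h6 : (g : ℝ) * (1 / p.1 + 1 / p.2) / 2 = (1 / a + 1 / b) / 2 := by
    have e1 : (p.1 : ℝ) = g * a := by exact_mod_cast ha
    have e2 : (p.2 : ℝ) = g * b := by exact_mod_cast hb
    rw [e1, e2]
    field_simp
  rw [h6, div_eq_mul_inv]
  refine mul_le_mul_of_nonneg_left ?_ (Nat.cast_nonneg N)
  -- the inequality between the means
  have h7 : Real.sqrt (a * b) ^ 2 = a * b := Real.sq_sqrt (by positivity)
  have h8 : 0 < Real.sqrt (a * b) := Real.sqrt_pos.2 (by positivity)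
  have h9 : 2 * Real.sqrt (a * b) ≤ a + b := by
    rw [Real.sqrt_mul ha'.le]
    have h10 := sq_nonneg (Real.sqrt a - Real.sqrt b)
    have h11 := Real.sq_sqrt ha'.le
    have h12 := Real.sq_sqrt hb'.le
    nlinarith
  have h10 : (1 / (a : ℝ) + 1 / b) / 2 = (a + b) / (2 * (a * b)) := by
    field_simp
    ring
  rw [h10, inv_eq_one_div, div_le_div_iff₀ h8 (by positivity), one_mul]
  calc 2 * ((a : ℝ) * b) = 2 * Real.sqrt (a * b) * Real.sqrt (a * b) := by
        rw [mul_assoc, ← sq, h7]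
    _ ≤ (a + b) * Real.sqrt (a * b) := mul_le_mul_of_nonneg_right h9 h8.le

/-- **the number of the quadruples of squarefree integers whose product is a square** -/
theorem sq_pairs {N L T : ℕ} (hT : ∀ v : ℕ, 1 ≤ v → v ≤ N ^ 2 → v.divisors.card ≤ T) :
    ((SQ N L).card : ℝ) ≤ 2 * T ^ 2 * N * L * (1 + Real.log N) := by
  classical
  have h1 : ((SQ N L).card : ℝ) = ∑ p ∈ (Pr N L).filter (fun p => Squarefree p.1 ∧ Squarefree p.2),
      (((Pr N L).filter fun p' => Squarefree p'.1 ∧ Squarefree p'.2 ∧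
        IsSquare (p.1 * p.2 * (p'.1 * p'.2))).card : ℝ) := by
    have h2 : (SQ N L).card = ∑ p ∈ (Pr N L).filter (fun p => Squarefree p.1 ∧ Squarefree p.2),
      ((Pr N L).filter fun p' => Squarefree p'.1 ∧ Squarefree p'.2 ∧
        IsSquare (p.1 * p.2 * (p'.1 * p'.2))).card := by
      rw [SQ, Finset.card_filter, Finset.sum_product, Finset.sum_filter]
      refine Finset.sum_congr rfl fun p _ => ?_
      by_cases h : Squarefree p.1 ∧ Squarefree p.2
      · rw [if_pos h, Finset.card_filter]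
        refine Finset.sum_congr rfl fun p' _ => ?_
        congr 1
        simp [h.1, h.2]
      · rw [if_neg h]
        refine Finset.sum_eq_zero fun p' _ => if_neg fun h3 => h ⟨h3.1, h3.2.1⟩
    rw [h2]
    push_cast
    rfl
  rw [h1]
  set P0 := (Pr N L).filter (fun p => Squarefree p.1 ∧ Squarefree p.2) with hP0
  have hpos : ∀ p ∈ P0, 0 < p.1 ∧ 0 < p.2 := by
    intro p hp
    rw [hP0, mem_filter] at hp
    exact ⟨Nat.pos_of_ne_zero hp.2.1.ne_zero, Nat.pos_of_ne_zero hp.2.2.ne_zero⟩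
  have h2 : ∑ p ∈ P0, (((Pr N L).filter fun p' => Squarefree p'.1 ∧ Squarefree p'.2 ∧
        IsSquare (p.1 * p.2 * (p'.1 * p'.2))).card : ℝ) ≤
      ∑ p ∈ P0, T * (N * ((Nat.gcd p.1 p.2 : ℝ) * (1 / p.1 + 1 / p.2) / 2)) := by
    refine Finset.sum_le_sum fun p hp => ?_
    rw [hP0, mem_filter] at hp
    exact fib_pair hT L hp.2.1 hp.2.2
  refine h2.trans ?_
  have h3 : ∑ p ∈ P0, (T : ℝ) * (N * ((Nat.gcd p.1 p.2 : ℝ) * (1 / p.1 + 1 / p.2) / 2)) =
      T * N * (∑ p ∈ P0, (Nat.gcd p.1 p.2 : ℝ) / p.1) := by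
    have hsw : ∑ p ∈ P0, (Nat.gcd p.1 p.2 : ℝ) / p.2 = ∑ p ∈ P0, (Nat.gcd p.1 p.2 : ℝ) / p.1 := by
      refine Finset.sum_nbij' Prod.swap Prod.swap ?_ ?_ ?_ ?_ ?_
      · intro p hp
        rw [hP0, mem_filter, Pr, mem_filter, mem_product] at hp ⊢
        obtain ⟨⟨⟨a1, a2⟩, a3, a4⟩, a5, a6⟩ := hp
        refine ⟨⟨⟨a2, a1⟩, fun h => a3 h.symm, ?_⟩, a6, a5⟩
        rw [abs_sub_comm]
        exact a4
      · intro p hp
        rw [hP0, mem_filter, Pr, mem_filter, mem_product] at hp ⊢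
        obtain ⟨⟨⟨a1, a2⟩, a3, a4⟩, a5, a6⟩ := hp
        refine ⟨⟨⟨a2, a1⟩, fun h => a3 h.symm, ?_⟩, a6, a5⟩
        rw [abs_sub_comm]
        exact a4
      · intro p _
        exact Prod.swap_swap p
      · intro p _
        exact Prod.swap_swap p
      · intro p _
        show (Nat.gcd p.1 p.2 : ℝ) / p.2 = (Nat.gcd p.2 p.1 : ℝ) / p.2
        rw [Nat.gcd_comm]
    rw [Finset.mul_sum]
    have e1 : ∀ p : ℕ × ℕ, (T : ℝ) * (N * ((Nat.gcd p.1 p.2 : ℝ) * (1 / p.1 + 1 / p.2) / 2)) =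
        T * N / 2 * ((Nat.gcd p.1 p.2 : ℝ) / p.1) + T * N / 2 * ((Nat.gcd p.1 p.2 : ℝ) / p.2) := fun p => by ring
    rw [Finset.sum_congr rfl fun p _ => e1 p, Finset.sum_add_distrib, ← Finset.mul_sum, ← Finset.mul_sum, hsw,
      ← Finset.mul_sum]
    ring
  rw [h3]
  have h4 : ∑ p ∈ P0, (Nat.gcd p.1 p.2 : ℝ) / p.1 ≤ ∑ n ∈ Icc 1 N, (2 * L * T : ℝ) / n := by
    have h5 : P0 ⊆ (((Icc 1 N) ×ˢ (range (N + 1))).filter fun p : ℕ × ℕ => p.1 ≠ p.2 ∧ |(p.1 : ℝ) - p.2| < L) := by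
      intro p hp
      have h6 := hpos p hp
      rw [hP0, mem_filter, Pr, mem_filter, mem_product, mem_range] at hp
      rw [mem_filter, mem_product, mem_Icc]
      exact ⟨⟨⟨h6.1, by omega⟩, hp.1.1.2⟩, hp.1.2⟩
    refine (Finset.sum_le_sum_of_subset_of_nonneg h5 fun _ _ _ => by positivity).trans ?_
    rw [Finset.sum_filter, Finset.sum_product]
    refine Finset.sum_le_sum fun n hn => ?_
    rw [mem_Icc] at hn
    rw [← Finset.sum_filter]
    show ∑ m ∈ (range (N + 1)).filter (fun m : ℕ => n ≠ m ∧ |(n : ℝ) - m| < L), (Nat.gcd n m : ℝ) / n ≤ _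
    rw [← Finset.sum_div]
    refine div_le_div_of_nonneg_right ?_ (Nat.cast_nonneg n)
    have h6 := gsum (n := n) (N := N) (L := L) hn.1
    have h7 : n.divisors.card ≤ T := hT n hn.1 (hn.2.trans (Nat.le_self_pow (by norm_num) N))
    have h8 := h6.trans (Nat.mul_le_mul_left (2 * L) h7)
    exact_mod_cast h8
  have h5 : ∑ n ∈ Icc 1 N, (2 * L * T : ℝ) / n ≤ 2 * L * T * (1 + Real.log N) := by
    have h6 : ∑ n ∈ Icc 1 N, (2 * L * T : ℝ) / n = 2 * L * T * ∑ n ∈ Icc 1 N, (n : ℝ)⁻¹ := by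
      rw [Finset.mul_sum]
      exact Finset.sum_congr rfl fun n _ => div_eq_mul_inv _ _
    rw [h6]
    refine mul_le_mul_of_nonneg_left ?_ (by positivity)
    have h7 := harmonic_le_one_add_log N
    rw [harmonic_eq_sum_Icc] at h7
    push_cast at h7
    exact h7
  calc (T : ℝ) * N * (∑ p ∈ P0, (Nat.gcd p.1 p.2 : ℝ) / p.1) ≤ T * N * (2 * L * T * (1 + Real.log N)) :=
        mul_le_mul_of_nonneg_left (h4.trans h5) (by positivity)
    _ = 2 * T ^ 2 * N * L * (1 + Real.log N) := by ring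

end Pool.Agent.H95SD.GJ
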