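import Pool.Agent.H95SD.GJ2
import Pool.Agent.H95SD.SqC

/-!
# The variance of sums in short intervals: the family of the Jacobi symbols

The sequences `μ(n) (n/d)`, where `d` runs over the odd integers up to `Q`: correlations of order two and four.
-/

set_option autoImplicit false

open Finset

namespace Pool.Agent.H95SD.GJ

open Pool.Agent.H95SD.GC (Pr bb)
open Pool.Agent.H95SD.SqC (sc kap kap_nonneg kap_le range_bound)
open Pool.Agent.Helper919 (XX XX_apply XX_sum_bound XX_abs_le)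

/-- the odd integers up to `Q` -/
def Od (Q : ℕ) : Finset ℕ := (Ioc 0 Q).filter Odd

lemma mem_Od {Q d : ℕ} : d ∈ Od Q ↔ 0 < d ∧ d ≤ Q ∧ Odd d := by
  rw [Od, mem_filter, mem_Ioc, and_assoc]

lemma card_Od_le (Q : ℕ) : (Od Q).card ≤ Q := by
  have := card_filter_le (Ioc 0 Q) Odd
  rw [Nat.card_Ioc] at this
  exact this

lemma card_Od_ge (Q : ℕ) : Q ≤ 2 * (Od Q).card := by
  have h1 : (range ((Q + 1) / 2)).image (fun k => 2 * k + 1) ⊆ Od Q := by
    intro d hd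
    rw [mem_image] at hd
    obtain ⟨k, hk, rfl⟩ := hd
    rw [mem_range] at hk
    rw [mem_Od]
    exact ⟨by omega, by omega, ⟨k, rfl⟩⟩
  have h2 := card_le_card h1
  rw [card_image_of_injective _ (fun a b h => by
    have : 2 * a + 1 = 2 * b + 1 := h
    omega), card_range] at h2
  omega

/-- the sequence of a Jacobi symbol -/
noncomputable def aj (d n : ℕ) : ℂ := (ArithmeticFunction.moebius n : ℂ) * ((jacobiSym (n : ℤ) d : ℤ) : ℂ)

lemma mu_norm (n : ℕ) : ‖((ArithmeticFunction.moebius n : ℤ) : ℂ)‖ ≤ 1 := by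
  rw [Complex.norm_intCast]
  exact_mod_cast ArithmeticFunction.abs_moebius_le_one (n := n)

lemma jac_norm (n d : ℕ) : ‖((jacobiSym (n : ℤ) d : ℤ) : ℂ)‖ ≤ 1 := by
  rw [Complex.norm_intCast]
  rcases jacobiSym.trichotomy (n : ℤ) d with h | h | h <;> rw [h] <;> simp

lemma aj_le (d n : ℕ) : ‖aj d n‖ ≤ 1 := by
  rw [aj, norm_mul]
  exact mul_le_one₀ (mu_norm n) (norm_nonneg _) (jac_norm n d)

lemma aj_sq {d : ℕ} (hd : 0 < d) (n : ℕ) : ‖aj d n‖ ^ 2 = sc d n := by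
  have hNZ : NeZero d := ⟨hd.ne'⟩
  rw [aj, norm_mul, mul_pow, Complex.norm_intCast, Complex.norm_intCast]
  by_cases hn : n.Coprime d
  · have h1 : |((jacobiSym (n : ℤ) d : ℤ) : ℝ)| = 1 := by
      have h0 : jacobiSym (n : ℤ) d ≠ 0 := by
        intro h
        rw [jacobiSym.eq_zero_iff_not_coprime, Int.gcd_natCast_natCast] at h
        exact h hn
      rcases jacobiSym.trichotomy (n : ℤ) d with h | h | h
      · exact absurd h h0
      · rw [h]
        simp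
      · rw [h]
        simp
    rw [h1, one_pow, mul_one]
    by_cases hs : Squarefree n
    · have h2 : sc d n = 1 := if_pos ⟨hs, hn⟩
      rw [h2, sq_abs]
      have := ArithmeticFunction.moebius_sq_eq_one_of_squarefree hs
      exact_mod_cast this
    · have h2 : sc d n = 0 := if_neg fun h => hs h.1
      rw [h2, ArithmeticFunction.moebius_eq_zero_of_not_squarefree hs]
      norm_num
  · have h1 : jacobiSym (n : ℤ) d = 0 := by
      rw [jacobiSym.eq_zero_iff_not_coprime, Int.gcd_natCast_natCast]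
      exact hn
    have h2 : sc d n = 0 := if_neg fun h => hn h.2
    rw [h1, h2]
    norm_num

lemma sum_od (Q n : ℕ) : ∑ d ∈ Od Q, ((jacobiSym (n : ℤ) d : ℤ) : ℝ) = ∑ d ∈ Ioc 0 Q, XX (n : ℤ) d := by
  rw [Od, sum_filter]
  exact sum_congr rfl fun d _ => (XX_apply _ _).symm

lemma sum_od_norm (Q n : ℕ) : ‖∑ d ∈ Od Q, ((jacobiSym (n : ℤ) d : ℤ) : ℂ)‖ = |∑ d ∈ Ioc 0 Q, XX (n : ℤ) d| := by
  rw [← sum_od, ← Real.norm_eq_abs, ← Complex.norm_real]
  push_cast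
  rfl

open scoped Classical in
/-- the correlations of order four -/
lemma corr_aj {Q N : ℕ} {B : ℝ} (hB0 : 0 ≤ B)
    (hB : ∀ n : ℕ, n ≠ 0 → ¬ IsSquare n → n ≤ N ^ 4 → |∑ d ∈ Ioc 0 Q, XX (n : ℤ) d| ≤ B)
    {p p' : ℕ × ℕ} (h1 : p.1 ≤ N) (h2 : p.2 ≤ N) (h3 : p'.1 ≤ N) (h4 : p'.2 ≤ N) :
    ‖∑ d ∈ Od Q, bb (aj d) p * (starRingEnd ℂ) (bb (aj d) p')‖ ≤
      (if Squarefree p.1 ∧ Squarefree p.2 ∧ Squarefree p'.1 ∧ Squarefree p'.2 ∧
        IsSquare (p.1 * p.2 * (p'.1 * p'.2)) then ((Od Q).card : ℝ) else 0) + B := by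
  set m : ℂ := (ArithmeticFunction.moebius p.1 : ℂ) * (ArithmeticFunction.moebius p.2 : ℂ) *
    (ArithmeticFunction.moebius p'.1 : ℂ) * (ArithmeticFunction.moebius p'.2 : ℂ) with hm
  have hm1 : ‖m‖ ≤ 1 := by
    rw [hm, norm_mul, norm_mul, norm_mul]
    exact mul_le_one₀ (mul_le_one₀ (mul_le_one₀ (mu_norm _) (norm_nonneg _) (mu_norm _)) (norm_nonneg _)
      (mu_norm _)) (norm_nonneg _) (mu_norm _)
  set n : ℕ := p.1 * p.2 * (p'.1 * p'.2) with hn
  have e1 : ∀ d : ℕ, bb (aj d) p * (starRingEnd ℂ) (bb (aj d) p') = m * ((jacobiSym (n : ℤ) d : ℤ) : ℂ) := by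
    intro d
    unfold bb aj
    rw [hn]
    push_cast
    simp only [map_mul, map_intCast, jacobiSym.mul_left]
    push_cast
    rw [hm]
    ring
  rw [Finset.sum_congr rfl fun d _ => e1 d, ← Finset.mul_sum, norm_mul]
  by_cases hs : Squarefree p.1 ∧ Squarefree p.2 ∧ Squarefree p'.1 ∧ Squarefree p'.2
  · by_cases hq : IsSquare n
    · rw [if_pos ⟨hs.1, hs.2.1, hs.2.2.1, hs.2.2.2, hq⟩]
      have h5 : ‖∑ d ∈ Od Q, ((jacobiSym (n : ℤ) d : ℤ) : ℂ)‖ ≤ ((Od Q).card : ℝ) := by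
        refine (norm_sum_le _ _).trans ((Finset.sum_le_sum fun d _ => jac_norm n d).trans (le_of_eq ?_))
        rw [Finset.sum_const, nsmul_eq_mul, mul_one]
      have h6 := mul_le_mul hm1 h5 (norm_nonneg _) zero_le_one
      linarith
    · rw [if_neg fun h => hq h.2.2.2.2, zero_add, sum_od_norm]
      have hn0 : n ≠ 0 := by
        rw [hn]
        exact mul_ne_zero (mul_ne_zero hs.1.ne_zero hs.2.1.ne_zero) (mul_ne_zero hs.2.2.1.ne_zero hs.2.2.2.ne_zero)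
      have hnN : n ≤ N ^ 4 := by
        calc n = p.1 * p.2 * (p'.1 * p'.2) := hn
          _ ≤ N * N * (N * N) := Nat.mul_le_mul (Nat.mul_le_mul h1 h2) (Nat.mul_le_mul h3 h4)
          _ = N ^ 4 := by ring
      have h6 := mul_le_mul hm1 (hB n hn0 hq hnN) (abs_nonneg _) zero_le_one
      linarith
  · have hm0 : m = 0 := by
      rw [hm]
      have hz : ∀ k : ℕ, ¬ Squarefree k → (ArithmeticFunction.moebius k : ℂ) = 0 := fun k hk => by
        rw [ArithmeticFunction.moebius_eq_zero_of_not_squarefree hk]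
        norm_num
      by_cases a1 : Squarefree p.1
      · by_cases a2 : Squarefree p.2
        · by_cases a3 : Squarefree p'.1
          · have a4 : ¬ Squarefree p'.2 := fun h => hs ⟨a1, a2, a3, h⟩
            rw [hz _ a4]
            ring
          · rw [hz _ a3]
            ring
        · rw [hz _ a2]
          ring
      · rw [hz _ a1]
        ring
    rw [hm0, norm_zero, zero_mul]
    split_ifs
    · positivity
    · linarith

lemma card_Pr (N L : ℕ) : (Pr N L).card ≤ (N + 1) * (2 * L) := by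
  have hA : ((range (N + 1)) ×ˢ (Ioo (-(L : ℤ)) L)).card ≤ (N + 1) * (2 * L) := by
    rw [card_product, card_range, Int.card_Ioo]
    refine Nat.mul_le_mul_left _ ?_
    omega
  refine le_trans ?_ hA
  refine Finset.card_le_card_of_injOn (fun p : ℕ × ℕ => ((p.1, (p.2 : ℤ) - p.1) : ℕ × ℤ)) ?_ ?_
  · intro p hp
    rw [mem_coe, Pr, mem_filter, mem_product] at hp
    rw [mem_coe, mem_product, mem_Ioo]
    have h3 := abs_lt.1 hp.2.2
    refine ⟨hp.1.1, ?_⟩
    have h4 : ((-(L : ℤ) : ℤ) : ℝ) < (((p.2 : ℤ) - p.1 : ℤ) : ℝ) := by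
      push_cast
      linarith [h3.2]
    have h5 : (((p.2 : ℤ) - p.1 : ℤ) : ℝ) < ((L : ℤ) : ℝ) := by
      push_cast
      linarith [h3.1]
    exact ⟨by exact_mod_cast h4, by exact_mod_cast h5⟩
  · intro p _ p' _ h
    have h' : (p.1, (p.2 : ℤ) - p.1) = (p'.1, (p'.2 : ℤ) - p'.1) := h
    obtain ⟨h1, h2⟩ := Prod.mk.inj h'
    exact Prod.ext h1 (by omega)

/-- **the correlations of order four of the Jacobi symbols** -/
theorem R_jac {Q N L T : ℕ} {B : ℝ} (hQ : 0 < Q) (hB0 : 0 ≤ B)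
    (hB : ∀ n : ℕ, n ≠ 0 → ¬ IsSquare n → n ≤ N ^ 4 → |∑ d ∈ Ioc 0 Q, XX (n : ℤ) d| ≤ B)
    (hT : ∀ v : ℕ, 1 ≤ v → v ≤ N ^ 2 → v.divisors.card ≤ T) :
    ∑ p ∈ Pr N L, ∑ p' ∈ Pr N L, ‖((Fintype.card (↥(Od Q)) : ℂ)⁻¹ *
      ∑ ω : ↥(Od Q), bb (aj ω) p * (starRingEnd ℂ) (bb (aj ω) p'))‖ ≤
      2 * T ^ 2 * N * L * (1 + Real.log N) + ((N + 1) * (2 * L)) ^ 2 * (2 * B / Q) := by
  classical
  have hc1 : Q ≤ 2 * (Od Q).card := card_Od_ge Q
  have hcpos : 0 < (Od Q).card := by omega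
  have hc0 : (0 : ℝ) < ((Od Q).card : ℝ) := by exact_mod_cast hcpos
  have hQ0 : (0 : ℝ) < Q := by exact_mod_cast hQ
  have hc2 : (Q : ℝ) ≤ 2 * ((Od Q).card : ℝ) := by exact_mod_cast hc1
  have h1 : ∀ p ∈ Pr N L, ∀ p' ∈ Pr N L, ‖((Fintype.card (↥(Od Q)) : ℂ)⁻¹ *
      ∑ ω : ↥(Od Q), bb (aj ω) p * (starRingEnd ℂ) (bb (aj ω) p'))‖ ≤
      (if Squarefree p.1 ∧ Squarefree p.2 ∧ Squarefree p'.1 ∧ Squarefree p'.2 ∧
        IsSquare (p.1 * p.2 * (p'.1 * p'.2)) then (1 : ℝ) else 0) + 2 * B / Q := by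
    intro p hp p' hp'
    rw [Pr, mem_filter, mem_product, mem_range, mem_range] at hp hp'
    have h2 := corr_aj (Q := Q) (p := p) (p' := p') hB0 hB (by omega) (by omega) (by omega) (by omega)
    have h3 : ∑ ω : ↥(Od Q), bb (aj ω) p * (starRingEnd ℂ) (bb (aj ω) p') =
        ∑ d ∈ Od Q, bb (aj d) p * (starRingEnd ℂ) (bb (aj d) p') :=
      Finset.sum_coe_sort (Od Q) (fun d => bb (aj d) p * (starRingEnd ℂ) (bb (aj d) p'))
    rw [h3, norm_mul, norm_inv, Fintype.card_coe, Complex.norm_natCast, inv_mul_le_iff₀ hc0]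
    refine h2.trans ?_
    rw [mul_add]
    refine add_le_add ?_ ?_
    · split_ifs
      · rw [mul_one]
      · rw [mul_zero]
    · rw [mul_div_assoc', le_div_iff₀ hQ0]
      nlinarith
  have h2 : ∑ p ∈ Pr N L, ∑ p' ∈ Pr N L, ‖((Fintype.card (↥(Od Q)) : ℂ)⁻¹ *
      ∑ ω : ↥(Od Q), bb (aj ω) p * (starRingEnd ℂ) (bb (aj ω) p'))‖ ≤
      ∑ p ∈ Pr N L, ∑ p' ∈ Pr N L, ((if Squarefree p.1 ∧ Squarefree p.2 ∧ Squarefree p'.1 ∧ Squarefree p'.2 ∧
        IsSquare (p.1 * p.2 * (p'.1 * p'.2)) then (1 : ℝ) else 0) + 2 * B / Q) :=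
    Finset.sum_le_sum fun p hp => Finset.sum_le_sum fun p' hp' => h1 p hp p' hp'
  refine h2.trans ?_
  have h3 : ∑ p ∈ Pr N L, ∑ p' ∈ Pr N L, ((if Squarefree p.1 ∧ Squarefree p.2 ∧ Squarefree p'.1 ∧ Squarefree p'.2 ∧
        IsSquare (p.1 * p.2 * (p'.1 * p'.2)) then (1 : ℝ) else 0) + 2 * B / Q) =
      ((SQ N L).card : ℝ) + ((Pr N L).card : ℝ) ^ 2 * (2 * B / Q) := by
    rw [SQ, Finset.card_filter, Finset.sum_product]
    push_cast
    simp only [Finset.sum_add_distrib, Finset.sum_const, nsmul_eq_mul]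
    ring
  rw [h3]
  refine add_le_add (sq_pairs hT) (mul_le_mul_of_nonneg_right ?_ (by positivity))
  have h4 : ((Pr N L).card : ℝ) ≤ (N + 1) * (2 * L) := by exact_mod_cast card_Pr N L
  exact pow_le_pow_left₀ (Nat.cast_nonneg _) h4 2

/-- sums over blocks -/
theorem O_jac {Q N1 u k : ℕ} (hQ : 0 < Q) (hu : u + k ≤ N1) (hk : 8 * k * N1 ^ 2 ≤ Q) :
    (Fintype.card (↥(Od Q)) : ℝ)⁻¹ * ∑ ω : ↥(Od Q), ‖∑ i ∈ Ico u (u + k), aj ω i‖ ^ 2 ≤ 2 * k := by
  have hc1 : Q ≤ 2 * (Od Q).card := card_Od_ge Q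
  have hcpos : 0 < (Od Q).card := by omega
  have hc0 : (0 : ℝ) < ((Od Q).card : ℝ) := by exact_mod_cast hcpos
  rw [Fintype.card_coe, inv_mul_le_iff₀ hc0,
    Finset.sum_coe_sort (Od Q) (fun d => ‖∑ i ∈ Ico u (u + k), aj d i‖ ^ 2)]
  have h1 : (((∑ d ∈ Od Q, ‖∑ i ∈ Ico u (u + k), aj d i‖ ^ 2 : ℝ)) : ℂ) =
      ∑ i ∈ Ico u (u + k), ∑ j ∈ Ico u (u + k), ((ArithmeticFunction.moebius i : ℂ) *
        (ArithmeticFunction.moebius j : ℂ)) * ∑ d ∈ Od Q, ((jacobiSym ((i * j : ℕ) : ℤ) d : ℤ) : ℂ) := by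
    push_cast
    have h2 : ∀ d : ℕ, ((‖∑ i ∈ Ico u (u + k), aj d i‖ : ℝ) : ℂ) ^ 2 =
        ∑ i ∈ Ico u (u + k), ∑ j ∈ Ico u (u + k), ((ArithmeticFunction.moebius i : ℂ) *
        (ArithmeticFunction.moebius j : ℂ)) * ((jacobiSym ((i * j : ℕ) : ℤ) d : ℤ) : ℂ) := by
      intro d
      have h3 : (((‖∑ i ∈ Ico u (u + k), aj d i‖ ^ 2 : ℝ)) : ℂ) =
          (∑ i ∈ Ico u (u + k), aj d i) * (starRingEnd ℂ) (∑ i ∈ Ico u (u + k), aj d i) := by
        rw [Complex.mul_conj, Complex.normSq_eq_norm_sq]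
      push_cast at h3
      rw [h3, map_sum, Finset.sum_mul_sum]
      refine Finset.sum_congr rfl fun i _ => Finset.sum_congr rfl fun j _ => ?_
      unfold aj
      push_cast
      simp only [map_mul, map_intCast, jacobiSym.mul_left]
      push_cast
      ring
    rw [Finset.sum_congr rfl fun d _ => h2 d, Finset.sum_comm]
    refine Finset.sum_congr rfl fun i _ => ?_
    rw [Finset.sum_comm]
    refine Finset.sum_congr rfl fun j _ => ?_
    rw [← Finset.mul_sum]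
    push_cast
    rfl
  have h0 : 0 ≤ ∑ d ∈ Od Q, ‖∑ i ∈ Ico u (u + k), aj d i‖ ^ 2 := Finset.sum_nonneg fun _ _ => by positivity
  have h2 : ∑ d ∈ Od Q, ‖∑ i ∈ Ico u (u + k), aj d i‖ ^ 2 =
      ‖(((∑ d ∈ Od Q, ‖∑ i ∈ Ico u (u + k), aj d i‖ ^ 2 : ℝ)) : ℂ)‖ := by
    rw [Complex.norm_real, Real.norm_eq_abs, abs_of_nonneg h0]
  rw [h2, h1]
  refine (norm_sum_le _ _).trans ?_
  have hone : ∀ i ∈ Ico u (u + k), ∀ j ∈ Ico u (u + k), ‖((ArithmeticFunction.moebius i : ℂ) *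
        (ArithmeticFunction.moebius j : ℂ)) * ∑ d ∈ Od Q, ((jacobiSym ((i * j : ℕ) : ℤ) d : ℤ) : ℂ)‖ ≤
      (if i = j then ((Od Q).card : ℝ) else 0) + 4 * (N1 : ℝ) ^ 2 := by
    intro i hi j hj
    rw [mem_Ico] at hi hj
    rw [norm_mul]
    have h4 : ‖((ArithmeticFunction.moebius i : ℂ) * (ArithmeticFunction.moebius j : ℂ))‖ ≤ 1 := by
      rw [norm_mul]
      exact mul_le_one₀ (mu_norm i) (norm_nonneg _) (mu_norm j)
    by_cases hij : i = j
    · rw [if_pos hij]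
      have h5 : ‖∑ d ∈ Od Q, ((jacobiSym ((i * j : ℕ) : ℤ) d : ℤ) : ℂ)‖ ≤ ((Od Q).card : ℝ) := by
        refine (norm_sum_le _ _).trans ((Finset.sum_le_sum fun d _ => jac_norm (i * j) d).trans (le_of_eq ?_))
        rw [Finset.sum_const, nsmul_eq_mul, mul_one]
      have h6 := mul_le_mul h4 h5 (norm_nonneg _) zero_le_one
      have h7 : 0 ≤ 4 * (N1 : ℝ) ^ 2 := by positivity
      linarith
    · rw [if_neg hij, zero_add]
      by_cases hsi : Squarefree i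
      · by_cases hsj : Squarefree j
        · have hsq : ¬ IsSquare (i * j) := fun h => hij (sq_aux2 hsi hsj h).symm
          have hne : i * j ≠ 0 := mul_ne_zero hsi.ne_zero hsj.ne_zero
          have h5 := XX_sum_bound ((i * j : ℕ) : ℤ) (by exact_mod_cast hne)
            (by rw [Int.isSquare_natCast_iff]; exact hsq) Q
          rw [sum_od_norm]
          have h6 : (4 * (((i * j : ℕ) : ℤ).natAbs : ℝ)) ≤ 4 * (N1 : ℝ) ^ 2 := by
            rw [Int.natAbs_natCast]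
            have h7 : i * j ≤ N1 ^ 2 := by
              rw [sq]
              exact Nat.mul_le_mul (by omega) (by omega)
            have h8 : ((i * j : ℕ) : ℝ) ≤ (N1 : ℝ) ^ 2 := by exact_mod_cast h7
            linarith
          have h7 := mul_le_mul h4 (h5.trans h6) (abs_nonneg _) zero_le_one
          linarith
        · rw [ArithmeticFunction.moebius_eq_zero_of_not_squarefree hsj]
          simp only [Int.cast_zero, mul_zero, norm_zero, zero_mul]
          positivity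
      · rw [ArithmeticFunction.moebius_eq_zero_of_not_squarefree hsi]
        simp only [Int.cast_zero, zero_mul, norm_zero]
        positivity
  calc ∑ i ∈ Ico u (u + k), ‖∑ j ∈ Ico u (u + k), ((ArithmeticFunction.moebius i : ℂ) *
        (ArithmeticFunction.moebius j : ℂ)) * ∑ d ∈ Od Q, ((jacobiSym ((i * j : ℕ) : ℤ) d : ℤ) : ℂ)‖
      ≤ ∑ i ∈ Ico u (u + k), ∑ j ∈ Ico u (u + k),
          ((if i = j then ((Od Q).card : ℝ) else 0) + 4 * (N1 : ℝ) ^ 2) :=
        Finset.sum_le_sum fun i hi => (norm_sum_le _ _).trans (Finset.sum_le_sum fun j hj => hone i hi j hj)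
    _ = k * ((Od Q).card : ℝ) + k * (k * (4 * (N1 : ℝ) ^ 2)) := by
        simp only [Finset.sum_add_distrib, Finset.sum_const, nsmul_eq_mul, Nat.card_Ico]
        rw [Finset.sum_congr rfl fun i hi => Finset.sum_ite_eq (Ico u (u + k)) i (fun _ => ((Od Q).card : ℝ))]
        rw [Finset.sum_congr rfl fun i hi => if_pos hi, Finset.sum_const, Nat.card_Ico, nsmul_eq_mul]
        have : u + k - u = k := by omega
        rw [this]
    _ ≤ ((Od Q).card : ℝ) * (2 * k) := by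
        have h5 : 8 * (k : ℝ) * N1 ^ 2 ≤ 2 * ((Od Q).card : ℝ) := by
          have : 8 * k * N1 ^ 2 ≤ 2 * (Od Q).card := hk.trans hc1
          exact_mod_cast this
        have h6 : (k : ℝ) * (k * (4 * (N1 : ℝ) ^ 2)) ≤ k * ((Od Q).card : ℝ) := by
          refine mul_le_mul_of_nonneg_left ?_ (Nat.cast_nonneg k)
          linarith
        linarith

end Pool.Agent.H95SD.GJ
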