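import Pool.Agent.H95SD.GJ3

/-!
# The variance of sums in short intervals: one dyadic range for the Jacobi symbols
-/

set_option autoImplicit false

open Finset

namespace Pool.Agent.H95SD.GJ

open Pool.Agent.H95SD.GC (Pr bb Bad)
open Pool.Agent.H95SD.SqC (sc kap kap_nonneg kap_le range_bound)
open Pool.Agent.Helper919 (XX)

lemma Bad_mono {a : ℕ → ℂ} {y k0 k1 : ℕ} {κ ε0 ε1 : ℝ} (h : ε0 ≤ ε1) (hB : Bad a y k0 k1 κ ε1) :
    Bad a y k0 k1 κ ε0 := by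
  obtain ⟨X, H, h1, h2, h3, h4, h5⟩ := hB
  refine ⟨X, H, h1, h2, h3, h4, lt_of_le_of_lt ?_ h5⟩
  have hH : 0 < H := lt_of_lt_of_le (by positivity) h3
  exact mul_le_mul_of_nonneg_right h (by positivity)

open scoped Classical in
/-- one dyadic range -/
theorem jac_y {Q y k0 k1 τ T : ℕ} {W i C : ℝ} (hQ : 0 < Q) (hW : 4 ≤ W) (hi : i * W = 1)
    (hC : 0 ≤ C) (hy : 2 ≤ y) (hτ : 2 ≤ τ) (hk0 : τ + 1 ≤ k0) (hk1 : k1 ≤ y)
    (hτ1 : (2 : ℝ) ^ τ ≤ W ^ 8) (hτ2 : W ^ 8 ≤ 2 * 2 ^ τ) (hL1 : (2 : ℝ) ^ k1 * W ^ 160 ≤ 8 * 2 ^ y)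
    (hL2 : ((2 : ℝ) ^ y * 2 ^ k1) ^ 2 * W ^ 160 ≤ 4 * Q)
    (hT : ∀ v : ℕ, 1 ≤ v → v ≤ 4 * (5 * 2 ^ y) ^ 4 → v.divisors.card ≤ T) (hTC : (T : ℝ) ≤ C * W ^ 8)
    (hTd : ∀ d ∈ Od Q, d.divisors.card ≤ T)
    (hE : Real.sqrt (5 * 2 ^ y + 1) * ((T : ℝ) + 6) * W ^ 16 ≤ 2 ^ y)
    (hWk : 33 + 16 * (k1 : ℝ) ≤ W) (hlog : 1 + Real.log (4 * (5 * 2 ^ y) ^ 4) ≤ W) :
    (((Od Q).filter fun d => Bad (aj d) y k0 k1 (kap d) i).card : ℝ) ≤
      Q * (k1 * ((8 * (80 * C ^ 2 + 115200 * C) + 32 * (k1 + 1)) * i ^ 4)) := by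
  have hW0 : 0 < W := by linarith
  have hi0 : 0 < i := by
    by_contra h
    push Not at h
    nlinarith
  have hi4 : i ≤ 1 / 4 := by
    by_contra h
    push Not at h
    nlinarith
  have hiW : ∀ n : ℕ, i ^ n * W ^ n = 1 := fun n => by rw [← mul_pow, hi, one_pow]
  have hi1 : ∀ n : ℕ, i ^ n ≤ 1 := fun n => pow_le_one₀ hi0.le (by linarith)
  set Y : ℝ := 2 ^ y with hY
  have hY4 : 4 ≤ Y := by
    rw [hY]
    calc (4 : ℝ) = 2 ^ 2 := by norm_num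
      _ ≤ 2 ^ y := pow_le_pow_right₀ (by norm_num) hy
  have hY0 : 0 < Y := by linarith
  set L : ℝ := 2 ^ k1 with hL
  have hL0 : 0 < L := by positivity
  have hL1one : 1 ≤ L := one_le_pow₀ (by norm_num)
  have hq0 : (0 : ℝ) < Q := by exact_mod_cast hQ
  -- the bounds for L
  have hL1' : L ≤ 8 * Y * i ^ 160 := by
    have h1 := mul_le_mul_of_nonneg_right hL1 (pow_pos hi0 160).le
    have h2 : L * W ^ 160 * i ^ 160 = L * (i ^ 160 * W ^ 160) := by ring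
    rw [h2, hiW, mul_one] at h1
    exact h1
  have hL2' : (Y * L) ^ 2 ≤ 4 * Q * i ^ 160 := by
    have h1 := mul_le_mul_of_nonneg_right hL2 (pow_pos hi0 160).le
    have h2 : (Y * L) ^ 2 * W ^ 160 * i ^ 160 = (Y * L) ^ 2 * (i ^ 160 * W ^ 160) := by ring
    rw [h2, hiW, mul_one] at h1
    exact h1
  have hT0 : (0 : ℝ) ≤ T := Nat.cast_nonneg T
  set E0 : ℝ := Real.sqrt (5 * Y + 1) * ((T : ℝ) + 6) with hE0
  have hE0' : 0 ≤ E0 := by positivity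
  have hE' : E0 ≤ Y * i ^ 16 := by
    have h1 := mul_le_mul_of_nonneg_right hE (pow_pos hi0 16).le
    have h2 : E0 * W ^ 16 * i ^ 16 = E0 * (i ^ 16 * W ^ 16) := by ring
    rw [h2, hiW, mul_one] at h1
    exact h1
  have hNr : ((5 * 2 ^ y : ℕ) : ℝ) = 5 * Y := by
    push_cast
    rfl
  have hLr : ((2 ^ k1 : ℕ) : ℝ) = L := by
    push_cast
    rfl
  set N : ℕ := 5 * 2 ^ y with hN
  have hN1 : 1 ≤ N := by
    have : 0 < 2 ^ y := by positivity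
    omega
  -- the bound for the sums of the symbols
  set lg : ℝ := 1 + Real.log (4 * (5 * Y) ^ 4) with hlg
  have hlg0 : 0 ≤ lg := by
    have h1 : 0 ≤ Real.log (4 * (5 * Y) ^ 4) := by
      refine Real.log_nonneg ?_
      have h2 : 1 ≤ (5 * Y) ^ 4 := one_le_pow₀ (by linarith)
      linarith
    linarith
  set B : ℝ := T * (2 * (2 * (5 * Y) ^ 2) * lg) with hB
  have hB0 : 0 ≤ B := by positivity
  have hBb : ∀ n : ℕ, n ≠ 0 → ¬ IsSquare n → n ≤ N ^ 4 → |∑ d ∈ Ioc 0 Q, XX (n : ℤ) d| ≤ B := by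
    intro n hn hsq hnN
    refine (XX_pv hn hsq Q).trans ?_
    have h1 : 4 * n ≤ 4 * N ^ 4 := by omega
    have h2 : ((4 * n : ℕ) : ℝ) ≤ 4 * (5 * Y) ^ 4 := by
      have : ((4 * n : ℕ) : ℝ) ≤ ((4 * N ^ 4 : ℕ) : ℝ) := by exact_mod_cast h1
      push_cast at this
      rw [hNr] at this
      push_cast
      exact this
    have h3 : ((4 * n).divisors.card : ℝ) ≤ T := by
      exact_mod_cast hT (4 * n) (by omega) h1
    have h4 : Real.sqrt ((4 * n : ℕ) : ℝ) ≤ 2 * (5 * Y) ^ 2 := by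
      have h5 : (2 * (5 * Y) ^ 2) = Real.sqrt (4 * (5 * Y) ^ 4) := by
        have : 4 * (5 * Y) ^ 4 = (2 * (5 * Y) ^ 2) ^ 2 := by ring
        rw [this, Real.sqrt_sq (by positivity)]
      rw [h5]
      exact Real.sqrt_le_sqrt h2
    have h5 : (1 : ℝ) ≤ ((4 * n : ℕ) : ℝ) := by exact_mod_cast (by omega : 1 ≤ 4 * n)
    have h6 : Real.log ((4 * n : ℕ) : ℝ) ≤ Real.log (4 * (5 * Y) ^ 4) := Real.log_le_log (by linarith) h2
    have h7 : 0 ≤ Real.log ((4 * n : ℕ) : ℝ) := Real.log_nonneg h5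
    rw [hB]
    refine mul_le_mul h3 ?_ (by positivity) hT0
    refine mul_le_mul (mul_le_mul_of_nonneg_left h4 (by norm_num)) ?_ (by positivity) (by positivity)
    rw [hlg]
    linarith
  have hT2 : ∀ v : ℕ, 1 ≤ v → v ≤ N ^ 2 → v.divisors.card ≤ T := by
    intro v hv1 hv2
    refine hT v hv1 (hv2.trans ?_)
    calc N ^ 2 ≤ N ^ 4 := Nat.pow_le_pow_right hN1 (by norm_num)
      _ ≤ 4 * N ^ 4 := by omega
  -- R
  set R : ℝ := 2 * T ^ 2 * (N : ℝ) * ((2 ^ k1 : ℕ) : ℝ) * (1 + Real.log (N : ℝ)) +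
    (((N : ℝ) + 1) * (2 * ((2 ^ k1 : ℕ) : ℝ))) ^ 2 * (2 * B / Q) with hR
  have hlogN0 : 0 ≤ Real.log (N : ℝ) := Real.log_natCast_nonneg N
  have hR0 : 0 ≤ R := by positivity
  have hRR := R_jac (Q := Q) (N := N) (L := 2 ^ k1) (T := T) (B := B) hQ hB0 hBb hT2
  have hR1 : R ≤ (80 * C ^ 2 + 115200 * C) * i ^ 143 * Y ^ 2 := by
    have hlogN : 1 + Real.log (N : ℝ) ≤ W := by
      refine le_trans ?_ hlog
      have h1 : (N : ℝ) ≤ 4 * (5 * Y) ^ 4 := by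
        rw [hNr]
        have h2 : (5 * Y) ≤ (5 * Y) ^ 4 := le_self_pow₀ (by linarith) (by norm_num)
        have h3 : 0 ≤ (5 * Y) ^ 4 := by positivity
        linarith
      have h2 : (0 : ℝ) < N := by
        rw [hNr]
        positivity
      have := Real.log_le_log h2 h1
      linarith
    have hT2' : (T : ℝ) ^ 2 ≤ (C * W ^ 8) ^ 2 := pow_le_pow_left₀ hT0 hTC 2
    have ha : 2 * T ^ 2 * (N : ℝ) * ((2 ^ k1 : ℕ) : ℝ) * (1 + Real.log (N : ℝ)) ≤ 80 * C ^ 2 * i ^ 143 * Y ^ 2 := by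
      rw [hLr, hNr] at *
      calc 2 * (T : ℝ) ^ 2 * (5 * Y) * L * (1 + Real.log (5 * Y)) ≤
          2 * (C * W ^ 8) ^ 2 * (5 * Y) * (8 * Y * i ^ 160) * W := by
            gcongr
        _ = 80 * C ^ 2 * i ^ 143 * Y ^ 2 * (i ^ 17 * W ^ 17) := by ring
        _ = 80 * C ^ 2 * i ^ 143 * Y ^ 2 := by rw [hiW, mul_one]
    have hb : (((N : ℝ) + 1) * (2 * ((2 ^ k1 : ℕ) : ℝ))) ^ 2 * (2 * B / Q) ≤ 115200 * C * i ^ 143 * Y ^ 2 := by
      rw [hLr, hNr]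
      have h1 : ((5 * Y + 1) * (2 * L)) ^ 2 ≤ 144 * (Y * L) ^ 2 := by
        have h2 : (5 * Y + 1) * (2 * L) ≤ 12 * (Y * L) := by nlinarith
        calc ((5 * Y + 1) * (2 * L)) ^ 2 ≤ (12 * (Y * L)) ^ 2 := pow_le_pow_left₀ (by positivity) h2 2
          _ = 144 * (Y * L) ^ 2 := by ring
      have h2 : B ≤ C * W ^ 8 * (100 * Y ^ 2 * W) := by
        rw [hB]
        refine mul_le_mul hTC ?_ (by positivity) (by positivity)
        have e : 2 * (2 * (5 * Y) ^ 2) * lg = 100 * Y ^ 2 * lg := by ring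
        rw [e]
        exact mul_le_mul_of_nonneg_left hlog (by positivity)
      calc ((5 * Y + 1) * (2 * L)) ^ 2 * (2 * B / Q)
          ≤ 144 * (4 * Q * i ^ 160) * (2 * (C * W ^ 8 * (100 * Y ^ 2 * W)) / Q) := by
            refine mul_le_mul (h1.trans (mul_le_mul_of_nonneg_left hL2' (by norm_num))) ?_ (by positivity)
              (by positivity)
            refine div_le_div_of_nonneg_right ?_ hq0.le
            linarith
        _ = 115200 * C * i ^ 151 * Y ^ 2 * (i ^ 9 * W ^ 9) := by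
            field_simp
            ring
        _ = 115200 * C * i ^ 151 * Y ^ 2 := by rw [hiW, mul_one]
        _ ≤ 115200 * C * i ^ 143 * Y ^ 2 := by
            have : i ^ 151 ≤ i ^ 143 := pow_le_pow_of_le_one hi0.le (by linarith) (by norm_num)
            gcongr
    rw [hR]
    have e : (80 * C ^ 2 + 115200 * C) * i ^ 143 * Y ^ 2 =
        80 * C ^ 2 * i ^ 143 * Y ^ 2 + 115200 * C * i ^ 143 * Y ^ 2 := by ring
    rw [e]
    exact add_le_add ha hb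
  have hcast : (((2 ^ k1 : ℕ)) : ℝ) = 2 ^ k1 := by push_cast; rfl
  rw [← hR, hcast] at hRR
  have hne : Nonempty (↥(Od Q)) := ⟨⟨1, by rw [mem_Od]; exact ⟨one_pos, hQ, odd_one⟩⟩⟩
  have hblock : 8 * 2 ^ k1 * (9 * 2 ^ y) ^ 2 ≤ Q := by
    have h1 : 2592 ≤ W ^ 160 := by
      have h2 : (4 : ℝ) ^ 6 ≤ W ^ 6 := pow_le_pow_left₀ (by norm_num) hW 6
      have h3 : W ^ 6 ≤ W ^ 160 := pow_le_pow_right₀ (by linarith) (by norm_num)
      norm_num at h2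
      linarith
    have h2 : (Y * L) ^ 2 * 2592 ≤ 4 * Q := by
      refine le_trans ?_ hL2
      exact mul_le_mul_of_nonneg_left h1 (by positivity)
    have h3 : L * Y ^ 2 ≤ (Y * L) ^ 2 := by
      have : (Y * L) ^ 2 = (L * Y ^ 2) * L := by ring
      rw [this]
      exact le_mul_of_one_le_right (by positivity) hL1one
    have h4 : ((8 * 2 ^ k1 * (9 * 2 ^ y) ^ 2 : ℕ) : ℝ) ≤ Q := by
      push_cast
      rw [← hY, ← hL]
      nlinarith
    exact_mod_cast h4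
  have h1 := bad_fin (Ω := ↥(Od Q)) (fun ω => aj ω) (fun ω n => aj_le ω n) (s := fun ω n => sc ω n)
    (fun ω n => aj_sq (mem_Od.1 ω.2).1 n) (y := y) (k0 := k0) (k1 := k1) (τ := τ)
    (N1 := 9 * 2 ^ y) (K1 := 2 ^ k1) (κ := fun ω => kap ω) (E0 := E0) (δ := i ^ 8) (θ := i ^ 4) (c := i ^ 2) (R := R)
    (β := 2) hy (fun ω => kap_nonneg ω) (fun ω => kap_le (mem_Od.1 ω.2).1) (by positivity) (hi1 8) (by positivity)
    (hi1 2) (by positivity) hτ hk0 hk1 zero_le_two hR0 hE0' (fun ω k hk => by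
      refine (range_bound (mem_Od.1 ω.2).1 k).trans ?_
      rw [hE0]
      refine mul_le_mul (Real.sqrt_le_sqrt ?_) ?_ (by positivity) (by positivity)
      · have : (k : ℝ) ≤ ((5 * 2 ^ y + 1 : ℕ) : ℝ) := by exact_mod_cast hk
        push_cast at this
        exact this
      · have : ((Nat.divisors (ω : ℕ)).card : ℝ) ≤ T := by exact_mod_cast hTd ω ω.2
        linarith) (by
      have h3 : i ^ 160 ≤ i ^ 16 := pow_le_pow_of_le_one hi0.le (by linarith) (by norm_num)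
      have h4 : 8 * Y * i ^ 160 ≤ 8 * Y * i ^ 16 := mul_le_mul_of_nonneg_left h3 (by positivity)
      have h5 : 22 * (Y * i ^ 16) ≤ Y * i ^ 8 := by
        have h6 : 22 * i ^ 8 ≤ 1 := by
          have : i ^ 8 ≤ (1 / 4) ^ 8 := pow_le_pow_left₀ hi0.le hi4 8
          norm_num at this ⊢
          linarith
        have h7 : 22 * (Y * i ^ 16) = Y * i ^ 8 * (22 * i ^ 8) := by ring
        rw [h7]
        exact mul_le_of_le_one_right (by positivity) h6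
      have h6 : 1 ≤ Y * i ^ 16 := by
        refine le_trans ?_ hE'
        rw [hE0]
        have h7 : 1 ≤ Real.sqrt (5 * Y + 1) := by
          rw [Real.one_le_sqrt]
          linarith
        have h8 : (1 : ℝ) ≤ (T : ℝ) + 6 := by linarith
        nlinarith
      linarith) (fun u k hu hk => O_jac hQ hu (by
        refine le_trans ?_ hblock
        exact Nat.mul_le_mul_right _ (Nat.mul_le_mul_left 8 hk))) le_rfl le_rfl hRR
  have hnet : 7 * i ^ 2 + 4 / 2 ^ τ + 2 * i ^ 8 + 16 * (k1 + 1) * i ^ 4 / i ^ 2 ≤ i := by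
    have h2 : 4 / (2 : ℝ) ^ τ ≤ 8 * i ^ 2 := by
      rw [div_le_iff₀ (by positivity)]
      have h3 : 8 * i ^ 2 * 2 ^ τ ≥ 4 * i ^ 2 * W ^ 8 := by
        have := mul_le_mul_of_nonneg_left hτ2 (by positivity : 0 ≤ 4 * i ^ 2)
        linarith
      have h4 : 4 * i ^ 2 * W ^ 8 = 4 * W ^ 6 * (i ^ 2 * W ^ 2) := by ring
      rw [h4, hiW, mul_one] at h3
      have h5 : 1 ≤ W ^ 6 := one_le_pow₀ (by linarith)
      linarith
    have h3 : i ^ 8 ≤ i ^ 2 := pow_le_pow_of_le_one hi0.le (by linarith) (by norm_num)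
    have h4 : 16 * ((k1 : ℝ) + 1) * i ^ 4 / i ^ 2 = 16 * (k1 + 1) * i ^ 2 := by
      field_simp
    rw [h4]
    have h5 : (33 + 16 * (k1 : ℝ)) * i ^ 2 ≤ W * i ^ 2 := mul_le_mul_of_nonneg_right hWk (by positivity)
    have h6 : W * i ^ 2 = i * (i * W) := by ring
    rw [h6, hi, mul_one] at h5
    nlinarith
  have h2 : (((Od Q).filter fun d => Bad (aj d) y k0 k1 (kap d) i).card : ℝ) ≤
      ((univ.filter fun ω : ↥(Od Q) => Bad (aj ω) y k0 k1 (kap ω)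
        (7 * i ^ 2 + 4 / 2 ^ τ + 2 * i ^ 8 + 16 * (k1 + 1) * i ^ 4 / i ^ 2)).card : ℝ) := by
    have h3 : ((Od Q).filter fun d => Bad (aj d) y k0 k1 (kap d) i) ⊆
        Finset.image (fun ω : ↥(Od Q) => (ω : ℕ)) (univ.filter fun ω : ↥(Od Q) => Bad (aj ω) y k0 k1 (kap ω)
        (7 * i ^ 2 + 4 / 2 ^ τ + 2 * i ^ 8 + 16 * (k1 + 1) * i ^ 4 / i ^ 2)) := by
      intro d hd
      rw [mem_filter] at hd
      rw [mem_image]
      exact ⟨(⟨d, hd.1⟩ : ↥(Od Q)), mem_filter.2 ⟨mem_univ _, Bad_mono hnet hd.2⟩, rfl⟩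
    exact Nat.cast_le.2 ((card_le_card h3).trans card_image_le)
  refine h2.trans (h1.trans ?_)
  rw [Fintype.card_coe]
  refine mul_le_mul (by exact_mod_cast card_Od_le Q) ?_ (by positivity) hq0.le
  refine mul_le_mul_of_nonneg_left ?_ (Nat.cast_nonneg _)
  have h3 : 8 * 4 ^ τ * R / (i ^ 8 * Y) ^ 2 ≤ 8 * (80 * C ^ 2 + 115200 * C) * i ^ 4 := by
    rw [div_le_iff₀ (by positivity)]
    have h4 : (4 : ℝ) ^ τ ≤ W ^ 16 := by
      have h5 : (4 : ℝ) ^ τ = (2 ^ τ) ^ 2 := by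
        rw [← pow_mul, mul_comm, pow_mul]
        norm_num
      have h6 : W ^ 16 = (W ^ 8) ^ 2 := by ring
      rw [h5, h6]
      exact pow_le_pow_left₀ (by positivity) hτ1 2
    calc 8 * 4 ^ τ * R ≤ 8 * W ^ 16 * ((80 * C ^ 2 + 115200 * C) * i ^ 143 * Y ^ 2) :=
          mul_le_mul (by linarith) hR1 hR0 (by positivity)
      _ = 8 * (80 * C ^ 2 + 115200 * C) * i ^ 127 * Y ^ 2 * (i ^ 16 * W ^ 16) := by ring
      _ = 8 * (80 * C ^ 2 + 115200 * C) * i ^ 127 * Y ^ 2 := by rw [hiW, mul_one]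
      _ ≤ 8 * (80 * C ^ 2 + 115200 * C) * i ^ 20 * Y ^ 2 := by
          have : i ^ 127 ≤ i ^ 20 := pow_le_pow_of_le_one hi0.le (by linarith) (by norm_num)
          gcongr
      _ = 8 * (80 * C ^ 2 + 115200 * C) * i ^ 4 * (i ^ 8 * Y) ^ 2 := by ring
  have h4 : 8 * ((k1 : ℝ) + 1) * 2 / (i ^ 4 * 2 ^ τ) ≤ 32 * (k1 + 1) * i ^ 4 := by
    rw [div_le_iff₀ (by positivity)]
    have h5 : 32 * ((k1 : ℝ) + 1) * i ^ 8 * 2 ^ τ ≥ 16 * (k1 + 1) * i ^ 8 * W ^ 8 := by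
      have := mul_le_mul_of_nonneg_left hτ2 (by positivity : 0 ≤ 16 * ((k1 : ℝ) + 1) * i ^ 8)
      linarith
    have h6 : 16 * ((k1 : ℝ) + 1) * i ^ 8 * W ^ 8 = 16 * (k1 + 1) * (i ^ 8 * W ^ 8) := by ring
    rw [h6, hiW, mul_one] at h5
    have h7 : 32 * ((k1 : ℝ) + 1) * i ^ 4 * (i ^ 4 * 2 ^ τ) = 32 * (k1 + 1) * i ^ 8 * 2 ^ τ := by ring
    rw [h7]
    linarith
  have h5 : (8 * (80 * C ^ 2 + 115200 * C) + 32 * ((k1 : ℝ) + 1)) * i ^ 4 =
      8 * (80 * C ^ 2 + 115200 * C) * i ^ 4 + 32 * (k1 + 1) * i ^ 4 := by ring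
  rw [h5]
  exact add_le_add h3 h4

end Pool.Agent.H95SD.GJ
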