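import Mathlib
import Pool.Agent.H95SD.Sift
import Pool.Agent.H560R3.GB.Defs
import Pool.Agent.W93.GB1

/-!
# Szemerédi's theorem relative to the representations of an even number as a sum of two primes
-/

set_option autoImplicit false

open Finset Filter

namespace Pool.Agent.H95SD.Go

open Pool.Agent.Y843.HS (VV Pr)
open Pool.Agent.H560R3.GB (sing C₂)

/-- for some `1 ≤ d ≤ D` all the `p + d f`, `f ∈ F`, are in `A` -/
def Org (F : Finset ℤ) (A : Finset ℕ) (D : ℝ) (p : ℕ) : Prop :=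
  ∃ d : ℕ, 1 ≤ d ∧ (d : ℝ) ≤ D ∧ ∀ f ∈ F, ∃ a ∈ A, (a : ℤ) = (p : ℤ) + d * f

theorem Org.mono {F : Finset ℤ} {A A' : Finset ℕ} {D D' : ℝ} {p : ℕ} (h : Org F A D p) (hA : A ⊆ A')
    (hD : D ≤ D') : Org F A' D' p := by
  obtain ⟨d, h1, h2, h3⟩ := h
  refine ⟨d, h1, h2.trans hD, fun f hf => ?_⟩
  obtain ⟨a, ha, h4⟩ := h3 f hf
  exact ⟨a, hA ha, h4⟩

open Classical in
/-- the elements of a subset of a sifted set which are not the origin of a pattern of the subset -/
theorem few (F : Finset ℤ) (r : ℕ) (κ ε : ℝ) (hκ : 0 < κ) (hε : 0 < ε) : ∃ B H₀ : ℕ,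
    ∀ H u : ℕ, H₀ ≤ H → ∀ Z : ℕ → Finset ℕ, SV r κ H Z → ∀ A : Finset ℕ, A ⊆ Ioc u (u + H) →
    (∀ n ∈ A, Sf κ H Z n) →
    ((A.filter (fun n : ℕ => ¬ Org F A (Real.log H ^ B) n)).card : ℝ) ≤
      ε * H * VV Z 0 ⌊(H : ℝ) ^ κ⌋₊ := by
  obtain ⟨M, hM⟩ : ∃ M : ℕ, ∀ f ∈ F, |f| ≤ (M : ℤ) := by
    refine ⟨F.sup fun f => f.natAbs, fun f hf => ?_⟩
    have h1 : f.natAbs ≤ F.sup fun f => f.natAbs := Finset.le_sup (f := fun f : ℤ => f.natAbs) hf
    rw [Int.abs_eq_natAbs]
    exact_mod_cast h1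
  obtain ⟨B, X₀, h⟩ := Pool.Agent.Y843.HS.fin (2 * M + 1) r κ ε hκ hε
  refine ⟨B, X₀, fun H u hH Z hZ A hA hs => ?_⟩
  by_contra hcon
  rw [not_le] at hcon
  obtain ⟨a, d, hd, hdB, hj⟩ := h H u hH Z hZ _ ((filter_subset _ _).trans hA)
    (fun n hn => hs n (mem_filter.1 hn).1) hcon.le
  have h1 := (mem_filter.1 (hj M (by omega))).2
  apply h1
  refine ⟨d, hd, hdB, fun f hf => ?_⟩
  have h2 := hM f hf
  rw [abs_le] at h2
  obtain ⟨j, hj'⟩ : ∃ j : ℕ, (j : ℤ) = M + f := ⟨(M + f).toNat, Int.toNat_of_nonneg (by omega)⟩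
  refine ⟨a + j * d, (mem_filter.1 (hj j (by omega))).1, ?_⟩
  push_cast
  rw [hj']
  ring

theorem one_le_prod {ι : Type} (s : Finset ι) (f : ι → ℝ) (h : ∀ i ∈ s, 1 ≤ f i) : 1 ≤ ∏ i ∈ s, f i := by
  calc (1 : ℝ) = ∏ i ∈ s, (1 : ℝ) := by simp
    _ ≤ _ := Finset.prod_le_prod (fun _ _ => zero_le_one) h

/-- the classes for the representations of `N` -/
def ZN (N : ℕ) (p : ℕ) : Finset ℕ := {0, N % p}

theorem ZN_sv (N : ℕ) (hN : 2 ∣ N) (κ : ℝ) (H : ℕ) : SV 2 κ H (ZN N) := by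
  intro p hp _
  have h0 : (ZN N p).card ≤ 2 := Finset.card_le_two
  refine ⟨h0, ?_, ?_⟩
  · rcases hp.two_le.eq_or_lt with h2 | h2
    · rw [← h2]
      have : N % 2 = 0 := Nat.mod_eq_zero_of_dvd hN
      unfold ZN
      rw [this]
      simp
    · omega
  · intro c hc
    unfold ZN at hc
    rcases mem_insert.1 hc with rfl | hc
    · exact hp.pos
    · rw [mem_singleton.1 hc]
      exact Nat.mod_lt _ hp.pos

noncomputable def dv (p : ℕ) : ℝ := ((p : ℝ) - 1) / ((p : ℝ) - 2)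

theorem one_le_dv {p : ℕ} (hp : 2 < p) : 1 ≤ dv p := by
  have h : (3 : ℝ) ≤ p := by exact_mod_cast hp
  unfold dv
  rw [le_div_iff₀ (by linarith)]
  linarith

theorem sing_eq (N : ℕ) : sing N = 2 * C₂ * ∏ p ∈ N.primeFactors.filter (fun p => 2 < p), dv p := rfl

theorem sing_ge (N : ℕ) : 2 * C₂ ≤ sing N := by
  have h1 : 1 ≤ ∏ p ∈ N.primeFactors.filter (fun p => 2 < p), dv p := by
    apply one_le_prod
    intro p hp
    exact one_le_dv (mem_filter.1 hp).2
  have h2 := Pool.Agent.W93.GB.C2_pos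
  rw [sing_eq]
  nlinarith

theorem VV_le (N y : ℕ) (hN : 2 ∣ N) (hN0 : N ≠ 0) :
    VV (ZN N) 0 y * Real.log (y + 1) ^ 2 ≤ sing N / C₂ := by
  classical
  have hC := Pool.Agent.W93.GB.C2_pos
  have hv := vv_le y
  have hpp : ∀ p ∈ Pr 0 y, p.Prime := fun p hp => (mem_filter.1 hp).2
  have hl : 0 ≤ Real.log ((y : ℝ) + 1) := Real.log_nonneg (by
    have : (0 : ℝ) ≤ y := Nat.cast_nonneg _
    linarith)
  have hv0 : 0 ≤ VV (fun _ => {0}) 0 y := by
    unfold VV
    apply prod_nonneg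
    intro p hp
    have hp := hpp p hp
    have h6 : (2 : ℝ) ≤ p := by exact_mod_cast hp.two_le
    have h7 : 1 / (p : ℝ) ≤ 1 / 2 := one_div_le_one_div_of_le (by norm_num) h6
    rw [card_singleton, Nat.cast_one]
    linarith
  have h1 : VV (ZN N) 0 y ≤ VV (fun _ => {0}) 0 y ^ 2 *
      ∏ p ∈ Pr 0 y, ((if p = 2 then (2 : ℝ) else 1) * (if 2 < p ∧ p ∣ N then dv p else 1)) := by
    unfold VV
    rw [← prod_pow, ← prod_mul_distrib]
    apply Finset.prod_le_prod
    · intro p hp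
      have hp := hpp p hp
      have h2 := (ZN_sv N hN 1 p p hp (by rw [Real.rpow_one])).2.1
      have h3 : ((ZN N p).card : ℝ) < p := by exact_mod_cast h2
      have h4 : (0 : ℝ) < p := by exact_mod_cast hp.pos
      have h5 : ((ZN N p).card : ℝ) / p ≤ 1 := by
        rw [div_le_one h4]; exact h3.le
      linarith
    · intro p hp
      have hp := hpp p hp
      rw [card_singleton, Nat.cast_one]
      rcases hp.two_le.eq_or_lt with h2 | h2
      · rw [← h2]
        have h3 : N % 2 = 0 := Nat.mod_eq_zero_of_dvd hN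
        have h4 : (ZN N 2).card = 1 := by
          unfold ZN
          rw [h3]
          simp
        rw [h4]
        norm_num
      · have h3 : (3 : ℝ) ≤ p := by exact_mod_cast h2
        have hp0 : (0 : ℝ) < p := by linarith
        rw [if_neg (by omega), one_mul]
        by_cases hd : p ∣ N
        · rw [if_pos ⟨h2, hd⟩]
          have h4 : (ZN N p).card = 1 := by
            unfold ZN
            rw [Nat.mod_eq_zero_of_dvd hd]
            simp
          rw [h4, Nat.cast_one]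
          have h5 : (0 : ℝ) < 1 - 1 / p := by
            rw [sub_pos, div_lt_one hp0]; linarith
          have h6 : 1 ≤ (1 - 1 / (p : ℝ)) * dv p := by
            unfold dv
            rw [← mul_div_assoc, le_div_iff₀ (by linarith), one_mul]
            rw [sub_mul, one_mul, le_sub_iff_add_le]
            have : 1 / (p : ℝ) * (p - 1) ≤ 1 := by
              rw [one_div, inv_mul_le_iff₀ hp0]; linarith
            linarith
          nlinarith
        · rw [if_neg (fun h => hd h.2), mul_one]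
          have h4 : (ZN N p).card = 2 := by
            unfold ZN
            apply Finset.card_pair
            intro h
            exact hd (Nat.dvd_of_mod_eq_zero h.symm)
          rw [h4]
          have h5 : (1 - 1 / (p : ℝ)) ^ 2 = 1 - 2 / p + (1 / p) ^ 2 := by ring
          rw [h5]
          push_cast
          have := sq_nonneg (1 / (p : ℝ))
          linarith
  have h2 : ∏ p ∈ Pr 0 y, ((if p = 2 then (2 : ℝ) else 1) * (if 2 < p ∧ p ∣ N then dv p else 1)) ≤
      sing N / C₂ := by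
    rw [prod_mul_distrib]
    have h3 : ∏ p ∈ Pr 0 y, (if p = 2 then (2 : ℝ) else 1) ≤ 2 := by
      rw [Finset.prod_ite_eq']
      split_ifs <;> norm_num
    have h4 : ∏ p ∈ Pr 0 y, (if 2 < p ∧ p ∣ N then dv p else 1) ≤
        ∏ p ∈ N.primeFactors.filter (fun p => 2 < p), dv p := by
      rw [← prod_filter]
      have hsub : (Pr 0 y).filter (fun p => 2 < p ∧ p ∣ N) ⊆ N.primeFactors.filter (fun p => 2 < p) := by
        intro p hp
        obtain ⟨h5, h6, h7⟩ := mem_filter.1 hp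
        exact mem_filter.2 ⟨Nat.mem_primeFactors.2 ⟨hpp p h5, h7, hN0⟩, h6⟩
      rw [← prod_sdiff hsub]
      have h5 : 1 ≤ ∏ p ∈ N.primeFactors.filter (fun p => 2 < p) \ (Pr 0 y).filter (fun p => 2 < p ∧ p ∣ N), dv p := by
        apply one_le_prod
        intro p hp
        exact one_le_dv (mem_filter.1 (mem_sdiff.1 hp).1).2
      have h6 : 0 ≤ ∏ p ∈ (Pr 0 y).filter (fun p => 2 < p ∧ p ∣ N), dv p := by
        apply prod_nonneg
        intro p hp
        linarith [one_le_dv (mem_filter.1 hp).2.1]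
      nlinarith
    have h5 : (0 : ℝ) ≤ ∏ p ∈ Pr 0 y, (if 2 < p ∧ p ∣ N then dv p else 1) := by
      apply prod_nonneg
      intro p hp
      split_ifs with h
      · linarith [one_le_dv h.1]
      · norm_num
    calc _ ≤ 2 * ∏ p ∈ N.primeFactors.filter (fun p => 2 < p), dv p :=
          mul_le_mul h3 h4 h5 (by norm_num)
      _ = sing N / C₂ := by
          rw [sing_eq]
          field_simp
  have h3 : (VV (fun _ => {0}) 0 y * Real.log (y + 1)) ^ 2 ≤ 1 := by
    have : 0 ≤ VV (fun _ => {0}) 0 y * Real.log (y + 1) := mul_nonneg hv0 hl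
    nlinarith
  have h4 : 0 ≤ sing N / C₂ := div_nonneg (by linarith [sing_ge N]) hC.le
  calc VV (ZN N) 0 y * Real.log (y + 1) ^ 2 ≤
        (VV (fun _ => {0}) 0 y ^ 2 * (sing N / C₂)) * Real.log (y + 1) ^ 2 := by
        apply mul_le_mul_of_nonneg_right _ (sq_nonneg _)
        exact h1.trans (mul_le_mul_of_nonneg_left h2 (sq_nonneg _))
    _ = (VV (fun _ => {0}) 0 y * Real.log (y + 1)) ^ 2 * (sing N / C₂) := by ring
    _ ≤ 1 * (sing N / C₂) := mul_le_mul_of_nonneg_right h3 h4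
    _ = _ := one_mul _

end Pool.Agent.H95SD.Go
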