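import Pool.Agent.H95SD.Gold

set_option autoImplicit false

open Finset Filter

namespace Pool.Agent.H95SD.Go

open Pool.Agent.Y843.HS (VV Pr)
open Pool.Agent.H560R3.GB (sing C₂)

/-- the primes `p ∈ (u, u + H]` with `N - p` prime -/
def Reps (N u H : ℕ) : Finset ℕ := (Ioc u (u + H)).filter (fun p => p.Prime ∧ (N - p).Prime)

open Classical in
/-- **Szemerédi's theorem relative to the representations of an even number as a sum of two primes.** -/
theorem main1 (F : Finset ℤ) (θ ε : ℝ) (hθ : 0 < θ) (hε : 0 < ε) : ∃ B N₀ : ℕ, ∀ N : ℕ, N₀ ≤ N → 2 ∣ N →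
    ∀ u H : ℕ, (N : ℝ) ^ θ ≤ H → H ≤ N → ∀ A ⊆ Reps N u H,
    ((A.filter (fun p => ¬ Org F A (Real.log N ^ B) p)).card : ℝ) ≤
      ε * (sing N * H / Real.log N ^ 2) := by
  have hC := Pool.Agent.W93.GB.C2_pos
  obtain ⟨B, H₀, h⟩ := few F 2 (1 / 2) (ε * C₂ * θ ^ 2 / 8) (by norm_num) (by positivity)
  have e1 : ∀ᶠ N : ℕ in atTop, (H₀ : ℝ) ≤ (N : ℝ) ^ θ :=
    ((tendsto_rpow_atTop hθ).comp tendsto_natCast_atTop_atTop).eventually_ge_atTop _
  have e2 : ∀ᶠ N : ℕ in atTop, Real.log N ^ (2 : ℝ) ≤ ε * C₂ / 2 * (N : ℝ) ^ (θ / 2) := by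
    have h2 := (isLittleO_log_rpow_rpow_atTop (s := θ / 2) 2 (by positivity)).bound
      (show (0 : ℝ) < ε * C₂ / 2 by positivity)
    filter_upwards [(tendsto_natCast_atTop_atTop (R := ℝ)).eventually h2, eventually_ge_atTop 2]
      with N hN hN2
    have hN2' : (2 : ℝ) ≤ N := by exact_mod_cast hN2
    have hl : 0 < Real.log N := Real.log_pos (by linarith)
    rwa [Real.norm_of_nonneg (by positivity), Real.norm_of_nonneg (by positivity)] at hN
  obtain ⟨N₀, hN₀⟩ := eventually_atTop.1 (e1.and (e2.and (eventually_ge_atTop 3)))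
  refine ⟨B, N₀, fun N hN h2N u H hH1 hH2 A hA => ?_⟩
  obtain ⟨g1, g2, g3⟩ := hN₀ N hN
  have hN3 : (3 : ℝ) ≤ N := by exact_mod_cast g3
  have hl : 0 < Real.log N := Real.log_pos (by linarith)
  have hl1 : 1 ≤ Real.log N := by
    rw [Real.le_log_iff_exp_le (by linarith)]
    exact Real.exp_one_lt_d9.le.trans (by linarith)
  have hHH : H₀ ≤ H := by exact_mod_cast g1.trans hH1
  have hH0 : (0 : ℝ) < H := lt_of_lt_of_le (Real.rpow_pos_of_pos (by linarith) _) hH1
  obtain ⟨y, hy⟩ : ∃ y, y = ⌊(H : ℝ) ^ (1 / 2 : ℝ)⌋₊ := ⟨_, rfl⟩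
  have hyle : (y : ℝ) ≤ (H : ℝ) ^ (1 / 2 : ℝ) := by
    rw [hy]; exact Nat.floor_le (by positivity)
  have hylt : (H : ℝ) ^ (1 / 2 : ℝ) < y + 1 := by
    rw [hy]; exact Nat.lt_floor_add_one _
  have hlogH : θ * Real.log N ≤ Real.log H := by
    have := Real.log_le_log (Real.rpow_pos_of_pos (by linarith) _) hH1
    rwa [Real.log_rpow (by linarith)] at this
  have hlogHN : Real.log H ≤ Real.log N := Real.log_le_log hH0 (by exact_mod_cast hH2)
  have hlogH0 : 0 ≤ Real.log H := le_trans (by positivity) hlogH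
  have hlogy : θ / 2 * Real.log N ≤ Real.log (y + 1) := by
    have h6 := Real.log_le_log (by positivity) hylt.le
    rw [Real.log_rpow hH0] at h6
    linarith
  -- the small elements
  obtain ⟨A', hA'⟩ : ∃ A', A' = A.filter (fun p => y < p ∧ y < N - p) := ⟨_, rfl⟩
  have hprop : ∀ p ∈ A, p.Prime ∧ (N - p).Prime ∧ p < N ∧ p ∈ Ioc u (u + H) := by
    intro p hp
    obtain ⟨h1, h2, h3⟩ := mem_filter.1 (hA hp)
    exact ⟨h2, h3, by have := h3.pos; omega, h1⟩
  have hsift : ∀ p ∈ A', Sf (1 / 2) H (ZN N) p := by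
    intro p hp q hq hqH hmem
    rw [hA'] at hp
    obtain ⟨hpA, hp1, hp2⟩ := mem_filter.1 hp
    obtain ⟨hpp, hNp, hpN, -⟩ := hprop p hpA
    have hqy : q ≤ y := by rw [hy]; exact Nat.le_floor hqH
    unfold ZN at hmem
    rcases mem_insert.1 hmem with h0 | h0
    · have := (Nat.prime_dvd_prime_iff_eq hq hpp).1 (Nat.dvd_of_mod_eq_zero h0)
      omega
    · have h1 : p ≡ N [MOD q] := by
        rw [mem_singleton] at h0
        exact h0
      have h2 : q ∣ N - p := (Nat.modEq_iff_dvd' hpN.le).1 h1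
      have := (Nat.prime_dvd_prime_iff_eq hq hNp).1 h2
      omega
  have hfew := h H u hHH (ZN N) (ZN_sv N h2N _ _) A' (by
    rw [hA']
    exact fun p hp => (hprop p (mem_filter.1 hp).1).2.2.2) hsift
  rw [← hy] at hfew
  have hsub : A.filter (fun p => ¬ Org F A (Real.log N ^ B) p) ⊆
      (A.filter (fun p => p ≤ y) ∪ A.filter (fun p => N - p ≤ y)) ∪
      A'.filter (fun p => ¬ Org F A' (Real.log H ^ B) p) := by
    intro p hp
    obtain ⟨hpA, hpO⟩ := mem_filter.1 hp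
    by_cases h1 : p ≤ y
    · exact mem_union_left _ (mem_union_left _ (mem_filter.2 ⟨hpA, h1⟩))
    by_cases h2 : N - p ≤ y
    · exact mem_union_left _ (mem_union_right _ (mem_filter.2 ⟨hpA, h2⟩))
    refine mem_union_right _ (mem_filter.2 ⟨?_, fun h3 => hpO ?_⟩)
    · rw [hA']
      exact mem_filter.2 ⟨hpA, by omega, by omega⟩
    · refine h3.mono ?_ (pow_le_pow_left₀ hlogH0 hlogHN B)
      rw [hA']
      exact filter_subset _ _
  have hs1 : (A.filter (fun p => p ≤ y)).card ≤ y := by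
    have h7 : A.filter (fun p => p ≤ y) ⊆ Icc 1 y := by
      intro p hp
      obtain ⟨hpA, hpy⟩ := mem_filter.1 hp
      exact mem_Icc.2 ⟨(hprop p hpA).1.pos, hpy⟩
    have h8 := card_le_card h7
    rwa [Nat.card_Icc, Nat.add_sub_cancel] at h8
  have hs2 : (A.filter (fun p => N - p ≤ y)).card ≤ y := by
    have h7 : (A.filter (fun p => N - p ≤ y)).card ≤ (Icc 1 y).card := by
      apply card_le_card_of_injOn (fun p => N - p)
      · intro p hp
        obtain ⟨hpA, hpy⟩ := mem_filter.1 (mem_coe.1 hp)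
        exact mem_coe.2 (mem_Icc.2 ⟨(hprop p hpA).2.1.pos, hpy⟩)
      · intro p hp q hq hpq
        have h1 := (hprop p (mem_filter.1 (mem_coe.1 hp)).1).2.2.1
        have h2 := (hprop q (mem_filter.1 (mem_coe.1 hq)).1).2.2.1
        simp only at hpq
        omega
    rwa [Nat.card_Icc, Nat.add_sub_cancel] at h7
  have hcard : ((A.filter (fun p => ¬ Org F A (Real.log N ^ B) p)).card : ℝ) ≤
      2 * y + ((A'.filter (fun p => ¬ Org F A' (Real.log H ^ B) p)).card : ℝ) := by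
    have h1 := card_le_card hsub
    have h2 := card_union_le (A.filter (fun p => p ≤ y) ∪ A.filter (fun p => N - p ≤ y))
      (A'.filter (fun p => ¬ Org F A' (Real.log H ^ B) p))
    have h3 := card_union_le (A.filter (fun p => p ≤ y)) (A.filter (fun p => N - p ≤ y))
    have h4 : (A.filter (fun p => ¬ Org F A (Real.log N ^ B) p)).card ≤
      2 * y + (A'.filter (fun p => ¬ Org F A' (Real.log H ^ B) p)).card := by omega
    exact_mod_cast h4
  -- the density
  have hs0 : 0 ≤ sing N := by linarith [sing_ge N]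
  have hV : VV (ZN N) 0 y ≤ 4 / (C₂ * θ ^ 2) * (sing N / Real.log N ^ 2) := by
    have h1 := VV_le N y h2N (by omega)
    have h2 : (θ / 2 * Real.log N) ^ 2 ≤ Real.log (y + 1) ^ 2 := pow_le_pow_left₀ (by positivity) hlogy 2
    have h3 : 0 < (θ / 2 * Real.log N) ^ 2 := by positivity
    have h4 : 0 < Real.log ((y : ℝ) + 1) ^ 2 := lt_of_lt_of_le h3 h2
    calc VV (ZN N) 0 y ≤ sing N / C₂ / Real.log (y + 1) ^ 2 := by rwa [le_div_iff₀ h4]
      _ ≤ sing N / C₂ / (θ / 2 * Real.log N) ^ 2 := by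
          apply div_le_div_of_nonneg_left (by positivity) h3 h2
      _ = 4 / (C₂ * θ ^ 2) * (sing N / Real.log N ^ 2) := by
          field_simp
          ring
  have hpart2 : ε * C₂ * θ ^ 2 / 8 * H * VV (ZN N) 0 y ≤ ε / 2 * (sing N * H / Real.log N ^ 2) := by
    calc ε * C₂ * θ ^ 2 / 8 * H * VV (ZN N) 0 y ≤
          ε * C₂ * θ ^ 2 / 8 * H * (4 / (C₂ * θ ^ 2) * (sing N / Real.log N ^ 2)) :=
          mul_le_mul_of_nonneg_left hV (by positivity)
      _ = ε / 2 * (sing N * H / Real.log N ^ 2) := by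
          field_simp
          ring
  have hpart1 : 2 * (y : ℝ) ≤ ε / 2 * (sing N * H / Real.log N ^ 2) := by
    have h1 : (H : ℝ) = (H : ℝ) ^ (1 / 2 : ℝ) * (H : ℝ) ^ (1 / 2 : ℝ) := by
      rw [← Real.rpow_add hH0]; norm_num
    have h2 : (N : ℝ) ^ (θ / 2) ≤ (H : ℝ) ^ (1 / 2 : ℝ) := by
      have h3 := Real.rpow_le_rpow (by positivity) hH1 (show (0 : ℝ) ≤ 1 / 2 by norm_num)
      rwa [← Real.rpow_mul (by linarith), show θ * (1 / 2) = θ / 2 by ring] at h3
    have h3 : Real.log N ^ 2 ≤ ε * C₂ / 2 * (H : ℝ) ^ (1 / 2 : ℝ) := by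
      have h4 : Real.log N ^ (2 : ℝ) = Real.log N ^ 2 := by
        rw [← Real.rpow_natCast]; norm_num
      rw [← h4]
      exact g2.trans (mul_le_mul_of_nonneg_left h2 (by positivity))
    rw [mul_div_assoc', le_div_iff₀ (by positivity)]
    have h5 : 2 * C₂ ≤ sing N := sing_ge N
    have h6 : 0 ≤ (H : ℝ) ^ (1 / 2 : ℝ) := by positivity
    calc 2 * (y : ℝ) * Real.log N ^ 2 ≤ 2 * (H : ℝ) ^ (1 / 2 : ℝ) * (ε * C₂ / 2 * (H : ℝ) ^ (1 / 2 : ℝ)) := by
          apply mul_le_mul (by linarith) h3 (by positivity) (by positivity)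
      _ = ε / 2 * (2 * C₂ * ((H : ℝ) ^ (1 / 2 : ℝ) * (H : ℝ) ^ (1 / 2 : ℝ))) := by ring
      _ = ε / 2 * (2 * C₂ * H) := by rw [← h1]
      _ ≤ ε / 2 * (sing N * H) := by
          apply mul_le_mul_of_nonneg_left _ (by positivity)
          exact mul_le_mul_of_nonneg_right h5 hH0.le
  linarith

end Pool.Agent.H95SD.Go
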