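import Pool.Agent.H95SD.Gold2
import Pool.Agent.TH935.GF

set_option autoImplicit false

open Finset Filter

namespace Pool.Agent.H95SD.Go

open Pool.Agent.H560R3.GB (sing C₂ energy)
open Pool.Agent.W93.PG (WinP cnt)

/-- for some `1 ≤ d ≤ D` all the `p + d f` and `q + d f`, `f ∈ F`, are primes -/
def Both (F : Finset ℤ) (D : ℝ) (p q : ℕ) : Prop :=
  ∃ d : ℕ, 1 ≤ d ∧ (d : ℝ) ≤ D ∧ ∀ f ∈ F, ((p : ℤ) + d * f).toNat.Prime ∧ ((q : ℤ) + d * f).toNat.Prime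

open Classical in
/-- the number of the primes `p ∈ (y₁, y₂]` with `N - p` prime which start such patterns together -/
noncomputable def pairs (F : Finset ℤ) (D : ℝ) (N y₁ y₂ : ℕ) : ℕ :=
  ((Ioc y₁ y₂).filter (fun p => p.Prime ∧ (N - p).Prime ∧ Both F D p (N - p))).card

/-- in all long windows almost all the representations of `N` have the pattern, and their number is as
predicted -/
def GoodN (F : Finset ℤ) (ε : ℝ) (A B N : ℕ) : Prop :=
  ∀ y₁ y₂ : ℕ, y₁ < y₂ → y₂ ≤ N → (N : ℝ) / Real.log N ^ A ≤ (y₂ : ℝ) - y₁ →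
    |(pairs F (Real.log N ^ B) N y₁ y₂ : ℝ) - sing N * ((y₂ : ℝ) - y₁) / Real.log N ^ 2| ≤
      ε * (sing N * ((y₂ : ℝ) - y₁) / Real.log N ^ 2)

theorem both_of_org (F : Finset ℤ) (D : ℝ) (N u H p : ℕ) (hp : p ∈ Reps N u H)
    (h : Org (F ∪ F.image (fun f => -f)) (Reps N u H) D p) : Both F D p (N - p) := by
  obtain ⟨d, h1, h2, h3⟩ := h
  have hlt : ∀ a ∈ Reps N u H, a.Prime ∧ (N - a).Prime ∧ a < N := by
    intro a ha
    obtain ⟨-, h5, h6⟩ := mem_filter.1 ha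
    exact ⟨h5, h6, by have := h6.pos; omega⟩
  have hpN := (hlt p hp).2.2
  refine ⟨d, h1, h2, fun f hf => ⟨?_, ?_⟩⟩
  · obtain ⟨a, ha, h4⟩ := h3 f (mem_union_left _ hf)
    rw [← h4, Int.toNat_natCast]
    exact (hlt a ha).1
  · obtain ⟨a, ha, h4⟩ := h3 (-f) (mem_union_right _ (mem_image.2 ⟨f, hf, rfl⟩))
    have h5 := hlt a ha
    have h6 : ((N - p : ℕ) : ℤ) + d * f = ((N - a : ℕ) : ℤ) := by
      rw [Nat.cast_sub hpN.le, Nat.cast_sub h5.2.2.le, h4]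
      ring
    rw [h6, Int.toNat_natCast]
    exact h5.2.1

theorem good_of_win (F : Finset ℤ) (ε : ℝ) (hε : 0 < ε) (A : ℕ) : ∃ B m₀ : ℕ, ∀ m : ℕ, m₀ ≤ m → 2 ∣ m →
    WinP (ε / 2) A m → GoodN F ε A B m := by
  classical
  obtain ⟨B, N₀, h⟩ := main1 (F ∪ F.image (fun f => -f)) (1 / 2) (ε / 2) (by norm_num) (by positivity)
  have e2 : ∀ᶠ N : ℕ in atTop, Real.log N ^ (A : ℝ) ≤ 1 * (N : ℝ) ^ (1 / 2 : ℝ) := by
    have h2 := (isLittleO_log_rpow_rpow_atTop (s := 1 / 2) (A : ℝ) (by norm_num)).bound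
      (show (0 : ℝ) < 1 by norm_num)
    filter_upwards [(tendsto_natCast_atTop_atTop (R := ℝ)).eventually h2, eventually_ge_atTop 2]
      with N hN hN2
    have hN2' : (2 : ℝ) ≤ N := by exact_mod_cast hN2
    have hl : 0 < Real.log N := Real.log_pos (by linarith)
    rwa [Real.norm_of_nonneg (by positivity), Real.norm_of_nonneg (by positivity)] at hN
  obtain ⟨N₁, hN₁⟩ := eventually_atTop.1 (e2.and (eventually_ge_atTop 3))
  refine ⟨B, max N₀ N₁, fun m hm h2m hw y₁ y₂ hy1 hy2 hy3 => ?_⟩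
  obtain ⟨g1, g2⟩ := hN₁ m ((le_max_right _ _).trans hm)
  have hm3 : (3 : ℝ) ≤ m := by exact_mod_cast g2
  have hl : 0 < Real.log (m : ℝ) := Real.log_pos (by linarith)
  rw [one_mul, Real.rpow_natCast] at g1
  obtain ⟨H, hH⟩ : ∃ H, H = y₂ - y₁ := ⟨_, rfl⟩
  have hHc : (H : ℝ) = (y₂ : ℝ) - y₁ := by rw [hH, Nat.cast_sub hy1.le]
  have hyy : y₁ + H = y₂ := by omega
  have hHm : (m : ℝ) ^ (1 / 2 : ℝ) ≤ H := by
    rw [hHc]
    refine le_trans ?_ hy3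
    rw [le_div_iff₀ (by positivity)]
    calc (m : ℝ) ^ (1 / 2 : ℝ) * Real.log m ^ A ≤ (m : ℝ) ^ (1 / 2 : ℝ) * (m : ℝ) ^ (1 / 2 : ℝ) :=
          mul_le_mul_of_nonneg_left g1 (by positivity)
      _ = m := by rw [← Real.rpow_add (by linarith)]; norm_num
  have h1 := h m ((le_max_left _ _).trans hm) h2m y₁ H hHm (by omega) (Reps m y₁ H) (Finset.Subset.refl _)
  have h2 := hw y₁ y₂ hy1 hy2 hy3
  rw [hHc] at h1
  obtain ⟨P, hP⟩ : ∃ P : ℝ, P = sing m * ((y₂ : ℝ) - y₁) / Real.log m ^ 2 := ⟨_, rfl⟩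
  rw [← hP] at h1 h2 ⊢
  have h3 : cnt m y₁ y₂ = (Reps m y₁ H).card := by
    unfold cnt Reps
    rw [hyy]
  have h4 : (Reps m y₁ H).card ≤ ((Reps m y₁ H).filter (fun p =>
      ¬ Org (F ∪ F.image (fun f => -f)) (Reps m y₁ H) (Real.log m ^ B) p)).card +
      pairs F (Real.log m ^ B) m y₁ y₂ := by
    rw [← Finset.card_filter_add_card_filter_not (s := Reps m y₁ H) (fun p =>
      ¬ Org (F ∪ F.image (fun f => -f)) (Reps m y₁ H) (Real.log m ^ B) p)]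
    apply Nat.add_le_add_left
    apply card_le_card
    intro p hp
    obtain ⟨h5, h6⟩ := mem_filter.1 hp
    rw [not_not] at h6
    have h7 := both_of_org F _ m y₁ H p h5 h6
    obtain ⟨h8, h9⟩ := mem_filter.1 h5
    rw [hyy] at h8
    exact mem_filter.2 ⟨h8, h9.1, h9.2, h7⟩
  have h5 : pairs F (Real.log m ^ B) m y₁ y₂ ≤ (Reps m y₁ H).card := by
    apply card_le_card
    intro p hp
    obtain ⟨h6, h7, h8, -⟩ := mem_filter.1 hp
    refine mem_filter.2 ⟨?_, h7, h8⟩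
    rwa [hyy]
  rw [h3] at h2
  have h4' : ((Reps m y₁ H).card : ℝ) ≤ (((Reps m y₁ H).filter (fun p =>
      ¬ Org (F ∪ F.image (fun f => -f)) (Reps m y₁ H) (Real.log m ^ B) p)).card : ℝ) +
      pairs F (Real.log m ^ B) m y₁ y₂ := by exact_mod_cast h4
  have h5' : (pairs F (Real.log m ^ B) m y₁ y₂ : ℝ) ≤ (Reps m y₁ H).card := by exact_mod_cast h5
  have hP0 : 0 ≤ P := by
    rw [hP]
    apply div_nonneg (mul_nonneg _ _) (by positivity)
    · linarith [sing_ge m, Pool.Agent.W93.GB.C2_pos]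
    · rw [← hHc]; positivity
  rw [abs_le] at h2 ⊢
  constructor
  · linarith
  · have : 0 ≤ ε * P := by positivity
    linarith

open Classical in
/-- almost all members of thin families -/
theorem main3 (F : Finset ℤ) (ε : ℝ) (hε : 0 < ε) (h K C A U : ℕ) (hh : 1 ≤ h) : ∃ B N₀ : ℕ, ∀ N : ℕ, N₀ ≤ N →
    ∀ (x : ℕ) (s : ℕ → ℕ), (∀ m ∈ Icc 1 x, s m ≤ K * N ∧ 2 ∣ s m) →
      (energy h x s : ℝ) * N ≤ Real.log N ^ C * (x : ℝ) ^ (2 * h) →
      (((Icc 1 x).filter (fun m => ¬ GoodN F ε A B (s m))).card : ℝ) ≤ x / Real.log N ^ U := by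
  obtain ⟨B, m₀, hB⟩ := good_of_win F ε hε A
  obtain ⟨N₀, hN₀⟩ := Pool.Agent.TH935.GF.fam_win h K C A U m₀ hh (ε / 2) (by positivity)
    (GoodN F ε A B) hB
  exact ⟨B, N₀, fun N hN x s hs hE => hN₀ N hN x s hs hE _ (filter_subset _ _)
    (fun m hm => (mem_filter.1 hm).2)⟩

theorem energy_two (x : ℕ) : energy 1 x (fun m => 2 * m) ≤ x := by
  classical
  unfold energy
  have h1 : ((Fintype.piFinset fun _ : Fin 1 => Icc 1 x) ×ˢ (Fintype.piFinset fun _ : Fin 1 => Icc 1 x)).filter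
      (fun q => ∑ i, 2 * q.1 i = ∑ i, 2 * q.2 i) ⊆
      (Icc 1 x).image (fun m => ((fun _ : Fin 1 => m), (fun _ : Fin 1 => m))) := by
    intro q hq
    obtain ⟨h2, h3⟩ := mem_filter.1 hq
    obtain ⟨h4, h5⟩ := mem_product.1 h2
    have h6 := Fintype.mem_piFinset.1 h4 0
    simp only [Fin.sum_univ_one] at h3
    refine mem_image.2 ⟨q.1 0, h6, ?_⟩
    refine Prod.ext ?_ ?_
    · funext i
      rw [Subsingleton.elim i 0]
    · funext i
      rw [Subsingleton.elim i 0]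
      show q.1 0 = q.2 0
      omega
  refine (card_le_card h1).trans (card_image_le.trans ?_)
  rw [Nat.card_Icc, Nat.add_sub_cancel]

open Classical in
/-- almost all even numbers -/
theorem main2 (F : Finset ℤ) (ε : ℝ) (hε : 0 < ε) (A U : ℕ) : ∃ B N₀ : ℕ, ∀ x : ℕ, N₀ ≤ x →
      (((Icc 1 x).filter (fun m => ¬ GoodN F ε A B (2 * m))).card : ℝ) ≤ x / Real.log x ^ U := by
  obtain ⟨B, N₀, h⟩ := main3 F ε hε 1 2 0 A U le_rfl
  refine ⟨B, N₀, fun x hx => h x hx x (fun m => 2 * m) (fun m hm => ⟨?_, Dvd.intro _ rfl⟩) ?_⟩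
  · exact Nat.mul_le_mul_left _ (mem_Icc.1 hm).2
  · rw [pow_zero, one_mul, Nat.mul_one, sq]
    apply mul_le_mul_of_nonneg_right _ (Nat.cast_nonneg _)
    exact_mod_cast energy_two x

end Pool.Agent.H95SD.Go
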