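import Pool.Agent.H95SD.Gold3

set_option autoImplicit false

open Finset Filter

namespace Pool.Agent.H95SD.Go

open Pool.Agent.H560R3.GB (sing C₂ energy)

theorem Both.mono {F : Finset ℤ} {D D' : ℝ} {p q : ℕ} (h : Both F D p q) (hD : D ≤ D') : Both F D' p q := by
  obtain ⟨d, h1, h2, h3⟩ := h
  exact ⟨d, h1, h2.trans hD, h3⟩

/-- a good number has a representation -/
theorem GoodN.rep {F : Finset ℤ} {B m : ℕ} (hm : 1 ≤ m) (h : GoodN F (1 / 2) 0 B (2 * m)) :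
    ∃ p q : ℕ, p.Prime ∧ q.Prime ∧ p + q = 2 * m ∧ Both F (Real.log ((2 * m : ℕ) : ℝ) ^ B) p q := by
  classical
  have h1 := h 0 (2 * m) (by omega) le_rfl (by rw [pow_zero, div_one]; push_cast; linarith)
  have hm' : (1 : ℝ) ≤ m := by exact_mod_cast hm
  have hl : 0 < Real.log ((2 * m : ℕ) : ℝ) := Real.log_pos (by push_cast; linarith)
  have hs : 0 < sing (2 * m) := by linarith [sing_ge (2 * m), Pool.Agent.W93.GB.C2_pos]
  have hP : 0 < sing (2 * m) * (((2 * m : ℕ) : ℝ) - ((0 : ℕ) : ℝ)) / Real.log ((2 * m : ℕ) : ℝ) ^ 2 := by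
    apply div_pos (mul_pos hs _) (by positivity)
    push_cast
    linarith
  rw [abs_le] at h1
  have h2 : (0 : ℝ) < (pairs F (Real.log ((2 * m : ℕ) : ℝ) ^ B) (2 * m) 0 (2 * m) : ℝ) := by linarith [h1.1]
  have h3 : 0 < pairs F (Real.log ((2 * m : ℕ) : ℝ) ^ B) (2 * m) 0 (2 * m) := by exact_mod_cast h2
  obtain ⟨p, hp⟩ := Finset.card_pos.1 h3
  obtain ⟨h4, h5, h6, h7⟩ := mem_filter.1 hp
  have h8 := (mem_Ioc.1 h4).2
  exact ⟨p, 2 * m - p, h5, h6, Nat.add_sub_cancel' h8, h7⟩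

/-- every large even number -/
theorem main4 (F : Finset ℤ) : ∃ B N₀ : ℕ, ∀ N : ℕ, N₀ ≤ N → 2 ∣ N →
    ∃ p q p' q' : ℕ, p.Prime ∧ q.Prime ∧ p'.Prime ∧ q'.Prime ∧ p + q + (p' + q') = N ∧
      Both F (Real.log N ^ B) p q ∧ Both F (Real.log N ^ B) p' q' := by
  classical
  obtain ⟨B, N₀, h⟩ := main2 F (1 / 2) (by norm_num) 0 1
  have hlog : ∀ᶠ M : ℕ in atTop, (5 : ℝ) ≤ Real.log M :=
    (Real.tendsto_log_atTop.comp tendsto_natCast_atTop_atTop).eventually_ge_atTop _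
  obtain ⟨M₀, hM₀⟩ := eventually_atTop.1 hlog
  refine ⟨B, 2 * (N₀ + M₀ + 10), fun N hN h2 => ?_⟩
  obtain ⟨M, rfl⟩ := h2
  have hMN : N₀ ≤ M := by omega
  have hM10 : 10 ≤ M := by omega
  have hb := h M hMN
  rw [pow_one] at hb
  obtain ⟨G, hG⟩ : ∃ G, G = (Icc 1 M).filter (fun m => ¬ GoodN F (1 / 2) 0 B (2 * m)) := ⟨_, rfl⟩
  rw [← hG] at hb
  have h5 := hM₀ M (by omega)
  have hMr : (10 : ℝ) ≤ M := by exact_mod_cast hM10
  have hGc : (G.card : ℝ) ≤ M / 5 := hb.trans (div_le_div_of_nonneg_left (by linarith) (by norm_num) h5)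
  have hex : ∃ m ∈ Icc 1 (M - 1), m ∉ G ∧ M - m ∉ G := by
    by_contra hcon
    push Not at hcon
    have hsub : Icc 1 (M - 1) ⊆ G ∪ G.image (fun m => M - m) := by
      intro m hm
      by_cases hmG : m ∈ G
      · exact mem_union_left _ hmG
      · have h6 := hcon m hm hmG
        refine mem_union_right _ (mem_image.2 ⟨M - m, h6, ?_⟩)
        have := mem_Icc.1 hm
        omega
    have h6 := (card_le_card hsub).trans (card_union_le _ _)
    have h7 := card_image_le (s := G) (f := fun m => M - m)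
    rw [Nat.card_Icc, Nat.add_sub_cancel] at h6
    have h8 : M - 1 ≤ 2 * G.card := by omega
    have h9 : ((M - 1 : ℕ) : ℝ) ≤ 2 * (G.card : ℝ) := by exact_mod_cast h8
    rw [Nat.cast_sub (by omega)] at h9
    push_cast at h9
    linarith
  obtain ⟨m, hm, hm1, hm2⟩ := hex
  obtain ⟨hma, hmb⟩ := mem_Icc.1 hm
  have g1 : GoodN F (1 / 2) 0 B (2 * m) := by
    by_contra hcon
    apply hm1
    rw [hG]
    exact mem_filter.2 ⟨mem_Icc.2 ⟨hma, by omega⟩, hcon⟩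
  have g2 : GoodN F (1 / 2) 0 B (2 * (M - m)) := by
    by_contra hcon
    apply hm2
    rw [hG]
    exact mem_filter.2 ⟨mem_Icc.2 ⟨by omega, by omega⟩, hcon⟩
  obtain ⟨p, q, hp, hq, hpq, hB⟩ := g1.rep hma
  obtain ⟨p', q', hp', hq', hpq', hB'⟩ := g2.rep (by omega)
  have hlm : ∀ k : ℕ, 1 ≤ k → k ≤ M →
      Real.log ((2 * k : ℕ) : ℝ) ^ B ≤ Real.log ((2 * M : ℕ) : ℝ) ^ B := by
    intro k hk hkM
    have hk' : (1 : ℝ) ≤ k := by exact_mod_cast hk
    have hkM' : (k : ℝ) ≤ M := by exact_mod_cast hkM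
    apply pow_le_pow_left₀ (Real.log_nonneg (by push_cast; linarith))
    apply Real.log_le_log (by push_cast; linarith)
    push_cast
    linarith
  exact ⟨p, q, p', q', hp, hq, hp', hq', by omega, hB.mono (hlm m hma (by omega)),
    hB'.mono (hlm (M - m) (by omega) (by omega))⟩

end Pool.Agent.H95SD.Go
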