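import Mathlib

/-!
# Bilinear forms with the matrix `χ (x + y)`: moments

For a finite set `I` of integers and a function `χ` the alternating products of the matrix `χ (x + y)` on `I × I`
and of its adjoint control all the bilinear forms.
-/

set_option autoImplicit false

open Finset

namespace Pool.Agent.H95SD.PG

/-- iterates of a vector -/
noncomputable def u (I : Finset ℕ) (χ v : ℕ → ℂ) : ℕ → ℕ → ℂ
  | 0, y => v y
  | k + 1, y => ∑ x ∈ I, (starRingEnd ℂ) (u I χ v k x) * χ (x + y)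

/-- the alternating product of `k` matrices -/
noncomputable def W (I : Finset ℕ) (χ : ℕ → ℂ) : ℕ → ℕ → ℕ → ℂ
  | 0, x, y => if x = y then 1 else 0
  | k + 1, x, y => ∑ z ∈ I, (starRingEnd ℂ) (W I χ k x z) * χ (z + y)

/-- the sum of the squared absolute values of the entries of the product -/
noncomputable def F (I : Finset ℕ) (χ : ℕ → ℂ) (k : ℕ) : ℝ := ∑ x ∈ I, ∑ y ∈ I, ‖W I χ k x y‖ ^ 2

/-- the norm of a vector -/
noncomputable def nr (I : Finset ℕ) (v : ℕ → ℂ) : ℝ := Real.sqrt (∑ x ∈ I, ‖v x‖ ^ 2)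

lemma nr_nonneg (I : Finset ℕ) (v : ℕ → ℂ) : 0 ≤ nr I v := Real.sqrt_nonneg _

lemma nr_sq (I : Finset ℕ) (v : ℕ → ℂ) : nr I v ^ 2 = ∑ x ∈ I, ‖v x‖ ^ 2 :=
  Real.sq_sqrt (Finset.sum_nonneg fun _ _ => sq_nonneg _)

lemma cs (I : Finset ℕ) (v w : ℕ → ℂ) : ‖∑ x ∈ I, v x * w x‖ ≤ nr I v * nr I w := by
  refine (norm_sum_le _ _).trans ?_
  simp only [norm_mul]
  exact Real.sum_mul_le_sqrt_mul_sqrt I (fun x => ‖v x‖) fun x => ‖w x‖

lemma nr_conj (I : Finset ℕ) (v : ℕ → ℂ) : nr I (fun x => (starRingEnd ℂ) (v x)) = nr I v := by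
  unfold nr
  simp only [RCLike.norm_conj]

lemma u_W (I : Finset ℕ) (χ v : ℕ → ℂ) (k : ℕ) : ∃ v' : ℕ → ℂ, (∀ x, ‖v' x‖ = ‖v x‖) ∧
    ∀ y ∈ I, u I χ v k y = ∑ x ∈ I, v' x * W I χ k x y := by
  induction k with
  | zero =>
    refine ⟨v, fun _ => rfl, fun y hy => ?_⟩
    simp only [u, W]
    rw [Finset.sum_eq_single_of_mem y hy]
    · simp
    · intro x _ hxy
      rw [if_neg hxy, mul_zero]
  | succ k ih =>
    obtain ⟨v', h1, h2⟩ := ih
    refine ⟨fun x => (starRingEnd ℂ) (v' x), fun x => by rw [RCLike.norm_conj, h1], fun y _ => ?_⟩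
    simp only [u, W]
    calc ∑ z ∈ I, (starRingEnd ℂ) (u I χ v k z) * χ (z + y)
        = ∑ z ∈ I, ∑ x ∈ I, (starRingEnd ℂ) (v' x) * ((starRingEnd ℂ) (W I χ k x z) * χ (z + y)) := by
          refine Finset.sum_congr rfl fun z hz => ?_
          rw [h2 z hz, map_sum, Finset.sum_mul]
          refine Finset.sum_congr rfl fun x _ => ?_
          rw [map_mul]
          ring
      _ = ∑ x ∈ I, ∑ z ∈ I, (starRingEnd ℂ) (v' x) * ((starRingEnd ℂ) (W I χ k x z) * χ (z + y)) :=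
          Finset.sum_comm
      _ = _ := by
          refine Finset.sum_congr rfl fun x _ => ?_
          rw [Finset.mul_sum]

lemma u_le (I : Finset ℕ) (χ v : ℕ → ℂ) (k : ℕ) : nr I (u I χ v k) ^ 2 ≤ F I χ k * nr I v ^ 2 := by
  obtain ⟨v', h1, h2⟩ := u_W I χ v k
  have hv : nr I v' = nr I v := by
    unfold nr
    simp only [h1]
  rw [nr_sq]
  calc ∑ y ∈ I, ‖u I χ v k y‖ ^ 2 ≤ ∑ y ∈ I, nr I v ^ 2 * ∑ x ∈ I, ‖W I χ k x y‖ ^ 2 := by
        refine Finset.sum_le_sum fun y hy => ?_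
        rw [h2 y hy]
        have h3 := cs I v' (fun x => W I χ k x y)
        have h4 := pow_le_pow_left₀ (norm_nonneg _) h3 2
        rw [mul_pow, hv, nr_sq I (fun x => W I χ k x y)] at h4
        exact h4
    _ = F I χ k * nr I v ^ 2 := by
        rw [← Finset.mul_sum, Finset.sum_comm, F]
        ring

lemma convex (I : Finset ℕ) (χ v : ℕ → ℂ) (k : ℕ) :
    nr I (u I χ v (k + 1)) ^ 2 ≤ nr I (u I χ v k) * nr I (u I χ v (k + 2)) := by
  have h1 : ((nr I (u I χ v (k + 1)) ^ 2 : ℝ) : ℂ) =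
      ∑ x ∈ I, (starRingEnd ℂ) (u I χ v k x) * u I χ v (k + 2) x := by
    rw [nr_sq]
    push_cast
    have h2 : ∀ y : ℕ, ((‖u I χ v (k + 1) y‖ : ℝ) : ℂ) ^ 2 =
        ∑ x ∈ I, (starRingEnd ℂ) (u I χ v k x) * (χ (x + y) * (starRingEnd ℂ) (u I χ v (k + 1) y)) := by
      intro y
      have h3 : ((‖u I χ v (k + 1) y‖ : ℝ) : ℂ) ^ 2 = u I χ v (k + 1) y * (starRingEnd ℂ) (u I χ v (k + 1) y) := by
        rw [Complex.mul_conj, Complex.normSq_eq_norm_sq]
        push_cast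
        rfl
      have hu : u I χ v (k + 1) y = ∑ x ∈ I, (starRingEnd ℂ) (u I χ v k x) * χ (x + y) := rfl
      rw [h3]
      nth_rewrite 1 [hu]
      rw [Finset.sum_mul]
      refine Finset.sum_congr rfl fun x _ => ?_
      ring
    rw [Finset.sum_congr rfl fun y _ => h2 y, Finset.sum_comm]
    refine Finset.sum_congr rfl fun x _ => ?_
    rw [← Finset.mul_sum]
    congr 1
    have hu : u I χ v (k + 2) x = ∑ y ∈ I, (starRingEnd ℂ) (u I χ v (k + 1) y) * χ (y + x) := rfl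
    rw [hu]
    refine Finset.sum_congr rfl fun y _ => ?_
    rw [add_comm x y]
    ring
  have h2 : nr I (u I χ v (k + 1)) ^ 2 = ‖((nr I (u I χ v (k + 1)) ^ 2 : ℝ) : ℂ)‖ := by
    rw [Complex.norm_real, Real.norm_eq_abs, abs_of_nonneg (sq_nonneg _)]
  rw [h2, h1]
  refine (cs I _ _).trans ?_
  rw [nr_conj]

lemma logconv {a : ℕ → ℝ} (h0 : ∀ k, 0 ≤ a k) (h : ∀ k, a (k + 1) ^ 2 ≤ a k * a (k + 2)) (k : ℕ) :
    a 1 ^ (k + 1) ≤ a 0 ^ k * a (k + 1) := by
  have h1 : ∀ i, a 1 * a i ≤ a 0 * a (i + 1) := by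
    intro i
    induction i with
    | zero => rw [mul_comm]
    | succ i ih =>
      rcases (h0 (i + 1)).eq_or_lt with h2 | h2
      · rw [← h2, mul_zero]
        exact mul_nonneg (h0 _) (h0 _)
      · have h3 := mul_le_mul_of_nonneg_left (h i) (h0 1)
        have h4 := mul_le_mul_of_nonneg_right ih (h0 (i + 2))
        have h5 : (a 1 * a (i + 1)) * a (i + 1) ≤ (a 0 * a (i + 1 + 1)) * a (i + 1) := by
          calc (a 1 * a (i + 1)) * a (i + 1) = a 1 * a (i + 1) ^ 2 := by ring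
            _ ≤ a 1 * (a i * a (i + 2)) := h3
            _ = a 1 * a i * a (i + 2) := by ring
            _ ≤ a 0 * a (i + 1) * a (i + 2) := h4
            _ = (a 0 * a (i + 1 + 1)) * a (i + 1) := by ring
        exact le_of_mul_le_mul_right h5 h2
  induction k with
  | zero => simp
  | succ k ih =>
    calc a 1 ^ (k + 1 + 1) = a 1 ^ (k + 1) * a 1 := pow_succ _ _
      _ ≤ (a 0 ^ k * a (k + 1)) * a 1 := mul_le_mul_of_nonneg_right ih (h0 1)
      _ = a 0 ^ k * (a 1 * a (k + 1)) := by ring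
      _ ≤ a 0 ^ k * (a 0 * a (k + 1 + 1)) := mul_le_mul_of_nonneg_left (h1 (k + 1)) (pow_nonneg (h0 0) k)
      _ = a 0 ^ (k + 1) * a (k + 1 + 1) := by ring

/-- **bilinear forms are controlled by the moments** -/
theorem bilinear (I : Finset ℕ) (χ f g : ℕ → ℂ) {k : ℕ} (hk : 1 ≤ k) :
    ‖∑ x ∈ I, ∑ y ∈ I, f x * g y * χ (x + y)‖ ^ (2 * k) ≤ F I χ k * (nr I f * nr I g) ^ (2 * k) := by
  obtain ⟨k, rfl⟩ : ∃ j, k = j + 1 := ⟨k - 1, by omega⟩
  set v : ℕ → ℂ := fun x => (starRingEnd ℂ) (f x) with hv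
  have hv0 : nr I v = nr I f := nr_conj I f
  set a : ℕ → ℝ := fun j => nr I (u I χ v j) with ha
  have ha0 : ∀ j, 0 ≤ a j := fun j => nr_nonneg _ _
  have h1 : ‖∑ x ∈ I, ∑ y ∈ I, f x * g y * χ (x + y)‖ ≤ nr I g * a 1 := by
    have e : ∑ x ∈ I, ∑ y ∈ I, f x * g y * χ (x + y) = ∑ y ∈ I, g y * u I χ v 1 y := by
      rw [Finset.sum_comm]
      refine Finset.sum_congr rfl fun y _ => ?_
      simp only [u, hv, Complex.conj_conj]
      rw [Finset.mul_sum]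
      refine Finset.sum_congr rfl fun x _ => ?_
      ring
    rw [e]
    exact cs I g _
  have h2 := logconv ha0 (fun j => convex I χ v j) k
  have h3 : a (k + 1) ^ 2 ≤ F I χ (k + 1) * a 0 ^ 2 := u_le I χ v (k + 1)
  have h4 : a 0 = nr I f := hv0
  calc ‖∑ x ∈ I, ∑ y ∈ I, f x * g y * χ (x + y)‖ ^ (2 * (k + 1)) ≤ (nr I g * a 1) ^ (2 * (k + 1)) :=
        pow_le_pow_left₀ (norm_nonneg _) h1 _
    _ = nr I g ^ (2 * (k + 1)) * (a 1 ^ (k + 1)) ^ 2 := by
        rw [mul_pow, ← pow_mul]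
        congr 2
        ring
    _ ≤ nr I g ^ (2 * (k + 1)) * (a 0 ^ k * a (k + 1)) ^ 2 :=
        mul_le_mul_of_nonneg_left (pow_le_pow_left₀ (pow_nonneg (ha0 1) _) h2 2) (pow_nonneg (nr_nonneg _ _) _)
    _ = nr I g ^ (2 * (k + 1)) * (a 0 ^ (2 * k) * a (k + 1) ^ 2) := by ring
    _ ≤ nr I g ^ (2 * (k + 1)) * (a 0 ^ (2 * k) * (F I χ (k + 1) * a 0 ^ 2)) :=
        mul_le_mul_of_nonneg_left (mul_le_mul_of_nonneg_left h3 (pow_nonneg (ha0 0) _))
          (pow_nonneg (nr_nonneg _ _) _)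
    _ = F I χ (k + 1) * (nr I f * nr I g) ^ (2 * (k + 1)) := by
        rw [h4]
        ring

end Pool.Agent.H95SD.PG
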