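import Pool.Agent.H95SD.PG1

/-!
# Bilinear forms with the matrix `χ (x + y)`: expansion of the moments

For a completely multiplicative `χ` the entries of the alternating products are finite sums
`∑ d(n, m) χ(n) conj χ(m)`, and for given `x`, `n`, `m` there are few walks.
-/

set_option autoImplicit false

open Finset

namespace Pool.Agent.H95SD.PG

/-- the number of the walks of length `k` from `x` to `y` with given products of the edges of both kinds -/
def d (N : ℕ) : ℕ → ℕ → ℕ → ℕ → ℕ → ℕ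
  | 0, x, y, n, m => if x = y ∧ n = 1 ∧ m = 1 then 1 else 0
  | k + 1, x, y, n, m => ∑ z ∈ Icc 1 N, if (z + y) ∣ n then d N k x z m (n / (z + y)) else 0

lemma d_supp (N k : ℕ) : ∀ x y n m : ℕ, y ≤ N → d N k x y n m ≠ 0 → 1 ≤ n ∧ 1 ≤ m ∧ n * m ≤ (2 * N) ^ k := by
  induction k with
  | zero =>
    intro x y n m _ h
    simp only [d] at h
    have h1 : x = y ∧ n = 1 ∧ m = 1 := by
      by_contra hc
      exact h (if_neg hc)
    rw [h1.2.1, h1.2.2]
    simp
  | succ k ih =>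
    intro x y n m hy h
    simp only [d] at h
    obtain ⟨z, hz, hz2⟩ := Finset.exists_ne_zero_of_sum_ne_zero h
    rw [mem_Icc] at hz
    have hdvd : (z + y) ∣ n := by
      by_contra hc
      exact hz2 (if_neg hc)
    rw [if_pos hdvd] at hz2
    obtain ⟨h1, h2, h3⟩ := ih x z m (n / (z + y)) hz.2 hz2
    have h4 : n = (z + y) * (n / (z + y)) := (Nat.mul_div_cancel' hdvd).symm
    refine ⟨?_, h1, ?_⟩
    · by_contra hc
      have : n = 0 := by omega
      rw [this] at h2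
      simp at h2
    · rw [h4, pow_succ]
      calc (z + y) * (n / (z + y)) * m = (m * (n / (z + y))) * (z + y) := by ring
        _ ≤ (2 * N) ^ k * (2 * N) := Nat.mul_le_mul h3 (by omega)

lemma d_sum (N k T Z : ℕ) (hT : ∀ e : ℕ, 1 ≤ e → e ≤ Z → e.divisors.card ≤ T) :
    ∀ x n m : ℕ, n ≤ Z → m ≤ Z → ∑ y ∈ Icc 1 N, d N k x y n m ≤ T ^ k := by
  induction k with
  | zero =>
    intro x n m _ _
    simp only [d, pow_zero]
    calc ∑ y ∈ Icc 1 N, (if x = y ∧ n = 1 ∧ m = 1 then 1 else 0) ≤ ∑ y ∈ Icc 1 N, if x = y then 1 else 0 := by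
          refine Finset.sum_le_sum fun y _ => ?_
          split_ifs with h1 h2
          · exact le_rfl
          · exact absurd h1.1 h2
          · exact Nat.zero_le _
          · exact le_rfl
      _ ≤ 1 := by
          rw [Finset.sum_ite_eq]
          split_ifs <;> norm_num
  | succ k ih =>
    intro x n m hn hm
    rcases Nat.eq_zero_or_pos n with h0 | h0
    · have : ∑ y ∈ Icc 1 N, d N (k + 1) x y n m = 0 := by
        refine Finset.sum_eq_zero fun y hy => ?_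
        by_contra hc
        have := (d_supp N (k + 1) x y n m (mem_Icc.1 hy).2 hc).1
        omega
      rw [this]
      exact Nat.zero_le _
    simp only [d]
    rw [Finset.sum_comm]
    calc ∑ z ∈ Icc 1 N, ∑ y ∈ Icc 1 N, (if (z + y) ∣ n then d N k x z m (n / (z + y)) else 0)
        ≤ ∑ z ∈ Icc 1 N, ∑ e ∈ n.divisors, d N k x z m (n / e) := by
          refine Finset.sum_le_sum fun z _ => ?_
          rw [← Finset.sum_filter]
          calc ∑ y ∈ (Icc 1 N).filter (fun y => (z + y) ∣ n), d N k x z m (n / (z + y))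
              = ∑ e ∈ ((Icc 1 N).filter (fun y => (z + y) ∣ n)).image (fun y => z + y), d N k x z m (n / e) := by
                rw [Finset.sum_image]
                intro a _ b _ hab
                have : z + a = z + b := hab
                omega
            _ ≤ _ := by
                refine Finset.sum_le_sum_of_subset ?_
                intro e he
                rw [mem_image] at he
                obtain ⟨y, hy, rfl⟩ := he
                rw [mem_filter] at hy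
                exact Nat.mem_divisors.2 ⟨hy.2, by omega⟩
      _ = ∑ e ∈ n.divisors, ∑ z ∈ Icc 1 N, d N k x z m (n / e) := Finset.sum_comm
      _ ≤ ∑ _e ∈ n.divisors, T ^ k :=
          Finset.sum_le_sum fun e _ => ih x m (n / e) hm ((Nat.div_le_self _ _).trans hn)
      _ = n.divisors.card * T ^ k := by rw [Finset.sum_const, smul_eq_mul]
      _ ≤ T * T ^ k := Nat.mul_le_mul_right _ (hT n h0 hn)
      _ = T ^ (k + 1) := by ring

/-- the entries of the products as Dirichlet polynomials -/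
theorem W_eq (N : ℕ) (χ : ℕ → ℂ) (h1 : χ 1 = 1) (hm : ∀ a b : ℕ, χ (a * b) = χ a * χ b) (k : ℕ) :
    ∀ Z : ℕ, (2 * N) ^ k ≤ Z → ∀ x y : ℕ, y ∈ Icc 1 N → W (Icc 1 N) χ k x y =
      ∑ n ∈ Icc 1 Z, ∑ m ∈ Icc 1 Z, (d N k x y n m : ℂ) * (χ n * (starRingEnd ℂ) (χ m)) := by
  induction k with
  | zero =>
    intro Z hZ x y _
    simp only [W, d]
    rw [pow_zero] at hZ
    have h1Z : 1 ∈ Icc 1 Z := mem_Icc.2 ⟨le_rfl, hZ⟩
    rw [Finset.sum_eq_single_of_mem 1 h1Z, Finset.sum_eq_single_of_mem 1 h1Z]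
    · rw [h1]
      split_ifs with h2 h3 h3
      · simp
      · exact absurd ⟨h2, rfl, rfl⟩ h3
      · exact absurd h3.1 h2
      · simp
    · intro m _ hm1
      rw [if_neg (fun h => hm1 h.2.2)]
      simp
    · intro n _ hn1
      refine Finset.sum_eq_zero fun m _ => ?_
      rw [if_neg (fun h => hn1 h.2.1)]
      simp
  | succ k ih =>
    intro Z hZ x y hy
    rw [mem_Icc] at hy
    have hN1 : 1 ≤ 2 * N := by omega
    have hZ' : (2 * N) ^ k ≤ Z := (Nat.pow_le_pow_right hN1 (Nat.le_succ k)).trans hZ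
    have e1 : W (Icc 1 N) χ (k + 1) x y = ∑ z ∈ Icc 1 N, ∑ m ∈ Icc 1 Z, ∑ j ∈ Icc 1 Z,
        (d N k x z m j : ℂ) * (χ ((z + y) * j) * (starRingEnd ℂ) (χ m)) := by
      simp only [W]
      refine Finset.sum_congr rfl fun z hz => ?_
      rw [ih Z hZ' x z hz, map_sum, Finset.sum_mul]
      refine Finset.sum_congr rfl fun m _ => ?_
      rw [map_sum, Finset.sum_mul]
      refine Finset.sum_congr rfl fun j _ => ?_
      rw [hm, map_mul, map_mul, Complex.conj_conj, Complex.conj_natCast]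
      ring
    have e2 : ∀ n m : ℕ, (d N (k + 1) x y n m : ℂ) = ∑ z ∈ Icc 1 N,
        if (z + y) ∣ n then (d N k x z m (n / (z + y)) : ℂ) else 0 := by
      intro n m
      simp only [d]
      push_cast
      rfl
    rw [e1]
    simp only [e2, Finset.sum_mul]
    rw [Finset.sum_comm' (t' := Icc 1 Z) (s' := fun _ => Icc 1 N) (by simp)]
    rw [Finset.sum_comm (s := Icc 1 Z) (t := Icc 1 Z)]
    refine Finset.sum_congr rfl fun m _ => ?_
    rw [Finset.sum_comm (s := Icc 1 Z) (t := Icc 1 N)]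
    refine Finset.sum_congr rfl fun z hz => ?_
    rw [mem_Icc] at hz
    have hzy : 0 < z + y := by omega
    -- the terms with `j ≤ Z / (z + y)`
    have h3 : ∑ j ∈ Icc 1 Z, (d N k x z m j : ℂ) * (χ ((z + y) * j) * (starRingEnd ℂ) (χ m)) =
        ∑ j ∈ Icc 1 (Z / (z + y)), (d N k x z m j : ℂ) * (χ ((z + y) * j) * (starRingEnd ℂ) (χ m)) := by
      symm
      refine Finset.sum_subset (Icc_subset_Icc_right (Nat.div_le_self _ _)) fun j hj hj' => ?_
      rw [mem_Icc] at hj hj'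
      have h4 : d N k x z m j = 0 := by
        by_contra hc
        obtain ⟨h5, h6, h7⟩ := d_supp N k x z m j hz.2 hc
        apply hj'
        refine ⟨hj.1, ?_⟩
        rw [Nat.le_div_iff_mul_le hzy]
        calc j * (z + y) ≤ (m * j) * (2 * N) := Nat.mul_le_mul (Nat.le_mul_of_pos_left j h5) (by omega)
          _ ≤ (2 * N) ^ k * (2 * N) := Nat.mul_le_mul_right _ h7
          _ = (2 * N) ^ (k + 1) := (pow_succ _ _).symm
          _ ≤ Z := hZ
      rw [h4]
      simp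
    rw [h3]
    have h5 : ∀ n : ℕ, (if (z + y) ∣ n then (d N k x z m (n / (z + y)) : ℂ) else 0) *
        (χ n * (starRingEnd ℂ) (χ m)) = if (z + y) ∣ n then (d N k x z m (n / (z + y)) : ℂ) *
          (χ n * (starRingEnd ℂ) (χ m)) else 0 := by
      intro n
      split_ifs
      · rfl
      · rw [zero_mul]
    rw [Finset.sum_congr rfl fun n _ => h5 n, ← Finset.sum_filter]
    refine Finset.sum_nbij' (fun j => (z + y) * j) (fun n => n / (z + y)) ?_ ?_ ?_ ?_ ?_
    · intro j hj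
      rw [mem_Icc] at hj
      rw [mem_filter, mem_Icc]
      refine ⟨⟨Nat.mul_pos hzy hj.1, ?_⟩, dvd_mul_right _ _⟩
      have := (Nat.le_div_iff_mul_le hzy).1 hj.2
      rw [mul_comm]
      exact this
    · intro n hn
      rw [mem_filter, mem_Icc] at hn
      rw [mem_Icc]
      obtain ⟨⟨h6, h7⟩, ⟨j, rfl⟩⟩ := hn
      rw [Nat.mul_div_cancel_left j hzy]
      refine ⟨?_, ?_⟩
      · rcases Nat.eq_zero_or_pos j with h | h
        · rw [h] at h6
          simp at h6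
        · exact h
      · rw [Nat.le_div_iff_mul_le hzy, mul_comm]
        exact h7
    · intro j _
      exact Nat.mul_div_cancel_left j hzy
    · intro n hn
      rw [mem_filter] at hn
      exact Nat.mul_div_cancel' hn.2
    · intro j _
      rw [Nat.mul_div_cancel_left j hzy]

/-- the pairs `(n, m)` with product at most `Z` -/
def PP (Z : ℕ) : Finset (ℕ × ℕ) := ((Icc 1 Z) ×ˢ (Icc 1 Z)).filter fun p => p.1 * p.2 ≤ Z

lemma d_pair (N k T Z : ℕ) (hT : ∀ e : ℕ, 1 ≤ e → e ≤ Z → e.divisors.card ≤ T) {s s' : ℕ × ℕ}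
    (hs : s ∈ (Icc 1 Z) ×ˢ (Icc 1 Z)) (hs' : s' ∈ (Icc 1 Z) ×ˢ (Icc 1 Z)) :
    ∑ x ∈ Icc 1 N, ∑ y ∈ Icc 1 N, d N k x y s.1 s.2 * d N k x y s'.1 s'.2 ≤ N * T ^ (2 * k) := by
  rw [mem_product, mem_Icc, mem_Icc] at hs hs'
  calc ∑ x ∈ Icc 1 N, ∑ y ∈ Icc 1 N, d N k x y s.1 s.2 * d N k x y s'.1 s'.2
      ≤ ∑ x ∈ Icc 1 N, ∑ y ∈ Icc 1 N, d N k x y s.1 s.2 * T ^ k := by
        refine Finset.sum_le_sum fun x _ => Finset.sum_le_sum fun y hy => Nat.mul_le_mul_left _ ?_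
        refine le_trans ?_ (d_sum N k T Z hT x s'.1 s'.2 hs'.1.2 hs'.2.2)
        exact Finset.single_le_sum (f := fun y => d N k x y s'.1 s'.2) (fun _ _ => Nat.zero_le _) hy
    _ = ∑ x ∈ Icc 1 N, (∑ y ∈ Icc 1 N, d N k x y s.1 s.2) * T ^ k := by
        refine Finset.sum_congr rfl fun x _ => ?_
        rw [Finset.sum_mul]
    _ ≤ ∑ _x ∈ Icc 1 N, T ^ k * T ^ k := Finset.sum_le_sum fun x _ =>
        Nat.mul_le_mul_right _ (d_sum N k T Z hT x s.1 s.2 hs.1.2 hs.2.2)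
    _ = N * T ^ (2 * k) := by
        rw [Finset.sum_const, Nat.card_Icc, smul_eq_mul, ← pow_add, two_mul]
        simp

/-- **the moments over a family of completely multiplicative functions** -/
theorem moments {ι : Type} (Ω : Finset ι) (χ : ι → ℕ → ℂ) (h1 : ∀ ω ∈ Ω, χ ω 1 = 1)
    (hm : ∀ ω ∈ Ω, ∀ a b : ℕ, χ ω (a * b) = χ ω a * χ ω b) (N k T : ℕ)
    (hT : ∀ e : ℕ, 1 ≤ e → e ≤ (2 * N) ^ k → e.divisors.card ≤ T) :
    ∑ ω ∈ Ω, F (Icc 1 N) (χ ω) k ≤ N * (T : ℝ) ^ (2 * k) *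
      ∑ s ∈ PP ((2 * N) ^ k), ∑ s' ∈ PP ((2 * N) ^ k),
        ‖∑ ω ∈ Ω, χ ω (s.1 * s'.2) * (starRingEnd ℂ) (χ ω (s.2 * s'.1))‖ := by
  set Z : ℕ := (2 * N) ^ k with hZ
  set B : Finset (ℕ × ℕ) := (Icc 1 Z) ×ˢ (Icc 1 Z) with hB
  set Γ : ℕ × ℕ → ℕ × ℕ → ℂ := fun s s' => ∑ ω ∈ Ω, χ ω (s.1 * s'.2) * (starRingEnd ℂ) (χ ω (s.2 * s'.1)) with hΓ
  have hW : ∀ ω ∈ Ω, ∀ x y : ℕ, y ∈ Icc 1 N → W (Icc 1 N) (χ ω) k x y =
      ∑ s ∈ B, (d N k x y s.1 s.2 : ℂ) * (χ ω s.1 * (starRingEnd ℂ) (χ ω s.2)) := by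
    intro ω hω x y hy
    rw [W_eq N (χ ω) (h1 ω hω) (hm ω hω) k Z le_rfl x y hy, hB, Finset.sum_product]
  have hF : ((∑ ω ∈ Ω, F (Icc 1 N) (χ ω) k : ℝ) : ℂ) =
      ∑ x ∈ Icc 1 N, ∑ y ∈ Icc 1 N, ∑ s ∈ B, ∑ s' ∈ B,
        ((d N k x y s.1 s.2 * d N k x y s'.1 s'.2 : ℕ) : ℂ) * Γ s s' := by
    push_cast
    have e1 : ∀ ω ∈ Ω, (F (Icc 1 N) (χ ω) k : ℂ) = ∑ x ∈ Icc 1 N, ∑ y ∈ Icc 1 N, ∑ s ∈ B, ∑ s' ∈ B,
        ((d N k x y s.1 s.2 : ℂ) * (d N k x y s'.1 s'.2 : ℂ)) *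
          (χ ω (s.1 * s'.2) * (starRingEnd ℂ) (χ ω (s.2 * s'.1))) := by
      intro ω hω
      unfold F
      push_cast
      refine Finset.sum_congr rfl fun x _ => Finset.sum_congr rfl fun y hy => ?_
      have e2 : ((‖W (Icc 1 N) (χ ω) k x y‖ : ℝ) : ℂ) ^ 2 =
          W (Icc 1 N) (χ ω) k x y * (starRingEnd ℂ) (W (Icc 1 N) (χ ω) k x y) := by
        rw [Complex.mul_conj, Complex.normSq_eq_norm_sq]
        push_cast
        rfl
      rw [e2, hW ω hω x y hy, map_sum, Finset.sum_mul_sum]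
      refine Finset.sum_congr rfl fun s _ => Finset.sum_congr rfl fun s' _ => ?_
      rw [hm ω hω, hm ω hω]
      simp only [map_mul, Complex.conj_conj, Complex.conj_natCast]
      ring
    rw [Finset.sum_congr rfl e1, Finset.sum_comm]
    refine Finset.sum_congr rfl fun x _ => ?_
    rw [Finset.sum_comm]
    refine Finset.sum_congr rfl fun y _ => ?_
    rw [Finset.sum_comm]
    refine Finset.sum_congr rfl fun s _ => ?_
    rw [Finset.sum_comm]
    refine Finset.sum_congr rfl fun s' _ => ?_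
    rw [hΓ, Finset.mul_sum]
  have hF0 : 0 ≤ ∑ ω ∈ Ω, F (Icc 1 N) (χ ω) k := Finset.sum_nonneg fun ω _ =>
    Finset.sum_nonneg fun x _ => Finset.sum_nonneg fun y _ => sq_nonneg _
  have h2 : ∑ ω ∈ Ω, F (Icc 1 N) (χ ω) k = ‖((∑ ω ∈ Ω, F (Icc 1 N) (χ ω) k : ℝ) : ℂ)‖ := by
    rw [Complex.norm_real, Real.norm_eq_abs, abs_of_nonneg hF0]
  rw [h2, hF]
  calc ‖∑ x ∈ Icc 1 N, ∑ y ∈ Icc 1 N, ∑ s ∈ B, ∑ s' ∈ B,
        ((d N k x y s.1 s.2 * d N k x y s'.1 s'.2 : ℕ) : ℂ) * Γ s s'‖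
      ≤ ∑ x ∈ Icc 1 N, ∑ y ∈ Icc 1 N, ∑ s ∈ B, ∑ s' ∈ B,
        ((d N k x y s.1 s.2 * d N k x y s'.1 s'.2 : ℕ) : ℝ) * ‖Γ s s'‖ := by
        refine (norm_sum_le _ _).trans (Finset.sum_le_sum fun x _ => (norm_sum_le _ _).trans
          (Finset.sum_le_sum fun y _ => (norm_sum_le _ _).trans (Finset.sum_le_sum fun s _ =>
            (norm_sum_le _ _).trans (Finset.sum_le_sum fun s' _ => ?_))))
        rw [norm_mul, Complex.norm_natCast]
    _ = ∑ s ∈ B, ∑ s' ∈ B, ((∑ x ∈ Icc 1 N, ∑ y ∈ Icc 1 N,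
        d N k x y s.1 s.2 * d N k x y s'.1 s'.2 : ℕ) : ℝ) * ‖Γ s s'‖ := by
        have e1 : ∀ x ∈ Icc 1 N, ∑ y ∈ Icc 1 N, ∑ s ∈ B, ∑ s' ∈ B,
            ((d N k x y s.1 s.2 * d N k x y s'.1 s'.2 : ℕ) : ℝ) * ‖Γ s s'‖ =
            ∑ s ∈ B, ∑ s' ∈ B, ∑ y ∈ Icc 1 N,
            ((d N k x y s.1 s.2 * d N k x y s'.1 s'.2 : ℕ) : ℝ) * ‖Γ s s'‖ := by
          intro x _
          rw [Finset.sum_comm]
          refine Finset.sum_congr rfl fun s _ => ?_
          rw [Finset.sum_comm]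
        rw [Finset.sum_congr rfl e1, Finset.sum_comm]
        refine Finset.sum_congr rfl fun s _ => ?_
        rw [Finset.sum_comm]
        refine Finset.sum_congr rfl fun s' _ => ?_
        push_cast
        rw [Finset.sum_mul]
        refine Finset.sum_congr rfl fun x _ => ?_
        rw [Finset.sum_mul]
    _ = ∑ s ∈ PP Z, ∑ s' ∈ PP Z, ((∑ x ∈ Icc 1 N, ∑ y ∈ Icc 1 N,
        d N k x y s.1 s.2 * d N k x y s'.1 s'.2 : ℕ) : ℝ) * ‖Γ s s'‖ := by
        have hz : ∀ s : ℕ × ℕ, s ∈ B → s ∉ PP Z → ∀ x ∈ Icc 1 N, ∀ y ∈ Icc 1 N, d N k x y s.1 s.2 = 0 := by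
          intro s hs hs' x _ y hy
          by_contra hc
          obtain ⟨_, _, h5⟩ := d_supp N k x y s.1 s.2 (mem_Icc.1 hy).2 hc
          exact hs' (mem_filter.2 ⟨hs, h5⟩)
        symm
        have hsub : PP Z ⊆ B := Finset.filter_subset _ _
        rw [← Finset.sum_subset hsub]
        · refine Finset.sum_congr rfl fun s _ => ?_
          rw [← Finset.sum_subset hsub]
          intro s' hs' hs'2
          rw [Finset.sum_eq_zero (s := Icc 1 N) fun x hx => Finset.sum_eq_zero fun y hy => by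
            rw [hz s' hs' hs'2 x hx y hy, mul_zero]]
          simp
        · intro s hs hs2
          refine Finset.sum_eq_zero fun s' _ => ?_
          rw [Finset.sum_eq_zero (s := Icc 1 N) fun x hx => Finset.sum_eq_zero fun y hy => by
            rw [hz s hs hs2 x hx y hy, zero_mul]]
          simp
    _ ≤ ∑ s ∈ PP Z, ∑ s' ∈ PP Z, (N * (T : ℝ) ^ (2 * k)) * ‖Γ s s'‖ := by
        refine Finset.sum_le_sum fun s hs => Finset.sum_le_sum fun s' hs' =>
          mul_le_mul_of_nonneg_right ?_ (norm_nonneg _)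
        have := d_pair N k T Z hT (mem_filter.1 hs).1 (mem_filter.1 hs').1
        exact_mod_cast this
    _ = _ := by
        rw [Finset.mul_sum]
        refine Finset.sum_congr rfl fun s _ => ?_
        rw [Finset.mul_sum]

end Pool.Agent.H95SD.PG
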