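import Pool.Agent.H95SD.PG2
import Pool.Agent.H95SD.GC5
import Pool.Agent.Helper919.Char

/-!
# Bilinear forms with the matrix `χ (x + y)`: the family of the Jacobi symbols and the family of all characters
-/

set_option autoImplicit false

open Finset

namespace Pool.Agent.H95SD.PG

open Pool.Agent.Helper919 (XX XX_apply XX_sum_bound XX_abs_le)

/-! ### counting -/

lemma PP_card (Z T : ℕ) (hT : ∀ e : ℕ, 1 ≤ e → e ≤ Z → e.divisors.card ≤ T) : (PP Z).card ≤ T * Z := by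
  have h1 : (PP Z).card ≤ T * (Icc 1 Z).card := by
    refine Finset.card_le_mul_card_image_of_maps_to (f := fun p : ℕ × ℕ => p.1 * p.2) ?_ T ?_
    · intro p hp
      rw [PP, mem_filter, mem_product, mem_Icc, mem_Icc] at hp
      exact mem_Icc.2 ⟨Nat.mul_pos hp.1.1.1 hp.1.2.1, hp.2⟩
    · intro a ha
      rw [mem_Icc] at ha
      refine le_trans ?_ (hT a ha.1 ha.2)
      refine Finset.card_le_card_of_injOn (fun p : ℕ × ℕ => p.1) ?_ ?_
      · intro p hp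
        rw [mem_coe, mem_filter] at hp
        rw [mem_coe, Nat.mem_divisors]
        exact ⟨⟨p.2, hp.2.symm⟩, by omega⟩
      · intro p hp p' hp' h
        rw [mem_coe, mem_filter, PP, mem_filter, mem_product, mem_Icc, mem_Icc] at hp hp'
        have h1 : p.1 = p'.1 := h
        have h2 : p.1 * p.2 = p.1 * p'.2 := by rw [hp.2, h1, hp'.2]
        exact Prod.ext h1 (Nat.eq_of_mul_eq_mul_left hp.1.1.1.1 h2)
  simpa using h1

/-- quadruples with equal cross products -/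
lemma eq_card (Z T : ℕ) (hT : ∀ e : ℕ, 1 ≤ e → e ≤ Z → e.divisors.card ≤ T) :
    ((PP Z ×ˢ PP Z).filter fun x => x.1.1 * x.2.2 = x.1.2 * x.2.1).card ≤ T ^ 2 * Z := by
  have h1 : ((PP Z ×ˢ PP Z).filter fun x => x.1.1 * x.2.2 = x.1.2 * x.2.1).card ≤ T ^ 2 * (Icc 1 Z).card := by
    refine Finset.card_le_mul_card_image_of_maps_to
      (f := fun x : (ℕ × ℕ) × (ℕ × ℕ) => x.1.1 * x.2.2) ?_ (T ^ 2) ?_
    · intro x hx
      rw [mem_filter, mem_product, PP, mem_filter, mem_filter, mem_product, mem_product, mem_Icc, mem_Icc, mem_Icc,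
        mem_Icc] at hx
      obtain ⟨⟨⟨⟨h1, h2⟩, h3⟩, ⟨⟨h4, h5⟩, h6⟩⟩, h7⟩ := hx
      rw [mem_Icc]
      refine ⟨Nat.mul_pos h1.1 h5.1, ?_⟩
      have h8 : (x.1.1 * x.2.2) * (x.1.1 * x.2.2) ≤ Z * Z := by
        calc (x.1.1 * x.2.2) * (x.1.1 * x.2.2) = (x.1.1 * x.2.2) * (x.1.2 * x.2.1) := by rw [← h7]
          _ = (x.1.1 * x.1.2) * (x.2.1 * x.2.2) := by ring
          _ ≤ Z * Z := Nat.mul_le_mul h3 h6
      exact Nat.mul_self_le_mul_self_iff.1 h8
    · intro a ha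
      rw [mem_Icc] at ha
      have h2 : (a.divisors ×ˢ a.divisors).card ≤ T ^ 2 := by
        rw [card_product, sq]
        exact Nat.mul_le_mul (hT a ha.1 ha.2) (hT a ha.1 ha.2)
      refine le_trans ?_ h2
      refine Finset.card_le_card_of_injOn (fun x : (ℕ × ℕ) × (ℕ × ℕ) => (x.1.1, x.1.2)) ?_ ?_
      · intro x hx
        rw [mem_coe, mem_filter, mem_filter] at hx
        rw [mem_coe, mem_product, Nat.mem_divisors, Nat.mem_divisors]
        refine ⟨⟨⟨x.2.2, hx.2.symm⟩, by omega⟩, ⟨⟨x.2.1, ?_⟩, by omega⟩⟩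
        rw [← hx.2, hx.1.2]
      · intro x hx x' hx' h
        rw [mem_coe, mem_filter, mem_filter, mem_product, PP, mem_filter, mem_filter, mem_product, mem_product,
          mem_Icc, mem_Icc, mem_Icc, mem_Icc] at hx hx'
        obtain ⟨⟨⟨⟨⟨h1, h2⟩, h3⟩, ⟨⟨h4, h5⟩, h6⟩⟩, h7⟩, h8⟩ := hx
        obtain ⟨⟨⟨⟨⟨g1, g2⟩, g3⟩, ⟨⟨g4, g5⟩, g6⟩⟩, g7⟩, g8⟩ := hx'
        obtain ⟨e1, e2⟩ := Prod.mk.inj (show (x.1.1, x.1.2) = (x'.1.1, x'.1.2) from h)
        have e3 : x.2.2 = x'.2.2 := by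
          have : x.1.1 * x.2.2 = x.1.1 * x'.2.2 := by
            rw [e1] at h8 ⊢
            rw [h8, g8]
          exact Nat.eq_of_mul_eq_mul_left h1.1 this
        have e4 : x.2.1 = x'.2.1 := by
          have : x.1.2 * x.2.1 = x.1.2 * x'.2.1 := by
            rw [← h7, h8, e2, ← g7, g8]
          exact Nat.eq_of_mul_eq_mul_left h2.1 this
        exact Prod.ext (Prod.ext e1 e2) (Prod.ext e4 e3)
  simpa using h1

/-- quadruples whose product is a square -/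
lemma sq_card (Z T : ℕ) (hT : ∀ e : ℕ, 1 ≤ e → e ≤ Z ^ 2 → e.divisors.card ≤ T) :
    ((PP Z ×ˢ PP Z).filter fun x => IsSquare ((x.1.1 * x.2.2) * (x.1.2 * x.2.1))).card ≤ T ^ 3 * Z := by
  classical
  have h1 : ((PP Z ×ˢ PP Z).filter fun x => IsSquare ((x.1.1 * x.2.2) * (x.1.2 * x.2.1))).card ≤
      T ^ 3 * (Icc 1 Z).card := by
    refine Finset.card_le_mul_card_image_of_maps_to
      (f := fun x : (ℕ × ℕ) × (ℕ × ℕ) => Nat.sqrt ((x.1.1 * x.2.2) * (x.1.2 * x.2.1))) ?_ (T ^ 3) ?_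
    · intro x hx
      rw [mem_filter, mem_product, PP, mem_filter, mem_filter, mem_product, mem_product, mem_Icc, mem_Icc, mem_Icc,
        mem_Icc] at hx
      obtain ⟨⟨⟨⟨h1, h2⟩, h3⟩, ⟨⟨h4, h5⟩, h6⟩⟩, h7⟩ := hx
      obtain ⟨y, hy⟩ := h7
      rw [hy, Nat.sqrt_eq, mem_Icc]
      have h8 : y * y ≤ Z * Z := by
        calc y * y = (x.1.1 * x.2.2) * (x.1.2 * x.2.1) := hy.symm
          _ = (x.1.1 * x.1.2) * (x.2.1 * x.2.2) := by ring
          _ ≤ Z * Z := Nat.mul_le_mul h3 h6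
      refine ⟨?_, Nat.mul_self_le_mul_self_iff.1 h8⟩
      rcases Nat.eq_zero_or_pos y with h | h
      · rw [h] at hy
        have : 0 < (x.1.1 * x.2.2) * (x.1.2 * x.2.1) :=
          Nat.mul_pos (Nat.mul_pos h1.1 h5.1) (Nat.mul_pos h2.1 h4.1)
        omega
      · exact h
    · intro a ha
      rw [mem_Icc] at ha
      have ha2 : a ^ 2 ≤ Z ^ 2 := Nat.pow_le_pow_left ha.2 2
      have ha1 : 1 ≤ a ^ 2 := Nat.one_le_pow _ _ ha.1
      have h2 : (((a ^ 2).divisors ×ˢ (a ^ 2).divisors) ×ˢ (a ^ 2).divisors).card ≤ T ^ 3 := by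
        rw [card_product, card_product]
        have := hT (a ^ 2) ha1 ha2
        calc (a ^ 2).divisors.card * (a ^ 2).divisors.card * (a ^ 2).divisors.card ≤ T * T * T :=
              Nat.mul_le_mul (Nat.mul_le_mul this this) this
          _ = T ^ 3 := by ring
      refine le_trans ?_ h2
      refine Finset.card_le_card_of_injOn
        (fun x : (ℕ × ℕ) × (ℕ × ℕ) => ((x.1.1, x.1.2), x.2.1)) ?_ ?_
      · intro x hx
        rw [mem_coe, mem_filter, mem_filter] at hx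
        obtain ⟨y, hy⟩ := hx.1.2
        have h3 : Nat.sqrt ((x.1.1 * x.2.2) * (x.1.2 * x.2.1)) = a := hx.2
        rw [hy, Nat.sqrt_eq] at h3
        have h4 : a ^ 2 = (x.1.1 * x.2.2) * (x.1.2 * x.2.1) := by rw [hy, h3, sq]
        rw [mem_coe, mem_product, mem_product, Nat.mem_divisors, Nat.mem_divisors, Nat.mem_divisors, h4]
        have h5 : (x.1.1 * x.2.2) * (x.1.2 * x.2.1) ≠ 0 := by omega
        exact ⟨⟨⟨⟨x.2.2 * (x.1.2 * x.2.1), by ring⟩, h5⟩, ⟨⟨x.1.1 * x.2.2 * x.2.1, by ring⟩, h5⟩⟩,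
          ⟨⟨x.1.1 * x.2.2 * x.1.2, by ring⟩, h5⟩⟩
      · intro x hx x' hx' h
        rw [mem_coe, mem_filter, mem_filter] at hx hx'
        obtain ⟨y, hy⟩ := hx.1.2
        obtain ⟨y', hy'⟩ := hx'.1.2
        have h3 : Nat.sqrt ((x.1.1 * x.2.2) * (x.1.2 * x.2.1)) = a := hx.2
        have h3' : Nat.sqrt ((x'.1.1 * x'.2.2) * (x'.1.2 * x'.2.1)) = a := hx'.2
        rw [hy, Nat.sqrt_eq] at h3
        rw [hy', Nat.sqrt_eq] at h3'
        have h4 : (x.1.1 * x.2.2) * (x.1.2 * x.2.1) = (x'.1.1 * x'.2.2) * (x'.1.2 * x'.2.1) := by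
          rw [hy, hy', h3, h3']
        obtain ⟨e12, e3⟩ := Prod.mk.inj (show ((x.1.1, x.1.2), x.2.1) = ((x'.1.1, x'.1.2), x'.2.1) from h)
        obtain ⟨e1, e2⟩ := Prod.mk.inj e12
        have hx1 := hx.1.1
        rw [mem_product, PP, mem_filter, mem_filter, mem_product, mem_product,
          mem_Icc, mem_Icc, mem_Icc, mem_Icc] at hx1
        obtain ⟨⟨⟨h1, h2⟩, _⟩, ⟨⟨h5, _⟩, _⟩⟩ := hx1
        have e4 : x.2.2 = x'.2.2 := by
          rw [← e1, ← e2, ← e3] at h4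
          have h6 : (x.1.1 * x.1.2 * x.2.1) * x.2.2 = (x.1.1 * x.1.2 * x.2.1) * x'.2.2 := by
            calc (x.1.1 * x.1.2 * x.2.1) * x.2.2 = (x.1.1 * x.2.2) * (x.1.2 * x.2.1) := by ring
              _ = (x.1.1 * x'.2.2) * (x.1.2 * x.2.1) := h4
              _ = (x.1.1 * x.1.2 * x.2.1) * x'.2.2 := by ring
          exact Nat.eq_of_mul_eq_mul_left (Nat.mul_pos (Nat.mul_pos h1.1 h2.1) h5.1) h6
        exact Prod.ext (Prod.ext e1 e2) (Prod.ext e3 e4)
  simpa using h1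

/-! ### Jacobi symbols -/

/-- the Jacobi symbol as a function of the upper argument -/
noncomputable def jc (q n : ℕ) : ℂ := ((jacobiSym (n : ℤ) q : ℤ) : ℂ)

lemma jc_one (q : ℕ) : jc q 1 = 1 := by
  unfold jc
  rw [Nat.cast_one, jacobiSym.one_left]
  norm_num

lemma jc_mul (q a b : ℕ) : jc q (a * b) = jc q a * jc q b := by
  unfold jc
  rw [Nat.cast_mul, jacobiSym.mul_left]
  push_cast
  rfl

/-- the moments of the Jacobi symbols -/
theorem jacobi_moments (Q N k T : ℕ)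
    (hT : ∀ e : ℕ, 1 ≤ e → e ≤ ((2 * N) ^ k) ^ 2 → e.divisors.card ≤ T) :
    ∑ q ∈ (Ioc 0 Q).filter (fun q => Odd q), F (Icc 1 N) (jc q) k ≤ N * (T : ℝ) ^ (2 * k) *
      (Q * (T ^ 3 * ((2 * N) ^ k : ℕ)) + 4 * (((2 * N) ^ k : ℕ) : ℝ) ^ 2 * (T * ((2 * N) ^ k : ℕ)) ^ 2) := by
  classical
  set Z : ℕ := (2 * N) ^ k with hZ
  have hT' : ∀ e : ℕ, 1 ≤ e → e ≤ Z → e.divisors.card ≤ T := by
    intro e h1 h2
    refine hT e h1 (h2.trans ?_)
    rw [sq]
    exact Nat.le_mul_self Z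
  refine (moments ((Ioc 0 Q).filter (fun q => Odd q)) jc (fun q _ => jc_one q) (fun q _ => jc_mul q) N k T hT').trans ?_
  rw [← hZ]
  refine mul_le_mul_of_nonneg_left ?_ (by positivity)
  have hΓ : ∀ s s' : ℕ × ℕ, s ∈ PP Z → s' ∈ PP Z →
      ‖∑ q ∈ (Ioc 0 Q).filter (fun q => Odd q), jc q (s.1 * s'.2) * (starRingEnd ℂ) (jc q (s.2 * s'.1))‖ ≤
      (if IsSquare ((s.1 * s'.2) * (s.2 * s'.1)) then (Q : ℝ) else 0) + 4 * (Z : ℝ) ^ 2 := by
    intro s s' hs hs'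
    rw [PP, mem_filter, mem_product, mem_Icc, mem_Icc] at hs hs'
    set n : ℕ := (s.1 * s'.2) * (s.2 * s'.1) with hn
    have hn0 : 0 < n := Nat.mul_pos (Nat.mul_pos hs.1.1.1 hs'.1.2.1) (Nat.mul_pos hs.1.2.1 hs'.1.1.1)
    have e1 : ∀ q : ℕ, jc q (s.1 * s'.2) * (starRingEnd ℂ) (jc q (s.2 * s'.1)) = jc q n := by
      intro q
      rw [hn, jc_mul q (s.1 * s'.2)]
      congr 1
      unfold jc
      exact map_intCast (starRingEnd ℂ) _
    rw [Finset.sum_congr rfl fun q _ => e1 q]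
    have e2 : ∑ q ∈ (Ioc 0 Q).filter (fun q => Odd q), jc q n = ((∑ q ∈ Ioc 0 Q, XX (n : ℤ) q : ℝ) : ℂ) := by
      rw [Finset.sum_filter]
      push_cast
      refine Finset.sum_congr rfl fun q _ => ?_
      rw [XX_apply]
      unfold jc
      split_ifs <;> simp
    rw [e2, Complex.norm_real, Real.norm_eq_abs]
    by_cases hsq : IsSquare n
    · rw [if_pos hsq]
      refine (Finset.abs_sum_le_sum_abs _ _).trans ?_
      refine (Finset.sum_le_sum fun q _ => XX_abs_le (n : ℤ) q).trans ?_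
      rw [Finset.sum_const, Nat.card_Ioc, nsmul_eq_mul]
      have : (0 : ℝ) ≤ 4 * (Z : ℝ) ^ 2 := by positivity
      push_cast
      simp only [tsub_zero, mul_one]
      linarith
    · rw [if_neg hsq, zero_add]
      have h3 : ¬ IsSquare (n : ℤ) := by
        intro h
        exact hsq (Int.isSquare_natCast_iff.1 h)
      refine (XX_sum_bound (n : ℤ) (by exact_mod_cast hn0.ne') h3 Q).trans ?_
      have h4 : n ≤ Z ^ 2 := by
        calc n = (s.1 * s.2) * (s'.1 * s'.2) := by rw [hn]; ring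
          _ ≤ Z * Z := Nat.mul_le_mul hs.2 hs'.2
          _ = Z ^ 2 := by ring
      have h5 : (n : ℝ) ≤ (Z : ℝ) ^ 2 := by exact_mod_cast h4
      rw [Int.natAbs_natCast]
      linarith
  calc ∑ s ∈ PP Z, ∑ s' ∈ PP Z, ‖∑ q ∈ (Ioc 0 Q).filter (fun q => Odd q),
        jc q (s.1 * s'.2) * (starRingEnd ℂ) (jc q (s.2 * s'.1))‖
      ≤ ∑ s ∈ PP Z, ∑ s' ∈ PP Z, ((if IsSquare ((s.1 * s'.2) * (s.2 * s'.1)) then (Q : ℝ) else 0) +
        4 * (Z : ℝ) ^ 2) := Finset.sum_le_sum fun s hs => Finset.sum_le_sum fun s' hs' => hΓ s s' hs hs'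
    _ = Q * (((PP Z ×ˢ PP Z).filter fun x => IsSquare ((x.1.1 * x.2.2) * (x.1.2 * x.2.1))).card : ℝ) +
        4 * (Z : ℝ) ^ 2 * ((PP Z).card : ℝ) ^ 2 := by
        rw [← Finset.sum_product' (PP Z) (PP Z) (fun s s' =>
          (if IsSquare ((s.1 * s'.2) * (s.2 * s'.1)) then (Q : ℝ) else 0) + 4 * (Z : ℝ) ^ 2),
          Finset.sum_add_distrib, ← Finset.sum_filter, Finset.sum_const, Finset.sum_const, card_product,
          nsmul_eq_mul, nsmul_eq_mul]
        push_cast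
        ring
    _ ≤ Q * (T ^ 3 * Z) + 4 * (Z : ℝ) ^ 2 * (T * Z) ^ 2 := by
        have h1 : ((((PP Z ×ˢ PP Z).filter fun x => IsSquare ((x.1.1 * x.2.2) * (x.1.2 * x.2.1))).card : ℕ) : ℝ) ≤
            (T : ℝ) ^ 3 * Z := by exact_mod_cast sq_card Z T hT
        have h2 : ((PP Z).card : ℝ) ≤ T * Z := by exact_mod_cast PP_card Z T hT'
        exact add_le_add (mul_le_mul_of_nonneg_left h1 (Nat.cast_nonneg _))
          (mul_le_mul_of_nonneg_left (pow_le_pow_left₀ (Nat.cast_nonneg _) h2 2) (by positivity))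

/-! ### all the characters modulo a prime -/

/-- a character as a function on the integers -/
noncomputable def cc (p : ℕ) (χ : DirichletCharacter ℂ p) (n : ℕ) : ℂ := χ (n : ZMod p)

/-- the moments of all the characters -/
theorem char_moments (p N k T : ℕ) [NeZero p] (hT : ∀ e : ℕ, 1 ≤ e → e ≤ (2 * N) ^ k → e.divisors.card ≤ T)
    (hp : ((2 * N) ^ k) ^ 2 < p) :
    ∑ χ : DirichletCharacter ℂ p, F (Icc 1 N) (cc p χ) k ≤ N * (T : ℝ) ^ (2 * k) *
      (p * (T ^ 2 * ((2 * N) ^ k : ℕ))) := by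
  classical
  set Z : ℕ := (2 * N) ^ k with hZ
  have hcard : Fintype.card (DirichletCharacter ℂ p) = p.totient := by
    rw [← Nat.card_eq_fintype_card]
    exact DirichletCharacter.card_eq_totient_of_hasEnoughRootsOfUnity ℂ p
  refine (moments univ (cc p) (fun χ _ => by unfold cc; rw [Nat.cast_one, map_one])
    (fun χ _ a b => by unfold cc; rw [Nat.cast_mul, map_mul]) N k T hT).trans ?_
  rw [← hZ]
  refine mul_le_mul_of_nonneg_left ?_ (by positivity)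
  have hΓ : ∀ s s' : ℕ × ℕ, s ∈ PP Z → s' ∈ PP Z →
      ‖∑ χ : DirichletCharacter ℂ p, cc p χ (s.1 * s'.2) * (starRingEnd ℂ) (cc p χ (s.2 * s'.1))‖ ≤
      if s.1 * s'.2 = s.2 * s'.1 then (p : ℝ) else 0 := by
    intro s s' hs hs'
    rw [PP, mem_filter, mem_product, mem_Icc, mem_Icc] at hs hs'
    have h1 := Pool.Agent.H95SD.GC.sum_chars p ((s.1 * s'.2 : ℕ) : ZMod p) ((s.2 * s'.1 : ℕ) : ZMod p)
    rw [hcard, norm_mul, norm_inv, Complex.norm_natCast] at h1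
    have hφ : (0 : ℝ) < p.totient := by
      have : 0 < p.totient := Nat.totient_pos.2 (NeZero.pos p)
      exact_mod_cast this
    rw [inv_mul_le_iff₀ hφ] at h1
    refine h1.trans ?_
    have hφp : (p.totient : ℝ) ≤ p := by exact_mod_cast Nat.totient_le p
    split_ifs with h2 h3 h3
    · linarith
    · exfalso
      apply h3
      have h4 := (ZMod.natCast_eq_natCast_iff' _ _ p).1 h2.2
      have ha : s.1 * s'.2 < p := by
        refine lt_of_le_of_lt ?_ hp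
        calc s.1 * s'.2 ≤ Z * Z := Nat.mul_le_mul hs.1.1.2 hs'.1.2.2
          _ = Z ^ 2 := by ring
      have hb : s.2 * s'.1 < p := by
        refine lt_of_le_of_lt ?_ hp
        calc s.2 * s'.1 ≤ Z * Z := Nat.mul_le_mul hs.1.2.2 hs'.1.1.2
          _ = Z ^ 2 := by ring
      rw [Nat.mod_eq_of_lt ha, Nat.mod_eq_of_lt hb] at h4
      exact h4
    · rw [mul_zero]
      positivity
    · rw [mul_zero]
  calc ∑ s ∈ PP Z, ∑ s' ∈ PP Z,
        ‖∑ χ : DirichletCharacter ℂ p, cc p χ (s.1 * s'.2) * (starRingEnd ℂ) (cc p χ (s.2 * s'.1))‖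
      ≤ ∑ s ∈ PP Z, ∑ s' ∈ PP Z, (if s.1 * s'.2 = s.2 * s'.1 then (p : ℝ) else 0) :=
        Finset.sum_le_sum fun s hs => Finset.sum_le_sum fun s' hs' => hΓ s s' hs hs'
    _ = p * (((PP Z ×ˢ PP Z).filter fun x => x.1.1 * x.2.2 = x.1.2 * x.2.1).card : ℝ) := by
        rw [← Finset.sum_product' (PP Z) (PP Z) (fun s s' =>
          (if s.1 * s'.2 = s.2 * s'.1 then (p : ℝ) else 0)), ← Finset.sum_filter, Finset.sum_const, nsmul_eq_mul]
        ring
    _ ≤ p * (T ^ 2 * Z) := by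
        have h1 : ((((PP Z ×ˢ PP Z).filter fun x => x.1.1 * x.2.2 = x.1.2 * x.2.1).card : ℕ) : ℝ) ≤
            (T : ℝ) ^ 2 * Z := by exact_mod_cast eq_card Z T hT
        exact mul_le_mul_of_nonneg_left h1 (Nat.cast_nonneg _)

end Pool.Agent.H95SD.PG
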