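import Pool.Agent.H95SD.PG3
import Pool.Agent.H510R2.Div

/-!
# Bilinear forms with the matrix `χ (x + y)`: almost all primes, almost all characters
-/

set_option autoImplicit false

open Finset Filter

namespace Pool.Agent.H95SD.PG

lemma F_nonneg (I : Finset ℕ) (χ : ℕ → ℂ) (k : ℕ) : 0 ≤ F I χ k :=
  Finset.sum_nonneg fun _ _ => Finset.sum_nonneg fun _ _ => sq_nonneg _

/-- the divisor bound in the form used here -/
lemma Tb {k : ℕ} (hk : 1 ≤ k) : ∃ C1 : ℝ, 0 < C1 ∧ ∀ N : ℕ, 1 ≤ N → ∃ T : ℕ, 1 ≤ T ∧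
    (∀ e : ℕ, 1 ≤ e → e ≤ ((2 * N) ^ k) ^ 2 → e.divisors.card ≤ T) ∧
    (N : ℝ) * (T : ℝ) ^ (2 * k + 3) * ((2 * N) ^ k : ℕ) ≤ C1 * (N : ℝ) ^ (k + 2) := by
  have hk0 : (0 : ℝ) < k := by exact_mod_cast hk
  set s : ℝ := 1 / (2 * k * (2 * k + 3)) with hs
  have hs0 : 0 < s := by positivity
  obtain ⟨C, hC, hdiv⟩ := Pool.Agent.H510R2.divisor_bound s hs0
  refine ⟨C ^ (2 * k + 3) * 2 * 2 ^ k, by positivity, fun N hN => ?_⟩
  have hN0 : (0 : ℝ) < N := by exact_mod_cast hN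
  set Z : ℕ := (2 * N) ^ k with hZ
  have hZr : (Z : ℝ) = (2 * N) ^ k := by rw [hZ]; push_cast; rfl
  have hZ1 : 1 ≤ Z := Nat.one_le_pow _ _ (by omega)
  refine ⟨⌊C * ((Z : ℝ) ^ 2) ^ s⌋₊, ?_, ?_, ?_⟩
  · have h1 := hdiv 1 le_rfl
    simp only [Nat.divisors_one, card_singleton, Nat.cast_one, Real.one_rpow, mul_one] at h1
    refine Nat.le_floor ?_
    rw [Nat.cast_one]
    have h2 : (1 : ℝ) ≤ ((Z : ℝ) ^ 2) ^ s := by
      refine Real.one_le_rpow ?_ hs0.le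
      exact one_le_pow₀ (by exact_mod_cast hZ1)
    nlinarith
  · intro e h1 h2
    refine Nat.le_floor ((hdiv e h1).trans (mul_le_mul_of_nonneg_left ?_ hC.le))
    refine Real.rpow_le_rpow (Nat.cast_nonneg _) ?_ hs0.le
    exact_mod_cast h2
  · have h1 : ((⌊C * ((Z : ℝ) ^ 2) ^ s⌋₊ : ℕ) : ℝ) ^ (2 * k + 3) ≤ C ^ (2 * k + 3) * (2 * N) := by
      refine (pow_le_pow_left₀ (Nat.cast_nonneg _) (Nat.floor_le (by positivity)) (2 * k + 3)).trans ?_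
      rw [mul_pow]
      refine mul_le_mul_of_nonneg_left (le_of_eq ?_) (by positivity)
      rw [hZr, ← Real.rpow_natCast ((((2 * (N : ℝ)) ^ k) ^ 2) ^ s), ← Real.rpow_mul (by positivity),
        ← pow_mul, ← Real.rpow_natCast (2 * (N : ℝ)) (k * 2), ← Real.rpow_mul (by positivity)]
      have e : (((k * 2 : ℕ) : ℝ)) * (s * ((2 * k + 3 : ℕ) : ℝ)) = 1 := by
        rw [hs]
        push_cast
        field_simp
      rw [e, Real.rpow_one]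
    calc (N : ℝ) * ((⌊C * ((Z : ℝ) ^ 2) ^ s⌋₊ : ℕ) : ℝ) ^ (2 * k + 3) * (Z : ℝ)
        ≤ N * (C ^ (2 * k + 3) * (2 * N)) * (Z : ℝ) :=
          mul_le_mul_of_nonneg_right (mul_le_mul_of_nonneg_left h1 hN0.le) (Nat.cast_nonneg _)
      _ = C ^ (2 * k + 3) * 2 * 2 ^ k * (N : ℝ) ^ (k + 2) := by
          rw [hZr, mul_pow]
          ring

open scoped Classical in
/-- the number of the exceptions -/
lemma count_bad {ι : Type} (Ω : Finset ι) (G : ι → ℕ → ℝ) (hG : ∀ ω N, 0 ≤ G ω N) {C Q : ℝ}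
    (hCQ : 0 ≤ C * Q) {N0 N1 k : ℕ} (hN0 : 1 ≤ N0)
    (h : ∀ N ∈ Icc N0 N1, ∑ ω ∈ Ω, G ω N ≤ C * Q * (N : ℝ) ^ (k + 2)) :
    ((Ω.filter fun ω => ∃ N ∈ Icc N0 N1, (N : ℝ) ^ (k + 4) < G ω N).card : ℝ) ≤ C * Q * (2 / N0) := by
  have h1 : (Ω.filter fun ω => ∃ N ∈ Icc N0 N1, (N : ℝ) ^ (k + 4) < G ω N) ⊆
      (Icc N0 N1).biUnion fun N => Ω.filter fun ω => (N : ℝ) ^ (k + 4) < G ω N := by
    intro ω hω
    rw [mem_filter] at hω
    obtain ⟨hω1, N, hN, hNω⟩ := hω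
    rw [mem_biUnion]
    exact ⟨N, hN, mem_filter.2 ⟨hω1, hNω⟩⟩
  have h2 : ∀ N ∈ Icc N0 N1, ((Ω.filter fun ω => (N : ℝ) ^ (k + 4) < G ω N).card : ℝ) ≤
      C * Q * ((N : ℝ) ^ 2)⁻¹ := by
    intro N hN
    have hN1 : 1 ≤ N := hN0.trans (mem_Icc.1 hN).1
    have hNr : (0 : ℝ) < N := by exact_mod_cast hN1
    have h3 : ((Ω.filter fun ω => (N : ℝ) ^ (k + 4) < G ω N).card : ℝ) * (N : ℝ) ^ (k + 4) ≤ ∑ ω ∈ Ω, G ω N := by
      calc ((Ω.filter fun ω => (N : ℝ) ^ (k + 4) < G ω N).card : ℝ) * (N : ℝ) ^ (k + 4)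
          = ∑ _ω ∈ Ω.filter fun ω => (N : ℝ) ^ (k + 4) < G ω N, (N : ℝ) ^ (k + 4) := by
            rw [Finset.sum_const, nsmul_eq_mul]
        _ ≤ ∑ ω ∈ Ω.filter fun ω => (N : ℝ) ^ (k + 4) < G ω N, G ω N :=
            Finset.sum_le_sum fun ω hω => (mem_filter.1 hω).2.le
        _ ≤ _ := Finset.sum_le_sum_of_subset_of_nonneg (Finset.filter_subset _ _) fun ω _ _ => hG ω N
    have h4 := h3.trans (h N hN)
    have h5 : (N : ℝ) ^ (k + 4) = (N : ℝ) ^ 2 * (N : ℝ) ^ (k + 2) := by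
      rw [← pow_add]
      congr 1
      omega
    have h7 : ((Ω.filter fun ω => (N : ℝ) ^ (k + 4) < G ω N).card : ℝ) * (N : ℝ) ^ 2 * (N : ℝ) ^ (k + 2) =
        ((Ω.filter fun ω => (N : ℝ) ^ (k + 4) < G ω N).card : ℝ) * (N : ℝ) ^ (k + 4) := by
      rw [mul_assoc, ← h5]
    rw [← h7] at h4
    have h6 := le_of_mul_le_mul_right h4 (by positivity)
    rw [← div_eq_mul_inv, le_div_iff₀ (by positivity)]
    exact h6
  calc ((Ω.filter fun ω => ∃ N ∈ Icc N0 N1, (N : ℝ) ^ (k + 4) < G ω N).card : ℝ)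
      ≤ (((Icc N0 N1).biUnion fun N => Ω.filter fun ω => (N : ℝ) ^ (k + 4) < G ω N).card : ℝ) := by
        exact_mod_cast card_le_card h1
    _ ≤ ∑ N ∈ Icc N0 N1, ((Ω.filter fun ω => (N : ℝ) ^ (k + 4) < G ω N).card : ℝ) := by
        exact_mod_cast card_biUnion_le
    _ ≤ ∑ N ∈ Icc N0 N1, C * Q * ((N : ℝ) ^ 2)⁻¹ := Finset.sum_le_sum h2
    _ = C * Q * ∑ N ∈ Icc N0 N1, ((N : ℝ) ^ 2)⁻¹ := by rw [Finset.mul_sum]
    _ ≤ C * Q * (2 / N0) := by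
        refine mul_le_mul_of_nonneg_left ?_ hCQ
        have e : Icc N0 N1 = Ioo (N0 - 1) (N1 + 1) := by
          ext x
          simp only [mem_Icc, mem_Ioo]
          omega
        rw [e]
        refine (sum_Ioo_inv_sq_le (N0 - 1) (N1 + 1)).trans (le_of_eq ?_)
        congr 1
        rw [Nat.cast_sub hN0]
        push_cast
        ring

/-- **from the moments to the weighted sums over subsets of homogeneous progressions** -/
theorem forms {p : ℕ} (X : ZMod p → ℂ) (hX1 : ∀ z, ‖X z‖ ≤ 1) (hXm : ∀ a b, X (a * b) = X a * X b)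
    {N k : ℕ} (hN : 1 ≤ N) (hk : 1 ≤ k) {ε : ℝ} (hkε : 2 / (k : ℝ) ≤ ε)
    (hF : F (Icc 1 N) (fun n => X (n : ZMod p)) k ≤ (N : ℝ) ^ (k + 4)) (z w : ZMod p) (A B : Finset (ZMod p))
    (hA : ∀ a ∈ A, ∃ n ∈ Icc 1 N, a = (n : ZMod p) * z + w)
    (hB : ∀ b ∈ B, ∃ n ∈ Icc 1 N, b = (n : ZMod p) * z + -w)
    (f g : ZMod p → ℂ) :
    ‖∑ a ∈ A, ∑ b ∈ B, f a * g b * X (a + b)‖ ≤
      (N : ℝ) ^ (1 / 2 + ε) * (Real.sqrt (∑ a ∈ A, ‖f a‖ ^ 2) * Real.sqrt (∑ b ∈ B, ‖g b‖ ^ 2)) := by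
  classical
  have hN0 : (0 : ℝ) < N := by exact_mod_cast hN
  have hNr : (1 : ℝ) ≤ N := by exact_mod_cast hN
  have hk0 : (0 : ℝ) < k := by exact_mod_cast hk
  -- representatives
  have hrep : ∀ (w : ZMod p) (S : Finset (ZMod p)), (∀ a ∈ S, ∃ n ∈ Icc 1 N, a = (n : ZMod p) * z + w) →
      ∀ (h : ZMod p → ℂ),
      ∃ h' : ℕ → ℂ, (∀ Φ : ZMod p → ℂ, ∑ n ∈ Icc 1 N, h' n * Φ ((n : ZMod p) * z + w) = ∑ a ∈ S, h a * Φ a) ∧
        nr (Icc 1 N) h' = Real.sqrt (∑ a ∈ S, ‖h a‖ ^ 2) := by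
    intro w S hS h
    choose r hr1 hr2 using hS
    set r' : ZMod p → ℕ := fun a => if ha : a ∈ S then r a ha else 0 with hr'
    have hr'1 : ∀ a ∈ S, r' a ∈ Icc 1 N := by
      intro a ha
      simp only [hr', dif_pos ha]
      exact hr1 a ha
    have hr'2 : ∀ a ∈ S, ((r' a : ℕ) : ZMod p) * z + w = a := by
      intro a ha
      simp only [hr', dif_pos ha]
      exact (hr2 a ha).symm
    have hbij : ∀ (M : Type) [AddCommMonoid M] (Ψ : ZMod p → M),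
        ∑ n ∈ (Icc 1 N).filter (fun n : ℕ => (n : ZMod p) * z + w ∈ S ∧ r' ((n : ZMod p) * z + w) = n),
          Ψ ((n : ZMod p) * z + w) = ∑ a ∈ S, Ψ a := by
      intro M _ Ψ
      refine Finset.sum_nbij' (fun n : ℕ => (n : ZMod p) * z + w) (fun a => r' a) ?_ ?_ ?_ ?_ ?_
      · intro n hn
        rw [mem_filter] at hn
        exact hn.2.1
      · intro a ha
        rw [mem_filter, hr'2 a ha]
        exact ⟨hr'1 a ha, ha, rfl⟩
      · intro n hn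
        rw [mem_filter] at hn
        exact hn.2.2
      · intro a ha
        exact hr'2 a ha
      · intro n _
        rfl
    refine ⟨fun n => if (n : ZMod p) * z + w ∈ S ∧ r' ((n : ZMod p) * z + w) = n then
      h ((n : ZMod p) * z + w) else 0, ?_, ?_⟩
    · intro Φ
      rw [← hbij ℂ (fun a => h a * Φ a), Finset.sum_filter]
      refine Finset.sum_congr rfl fun n _ => ?_
      beta_reduce
      split_ifs
      · rfl
      · rw [zero_mul]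
    · unfold nr
      congr 1
      rw [← hbij ℝ (fun a => ‖h a‖ ^ 2), Finset.sum_filter]
      refine Finset.sum_congr rfl fun n _ => ?_
      beta_reduce
      split_ifs
      · rfl
      · rw [norm_zero]
        norm_num
  obtain ⟨f', hf1, hf2⟩ := hrep w A hA f
  obtain ⟨g', hg1, hg2⟩ := hrep (-w) B hB g
  have e1 : ∑ a ∈ A, ∑ b ∈ B, f a * g b * X (a + b) =
      X z * ∑ x ∈ Icc 1 N, ∑ y ∈ Icc 1 N, f' x * g' y * X ((x + y : ℕ) : ZMod p) := by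
    have h1 : ∀ a : ZMod p, ∑ b ∈ B, f a * g b * X (a + b) =
        f a * ∑ y ∈ Icc 1 N, g' y * X (a + ((y : ZMod p) * z + -w)) := by
      intro a
      rw [hg1 (fun b => X (a + b)), Finset.mul_sum]
      refine Finset.sum_congr rfl fun b _ => ?_
      ring
    rw [Finset.sum_congr rfl fun a _ => h1 a,
      ← hf1 (fun a => ∑ y ∈ Icc 1 N, g' y * X (a + ((y : ZMod p) * z + -w))), Finset.mul_sum]
    refine Finset.sum_congr rfl fun x _ => ?_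
    rw [Finset.mul_sum, Finset.mul_sum]
    refine Finset.sum_congr rfl fun y _ => ?_
    have h2 : (x : ZMod p) * z + w + ((y : ZMod p) * z + -w) = ((x + y : ℕ) : ZMod p) * z := by
      push_cast
      ring
    rw [h2, hXm]
    ring
  set αβ : ℝ := nr (Icc 1 N) f' * nr (Icc 1 N) g' with hαβ
  have hαβ0 : 0 ≤ αβ := mul_nonneg (nr_nonneg _ _) (nr_nonneg _ _)
  have h3 := bilinear (Icc 1 N) (fun n => X (n : ZMod p)) f' g' hk
  set S : ℂ := ∑ x ∈ Icc 1 N, ∑ y ∈ Icc 1 N, f' x * g' y * X ((x + y : ℕ) : ZMod p) with hS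
  have h4 : ‖S‖ ≤ (N : ℝ) ^ (1 / 2 + 2 / (k : ℝ)) * αβ := by
    refine le_of_pow_le_pow_left₀ (n := 2 * k) (by omega) (by positivity) ?_
    have h5 : ((N : ℝ) ^ (1 / 2 + 2 / (k : ℝ)) * αβ) ^ (2 * k) = (N : ℝ) ^ (k + 4) * αβ ^ (2 * k) := by
      rw [mul_pow, ← Real.rpow_natCast ((N : ℝ) ^ (1 / 2 + 2 / (k : ℝ))) (2 * k), ← Real.rpow_mul hN0.le,
        ← Real.rpow_natCast (N : ℝ) (k + 4)]
      congr 2
      push_cast
      field_simp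
      ring
    rw [h5]
    refine h3.trans ?_
    exact mul_le_mul_of_nonneg_right hF (by positivity)
  rw [e1, norm_mul, ← hf2, ← hg2, ← hαβ]
  calc ‖X z‖ * ‖S‖ ≤ 1 * ((N : ℝ) ^ (1 / 2 + 2 / (k : ℝ)) * αβ) :=
        mul_le_mul (hX1 z) h4 (norm_nonneg _) zero_le_one
    _ = (N : ℝ) ^ (1 / 2 + 2 / (k : ℝ)) * αβ := one_mul _
    _ ≤ (N : ℝ) ^ (1 / 2 + ε) * αβ := by
        refine mul_le_mul_of_nonneg_right ?_ hαβ0
        exact Real.rpow_le_rpow_of_exponent_le hNr (by linarith)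

lemma ev_const (C s : ℝ) (hs : 0 < s) : ∀ᶠ q : ℕ in atTop, C ≤ (q : ℝ) ^ s :=
  ((tendsto_rpow_atTop hs).comp tendsto_natCast_atTop_atTop).eventually_ge_atTop C

/-- **almost all primes** -/
theorem primes_main {ε : ℝ} (hε : 0 < ε) : ∃ γ : ℝ, 0 < γ ∧ ∀ η : ℝ, 0 < η → ∃ c : ℝ, 0 < c ∧
    ∃ Q₀ : ℕ, ∀ Q : ℕ, Q₀ ≤ Q → ∃ E : Finset ℕ, (E.card : ℝ) ≤ (Q : ℝ) ^ (1 - c) ∧
      ∀ (p : ℕ) [Fact p.Prime], p ≠ 2 → p ≤ Q → p ∉ E →
        ∀ N : ℕ, (Q : ℝ) ^ η ≤ N → (N : ℝ) ≤ (Q : ℝ) ^ γ → ∀ (z w : ZMod p) (A B : Finset (ZMod p)),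
          (∀ a ∈ A, ∃ n ∈ Icc 1 N, a = (n : ZMod p) * z + w) →
          (∀ b ∈ B, ∃ n ∈ Icc 1 N, b = (n : ZMod p) * z + -w) →
          ∀ f g : ZMod p → ℂ,
            ‖∑ a ∈ A, ∑ b ∈ B, f a * g b * ((quadraticChar (ZMod p) (a + b) : ℤ) : ℂ)‖ ≤
              (N : ℝ) ^ (1 / 2 + ε) * (Real.sqrt (∑ a ∈ A, ‖f a‖ ^ 2) * Real.sqrt (∑ b ∈ B, ‖g b‖ ^ 2)) := by
  classical
  obtain ⟨k, hk⟩ := exists_nat_ge (max 1 (2 / ε))
  have hk1 : 1 ≤ k := by exact_mod_cast (le_max_left _ _).trans hk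
  have hk0 : (0 : ℝ) < k := by exact_mod_cast hk1
  have hkε : 2 / (k : ℝ) ≤ ε := by
    have := (le_max_right _ _).trans hk
    rw [div_le_iff₀ hε] at this
    rw [div_le_iff₀ hk0]
    linarith
  obtain ⟨C1, hC1, hT⟩ := Tb hk1
  refine ⟨1 / (6 * k), by positivity, fun η hη => ⟨η / 2, by positivity, ?_⟩⟩
  have hev := ((ev_const (4 * 8 ^ k) (1 / 2) (by norm_num)).and (ev_const (4 * C1) (η / 2) (by positivity))).and
    (eventually_ge_atTop 1)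
  obtain ⟨Q₀, hQ₀⟩ := eventually_atTop.1 hev
  refine ⟨Q₀, fun Q hQ => ?_⟩
  obtain ⟨⟨hQ1, hQ2⟩, hQ3⟩ := hQ₀ Q hQ
  have hQr : (1 : ℝ) ≤ Q := by exact_mod_cast hQ3
  have hQp : (0 : ℝ) < Q := by linarith
  set N0 : ℕ := ⌈(Q : ℝ) ^ η⌉₊ with hN0
  set N1 : ℕ := ⌊(Q : ℝ) ^ (1 / (6 * (k : ℝ)))⌋₊ with hN1
  have hN0r : (Q : ℝ) ^ η ≤ N0 := Nat.le_ceil _
  have hQη : (1 : ℝ) ≤ (Q : ℝ) ^ η := Real.one_le_rpow hQr hη.le
  have hN01 : 1 ≤ N0 := by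
    have : (1 : ℝ) ≤ N0 := hQη.trans hN0r
    exact_mod_cast this
  set Ω : Finset ℕ := (Ioc 0 Q).filter (fun q => Odd q) with hΩ
  have hmom : ∀ N ∈ Icc N0 N1, ∑ q ∈ Ω, F (Icc 1 N) (jc q) k ≤ (2 * C1) * Q * (N : ℝ) ^ (k + 2) := by
    intro N hN
    rw [mem_Icc] at hN
    have hN1' : 1 ≤ N := hN01.trans hN.1
    obtain ⟨T, hT1, hT2, hT3⟩ := hT N hN1'
    have hTr : (1 : ℝ) ≤ T := by exact_mod_cast hT1
    refine (jacobi_moments Q N k T hT2).trans ?_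
    set Z : ℝ := (((2 * N) ^ k : ℕ) : ℝ) with hZ
    have hZ0 : 0 ≤ Z := by rw [hZ]; positivity
    have hNle : (N : ℝ) ≤ (Q : ℝ) ^ (1 / (6 * (k : ℝ))) :=
      (Nat.cast_le.2 hN.2).trans (Nat.floor_le (by positivity))
    have hZ3 : 4 * Z ^ 3 ≤ Q := by
      have h1 : Z ^ 3 = 8 ^ k * ((N : ℝ) ^ (3 * k)) := by
        rw [hZ]
        push_cast
        rw [mul_pow, mul_pow, ← pow_mul, ← pow_mul, mul_comm k 3, pow_mul (2 : ℝ) 3 k]
        norm_num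
      have h2 : (N : ℝ) ^ (3 * k) ≤ (Q : ℝ) ^ ((1 : ℝ) / 2) := by
        refine (pow_le_pow_left₀ (Nat.cast_nonneg _) hNle (3 * k)).trans (le_of_eq ?_)
        rw [← Real.rpow_natCast, ← Real.rpow_mul hQp.le]
        congr 1
        push_cast
        field_simp
        norm_num
      calc 4 * Z ^ 3 = (4 * 8 ^ k) * (N : ℝ) ^ (3 * k) := by rw [h1]; ring
        _ ≤ (Q : ℝ) ^ ((1 : ℝ) / 2) * (Q : ℝ) ^ ((1 : ℝ) / 2) :=
            mul_le_mul hQ1 h2 (by positivity) (by positivity)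
        _ = Q := by
            rw [← Real.rpow_add hQp]
            norm_num
    have h1 : (Q : ℝ) * ((T : ℝ) ^ 3 * Z) + 4 * Z ^ 2 * ((T : ℝ) * Z) ^ 2 ≤ 2 * Q * ((T : ℝ) ^ 3 * Z) := by
      have h2 : 4 * Z ^ 2 * ((T : ℝ) * Z) ^ 2 = (4 * Z ^ 3) * ((T : ℝ) ^ 2 * Z) := by ring
      have h3 : (4 * Z ^ 3) * ((T : ℝ) ^ 2 * Z) ≤ Q * ((T : ℝ) ^ 2 * Z) :=
        mul_le_mul_of_nonneg_right hZ3 (by positivity)
      have h4 : (T : ℝ) ^ 2 * Z ≤ (T : ℝ) ^ 3 * Z :=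
        mul_le_mul_of_nonneg_right (pow_le_pow_right₀ hTr (by norm_num)) hZ0
      have h5 := mul_le_mul_of_nonneg_left h4 hQp.le
      linarith
    calc (N : ℝ) * (T : ℝ) ^ (2 * k) * ((Q : ℝ) * ((T : ℝ) ^ 3 * Z) + 4 * Z ^ 2 * ((T : ℝ) * Z) ^ 2)
        ≤ N * (T : ℝ) ^ (2 * k) * (2 * Q * ((T : ℝ) ^ 3 * Z)) := mul_le_mul_of_nonneg_left h1 (by positivity)
      _ = 2 * Q * (N * (T : ℝ) ^ (2 * k + 3) * Z) := by ring
      _ ≤ 2 * Q * (C1 * (N : ℝ) ^ (k + 2)) := mul_le_mul_of_nonneg_left hT3 (by positivity)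
      _ = 2 * C1 * Q * (N : ℝ) ^ (k + 2) := by ring
  refine ⟨Ω.filter fun q => ∃ N ∈ Icc N0 N1, (N : ℝ) ^ (k + 4) < F (Icc 1 N) (jc q) k, ?_, ?_⟩
  · refine (count_bad Ω (fun q N => F (Icc 1 N) (jc q) k) (fun _ _ => F_nonneg _ _ _)
      (by positivity) hN01 hmom).trans ?_
    have h1 : 2 / (N0 : ℝ) ≤ 2 * (Q : ℝ) ^ (-η) := by
      rw [Real.rpow_neg hQp.le, ← div_eq_mul_inv]
      exact div_le_div_of_nonneg_left (by norm_num) (by positivity) hN0r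
    calc 2 * C1 * Q * (2 / (N0 : ℝ)) ≤ 2 * C1 * Q * (2 * (Q : ℝ) ^ (-η)) :=
          mul_le_mul_of_nonneg_left h1 (by positivity)
      _ = (4 * C1) * (Q * (Q : ℝ) ^ (-η)) := by ring
      _ ≤ (Q : ℝ) ^ (η / 2) * (Q * (Q : ℝ) ^ (-η)) := mul_le_mul_of_nonneg_right hQ2 (by positivity)
      _ = (Q : ℝ) ^ (1 - η / 2) := by
          nth_rewrite 2 [← Real.rpow_one (Q : ℝ)]
          rw [← Real.rpow_add hQp, ← Real.rpow_add hQp]
          congr 1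
          ring
  · intro p hpp hp2 hpQ hpE N hNη hNγ z w A B hA hB f g
    have hNN : N ∈ Icc N0 N1 := by
      rw [mem_Icc]
      exact ⟨Nat.ceil_le.2 hNη, Nat.le_floor hNγ⟩
    have hN1' : 1 ≤ N := hN01.trans (mem_Icc.1 hNN).1
    have hpΩ : p ∈ Ω := by
      rw [hΩ, mem_filter, mem_Ioc]
      exact ⟨⟨hpp.out.pos, hpQ⟩, hpp.out.odd_of_ne_two hp2⟩
    have hFle : F (Icc 1 N) (jc p) k ≤ (N : ℝ) ^ (k + 4) := by
      by_contra hc
      rw [not_le] at hc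
      exact hpE (mem_filter.2 ⟨hpΩ, N, hNN, hc⟩)
    refine forms (fun w => ((quadraticChar (ZMod p) w : ℤ) : ℂ)) ?_ ?_ hN1' hk1 hkε ?_ z w A B hA hB f g
    · intro w
      rw [Complex.norm_intCast]
      rcases quadraticChar_isQuadratic (ZMod p) w with h | h | h <;> rw [h] <;> norm_num
    · intro a b
      rw [map_mul]
      push_cast
      rfl
    · have e : (fun n : ℕ => ((quadraticChar (ZMod p) (n : ZMod p) : ℤ) : ℂ)) = jc p := by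
        funext n
        unfold jc
        rw [← jacobiSym.legendreSym.to_jacobiSym]
        unfold legendreSym
        rw [Int.cast_natCast]
      rw [e]
      exact hFle

/-- **almost all characters** -/
theorem chars_main {ε : ℝ} (hε : 0 < ε) : ∃ γ : ℝ, 0 < γ ∧ ∀ η : ℝ, 0 < η → ∃ c : ℝ, 0 < c ∧
    ∃ p₀ : ℕ, ∀ (p : ℕ) [Fact p.Prime], p₀ ≤ p → ∃ E : Finset (DirichletCharacter ℂ p),
      (E.card : ℝ) ≤ (p : ℝ) ^ (1 - c) ∧ ∀ χ : DirichletCharacter ℂ p, χ ∉ E →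
        ∀ N : ℕ, (p : ℝ) ^ η ≤ N → (N : ℝ) ≤ (p : ℝ) ^ γ → ∀ (z w : ZMod p) (A B : Finset (ZMod p)),
          (∀ a ∈ A, ∃ n ∈ Icc 1 N, a = (n : ZMod p) * z + w) →
          (∀ b ∈ B, ∃ n ∈ Icc 1 N, b = (n : ZMod p) * z + -w) →
          ∀ f g : ZMod p → ℂ,
            ‖∑ a ∈ A, ∑ b ∈ B, f a * g b * χ (a + b)‖ ≤
              (N : ℝ) ^ (1 / 2 + ε) * (Real.sqrt (∑ a ∈ A, ‖f a‖ ^ 2) * Real.sqrt (∑ b ∈ B, ‖g b‖ ^ 2)) := by
  classical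
  obtain ⟨k, hk⟩ := exists_nat_ge (max 1 (2 / ε))
  have hk1 : 1 ≤ k := by exact_mod_cast (le_max_left _ _).trans hk
  have hk0 : (0 : ℝ) < k := by exact_mod_cast hk1
  have hkε : 2 / (k : ℝ) ≤ ε := by
    have := (le_max_right _ _).trans hk
    rw [div_le_iff₀ hε] at this
    rw [div_le_iff₀ hk0]
    linarith
  obtain ⟨C1, hC1, hT⟩ := Tb hk1
  refine ⟨1 / (6 * k), by positivity, fun η hη => ⟨η / 2, by positivity, ?_⟩⟩
  have hev := ((ev_const (2 * 4 ^ k) (1 / 2) (by norm_num)).and (ev_const (4 * C1) (η / 2) (by positivity))).and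
    (eventually_ge_atTop 2)
  obtain ⟨p₀, hp₀⟩ := eventually_atTop.1 hev
  refine ⟨p₀, fun p hpp hp => ?_⟩
  obtain ⟨⟨hQ1, hQ2⟩, hQ3⟩ := hp₀ p hp
  have hQr : (1 : ℝ) ≤ p := by exact_mod_cast (by omega : 1 ≤ p)
  have hQp : (0 : ℝ) < p := by linarith
  set N0 : ℕ := ⌈(p : ℝ) ^ η⌉₊ with hN0
  set N1 : ℕ := ⌊(p : ℝ) ^ (1 / (6 * (k : ℝ)))⌋₊ with hN1
  have hN0r : (p : ℝ) ^ η ≤ N0 := Nat.le_ceil _
  have hQη : (1 : ℝ) ≤ (p : ℝ) ^ η := Real.one_le_rpow hQr hη.le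
  have hN01 : 1 ≤ N0 := by
    have : (1 : ℝ) ≤ N0 := hQη.trans hN0r
    exact_mod_cast this
  have hmom : ∀ N ∈ Icc N0 N1, ∑ χ : DirichletCharacter ℂ p, F (Icc 1 N) (cc p χ) k ≤
      (2 * C1) * p * (N : ℝ) ^ (k + 2) := by
    intro N hN
    rw [mem_Icc] at hN
    have hN1' : 1 ≤ N := hN01.trans hN.1
    obtain ⟨T, hT1, hT2, hT3⟩ := hT N hN1'
    have hTr : (1 : ℝ) ≤ T := by exact_mod_cast hT1
    have hT2' : ∀ e : ℕ, 1 ≤ e → e ≤ (2 * N) ^ k → e.divisors.card ≤ T := by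
      intro e h1 h2
      refine hT2 e h1 (h2.trans ?_)
      rw [sq]
      exact Nat.le_mul_self _
    have hNle : (N : ℝ) ≤ (p : ℝ) ^ (1 / (6 * (k : ℝ))) :=
      (Nat.cast_le.2 hN.2).trans (Nat.floor_le (by positivity))
    have hZp : ((2 * N) ^ k) ^ 2 < p := by
      have h1 : ((((2 * N) ^ k) ^ 2 : ℕ) : ℝ) = 4 ^ k * (N : ℝ) ^ (2 * k) := by
        push_cast
        rw [mul_pow, mul_pow, ← pow_mul, ← pow_mul, mul_comm k 2, pow_mul (2 : ℝ) 2 k]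
        norm_num
      have h2 : (N : ℝ) ^ (2 * k) ≤ (p : ℝ) ^ ((1 : ℝ) / 2) := by
        refine (pow_le_pow_left₀ (Nat.cast_nonneg _) hNle (2 * k)).trans ?_
        rw [← Real.rpow_natCast, ← Real.rpow_mul hQp.le]
        refine Real.rpow_le_rpow_of_exponent_le hQr ?_
        push_cast
        have : 1 / (6 * (k : ℝ)) * (2 * k) = 1 / 3 := by
          field_simp
          norm_num
        rw [this]
        norm_num
      have h3 : 2 * ((((2 * N) ^ k) ^ 2 : ℕ) : ℝ) ≤ p := by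
        calc 2 * ((((2 * N) ^ k) ^ 2 : ℕ) : ℝ) = (2 * 4 ^ k) * (N : ℝ) ^ (2 * k) := by rw [h1]; ring
          _ ≤ (p : ℝ) ^ ((1 : ℝ) / 2) * (p : ℝ) ^ ((1 : ℝ) / 2) :=
              mul_le_mul hQ1 h2 (by positivity) (by positivity)
          _ = p := by
              rw [← Real.rpow_add hQp]
              norm_num
      have h4 : 2 * ((2 * N) ^ k) ^ 2 ≤ p := by exact_mod_cast h3
      have h5 : 0 < ((2 * N) ^ k) ^ 2 := by positivity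
      omega
    refine (char_moments p N k T hT2' hZp).trans ?_
    set Z : ℝ := (((2 * N) ^ k : ℕ) : ℝ) with hZ
    have hZ0 : 0 ≤ Z := by rw [hZ]; positivity
    calc (N : ℝ) * (T : ℝ) ^ (2 * k) * ((p : ℝ) * ((T : ℝ) ^ 2 * Z))
        ≤ N * (T : ℝ) ^ (2 * k) * (p * ((T : ℝ) ^ 3 * Z)) := by
          refine mul_le_mul_of_nonneg_left (mul_le_mul_of_nonneg_left ?_ hQp.le) (by positivity)
          exact mul_le_mul_of_nonneg_right (pow_le_pow_right₀ hTr (by norm_num)) hZ0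
      _ = p * (N * (T : ℝ) ^ (2 * k + 3) * Z) := by ring
      _ ≤ p * (C1 * (N : ℝ) ^ (k + 2)) := mul_le_mul_of_nonneg_left hT3 (by positivity)
      _ ≤ 2 * C1 * p * (N : ℝ) ^ (k + 2) := by
          have : 0 ≤ p * (C1 * (N : ℝ) ^ (k + 2)) := by positivity
          linarith
  refine ⟨univ.filter fun χ => ∃ N ∈ Icc N0 N1, (N : ℝ) ^ (k + 4) < F (Icc 1 N) (cc p χ) k, ?_, ?_⟩
  · refine (count_bad univ (fun χ N => F (Icc 1 N) (cc p χ) k) (fun _ _ => F_nonneg _ _ _)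
      (by positivity) hN01 hmom).trans ?_
    have h1 : 2 / (N0 : ℝ) ≤ 2 * (p : ℝ) ^ (-η) := by
      rw [Real.rpow_neg hQp.le, ← div_eq_mul_inv]
      exact div_le_div_of_nonneg_left (by norm_num) (by positivity) hN0r
    calc 2 * C1 * p * (2 / (N0 : ℝ)) ≤ 2 * C1 * p * (2 * (p : ℝ) ^ (-η)) :=
          mul_le_mul_of_nonneg_left h1 (by positivity)
      _ = (4 * C1) * (p * (p : ℝ) ^ (-η)) := by ring
      _ ≤ (p : ℝ) ^ (η / 2) * (p * (p : ℝ) ^ (-η)) := mul_le_mul_of_nonneg_right hQ2 (by positivity)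
      _ = (p : ℝ) ^ (1 - η / 2) := by
          nth_rewrite 2 [← Real.rpow_one (p : ℝ)]
          rw [← Real.rpow_add hQp, ← Real.rpow_add hQp]
          congr 1
          ring
  · intro χ hχ N hNη hNγ z w A B hA hB f g
    have hNN : N ∈ Icc N0 N1 := by
      rw [mem_Icc]
      exact ⟨Nat.ceil_le.2 hNη, Nat.le_floor hNγ⟩
    have hN1' : 1 ≤ N := hN01.trans (mem_Icc.1 hNN).1
    have hFle : F (Icc 1 N) (cc p χ) k ≤ (N : ℝ) ^ (k + 4) := by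
      by_contra hc
      rw [not_le] at hc
      exact hχ (mem_filter.2 ⟨mem_univ _, N, hNN, hc⟩)
    exact forms (fun w => χ w) (fun w => χ.norm_le_one w) (fun a b => map_mul χ a b) hN1' hk1 hkε hFle z w A B hA hB f g

end Pool.Agent.H95SD.PG
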