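import Mathlib
import Pool.Agent.H95SD.Fin
import Pool.Agent.H95SD.Basis
import Pool.Agent.Y827.RO.LamR
import Pool.Agent.X34.E.E21

/-!
# A positive proportion of the integers are sums of two primes which start the same constellation with
differences in a given set
-/

set_option autoImplicit false

open Finset Filter

namespace Pool.Agent.H95SD.Tw

open Pool.Agent.TH882.DD (PS)

/-- `p` and all `p + c g`, `g ∈ S`, are primes -/
def St {T : ℕ} (S : Finset (Fin T)) (c : Fin T → ℕ) (p : ℕ) : Prop :=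
  p.Prime ∧ ∀ g ∈ S, (p + c g).Prime

/-- the integers `N ≤ x` which are sums of two elements of `P` -/
def sums (P : ℕ → Prop) (x : ℕ) : Set ℕ := {N : ℕ | N ≤ x ∧ ∃ p, P p ∧ ∃ q, P q ∧ p + q = N}

theorem sums_finite (P : ℕ → Prop) (x : ℕ) : (sums P x).Finite :=
  (Set.finite_Iic x).subset fun N hN => hN.1

open Classical in
/-- a dyadic window which contains a sixth of the set -/
theorem window (A : Finset ℕ) (Z : ℕ) (hA : ∀ n ∈ A, Z ≤ n ∧ n < 64 * Z) :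
    ∃ Y, Z ≤ Y ∧ Y ≤ 32 * Z ∧ A.card ≤ 6 * (A.filter (fun n => n ∈ Ico Y (2 * Y))).card := by
  by_contra hcon
  push Not at hcon
  have h0 := hcon Z le_rfl (by omega)
  have h1 := hcon (2 * Z) (by omega) (by omega)
  have h2 := hcon (4 * Z) (by omega) (by omega)
  have h3 := hcon (8 * Z) (by omega) (by omega)
  have h4 := hcon (16 * Z) (by omega) (by omega)
  have h5 := hcon (32 * Z) (by omega) (by omega)
  have h6 : A ⊆ A.filter (fun n => n ∈ Ico Z (2 * Z)) ∪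
      (A.filter (fun n => n ∈ Ico (2 * Z) (2 * (2 * Z))) ∪
      (A.filter (fun n => n ∈ Ico (4 * Z) (2 * (4 * Z))) ∪
      (A.filter (fun n => n ∈ Ico (8 * Z) (2 * (8 * Z))) ∪
      (A.filter (fun n => n ∈ Ico (16 * Z) (2 * (16 * Z))) ∪
      A.filter (fun n => n ∈ Ico (32 * Z) (2 * (32 * Z))))))) := by
    intro n hn
    obtain ⟨h7, h8⟩ := hA n hn
    simp only [mem_union, mem_filter, mem_Ico, hn, true_and]
    omega
  have h7 := card_le_card h6
  have k1 := card_union_le (A.filter (fun n => n ∈ Ico Z (2 * Z)))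
      (A.filter (fun n => n ∈ Ico (2 * Z) (2 * (2 * Z))) ∪
      (A.filter (fun n => n ∈ Ico (4 * Z) (2 * (4 * Z))) ∪
      (A.filter (fun n => n ∈ Ico (8 * Z) (2 * (8 * Z))) ∪
      (A.filter (fun n => n ∈ Ico (16 * Z) (2 * (16 * Z))) ∪
      A.filter (fun n => n ∈ Ico (32 * Z) (2 * (32 * Z)))))))
  have k2 := card_union_le
      (A.filter (fun n => n ∈ Ico (2 * Z) (2 * (2 * Z))))
      (A.filter (fun n => n ∈ Ico (4 * Z) (2 * (4 * Z))) ∪
      (A.filter (fun n => n ∈ Ico (8 * Z) (2 * (8 * Z))) ∪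
      (A.filter (fun n => n ∈ Ico (16 * Z) (2 * (16 * Z))) ∪
      A.filter (fun n => n ∈ Ico (32 * Z) (2 * (32 * Z))))))
  have k3 := card_union_le
      (A.filter (fun n => n ∈ Ico (4 * Z) (2 * (4 * Z))))
      (A.filter (fun n => n ∈ Ico (8 * Z) (2 * (8 * Z))) ∪
      (A.filter (fun n => n ∈ Ico (16 * Z) (2 * (16 * Z))) ∪
      A.filter (fun n => n ∈ Ico (32 * Z) (2 * (32 * Z)))))
  have k4 := card_union_le
      (A.filter (fun n => n ∈ Ico (8 * Z) (2 * (8 * Z))))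
      (A.filter (fun n => n ∈ Ico (16 * Z) (2 * (16 * Z))) ∪
      A.filter (fun n => n ∈ Ico (32 * Z) (2 * (32 * Z))))
  have k5 := card_union_le
      (A.filter (fun n => n ∈ Ico (16 * Z) (2 * (16 * Z))))
      (A.filter (fun n => n ∈ Ico (32 * Z) (2 * (32 * Z))))
  omega

/-- the constellation of a choice of shifts -/
theorem cons_of {T K : ℕ} {e : Fin T → ℕ} {k a d w M : ℕ} {b : Fin T → Fin K → ℕ}
    (hb : Arr e k a d w b) {S : Finset (Fin T)} (hS : M + 1 ≤ S.card) (g₀ : Fin T) (hg₀S : g₀ ∈ S)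
    (hmin : ∀ g ∈ S, g₀ ≤ g) (σ : Fin T → Fin K) (hew : ∀ g, e g ≤ w) (hK : 1 ≤ K) :
    ∃ c : Fin T → ℕ, Cons M e k a d (w * (a + k * d)) S c ∧
      ∀ g ∈ S, c g + b g₀ (σ g₀) = b g (σ g) := by
  classical
  have hb0 : ∀ g ∈ S, b g₀ (σ g₀) ≤ b g (σ g) := by
    intro g hg
    rcases (hmin g hg).lt_or_eq with h | h
    · exact (hb.lt _ _ _ _ h).le
    · rw [← h]
  obtain ⟨c, hc⟩ : ∃ c : Fin T → ℕ, c = fun g => if g ∈ S then b g (σ g) - b g₀ (σ g₀) else 0 :=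
    ⟨_, rfl⟩
  have hcS : ∀ g ∈ S, c g + b g₀ (σ g₀) = b g (σ g) := by
    intro g hg
    have := hb0 g hg
    rw [hc]; simp only [if_pos hg]; omega
  have hc0 : c g₀ = 0 := by
    have := hcS g₀ hg₀S; omega
  have hdiff : ∀ g ∈ S, ∀ h ∈ S, g < h → ∃ j < k, c h = c g + (e h - e g) * (a + j * d) := by
    intro g hg h hh hgh
    obtain ⟨j, hjk, hj⟩ := hb.cross g h (σ g) (σ h) hgh
    refine ⟨j, hjk, ?_⟩
    have h1 := hcS g hg
    have h2 := hcS h hh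
    omega
  refine ⟨c, ⟨hS, hdiff, ?_, ?_, ?_⟩, hcS⟩
  · intro g hg hgm
    have : g = g₀ := le_antisymm (hgm g₀ hg₀S) (hmin g hg)
    rw [this, hc0]
  · intro p hp
    by_cases hpK : p ≤ T * K
    · obtain ⟨r, hr⟩ := hb.loc p hp hpK
      refine ⟨r + b g₀ (σ g₀), fun g hg h => hr g (σ g) ?_⟩
      rw [← hcS g hg]
      push_cast
      have e1 : r + (c g + b g₀ (σ g₀) : ℤ) = r + b g₀ (σ g₀) + c g := by ring
      rw [e1]; exact h
    · refine avoid S c ?_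
      have h1 : S.card ≤ T := by
        have := card_le_univ S
        rwa [Fintype.card_fin] at this
      have h2 : T ≤ T * K := Nat.le_mul_of_pos_right _ hK
      omega
  · intro g
    by_cases hg : g ∈ S
    · rcases (hmin g hg).lt_or_eq with h | h
      · obtain ⟨j, hjk, hj⟩ := hdiff g₀ hg₀S g hg h
        rw [hj, hc0, Nat.zero_add]
        refine Nat.mul_le_mul ?_ ?_
        · have := hew g; omega
        · have : j * d ≤ k * d := Nat.mul_le_mul_right _ hjk.le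
          omega
      · rw [← h, hc0]; exact Nat.zero_le _
    · rw [hc]; simp only [if_neg hg]; exact Nat.zero_le _

open Classical in
/-- **The sums.** -/
theorem two (T M : ℕ) (hTM : 18 * M < 5 * T) (w : ℕ) (e : Fin T → ℕ) (he : StrictMono e)
    (hew : ∀ g, e g ≤ w) (hadm : ∀ p : ℕ, p.Prime → ∃ n : ℤ, ∀ g, ¬ (p : ℤ) ∣ n + e g) :
    ∃ k : ℕ, 2 ≤ k ∧ ∀ a d : ℕ, 1 ≤ a → 1 ≤ d → ∃ c₁ : ℝ, 0 < c₁ ∧ ∀ᶠ x : ℕ in atTop,
      ∃ (S : Finset (Fin T)) (c : Fin T → ℕ), Cons M e k a d (w * (a + k * d)) S c ∧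
        c₁ * x ≤ ((sums (St S c) x).ncard : ℝ) := by
  have hTM' : (18 * M : ℝ) < 5 * T := by exact_mod_cast hTM
  obtain ⟨K, hK, δ, hδ, h⟩ := Pool.Agent.Y827.RO.lamR0 T M (by omega) (by linarith)
  obtain ⟨s₀, c₀, hc₀, h⟩ := h 1
  obtain ⟨k, hk, harr⟩ := array T K w hK e he hew hadm
  refine ⟨k, hk, fun a d ha hd => ?_⟩
  obtain ⟨b, hb⟩ := harr a d ha hd
  obtain ⟨L₀, hL₀⟩ : ∃ L₀, L₀ = (w + 1) * (a + k * d) := ⟨_, rfl⟩
  obtain ⟨L, hL⟩ : ∃ L, L = T * K + 1 := ⟨_, rfl⟩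
  -- the sets of shifts
  obtain ⟨U, hU⟩ : ∃ U : ℕ → Finset ℕ, U = fun s => insert 0
      ((univ : Finset (Fin T × Fin K)).image (fun z => b z.1 z.2 + s)) := ⟨_, rfl⟩
  have hUc : ∀ s : ℕ, (∀ g i, b g i + s ≠ 0) → (U s).card = L := by
    intro s hs
    rw [hU, hL]
    simp only
    rw [card_insert_of_notMem, card_image_of_injective, card_univ, Fintype.card_prod,
      Fintype.card_fin, Fintype.card_fin]
    · intro z z' hzz
      exact hb.inj (Nat.add_right_cancel hzz)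
    · intro h0
      obtain ⟨z, -, hz⟩ := mem_image.1 h0
      exact hs z.1 z.2 hz
  have hcore : ∃ c₂ : ℝ, 0 < c₂ ∧ ∀ᶠ Y : ℕ in atTop, ∀ s ≤ s₀, ∀ A : Finset ℕ,
      A ⊆ Ico Y (2 * Y) →
      (∀ n ∈ A, ∀ u ∈ U s, ∀ p : ℕ, p.Prime → (p : ℝ) ≤ (Y : ℝ) ^ δ → ¬ p ∣ n + u) →
      (c₀ / (6 * 2 ^ L)) * (Y / Real.log Y ^ (U s).card) ≤ (A.card : ℝ) →
      c₂ * Y ≤ (((Ico (2 * Y) (4 * Y)).filter (fun N => 0 < (PS A N).card)).card : ℝ) := by
    have hs : ∀ s : ℕ, ∃ c₂ : ℝ, 0 < c₂ ∧ ∀ᶠ Y : ℕ in atTop, ∀ A : Finset ℕ,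
        A ⊆ Ico Y (2 * Y) →
        (∀ n ∈ A, ∀ u ∈ U s, ∀ p : ℕ, p.Prime → (p : ℝ) ≤ (Y : ℝ) ^ δ → ¬ p ∣ n + u) →
        (c₀ / (6 * 2 ^ L)) * (Y / Real.log Y ^ (U s).card) ≤ (A.card : ℝ) →
        c₂ * Y ≤ (((Ico (2 * Y) (4 * Y)).filter (fun N => 0 < (PS A N).card)).card : ℝ) := by
      intro s
      obtain ⟨c, hc, hs⟩ := Pool.Agent.X34.E.sums_core (U s) ⟨0, by rw [hU]; exact mem_insert_self _ _⟩
        δ (c₀ / (6 * 2 ^ L)) hδ (by positivity)
      refine ⟨c, hc, ?_⟩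
      filter_upwards [hs, eventually_ge_atTop 3] with Y hY hY3 A h1 h2 h3
      refine (hY A h1 h2 h3).trans ?_
      rw [Nat.cast_le]
      refine card_le_card fun N hN => ?_
      obtain ⟨hN1, hN2⟩ := mem_filter.1 hN
      refine mem_filter.2 ⟨hN1, ?_⟩
      have hY3' : (3 : ℝ) ≤ Y := by exact_mod_cast hY3
      have hl : 0 < Real.log (Y : ℝ) := Real.log_pos (by linarith)
      have hpos : (0 : ℝ) < c * (Y / Real.log Y ^ (2 * (U s).card)) := by positivity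
      have := lt_of_lt_of_le hpos hN2
      exact_mod_cast this
    choose f hf1 hf2 using hs
    refine ⟨∏ s ∈ range (s₀ + 1), min (f s) 1, prod_pos fun s _ => lt_min (hf1 s) one_pos, ?_⟩
    have h1 : ∀ᶠ Y : ℕ in atTop, ∀ s ∈ range (s₀ + 1), ∀ A : Finset ℕ,
        A ⊆ Ico Y (2 * Y) →
        (∀ n ∈ A, ∀ u ∈ U s, ∀ p : ℕ, p.Prime → (p : ℝ) ≤ (Y : ℝ) ^ δ → ¬ p ∣ n + u) →
        (c₀ / (6 * 2 ^ L)) * (Y / Real.log Y ^ (U s).card) ≤ (A.card : ℝ) →
        f s * Y ≤ (((Ico (2 * Y) (4 * Y)).filter (fun N => 0 < (PS A N).card)).card : ℝ) := by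
      rw [Filter.eventually_all_finset]
      exact fun s _ => hf2 s
    filter_upwards [h1] with Y hY s hs A hA1 hA2 hA3
    refine le_trans ?_ (hY s (mem_range.2 (by omega)) A hA1 hA2 hA3)
    have h2 : ∏ s ∈ range (s₀ + 1), min (f s) 1 ≤ f s := by
      rw [← mul_prod_erase _ _ (mem_range.2 (by omega : s < s₀ + 1))]
      have h3 : ∏ s ∈ (range (s₀ + 1)).erase s, min (f s) 1 ≤ 1 :=
        prod_le_one (fun s _ => (lt_min (hf1 s) one_pos).le) (fun s _ => min_le_right _ _)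
      have h4 : 0 < min (f s) 1 := lt_min (hf1 s) one_pos
      calc min (f s) 1 * ∏ s ∈ (range (s₀ + 1)).erase s, min (f s) 1 ≤ min (f s) 1 * 1 :=
            mul_le_mul_of_nonneg_left h3 h4.le
        _ ≤ f s := by rw [mul_one]; exact min_le_left _ _
    exact mul_le_mul_of_nonneg_right h2 (Nat.cast_nonneg _)
  obtain ⟨c₂, hc₂, hcore⟩ := hcore
  refine ⟨c₂ / 512, by positivity, ?_⟩
  have hdiv : Tendsto (fun x : ℕ => x / 5) atTop atTop := Nat.tendsto_div_const_atTop (by norm_num)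
  have hdiv2 : Tendsto (fun x : ℕ => (x / 5) / 32) atTop atTop :=
    (Nat.tendsto_div_const_atTop (by norm_num)).comp hdiv
  obtain ⟨Y₀, hY₀⟩ := eventually_atTop.1 hcore
  filter_upwards [hdiv.eventually h, hdiv2.eventually (eventually_ge_atTop (Y₀ + s₀ + 64)),
    eventually_ge_atTop (1000 * (s₀ + L₀ + 64))] with x hN hx1 hx2
  obtain ⟨N, hNd⟩ : ∃ N, N = x / 5 := ⟨_, rfl⟩
  rw [← hNd] at hN hx1
  obtain ⟨s, S, σ, hss, hs0, -, hS, hcard⟩ := hN (fun g i => ((1 : ℤ), (b g i : ℤ)))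
    (by
      intro y z hyz
      simp only [Prod.mk.injEq, true_and] at hyz
      exact hb.inj (by exact_mod_cast hyz))
    (by
      intro g i
      refine ⟨one_ne_zero, by simp, ?_, isCoprime_one_left, fun t ht _ => ?_⟩
      · simp only [Nat.abs_cast]
        have h1 := hb.le g i
        have h2 : b g i ≤ N := by omega
        exact_mod_cast h2
      · have h1 : (0 : ℝ) ≤ (b g i : ℝ) := Nat.cast_nonneg _
        have h2 : 0 ≤ (N : ℝ) / 16 := by positivity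
        push_cast
        linarith)
    (by
      intro p hp hpK
      obtain ⟨r, hr⟩ := hb.loc p hp hpK
      refine ⟨r, fun g i => ?_⟩
      simp only [one_mul]
      exact hr g i)
  simp only at hcard hs0
  have hbs : ∀ g i, b g i + s ≠ 0 := by
    intro g i h0
    apply hs0 g i
    have h1 : ((b g i + s : ℕ) : ℤ) = 0 := by rw [h0]; rfl
    push_cast at h1
    linarith
  obtain ⟨R, hR⟩ : ∃ R, R = Pool.Agent.Y827.RO.Rs (fun g i => ((1 : ℤ), (b g i : ℤ))) δ s S σ N :=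
    ⟨_, rfl⟩
  rw [← hR] at hcard
  -- the shifted set
  have hRm : ∀ n ∈ R, 1 ≤ n ∧ n ≤ N ∧ N ≤ 16 * n ∧
      (∀ p : ℕ, p.Prime → (p : ℝ) ≤ (N : ℝ) ^ δ → ¬ (p : ℤ) ∣ (n : ℤ) - s) ∧
      (∀ g i, ∀ p : ℕ, p.Prime → (p : ℝ) ≤ (N : ℝ) ^ δ → ¬ p ∣ n + b g i) ∧
      ∀ g ∈ S, (n + b g (σ g)).Prime := by
    intro n hn
    rw [hR] at hn
    unfold Pool.Agent.Y827.RO.Rs at hn
    obtain ⟨hn1, hn2, hn3, hn4, hn5⟩ := mem_filter.1 hn
    have hn1 := mem_Icc.1 hn1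
    have hN0 : (0 : ℝ) < N := by
      have : 0 < N := by omega
      exact_mod_cast this
    have hlog : ∀ p : ℕ, p.Prime → (p : ℝ) ≤ (N : ℝ) ^ δ → Real.log p ≤ δ * Real.log N := by
      intro p hp hpN
      rw [← Real.log_rpow hN0]
      exact Real.log_le_log (by exact_mod_cast hp.pos) hpN
    refine ⟨hn1.1, hn1.2, ?_, fun p hp hpN => hn3 p hp (hlog p hp hpN), fun g i p hp hpN hd => ?_,
      fun g hg => ?_⟩
    · have h3 : (N : ℝ) ≤ 16 * n := by linarith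
      exact_mod_cast h3
    · apply hn4 g i p hp (hlog p hp hpN)
      simp only [one_mul]
      exact_mod_cast hd
    · have h3 := hn5 g hg
      simp only [one_mul] at h3
      have h4 : ((n : ℤ) + (b g (σ g) : ℤ)).toNat = n + b g (σ g) := by omega
      rwa [h4] at h3
  obtain ⟨A, hA⟩ : ∃ A : Finset ℕ, A = R.image (fun n => n - s) := ⟨_, rfl⟩
  have hsn : ∀ n ∈ R, s ≤ n := by
    intro n hn
    obtain ⟨-, -, h3, -⟩ := hRm n hn
    omega
  have hAc : A.card = R.card := by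
    rw [hA]
    apply card_image_of_injOn
    intro n hn n' hn' hnn
    have h1 := hsn n (mem_coe.1 hn)
    have h2 := hsn n' (mem_coe.1 hn')
    have h3 : n - s = n' - s := hnn
    omega
  obtain ⟨Y, hY1, hY2, hY3⟩ := window A (N / 32) (by
    intro n hn
    rw [hA] at hn
    obtain ⟨n', hn', rfl⟩ := mem_image.1 hn
    obtain ⟨-, h2, h3, -⟩ := hRm n' hn'
    have h4 := hsn n' hn'
    constructor <;> omega)
  have hYY := hY₀ Y (by omega) s hss (A.filter (fun n => n ∈ Ico Y (2 * Y)))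
    (fun n hn => (mem_filter.1 hn).2) (by
      intro n hn u hu p hp hpY hd
      obtain ⟨hn1, -⟩ := mem_filter.1 hn
      rw [hA] at hn1
      obtain ⟨n', hn', rfl⟩ := mem_image.1 hn1
      obtain ⟨-, -, -, h4, h5, -⟩ := hRm n' hn'
      have h6 := hsn n' hn'
      have hpN : (p : ℝ) ≤ (N : ℝ) ^ δ := by
        refine hpY.trans (Real.rpow_le_rpow (Nat.cast_nonneg _) ?_ hδ.le)
        have : Y ≤ N := by omega
        exact_mod_cast this
      rw [hU] at hu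
      rcases mem_insert.1 hu with rfl | hu
      · apply h4 p hp hpN
        have h7 : ((n' - s : ℕ) : ℤ) = (n' : ℤ) - s := by push_cast [Nat.cast_sub h6]; rfl
        rw [← h7]
        exact_mod_cast hd
      · obtain ⟨z, -, rfl⟩ := mem_image.1 hu
        apply h5 z.1 z.2 p hp hpN
        have h7 : n' - s + (b z.1 z.2 + s) = n' + b z.1 z.2 := by omega
        rwa [h7] at hd) (by
      rw [hUc s hbs]
      have hY0 : (64 : ℝ) ≤ Y := by
        have : 64 ≤ Y := by omega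
        exact_mod_cast this
      have hN64 : (N : ℝ) ≤ Y * Y := by
        have h7 : N < 32 * (N / 32 + 1) := Nat.lt_mul_div_succ N (by norm_num)
        have h8 : N ≤ 64 * Y := by omega
        have h9 : 64 * Y ≤ Y * Y := Nat.mul_le_mul_right _ (by omega)
        exact_mod_cast h8.trans h9
      have hYN : (Y : ℝ) ≤ N := by
        have : Y ≤ N := by omega
        exact_mod_cast this
      have hlY : 0 < Real.log (Y : ℝ) := Real.log_pos (by linarith)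
      have hlN : Real.log (N : ℝ) ≤ 2 * Real.log Y := by
        have h7 := Real.log_le_log (by linarith) hN64
        rw [Real.log_mul (by linarith) (by linarith)] at h7
        linarith
      have hlN0 : 0 < Real.log (N : ℝ) := Real.log_pos (by linarith)
      have h10 : (R.card : ℝ) ≤ 6 * ((A.filter (fun n => n ∈ Ico Y (2 * Y))).card : ℝ) := by
        rw [← hAc]; exact_mod_cast hY3
      have h11 : (Y : ℝ) / (2 * Real.log Y) ^ L ≤ N / Real.log N ^ L := by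
        have h12 : Real.log (N : ℝ) ^ L ≤ (2 * Real.log Y) ^ L := pow_le_pow_left₀ hlN0.le hlN L
        exact div_le_div₀ (by linarith) hYN (by positivity) h12
      have h13 : c₀ * (Y / (2 * Real.log Y) ^ L) ≤ (R.card : ℝ) := by
        refine le_trans (mul_le_mul_of_nonneg_left h11 hc₀.le) ?_
        rw [hL]
        exact hcard
      have h14 : c₀ / (6 * 2 ^ L) * ((Y : ℝ) / Real.log Y ^ L) =
          c₀ * (Y / (2 * Real.log Y) ^ L) / 6 := by
        rw [mul_pow]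
        field_simp
      rw [h14]
      linarith)
  -- the pattern
  have hSne : S.Nonempty := by
    rw [← Finset.card_pos]; omega
  obtain ⟨g₀, hg₀⟩ : ∃ g₀, g₀ = S.min' hSne := ⟨_, rfl⟩
  have hg₀S : g₀ ∈ S := hg₀ ▸ S.min'_mem hSne
  have hmin : ∀ g ∈ S, g₀ ≤ g := fun g hg => hg₀ ▸ S.min'_le g hg
  obtain ⟨c, hcons, hc0⟩ := cons_of hb hS g₀ hg₀S hmin σ hew hK
  refine ⟨S, c, hcons, ?_⟩
  obtain ⟨B, hB⟩ : ∃ B : Finset ℕ, B = A.filter (fun n => n ∈ Ico Y (2 * Y)) := ⟨_, rfl⟩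
  rw [← hB] at hYY
  have hx512 : c₂ / 512 * x ≤ c₂ * Y := by
    have h1 : x ≤ 512 * Y := by omega
    have h2 : (x : ℝ) ≤ 512 * Y := by exact_mod_cast h1
    nlinarith
  refine hx512.trans (hYY.trans ?_)
  rw [Nat.cast_le, ← Set.ncard_coe_finset]
  obtain ⟨Q, hQ⟩ : ∃ Q, Q = s + b g₀ (σ g₀) := ⟨_, rfl⟩
  have hBp : ∀ n ∈ B, St S c (n + Q) := by
    intro n hn
    rw [hB] at hn
    have hn1 := (mem_filter.1 hn).1
    rw [hA] at hn1
    obtain ⟨n', hn', rfl⟩ := mem_image.1 hn1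
    obtain ⟨-, -, -, -, -, h5⟩ := hRm n' hn'
    have h6 := hsn n' hn'
    have h7 : n' - s + Q = n' + b g₀ (σ g₀) := by omega
    rw [h7]
    refine ⟨h5 g₀ hg₀S, fun g hg => ?_⟩
    have h8 : n' + b g₀ (σ g₀) + c g = n' + b g (σ g) := by
      have := hc0 g hg
      omega
    rw [h8]
    exact h5 g hg
  refine Set.ncard_le_ncard_of_injOn (fun n => n + 2 * Q) ?_ ?_ (sums_finite _ _)
  · intro n hn
    obtain ⟨hn1, hn2⟩ := mem_filter.1 (mem_coe.1 hn)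
    have hn1 := mem_Ico.1 hn1
    obtain ⟨u, hu⟩ := Finset.card_pos.1 hn2
    unfold PS at hu
    obtain ⟨hu1, hu2, hu3⟩ := mem_filter.1 hu
    refine ⟨?_, u + Q, hBp u hu1, (n - u) + Q, hBp _ hu3, by omega⟩
    show n + 2 * Q ≤ x
    have h9 := hb.le g₀ (σ g₀)
    rw [← hL₀] at h9
    omega
  · intro n _ n' _ hnn
    exact Nat.add_right_cancel hnn

/-- the classes as a set of natural numbers -/
theorem transfer (E : Finset ℕ) (hE : Adm E id) : ∃ e : Fin E.card → ℕ, StrictMono e ∧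
    (∀ p : ℕ, p.Prime → ∃ n : ℤ, ∀ g, ¬ (p : ℤ) ∣ n + e g) ∧ (∀ g, e g ≤ E.sup id) ∧
    ∃ inv : (Fin E.card → ℕ) → ℕ → ℕ, (∀ c g, inv c (e g) = c g) ∧
      ∀ (l k a d : ℕ) (A : Set ℕ), (∀ j < k, a + j * d ∈ A) → ∀ (W : ℕ) (S : Finset (Fin E.card))
      (c : Fin E.card → ℕ), Cons l e k a d W S c → l + 1 ≤ (S.image e).card ∧
      Pat E A (S.image e) (inv c) := by
  classical
  obtain ⟨e, he, heE⟩ : ∃ e : Fin E.card → ℕ, StrictMono e ∧ ∀ n, n ∈ E ↔ ∃ g, e g = n := by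
    refine ⟨E.orderEmbOfFin rfl, (E.orderEmbOfFin rfl).strictMono, fun n => ?_⟩
    have h1 := Finset.range_orderEmbOfFin E rfl
    constructor
    · intro hn
      have h2 : n ∈ Set.range (E.orderEmbOfFin rfl) := by rw [h1]; exact hn
      exact h2
    · rintro ⟨g, rfl⟩
      exact E.orderEmbOfFin_mem rfl g
  refine ⟨e, he, ?_, fun g => Finset.le_sup (f := id) ((heE _).2 ⟨g, rfl⟩), ?_⟩
  · intro p hp
    obtain ⟨r, hr⟩ := (adm_iff E id).1 hE p hp
    exact ⟨r, fun g => hr (e g) ((heE _).2 ⟨g, rfl⟩)⟩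
  obtain ⟨inv, hinv⟩ : ∃ inv : (Fin E.card → ℕ) → ℕ → ℕ, ∀ c g, inv c (e g) = c g := by
    refine ⟨fun c n => if h : ∃ g, e g = n then c h.choose else 0, fun c g => ?_⟩
    have h1 : ∃ g', e g' = e g := ⟨g, rfl⟩
    simp only [dif_pos h1]
    rw [he.injective h1.choose_spec]
  refine ⟨inv, hinv, ?_⟩
  intro l k a d A hA' W S c hc
  refine ⟨?_, ?_, ?_, ?_, ?_⟩
  · rw [card_image_of_injective _ he.injective]; exact hc.card
  · intro n hn
    obtain ⟨g, -, rfl⟩ := mem_image.1 hn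
    exact (heE _).2 ⟨g, rfl⟩
  · intro n hn hmin
    obtain ⟨g, hg, rfl⟩ := mem_image.1 hn
    rw [hinv]
    refine hc.zero g hg fun h' hh' => ?_
    exact he.le_iff_le.1 (hmin (e h') (mem_image_of_mem _ hh'))
  · rw [adm_iff]
    intro p hp
    obtain ⟨r, hr⟩ := hc.adm p hp
    refine ⟨r, fun n hn => ?_⟩
    obtain ⟨g, hg, rfl⟩ := mem_image.1 hn
    rw [hinv]; exact hr g hg
  · intro n hn n' hn' hlt
    obtain ⟨g, hg, rfl⟩ := mem_image.1 hn
    obtain ⟨g', hg', rfl⟩ := mem_image.1 hn'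
    obtain ⟨j, hj, h1⟩ := hc.diff g hg g' hg' (he.lt_iff_lt.1 hlt)
    rw [hinv, hinv]
    exact ⟨a + j * d, hA' j hj, h1⟩

/-- `p` and all `p + m i`, `i ∈ S`, are primes -/
def Sp (S : Finset ℕ) (m : ℕ → ℕ) (p : ℕ) : Prop := p.Prime ∧ ∀ i ∈ S, (p + m i).Prime

/-- a sum of at most `K` elements -/
def SumK (K : ℕ) (P : ℕ → Prop) (N : ℕ) : Prop :=
  ∃ s : Multiset ℕ, s.card ≤ K ∧ (∀ p ∈ s, P p) ∧ s.sum = N

/-- **Sums of two and bounded sums.** -/
theorem main2 (E : Finset ℕ) (hE : Adm E id) (l : ℕ) (hl : 18 * l < 5 * E.card) :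
    ∃ k : ℕ, 2 ≤ k ∧ ∀ a d : ℕ, 1 ≤ a → 1 ≤ d → ∃ (c : ℝ) (K q : ℕ), 0 < c ∧ 1 ≤ q ∧
      ∀ A : Set ℕ, (∀ j < k, a + j * d ∈ A) →
      (∀ᶠ x : ℕ in atTop, ∃ (S : Finset ℕ) (m : ℕ → ℕ), l + 1 ≤ S.card ∧ Pat E A S m ∧
        c * x ≤ ((sums (Sp S m) x).ncard : ℝ) ∧
        ∀ N : ℕ, q * x ≤ N → N ≤ 2 * q * x → SumK K (Sp S m) N) ∧
      ∃ (S : Finset ℕ) (m : ℕ → ℕ), l + 1 ≤ S.card ∧ Pat E A S m ∧ ∃ᶠ x : ℕ in atTop,
        c * x ≤ ((sums (Sp S m) x).ncard : ℝ) ∧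
        ∀ N : ℕ, q * x ≤ N → N ≤ 2 * q * x → SumK K (Sp S m) N := by
  classical
  obtain ⟨e, he, hadm, hew, inv, hinv, htr⟩ := transfer E hE
  obtain ⟨k, hk, h⟩ := two E.card l hl (E.sup id) e he hew hadm
  refine ⟨k, hk, fun a d ha hd => ?_⟩
  obtain ⟨c, hc, h⟩ := h a d ha hd
  obtain ⟨q, K, X₀, hq, hbas⟩ := Bs.basis c hc
  refine ⟨c, K, q, hc, hq, fun A hA => ?_⟩
  have hSt : ∀ (S : Finset (Fin E.card)) (c' : Fin E.card → ℕ) (p : ℕ),
      St S c' p → Sp (S.image e) (inv c') p := by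
    intro S c' p hp
    refine ⟨hp.1, fun i hi => ?_⟩
    obtain ⟨g, hg, rfl⟩ := mem_image.1 hi
    rw [hinv]
    exact hp.2 g hg
  have hres : ∀ (S : Finset (Fin E.card)) (c' : Fin E.card → ℕ) (x : ℕ), X₀ ≤ x →
      c * x ≤ ((sums (St S c') x).ncard : ℝ) →
      c * x ≤ ((sums (Sp (S.image e) (inv c')) x).ncard : ℝ) ∧
        ∀ N : ℕ, q * x ≤ N → N ≤ 2 * q * x → SumK K (Sp (S.image e) (inv c')) N := by
    intro S c' x hx hcx
    have h1 : c * x ≤ ((sums (Sp (S.image e) (inv c')) x).ncard : ℝ) := by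
      refine hcx.trans ?_
      rw [Nat.cast_le]
      refine Set.ncard_le_ncard ?_ (sums_finite _ _)
      rintro N ⟨hN, p, hp, p', hp', hs⟩
      exact ⟨hN, p, hSt S c' p hp, p', hSt S c' p' hp', hs⟩
    refine ⟨h1, fun N hN1 hN2 => ?_⟩
    obtain ⟨s, h2, h3, h4⟩ := hbas x hx {p | Sp (S.image e) (inv c') p} (fun p hp => hp.1) h1 N hN1 hN2
    exact ⟨s, h2, h3, h4⟩
  constructor
  · filter_upwards [h, eventually_ge_atTop X₀] with x hx hx0
    obtain ⟨S, c', hcons, hcx⟩ := hx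
    obtain ⟨h1, h2⟩ := htr l k a d A hA _ S c' hcons
    exact ⟨S.image e, inv c', h1, h2, hres S c' x hx0 hcx⟩
  · obtain ⟨W, hW⟩ : ∃ W, W = (E.sup id) * (a + k * d) := ⟨_, rfl⟩
    have h3 : ∀ᶠ x : ℕ in atTop, ∃ i : Finset (Fin E.card) × (Fin E.card → Fin (W + 1)),
        Cons l e k a d W i.1 (fun g => (i.2 g : ℕ)) ∧ X₀ ≤ x ∧
        c * x ≤ ((sums (St i.1 (fun g => (i.2 g : ℕ))) x).ncard : ℝ) := by
      filter_upwards [h, eventually_ge_atTop X₀] with x hx hx0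
      obtain ⟨S, c', hcons, hcx⟩ := hx
      rw [← hW] at hcons
      exact ⟨(S, fun g => ⟨c' g, Nat.lt_succ_of_le (hcons.bd g)⟩), hcons, hx0, hcx⟩
    obtain ⟨⟨S, c'⟩, hSc⟩ := freq_pick _ h3
    simp only at hSc
    obtain ⟨x, hx, -⟩ := hSc.exists
    obtain ⟨h1, h2⟩ := htr l k a d A hA _ S _ hx
    refine ⟨S.image e, inv (fun g => (c' g : ℕ)), h1, h2, hSc.mono fun x hx => ?_⟩
    exact hres S _ x hx.2.1 hx.2.2

/-- two elements of a constellation -/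
theorem two_of {E : Finset ℕ} {A : Set ℕ} {S : Finset ℕ} {m : ℕ → ℕ} {l : ℕ} (hl : 1 ≤ l)
    (hS : l + 1 ≤ S.card) (h : Pat E A S m) : ∃ i ∈ E, ∃ j ∈ E, i < j ∧ ∃ a ∈ A, ∀ p : ℕ,
      Sp S m p → p.Prime ∧ (p + (j - i) * a).Prime := by
  have hne : S.Nonempty := by rw [← Finset.card_pos]; omega
  obtain ⟨i, hi⟩ : ∃ i, i = S.min' hne := ⟨_, rfl⟩
  have hiS : i ∈ S := hi ▸ S.min'_mem hne
  have hmin : ∀ j ∈ S, i ≤ j := fun j hj => hi ▸ S.min'_le j hj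
  obtain ⟨j, hj, hij⟩ : ∃ j ∈ S, j ≠ i := Finset.exists_mem_ne (by omega) i
  have hlt : i < j := lt_of_le_of_ne (hmin j hj) (Ne.symm hij)
  obtain ⟨a, ha, h1⟩ := h.diff i hiS j hj hlt
  rw [h.zero i hiS hmin, Nat.zero_add] at h1
  refine ⟨i, h.sub hiS, j, h.sub hj, hlt, a, ha, fun p hp => ⟨hp.1, ?_⟩⟩
  have h2 := hp.2 j hj
  rwa [h1] at h2

end Pool.Agent.H95SD.Tw
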